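import Pool.Agent.H79.TS.Kappa

/-!
# ROW Adj: points of the third circles seen from the centre (about 70 lines)

PROOF.
First statement.  By `Y_third`, for a.e. `y`, if `Y y` then for a.e. `t`: `u (y + c t * (b * c σ - a)) = - se e` (`ae_rot` from the radius `cc a b (g e)`; `‖b * c σ - a‖ = cc a b σ = cc a b (g e)` for `σ = ± g e`, `cc_neg`).
So `P (y, t) := (Y y → u (y + c t * (b * c σ - a)) = - se e)` is a measurable property (`R_meas`, `h.meas`, `meas_pt`) which holds for a.e. `y`, a.e. `t`; `ae_change` with `d := a`: for a.e. `x`, a.e. `t`: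
`Y (x + c t * a) → u (x + c t * a + c t * (b * c σ - a)) = - se e`, and `x + c t * a + c t * (b * c σ - a) = x + c (t + σ) * b`.
Second statement: the first one for `h.swap : Cfg b a g u` (`Y_swap`).  All four choices of `(e, σ)`: finitely many.
-/

set_option autoImplicit false

namespace Pool.Agent.H79.TS

open MeasureTheory Filter Topology Pool.Agent.H93.EG

private theorem TSAdj_Ymeas (a b : ℝ) (g : Bool → UnitAddCircle) (u : ℂ → ℝ) (hu : Measurable u) :
    MeasurableSet {y : ℂ | Y a b g u y} :=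
  (R_meas a b g u hu true).inter (R_meas a b g u hu false)

private theorem TSAdj_one {a b : ℝ} {g : Bool → UnitAddCircle} {u : ℂ → ℝ} (h : Cfg a b g u)
    (e : Bool) (σ : UnitAddCircle) (hσ : σ = g e ∨ σ = -(g e)) :
    ∀ᵐ x : ℂ, ∀ᵐ t : UnitAddCircle, Y a b g u (x + c t * a) → u (x + c (t + σ) * b) = - se e := by
  have hcc : cc a b (g e) = cc a b σ := by
    rcases hσ with rfl | rfl
    · rfl
    · rw [cc_neg]
  have hnorm : ‖((cc a b (g e) : ℝ) : ℂ)‖ = ‖(b : ℂ) * c σ - a‖ := by
    rw [Complex.norm_real, Real.norm_eq_abs, abs_of_nonneg (h.cc_pos e).le, hcc]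
    rfl
  have hP : MeasurableSet {p : ℂ × UnitAddCircle | Y a b g u p.1 →
      u (p.1 + c p.2 * ((b : ℂ) * c σ - a)) = - se e} := by
    have h1 : {p : ℂ × UnitAddCircle | Y a b g u p.1 →
        u (p.1 + c p.2 * ((b : ℂ) * c σ - a)) = - se e} =
        (Prod.fst ⁻¹' {y : ℂ | Y a b g u y})ᶜ ∪
          {p : ℂ × UnitAddCircle | u (p.1 + c p.2 * ((b : ℂ) * c σ - a)) = - se e} := by
      ext p
      simp only [Set.mem_ofPred_eq, Set.mem_union, Set.mem_compl_iff, Set.mem_preimage]
      tauto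
    rw [h1]
    exact (measurable_fst (TSAdj_Ymeas a b g u h.meas)).compl.union
      (measurableSet_eq_fun (h.meas.comp (meas_pt _)) measurable_const)
  have h2 : ∀ᵐ y : ℂ, ∀ᵐ t : UnitAddCircle, Y a b g u y →
      u (y + c t * ((b : ℂ) * c σ - a)) = - se e := by
    filter_upwards [Y_third h] with y hy
    by_cases hY : Y a b g u y
    · have h3 := ae_rot (P := fun z => u z = - se e) y ((cc a b (g e) : ℝ) : ℂ)
        ((b : ℂ) * c σ - a) hnorm (hy hY e)
      filter_upwards [h3] with t ht _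
      exact ht
    · exact Filter.Eventually.of_forall fun t h4 => absurd h4 hY
  have h5 := ae_change (P := fun p : ℂ × UnitAddCircle => Y a b g u p.1 →
      u (p.1 + c p.2 * ((b : ℂ) * c σ - a)) = - se e) hP h2 (a : ℂ)
  filter_upwards [h5] with x hx
  filter_upwards [hx] with t ht hY
  have h6 := ht hY
  have h7 : x + c t * (a : ℂ) + c t * ((b : ℂ) * c σ - a) = x + c (t + σ) * b := by
    rw [c_add]
    ring
  change u (x + c t * (a : ℂ) + c t * ((b : ℂ) * c σ - a)) = - se e at h6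
  rw [h7] at h6
  exact h6

private theorem TSAdj_two {a b : ℝ} {g : Bool → UnitAddCircle} {u : ℂ → ℝ} (h : Cfg a b g u)
    (e : Bool) (σ : UnitAddCircle) (hσ : σ = g e ∨ σ = -(g e)) :
    ∀ᵐ x : ℂ, (∀ᵐ t : UnitAddCircle, Y a b g u (x + c t * a) → u (x + c (t + σ) * b) = - se e) ∧
      ∀ᵐ t : UnitAddCircle, Y a b g u (x + c t * b) → u (x + c (t + σ) * a) = - se e := by
  filter_upwards [TSAdj_one h e σ hσ, TSAdj_one h.swap e σ hσ] with x h1 h2
  refine ⟨h1, ?_⟩
  filter_upwards [h2] with t ht hY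
  exact ht ((Y_swap a b g u _).mpr hY)

theorem adj {a b : ℝ} {g : Bool → UnitAddCircle} {u : ℂ → ℝ} (h : Cfg a b g u) :
    ∀ᵐ x : ℂ, ∀ (e : Bool) (σ : UnitAddCircle), (σ = g e ∨ σ = -(g e)) →
      (∀ᵐ t : UnitAddCircle, Y a b g u (x + c t * a) → u (x + c (t + σ) * b) = - se e) ∧
      ∀ᵐ t : UnitAddCircle, Y a b g u (x + c t * b) → u (x + c (t + σ) * a) = - se e := by
  filter_upwards [TSAdj_two h true (g true) (Or.inl rfl), TSAdj_two h true (-(g true)) (Or.inr rfl),
    TSAdj_two h false (g false) (Or.inl rfl), TSAdj_two h false (-(g false)) (Or.inr rfl)]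
    with x h1 h2 h3 h4
  intro e σ hσ
  cases e
  · rcases hσ with rfl | rfl
    · exact h3
    · exact h4
  · rcases hσ with rfl | rfl
    · exact h1
    · exact h2

end Pool.Agent.H79.TS
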