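import Pool.Agent.H79.TS.LimPts

/-!
# ROW Alt: one of two neighbouring points satisfies the opposite constraint (about 50 lines)

PROOF.
Take the sequence `x n` of `lim_pts h e x hx`.  For a.e. `t` (a): `¬ R .. (!e) (x + c t * a) → ∀ᶠ n, u (x n + c t * a) = - se (!e) = se e`; (b): `¬ R .. (!e) (x + c (t + σ) * b) → ∀ᶠ n, u (x n + c (t + σ) * b) = se e`
(`ae_shift`); (c): for all `n`: `se e * (u (x n + c t * a) + u (x n + c t * (b * c σ))) ≤ 0` (type `0` if `σ = g e`, type `1` if `σ = -(g e)`, of `R .. e (x n)`; `c t * (b * c σ) = c (t + σ) * b`).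
If both `R` fail then for large `n`: `se e * (se e + se e) = 2 ≤ 0`, contradiction.
-/

set_option autoImplicit false

namespace Pool.Agent.H79.TS

open MeasureTheory Filter Topology Pool.Agent.H93.EG

theorem alt {a b : ℝ} {g : Bool → UnitAddCircle} {u : ℂ → ℝ} (h : Cfg a b g u) (e : Bool)
    (x : ℂ) (hx : x ∉ U u (!e)) (σ : UnitAddCircle) (hσ : σ = g e ∨ σ = -(g e)) :
    ∀ᵐ t : UnitAddCircle, R a b g u (!e) (x + c t * a) ∨ R a b g u (!e) (x + c (t + σ) * b) := by
  obtain ⟨x', _, hR, _, hlast⟩ := lim_pts h e x hx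
  have ha := hlast (!e) a (Or.inl rfl)
  have hb := ae_shift (hlast (!e) b (Or.inr rfl)) σ
  have hc : ∀ᵐ t : UnitAddCircle, ∀ n, se e * (u (x' n + c t * a) + u (x' n + c (t + σ) * b)) ≤ 0 := by
    rw [ae_all_iff]
    intro n
    rcases hσ with rfl | rfl
    · filter_upwards [hR n 0] with t ht
      have e1 : c t * (ty a b (g e) 0).2 = c (t + g e) * b := by
        rw [c_add]
        show c t * ((b : ℂ) * c (g e)) = _
        ring
      have e2 : (ty a b (g e) 0).1 = (a : ℂ) := rfl
      rw [e1, e2] at ht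
      exact ht
    · filter_upwards [hR n 1] with t ht
      have e1 : c t * (ty a b (g e) 1).2 = c (t + -(g e)) * b := by
        rw [c_add]
        show c t * ((b : ℂ) * c (-(g e))) = _
        ring
      have e2 : (ty a b (g e) 1).1 = (a : ℂ) := rfl
      rw [e1, e2] at ht
      exact ht
  filter_upwards [ha, hb, hc] with t h1 h2 h3
  by_contra hcon
  rw [not_or] at hcon
  obtain ⟨n, hn1, hn2⟩ := ((h1 hcon.1).and (h2 hcon.2)).exists
  have h4 := h3 n
  rw [hn1, hn2, se_not, neg_neg] at h4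
  have h5 := se_mul_self e
  linarith

end Pool.Agent.H79.TS
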