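import Pool.Agent.H79.TS.Cut

/-!
MP_887a8d_co.  The area of a circular segment.
-/

set_option autoImplicit false

namespace Pool.Agent.H79.TS

open MeasureTheory Real

theorem int_sqrt {R φ : ℝ} (hR : 0 < R) (h0 : 0 ≤ φ) (h1 : φ ≤ π / 2) :
    ∫ x in (R * cos φ)..R, 2 * √(R ^ 2 - x ^ 2) = R ^ 2 * (φ - sin φ * cos φ) := by
  have hpi := Real.pi_pos
  have hc0 : 0 ≤ cos φ := Real.cos_nonneg_of_neg_pi_div_two_le_of_le (by linarith) h1
  have hs0 : 0 ≤ sin φ := Real.sin_nonneg_of_nonneg_of_le_pi h0 (by linarith)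
  have hab : R * cos φ ≤ R := by nlinarith [Real.cos_le_one φ]
  have hder : ∀ x ∈ Set.Ioo (R * cos φ) R,
      HasDerivAt (fun x => x * √(R ^ 2 - x ^ 2) + R ^ 2 * arcsin (x / R)) (2 * √(R ^ 2 - x ^ 2)) x := by
    intro x hx
    have hx0 : 0 < x ∨ x = 0 := by
      have : 0 ≤ R * cos φ := by positivity
      left; linarith [hx.1]
    have hx1 : 0 ≤ x := by rcases hx0 with h | h <;> linarith
    have hpos : 0 < R ^ 2 - x ^ 2 := by nlinarith [hx.2]
    have hs : 0 < √(R ^ 2 - x ^ 2) := Real.sqrt_pos.2 hpos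
    have hsq : √(R ^ 2 - x ^ 2) ^ 2 = R ^ 2 - x ^ 2 := Real.sq_sqrt hpos.le
    have hxR : x / R < 1 := by rw [div_lt_one hR]; exact hx.2
    have hxR0 : 0 ≤ x / R := by positivity
    have e1 : √(1 - (x / R) ^ 2) = √(R ^ 2 - x ^ 2) / R := by
      rw [show (1 - (x / R) ^ 2) = (R ^ 2 - x ^ 2) / R ^ 2 by field_simp]
      rw [Real.sqrt_div hpos.le, Real.sqrt_sq hR.le]
    have d1 : HasDerivAt (fun x : ℝ => R ^ 2 - x ^ 2) (-(2 * x)) x := by
      have := ((hasDerivAt_pow 2 x).const_sub (R ^ 2))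
      simpa using this
    have d2 := d1.sqrt hpos.ne'
    have d3 := (hasDerivAt_id x).mul d2
    have d4 : HasDerivAt (fun x => arcsin (x / R)) (1 / √(1 - (x / R) ^ 2) * (1 / R)) x := by
      have h1 : HasDerivAt (fun x : ℝ => x / R) (1 / R) x := (hasDerivAt_id x).div_const R
      exact (Real.hasDerivAt_arcsin (by linarith) (by linarith)).comp x h1
    have d5 := d3.add (d4.const_mul (R ^ 2))
    refine (d5.congr_deriv ?_)
    rw [e1]
    simp only [id]
    field_simp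
    rw [hsq]
    ring
  have hcont : ContinuousOn (fun x => x * √(R ^ 2 - x ^ 2) + R ^ 2 * arcsin (x / R))
      (Set.Icc (R * cos φ) R) := by
    apply Continuous.continuousOn
    have : Continuous fun x : ℝ => arcsin (x / R) :=
      Real.continuous_arcsin.comp (continuous_id.div_const R)
    fun_prop
  rw [intervalIntegral.integral_eq_sub_of_hasDerivAt_of_le hab hcont hder
    (Continuous.intervalIntegrable (by fun_prop) _ _)]
  have e2 : √(R ^ 2 - (R * cos φ) ^ 2) = R * sin φ := by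
    rw [show R ^ 2 - (R * cos φ) ^ 2 = (R * sin φ) ^ 2 by
      have := Real.sin_sq_add_cos_sq φ
      linear_combination (-R ^ 2) * this]
    exact Real.sqrt_sq (by positivity)
  have e3 : arcsin (R * cos φ / R) = π / 2 - φ := by
    rw [mul_div_cancel_left₀ _ hR.ne', ← Real.sin_pi_div_two_sub]
    exact Real.arcsin_sin (by linarith) (by linarith)
  simp only [e2, e3, sub_self, Real.sqrt_zero, div_self hR.ne', Real.arcsin_one]
  ring

theorem vol_seg0 {R φ : ℝ} (hR : 0 < R) (h0 : 0 ≤ φ) (h1 : φ ≤ π / 2) :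
    volume {s : ℝ × ℝ | R * cos φ < s.1 ∧ s.1 ^ 2 + s.2 ^ 2 ≤ R ^ 2} =
      ENNReal.ofReal (R ^ 2 * (φ - sin φ * cos φ)) := by
  have hc0 : 0 ≤ cos φ := Real.cos_nonneg_of_neg_pi_div_two_le_of_le (by linarith [Real.pi_pos]) h1
  have hab : R * cos φ ≤ R := by nlinarith [Real.cos_le_one φ]
  have hmeas : MeasurableSet {s : ℝ × ℝ | R * cos φ < s.1 ∧ s.1 ^ 2 + s.2 ^ 2 ≤ R ^ 2} :=
    (measurableSet_lt measurable_const measurable_fst).inter
      (measurableSet_le ((measurable_fst.pow_const 2).add (measurable_snd.pow_const 2)) measurable_const)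
  rw [Measure.volume_eq_prod, Measure.prod_apply hmeas]
  have hpt : ∀ a : ℝ, volume (Prod.mk a ⁻¹' {s : ℝ × ℝ | R * cos φ < s.1 ∧ s.1 ^ 2 + s.2 ^ 2 ≤ R ^ 2}) =
      (Set.Ioc (R * cos φ) R).indicator (fun a => ENNReal.ofReal (2 * √(R ^ 2 - a ^ 2))) a := by
    intro a
    by_cases ha : a ∈ Set.Ioc (R * cos φ) R
    · rw [Set.indicator_of_mem ha]
      have h2 : 0 ≤ R ^ 2 - a ^ 2 := by
        have : 0 ≤ R * cos φ := by positivity
        nlinarith [ha.1, ha.2]
      have e : (Prod.mk a ⁻¹' {s : ℝ × ℝ | R * cos φ < s.1 ∧ s.1 ^ 2 + s.2 ^ 2 ≤ R ^ 2}) =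
          Set.Icc (-√(R ^ 2 - a ^ 2)) (√(R ^ 2 - a ^ 2)) := by
        ext b
        simp only [Set.mem_preimage, Set.mem_setOf_eq, Set.mem_Icc]
        rw [← abs_le]
        constructor
        · rintro ⟨_, h⟩
          exact Real.abs_le_sqrt (by linarith)
        · intro h
          refine ⟨ha.1, ?_⟩
          have h3 := Real.sq_sqrt h2
          have h4 : b ^ 2 ≤ √(R ^ 2 - a ^ 2) ^ 2 := sq_le_sq' (abs_le.1 h).1 (abs_le.1 h).2
          linarith
      rw [e, Real.volume_Icc]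
      congr 1
      ring
    · rw [Set.indicator_of_notMem ha]
      have e : (Prod.mk a ⁻¹' {s : ℝ × ℝ | R * cos φ < s.1 ∧ s.1 ^ 2 + s.2 ^ 2 ≤ R ^ 2}) = ∅ := by
        ext b
        simp only [Set.mem_preimage, Set.mem_setOf_eq, Set.mem_empty_iff_false, iff_false]
        rintro ⟨h3, h4⟩
        apply ha
        refine ⟨h3, ?_⟩
        nlinarith [sq_nonneg b]
      rw [e, measure_empty]
  rw [lintegral_congr hpt, lintegral_indicator measurableSet_Ioc,
    ← ofReal_integral_eq_lintegral_ofReal, ← intervalIntegral.integral_of_le hab, int_sqrt hR h0 h1]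
  · exact (Continuous.integrableOn_Ioc (by fun_prop))
  · exact Filter.Eventually.of_forall fun x => by positivity

/-- the linear map whose matrix is a rotation -/
theorem vol_seg {R φ : ℝ} (hR : 0 < R) (h0 : 0 ≤ φ) (h1 : φ ≤ π / 2) (c u : E) (hu : ‖u‖ = 1) :
    volume {x : E | dist x c ≤ R ∧ R * cos φ < inner ℝ u (x - c)} =
      ENNReal.ofReal (R ^ 2 * (φ - sin φ * cos φ)) := by
  have husq : u 0 ^ 2 + u 1 ^ 2 = 1 := by
    have h : ‖u‖ ^ 2 = u 0 ^ 2 + u 1 ^ 2 := by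
      rw [← real_inner_self_eq_norm_sq, inner_two]; ring
    rw [← h, hu]; norm_num
  let A : Matrix (Fin 2) (Fin 2) ℝ := !![u 0, u 1; - u 1, u 0]
  let ψ : E →ₗ[ℝ] E := Matrix.toEuclideanLin A
  have hdet : LinearMap.det ψ = 1 := by
    have h1 : ψ = Matrix.toLin (PiLp.basisFun 2 ℝ (Fin 2)) (PiLp.basisFun 2 ℝ (Fin 2)) A := by
      change Matrix.toEuclideanLin A = _
      rw [Matrix.toEuclideanLin, Matrix.toLpLin_eq_toLin]
    rw [h1, LinearMap.det_toLin]
    simp only [A, Matrix.det_fin_two_of]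
    linarith
  have e0 : ∀ t : E, (ψ t) 0 = u 0 * t 0 + u 1 * t 1 := by
    intro t
    simp [ψ, A, Matrix.toEuclideanLin, Matrix.mulVec, dotProduct, Fin.sum_univ_two]
  have e1 : ∀ t : E, (ψ t) 1 = - u 1 * t 0 + u 0 * t 1 := by
    intro t
    simp [ψ, A, Matrix.toEuclideanLin, Matrix.mulVec, dotProduct, Fin.sum_univ_two]
  let B : Set E := {t | R * cos φ < t 0 ∧ t 0 ^ 2 + t 1 ^ 2 ≤ R ^ 2}
  have hset : {x : E | dist x c ≤ R ∧ R * cos φ < inner ℝ u (x - c)} =
      (fun x => x + (-c)) ⁻¹' (ψ ⁻¹' B) := by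
    ext x
    simp only [Set.mem_setOf_eq, Set.mem_preimage, B, e0, e1]
    rw [inner_two, dist_eq_norm]
    have hn : ‖x - c‖ ≤ R ↔ (x 0 - c 0) ^ 2 + (x 1 - c 1) ^ 2 ≤ R ^ 2 := by
      rw [← sq_le_sq₀ (norm_nonneg _) hR.le, ← real_inner_self_eq_norm_sq, inner_two]
      simp only [PiLp.sub_apply]
      constructor <;> intro h <;> nlinarith
    rw [hn]
    simp only [PiLp.sub_apply, PiLp.add_apply, PiLp.neg_apply]
    have h5 : (u 0 * (x 0 + -c 0) + u 1 * (x 1 + -c 1)) ^ 2 + (-u 1 * (x 0 + -c 0) + u 0 * (x 1 + -c 1)) ^ 2 =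
        (x 0 - c 0) ^ 2 + (x 1 - c 1) ^ 2 := by
      linear_combination ((x 0 - c 0) ^ 2 + (x 1 - c 1) ^ 2) * husq
    rw [h5]
    constructor
    · rintro ⟨h6, h7⟩
      exact ⟨by simpa [sub_eq_add_neg] using h7, h6⟩
    · rintro ⟨h6, h7⟩
      exact ⟨h7, by simpa [sub_eq_add_neg] using h6⟩
  rw [hset, measure_preimage_add_right, Measure.addHaar_preimage_linearMap _ (by rw [hdet]; norm_num), hdet]
  simp only [inv_one, abs_one, ENNReal.ofReal_one, one_mul]
  have hB : B = (fun s : E => (WithLp.ofLp s : Fin 2 → ℝ)) ⁻¹'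
      {s | R * cos φ < s 0 ∧ s 0 ^ 2 + s 1 ^ 2 ≤ R ^ 2} := rfl
  have hm : MeasurableSet {s : Fin 2 → ℝ | R * cos φ < s 0 ∧ s 0 ^ 2 + s 1 ^ 2 ≤ R ^ 2} :=
    (measurableSet_lt measurable_const (measurable_pi_apply 0)).inter
      (measurableSet_le (((measurable_pi_apply 0).pow_const 2).add ((measurable_pi_apply 1).pow_const 2))
        measurable_const)
  have h2 : volume B = volume {s : Fin 2 → ℝ | R * cos φ < s 0 ∧ s 0 ^ 2 + s 1 ^ 2 ≤ R ^ 2} := by
    rw [hB]
    exact (PiLp.volume_preserving_ofLp (Fin 2)).measure_preimage hm.nullMeasurableSet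
  have h3 : volume {s : Fin 2 → ℝ | R * cos φ < s 0 ∧ s 0 ^ 2 + s 1 ^ 2 ≤ R ^ 2} =
      volume {s : ℝ × ℝ | R * cos φ < s.1 ∧ s.1 ^ 2 + s.2 ^ 2 ≤ R ^ 2} := by
    have hm2 : MeasurableSet {s : ℝ × ℝ | R * cos φ < s.1 ∧ s.1 ^ 2 + s.2 ^ 2 ≤ R ^ 2} :=
      (measurableSet_lt measurable_const measurable_fst).inter
        (measurableSet_le ((measurable_fst.pow_const 2).add (measurable_snd.pow_const 2)) measurable_const)
    exact (volume_preserving_finTwoArrow ℝ).measure_preimage hm2.nullMeasurableSet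
  rw [h2, h3, vol_seg0 hR h0 h1]

end Pool.Agent.H79.TS
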