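import Pool.Agent.H79.TS.GB

/-!
# ROW Rig0: rigidity of two functions on the circle (about 70 lines)

PROOF.
`m := volume` on `UnitAddCircle` is a probability measure, invariant under translations (`ae_shift`, `measurePreserving_add_right`,
`integral_add_right_eq_self`).  All functions are bounded measurable, hence integrable.  `h1`: `∫ α ≤ ∫ β (t + g true) = ∫ β`; `h3`:
`∫ β = ∫ β (t + g false) ≤ ∫ α`.  So `∫ α = ∫ β (t + g true)` and `α ≤ β (· + g true)` a.e., hence equality a.e. (`integral_eq_iff_of_ae_le` or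
`integral_eq_zero_iff_of_nonneg_ae` for the difference).  In the same way `α t = β (t + s)` a.e. for all four `s = ± g true, ± g false`.
Let `e` be the colour with `g e` of infinite order.  From `β (t + g e) = β (t - g e)` a.e., shifting by `g e`: `β (t + (g e + g e)) = β t` a.e.
The element `a := g e + g e` has infinite order (`n • a = (2 n) • g e ≠ 0`), so `addOrderOf a = 0` and `AddCircle.ergodic_add_right.2` is
applicable: `(AddCircle.ergodic_add_right.2 h0).ae_eq_const_of_ae_eq_comp_ae (g := β) hβ.aestronglyMeasurable ..` gives `β = κ` a.e.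
(see the proof of `circ_erg` in `Pool/Agent/H93/EGM/Circ.lean`), and `α t = β (t + g true) = κ` a.e. by `ae_shift`.
-/

set_option autoImplicit false

namespace Pool.Agent.H79.TS

open MeasureTheory Filter Topology Pool.Agent.H93.EG

private theorem rig0_shift {P : UnitAddCircle → Prop} (h : ∀ᵐ t, P t) (a : UnitAddCircle) :
    ∀ᵐ t, P (t + a) :=
  (measurePreserving_add_right (volume : Measure UnitAddCircle) a).quasiMeasurePreserving.ae h

private theorem rig0_int {β : UnitAddCircle → ℝ} (hβ : Measurable β) (bβ : ∀ t, |β t| ≤ 1) :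
    Integrable β :=
  Integrable.of_bound hβ.aestronglyMeasurable 1
    (Eventually.of_forall fun t => by rw [Real.norm_eq_abs]; exact bβ t)

private theorem rig0_eq {f h : UnitAddCircle → ℝ} (hf : Integrable f) (hh : Integrable h)
    (s : UnitAddCircle) (hle : ∀ᵐ t : UnitAddCircle, f t ≤ h (t + s))
    (hi : ∫ t, f t = ∫ t, h t) : ∀ᵐ t : UnitAddCircle, f t = h (t + s) := by
  have h1 : Integrable (fun t => h (t + s)) := hh.comp_add_right s
  have h2 : ∫ t, h (t + s) = ∫ t, h t := integral_add_right_eq_self h s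
  exact (integral_eq_iff_of_ae_le hf h1 hle).1 (hi.trans h2.symm)

theorem rig0 (g : Bool → UnitAddCircle) (herg : ∃ e, ∀ n : ℕ, 0 < n → n • g e ≠ 0)
    (α β : UnitAddCircle → ℝ) (hα : Measurable α) (hβ : Measurable β)
    (bα : ∀ t, |α t| ≤ 1) (bβ : ∀ t, |β t| ≤ 1)
    (h1 : ∀ᵐ t : UnitAddCircle, α t ≤ β (t + g true))
    (h2 : ∀ᵐ t : UnitAddCircle, α t ≤ β (t + -(g true)))
    (h3 : ∀ᵐ t : UnitAddCircle, β (t + g false) ≤ α t)
    (h4 : ∀ᵐ t : UnitAddCircle, β (t + -(g false)) ≤ α t) :
    ∃ κ : ℝ, (∀ᵐ t : UnitAddCircle, α t = κ) ∧ ∀ᵐ t : UnitAddCircle, β t = κ := by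
  have iα := rig0_int hα bα
  have iβ := rig0_int hβ bβ
  have le1 : ∫ t, α t ≤ ∫ t, β t := by
    rw [← integral_add_right_eq_self β (g true)]
    exact integral_mono_ae iα (iβ.comp_add_right (g true)) h1
  have le2 : ∫ t, β t ≤ ∫ t, α t := by
    rw [← integral_add_right_eq_self β (g false)]
    exact integral_mono_ae (iβ.comp_add_right (g false)) iα h3
  have hi : ∫ t, α t = ∫ t, β t := le_antisymm le1 le2
  have key : ∀ s : UnitAddCircle, (∀ᵐ t : UnitAddCircle, β (t + s) ≤ α t) →
      ∀ᵐ t : UnitAddCircle, α t = β (t + s) := by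
    intro s hs
    have h := rig0_eq (f := fun t => - α t) (h := fun t => - β t) iα.neg iβ.neg s
      (hs.mono fun t ht => neg_le_neg ht) (by rw [integral_neg, integral_neg, hi])
    exact h.mono fun t ht => neg_injective ht
  have hE : ∀ e : Bool, (∀ᵐ t : UnitAddCircle, α t = β (t + g e)) ∧
      ∀ᵐ t : UnitAddCircle, α t = β (t + -(g e)) := by
    intro e
    cases e
    · exact ⟨key _ h3, key _ h4⟩
    · exact ⟨rig0_eq iα iβ _ h1 hi, rig0_eq iα iβ _ h2 hi⟩
  obtain ⟨e, he⟩ := herg
  have hper : ∀ᵐ t : UnitAddCircle, β (t + (g e + g e)) = β t := by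
    have h5 : ∀ᵐ t : UnitAddCircle, β (t + g e) = β (t + -(g e)) := by
      filter_upwards [(hE e).1, (hE e).2] with t e1 e2
      rw [← e1, e2]
    filter_upwards [rig0_shift h5 (g e)] with t ht
    rw [← add_assoc, ht, add_neg_cancel_right]
  have h0 : addOrderOf (g e + g e) = 0 := by
    rw [addOrderOf_eq_zero_iff']
    intro n hn h
    refine he (n + n) (by omega) ?_
    rw [add_nsmul, ← nsmul_add]
    exact h
  obtain ⟨κ, hκ⟩ := (AddCircle.ergodic_add_right.2 h0).ae_eq_const_of_ae_eq_comp_ae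
    (g := β) hβ.aestronglyMeasurable hper
  have hκ' : ∀ᵐ t : UnitAddCircle, β t = κ := hκ
  refine ⟨κ, ?_, hκ'⟩
  filter_upwards [(hE true).1, rig0_shift hκ' (g true)] with t e1 e2
  rw [e1, e2]

end Pool.Agent.H79.TS
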