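import Pool.Agent.H79.TS.TaNull
import Pool.Agent.H79.TS.Rig0

/-!
# ROW CircK: the circles around almost every boundary point are monochromatic (about 110 lines)

PROOF.
Fix `x ∈ Z u` satisfying `Ta_null` and (lock) on both circles (for `r ∈ {a, b}`, both `e`, a.e. `t`: `¬ R .. e (x + c t * r) → u (x + c t * r) = - se e`; `ae_circ` for `h.lock e`).
By (lock) at most one of `R .. true`, `R .. false` fails, by `Ta_null` at least one fails: for a.e. `t`, exactly one of `R .. true`, `R .. false` holds at `x + c t * a`; the same for `b`.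
Let `α t := 1` if `R .. true (x + c t * a)` and `0` otherwise; `β t := 1` if `R .. false (x + c t * b)`, `0` otherwise (measurable by `R_meas`; values in `{0, 1}`).
`alt` for `e = true` (`x ∉ U u false`), `σ = ± g true`: `R .. false (x + c t * a) ∨ R .. false (x + c (t + σ) * b)`: if `α t = 1` then `R .. false (x + c t * a)` fails, so `β (t + σ) = 1`: `α t ≤ β (t + σ)` a.e.
`alt` for `e = false` (`x ∉ U u true`), `σ = ± g false`: `R .. true (x + c t * a) ∨ R .. true (x + c (t + σ) * b)`: if `β (t + σ) = 1` then `R .. true (x + c (t + σ) * b)` fails (exactly one holds), so `α t = 1`: `β (t + σ) ≤ α t` a.e.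
`rig0`: `α = β = κ₀` a.e., `κ₀ ∈ {0, 1}`.  If `κ₀ = 1` take `κ := true`: for a.e. `t`, `R .. true (x + c t * a)`, so `¬ R .. false (x + c t * a)`, hence `u (x + c t * a) = - se false = 1`; `R .. false (x + c t * b)`, so
`¬ R .. true (x + c t * b)`, `u (x + c t * b) = -1`.  If `κ₀ = 0` take `κ := false`, symmetric.
-/

set_option autoImplicit false

namespace Pool.Agent.H79.TS

open MeasureTheory Filter Topology Pool.Agent.H93.EG

theorem circK {a b : ℝ} {g : Bool → UnitAddCircle} {u : ℂ → ℝ} (h : Cfg a b g u) :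
    ∀ᵐ x : ℂ, x ∈ Z u → ∃ κ : Bool, (∀ᵐ t : UnitAddCircle, ¬ R a b g u (!κ) (x + c t * a)) ∧
      (∀ᵐ t : UnitAddCircle, ¬ R a b g u κ (x + c t * b)) ∧ Cc u x a (se κ) ∧
      Cc u x b (- se κ) := by
  filter_upwards [Ta_null h, ae_circ (h.lock true) a, ae_circ (h.lock false) a,
    ae_circ (h.lock true) b, ae_circ (h.lock false) b] with x hT la1 la0 lb1 lb0 hx
  obtain ⟨hTa, hTb⟩ := hT hx
  -- exactly one of the two constraints holds
  have key : ∀ z : ℂ, ¬ Y a b g u z → (¬ R a b g u true z → u z = - se true) →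
      (¬ R a b g u false z → u z = - se false) →
      (R a b g u true z ∧ ¬ R a b g u false z) ∨ (¬ R a b g u true z ∧ R a b g u false z) := by
    intro z h1 h2 h3
    by_cases h4 : R a b g u true z
    · exact Or.inl ⟨h4, fun h5 => h1 ⟨h4, h5⟩⟩
    · by_cases h5 : R a b g u false z
      · exact Or.inr ⟨h4, h5⟩
      · exfalso
        have e1 := h2 h4
        have e2 := h3 h5
        rw [e1] at e2
        norm_num [se] at e2
  have ka : ∀ᵐ t : UnitAddCircle, (R a b g u true (x + c t * a) ∧ ¬ R a b g u false (x + c t * a)) ∨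
      (¬ R a b g u true (x + c t * a) ∧ R a b g u false (x + c t * a)) := by
    filter_upwards [hTa, la1, la0] with t h1 h2 h3
    exact key _ h1 h2 h3
  have kb : ∀ᵐ t : UnitAddCircle, (R a b g u true (x + c t * b) ∧ ¬ R a b g u false (x + c t * b)) ∨
      (¬ R a b g u true (x + c t * b) ∧ R a b g u false (x + c t * b)) := by
    filter_upwards [hTb, lb1, lb0] with t h1 h2 h3
    exact key _ h1 h2 h3
  set SA : Set UnitAddCircle := {t | R a b g u true (x + c t * a)} with hSA
  set SB : Set UnitAddCircle := {t | R a b g u false (x + c t * b)} with hSB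
  have mA : MeasurableSet SA := by
    have h1 : Measurable (fun t : UnitAddCircle => x + c t * (a : ℂ)) :=
      measurable_const.add (measurable_c.mul_const _)
    exact h1 (R_meas a b g u h.meas true)
  have mB : MeasurableSet SB := by
    have h1 : Measurable (fun t : UnitAddCircle => x + c t * (b : ℂ)) :=
      measurable_const.add (measurable_c.mul_const _)
    exact h1 (R_meas a b g u h.meas false)
  set α : UnitAddCircle → ℝ := SA.indicator (fun _ => (1 : ℝ)) with hα
  set β : UnitAddCircle → ℝ := SB.indicator (fun _ => (1 : ℝ)) with hβ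
  have α1 : ∀ t, t ∈ SA → α t = 1 := fun t ht => Set.indicator_of_mem ht _
  have α0 : ∀ t, t ∉ SA → α t = 0 := fun t ht => Set.indicator_of_notMem ht _
  have β1 : ∀ t, t ∈ SB → β t = 1 := fun t ht => Set.indicator_of_mem ht _
  have β0 : ∀ t, t ∉ SB → β t = 0 := fun t ht => Set.indicator_of_notMem ht _
  have αv : ∀ t, 0 ≤ α t ∧ α t ≤ 1 := by
    intro t
    by_cases ht : t ∈ SA
    · rw [α1 t ht]; norm_num
    · rw [α0 t ht]; norm_num
  have βv : ∀ t, 0 ≤ β t ∧ β t ≤ 1 := by
    intro t
    by_cases ht : t ∈ SB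
    · rw [β1 t ht]; norm_num
    · rw [β0 t ht]; norm_num
  have mα : Measurable α := measurable_const.indicator mA
  have mβ : Measurable β := measurable_const.indicator mB
  have bα : ∀ t, |α t| ≤ 1 := fun t => abs_le.mpr ⟨by linarith [(αv t).1], (αv t).2⟩
  have bβ : ∀ t, |β t| ≤ 1 := fun t => abs_le.mpr ⟨by linarith [(βv t).1], (βv t).2⟩
  have hx1 : x ∉ U u (!true) := hx.2
  have hx0 : x ∉ U u (!false) := hx.1
  have up : ∀ σ : UnitAddCircle, σ = g true ∨ σ = -(g true) →
      ∀ᵐ t : UnitAddCircle, α t ≤ β (t + σ) := by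
    intro σ hσ
    filter_upwards [alt h true x hx1 σ hσ, ka] with t h1 h2
    by_cases ht : t ∈ SA
    · have h3 : R a b g u true (x + c t * a) := ht
      have h4 : ¬ R a b g u false (x + c t * a) := by
        rcases h2 with h2 | h2
        · exact h2.2
        · exact absurd h3 h2.1
      have h5 : (t + σ) ∈ SB := h1.resolve_left h4
      rw [β1 _ h5]
      exact (αv t).2
    · rw [α0 t ht]
      exact (βv _).1
  have down : ∀ σ : UnitAddCircle, σ = g false ∨ σ = -(g false) →
      ∀ᵐ t : UnitAddCircle, β (t + σ) ≤ α t := by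
    intro σ hσ
    filter_upwards [alt h false x hx0 σ hσ, ae_shift kb σ] with t h1 h2
    by_cases ht : (t + σ) ∈ SB
    · have h3 : R a b g u false (x + c (t + σ) * b) := ht
      have h4 : ¬ R a b g u true (x + c (t + σ) * b) := by
        rcases h2 with h2 | h2
        · exact absurd h3 h2.2
        · exact h2.1
      have h5 : t ∈ SA := h1.resolve_right h4
      rw [α1 _ h5]
      exact (βv _).2
    · rw [β0 _ ht]
      exact (αv _).1
  obtain ⟨κ₀, hκα, hκβ⟩ := rig0 g h.erg α β mα mβ bα bβ (up _ (Or.inl rfl)) (up _ (Or.inr rfl))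
    (down _ (Or.inl rfl)) (down _ (Or.inr rfl))
  obtain ⟨t0, ht0⟩ := hκα.exists
  by_cases hc : t0 ∈ SA
  · -- the value 1
    rw [α1 t0 hc] at ht0
    subst ht0
    have hA : ∀ᵐ t : UnitAddCircle, ¬ R a b g u false (x + c t * a) := by
      filter_upwards [hκα, ka] with t h1 h2
      rcases h2 with h2 | h2
      · exact h2.2
      · exfalso
        have h3 : t ∉ SA := h2.1
        rw [α0 t h3] at h1
        norm_num at h1
    have hB : ∀ᵐ t : UnitAddCircle, ¬ R a b g u true (x + c t * b) := by
      filter_upwards [hκβ, kb] with t h1 h2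
      rcases h2 with h2 | h2
      · exfalso
        have h3 : t ∉ SB := h2.2
        rw [β0 t h3] at h1
        norm_num at h1
      · exact h2.1
    refine ⟨true, hA, hB, ?_, ?_⟩
    · filter_upwards [hA, la0] with t h1 h2
      rw [h2 h1]
      norm_num [se]
    · filter_upwards [hB, lb1] with t h1 h2
      exact h2 h1
  · -- the value 0
    rw [α0 t0 hc] at ht0
    subst ht0
    have hA : ∀ᵐ t : UnitAddCircle, ¬ R a b g u true (x + c t * a) := by
      filter_upwards [hκα] with t h1 h2
      have h3 : t ∈ SA := h2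
      rw [α1 t h3] at h1
      norm_num at h1
    have hB : ∀ᵐ t : UnitAddCircle, ¬ R a b g u false (x + c t * b) := by
      filter_upwards [hκβ] with t h1 h2
      have h3 : t ∈ SB := h2
      rw [β1 t h3] at h1
      norm_num at h1
    refine ⟨false, hA, hB, ?_, ?_⟩
    · filter_upwards [hA, la1] with t h1 h2
      rw [h2 h1]
      norm_num [se]
    · filter_upwards [hB, lb0] with t h1 h2
      exact h2 h1

end Pool.Agent.H79.TS
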