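import Mathlib

/-!
MP_887a8d_co.  Finite intersections of half planes, and the cut lemma: a line cuts an intersection of `m` half planes into
intersections of `m₁` and `m₂` half planes with `m₁ + m₂ ≤ m + 4`.
-/

set_option autoImplicit false

namespace Pool.Agent.H79.TS

open Finset

/-- the plane -/
abbrev E := EuclideanSpace ℝ (Fin 2)

/-- the intersection of the half planes `⟪p.1, x⟫ ≤ p.2` -/
def reg (H : Finset (E × ℝ)) : Set E := {x | ∀ p ∈ H, inner ℝ p.1 x ≤ p.2}

theorem cut_up {a b g a' b' g' α β : ℝ} (hb : 0 < b) (hb' : 0 < b') (hg : g / b ≤ g' / b')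
    (hα : α * (a' * b) ≤ α * (a * b')) (h : α * a + β * b ≤ g) : α * a' + β * b' ≤ g' := by
  have h1 : g * b' ≤ g' * b := by
    rw [div_le_div_iff₀ hb hb'] at hg
    linarith
  have h2 : (α * a + β * b) * b' ≤ g * b' := mul_le_mul_of_nonneg_right h hb'.le
  have h3 : (α * a' + β * b') * b ≤ g' * b := by nlinarith
  exact le_of_mul_le_mul_right h3 hb

theorem cut_aux {ι : Type*} (I : Finset ι) (a b g : ι → ℝ)
    (hL : ∃ α ≤ (0 : ℝ), ∃ β : ℝ, ∀ p ∈ I, α * a p + β * b p ≤ g p)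
    (hR : ∃ α ≥ (0 : ℝ), ∃ β : ℝ, ∀ p ∈ I, α * a p + β * b p ≤ g p) :
    ∃ S ⊆ I, S.card ≤ 2 ∧ ∀ p ∈ I,
      (∀ α ≤ (0 : ℝ), ∀ β : ℝ, (∀ s ∈ S, α * a s + β * b s ≤ g s) → α * a p + β * b p ≤ g p) ∨
      (∀ α ≥ (0 : ℝ), ∀ β : ℝ, (∀ s ∈ S, α * a s + β * b s ≤ g s) → α * a p + β * b p ≤ g p) := by
  classical
  -- upper constraints
  have hU : ∃ S ⊆ I, S.card ≤ 1 ∧ ∀ p ∈ I, 0 < b p →
      (∀ α ≤ (0 : ℝ), ∀ β : ℝ, (∀ s ∈ S, α * a s + β * b s ≤ g s) → α * a p + β * b p ≤ g p) ∨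
      (∀ α ≥ (0 : ℝ), ∀ β : ℝ, (∀ s ∈ S, α * a s + β * b s ≤ g s) → α * a p + β * b p ≤ g p) := by
    by_cases hne : (I.filter (fun p => 0 < b p)).Nonempty
    · obtain ⟨s, hs, hmin⟩ := Finset.exists_min_image _ (fun p => g p / b p) hne
      rw [mem_filter] at hs
      refine ⟨{s}, by simpa using hs.1, by simp, ?_⟩
      intro p hp hbp
      have hm := hmin p (by rw [mem_filter]; exact ⟨hp, hbp⟩)
      rcases le_total (a s * b p) (a p * b s) with h | h
      · left
        intro α hα β hh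
        exact cut_up hs.2 hbp hm (mul_le_mul_of_nonpos_left h hα) (hh s (by simp))
      · right
        intro α hα β hh
        exact cut_up hs.2 hbp hm (mul_le_mul_of_nonneg_left h hα) (hh s (by simp))
    · refine ⟨∅, by simp, by simp, ?_⟩
      intro p hp hbp
      exact absurd ⟨p, by rw [mem_filter]; exact ⟨hp, hbp⟩⟩ hne
  have hD : ∃ S ⊆ I, S.card ≤ 1 ∧ ∀ p ∈ I, b p < 0 →
      (∀ α ≤ (0 : ℝ), ∀ β : ℝ, (∀ s ∈ S, α * a s + β * b s ≤ g s) → α * a p + β * b p ≤ g p) ∨
      (∀ α ≥ (0 : ℝ), ∀ β : ℝ, (∀ s ∈ S, α * a s + β * b s ≤ g s) → α * a p + β * b p ≤ g p) := by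
    by_cases hne : (I.filter (fun p => b p < 0)).Nonempty
    · obtain ⟨s, hs, hmin⟩ := Finset.exists_min_image _ (fun p => g p / (-b p)) hne
      rw [mem_filter] at hs
      refine ⟨{s}, by simpa using hs.1, by simp, ?_⟩
      intro p hp hbp
      have hm := hmin p (by rw [mem_filter]; exact ⟨hp, hbp⟩)
      have hs2 : 0 < - b s := by linarith [hs.2]
      have hbp2 : 0 < - b p := by linarith
      rcases le_total (a s * (- b p)) (a p * (- b s)) with h | h
      · left
        intro α hα β hh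
        have h1 := cut_up (α := α) (β := -β) hs2 hbp2 hm (mul_le_mul_of_nonpos_left h hα)
          (by have := hh s (by simp); linarith)
        linarith
      · right
        intro α hα β hh
        have h1 := cut_up (α := α) (β := -β) hs2 hbp2 hm (mul_le_mul_of_nonneg_left h hα)
          (by have := hh s (by simp); linarith)
        linarith
    · refine ⟨∅, by simp, by simp, ?_⟩
      intro p hp hbp
      exact absurd ⟨p, by rw [mem_filter]; exact ⟨hp, hbp⟩⟩ hne
  obtain ⟨S, hSI, hS1, hS⟩ := hU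
  obtain ⟨S', hSI', hS1', hS'⟩ := hD
  refine ⟨S ∪ S', union_subset hSI hSI', (card_union_le _ _).trans (by omega), ?_⟩
  intro p hp
  rcases lt_trichotomy (b p) 0 with hb | hb | hb
  · rcases hS' p hp hb with h | h
    · exact Or.inl fun α hα β hh => h α hα β fun s hs => hh s (mem_union_right _ hs)
    · exact Or.inr fun α hα β hh => h α hα β fun s hs => hh s (mem_union_right _ hs)
  · rcases le_total 0 (a p) with ha | ha
    · left
      intro α hα β _
      obtain ⟨α', hα', β', h'⟩ := hR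
      have h1 := h' p hp
      rw [hb] at h1 ⊢
      have h2 : 0 ≤ α' * a p := mul_nonneg hα' ha
      have h3 : α * a p ≤ 0 := mul_nonpos_of_nonpos_of_nonneg hα ha
      linarith
    · right
      intro α hα β _
      obtain ⟨α', hα', β', h'⟩ := hL
      have h1 := h' p hp
      rw [hb] at h1 ⊢
      have h2 : 0 ≤ α' * a p := mul_nonneg_of_nonpos_of_nonpos hα' ha
      have h3 : α * a p ≤ 0 := mul_nonpos_of_nonneg_of_nonpos hα ha
      linarith
  · rcases hS p hp hb with h | h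
    · exact Or.inl fun α hα β hh => h α hα β fun s hs => hh s (mem_union_left _ hs)
    · exact Or.inr fun α hα β hh => h α hα β fun s hs => hh s (mem_union_left _ hs)

theorem inner_two (u v : E) : inner ℝ u v = u 0 * v 0 + u 1 * v 1 := by
  simp [PiLp.inner_apply, Fin.sum_univ_two, mul_comm]

theorem nsq_pos {n : E} (hn : n ≠ 0) : 0 < n 0 ^ 2 + n 1 ^ 2 := by
  by_contra h
  push Not at h
  have h0 : n 0 = 0 := by nlinarith [sq_nonneg (n 0), sq_nonneg (n 1)]
  have h1 : n 1 = 0 := by nlinarith [sq_nonneg (n 0), sq_nonneg (n 1)]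
  apply hn
  ext i
  fin_cases i
  · exact h0
  · exact h1

/-- decomposition along a line -/
theorem inner_dec {n : E} (hn : n ≠ 0) (t : ℝ) (p x : E) :
    inner ℝ p x = ((inner ℝ n x - t) / (n 0 ^ 2 + n 1 ^ 2)) * inner ℝ p n +
      ((n 0 * x 1 - n 1 * x 0) / (n 0 ^ 2 + n 1 ^ 2)) * (n 0 * p 1 - n 1 * p 0) +
      t / (n 0 ^ 2 + n 1 ^ 2) * inner ℝ p n := by
  have h := nsq_pos hn
  simp only [inner_two]
  field_simp
  ring

/-- the cut lemma -/
theorem cut (H : Finset (E × ℝ)) (hH : ∀ p ∈ H, p.1 ≠ 0) {n : E} (hn : n ≠ 0) (t : ℝ)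
    (hL : ∃ x ∈ reg H, inner ℝ n x ≤ t) (hR : ∃ x ∈ reg H, t ≤ inner ℝ n x) :
    ∃ H₁ H₂ : Finset (E × ℝ), (∀ p ∈ H₁, p.1 ≠ 0) ∧ (∀ p ∈ H₂, p.1 ≠ 0) ∧
      reg H₁ = reg H ∩ {x | inner ℝ n x ≤ t} ∧ reg H₂ = reg H ∩ {x | t ≤ inner ℝ n x} ∧
      H₁.card + H₂.card ≤ H.card + 4 := by
  classical
  have hN := nsq_pos hn
  set N := n 0 ^ 2 + n 1 ^ 2 with hNd
  let a : E × ℝ → ℝ := fun p => inner ℝ p.1 n
  let b : E × ℝ → ℝ := fun p => n 0 * p.1 1 - n 1 * p.1 0
  let g : E × ℝ → ℝ := fun p => p.2 - t / N * inner ℝ p.1 n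
  let al : E → ℝ := fun x => (inner ℝ n x - t) / N
  let be : E → ℝ := fun x => (n 0 * x 1 - n 1 * x 0) / N
  have key : ∀ (x : E) (p : E × ℝ), inner ℝ p.1 x ≤ p.2 ↔ al x * a p + be x * b p ≤ g p := by
    intro x p
    have h := inner_dec hn t p.1 x
    simp only [al, be, a, b, g]
    rw [h]
    constructor <;> intro h' <;> linarith
  have hal : ∀ x, inner ℝ n x ≤ t ↔ al x ≤ 0 := by
    intro x
    simp only [al]
    rw [div_le_iff₀ hN]
    constructor <;> intro h' <;> linarith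
  have hal' : ∀ x, t ≤ inner ℝ n x ↔ al x ≥ 0 := by
    intro x
    simp only [al, ge_iff_le]
    rw [le_div_iff₀ hN]
    constructor <;> intro h' <;> linarith
  obtain ⟨S, hSI, hS2, hS⟩ := cut_aux H a b g
    (by obtain ⟨x, hx, hxt⟩ := hL
        exact ⟨al x, (hal x).1 hxt, be x, fun p hp => (key x p).1 (hx p hp)⟩)
    (by obtain ⟨x, hx, hxt⟩ := hR
        exact ⟨al x, (hal' x).1 hxt, be x, fun p hp => (key x p).1 (hx p hp)⟩)
  let P : E × ℝ → Prop := fun p => ∀ α ≤ (0 : ℝ), ∀ β : ℝ, (∀ s ∈ S, α * a s + β * b s ≤ g s) →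
    α * a p + β * b p ≤ g p
  let Q : E × ℝ → Prop := fun p => ∀ α ≥ (0 : ℝ), ∀ β : ℝ, (∀ s ∈ S, α * a s + β * b s ≤ g s) →
    α * a p + β * b p ≤ g p
  let K₁ := (H \ S).filter (fun p => ¬ P p)
  let K₂ := (H \ S).filter (fun p => ¬ Q p)
  have hdis : Disjoint K₁ K₂ := by
    rw [Finset.disjoint_left]
    intro p h1 h2
    simp only [K₁, K₂, mem_filter, mem_sdiff] at h1 h2
    rcases hS p h1.1.1 with h | h
    · exact h1.2 h
    · exact h2.2 h
  have hcard : K₁.card + K₂.card + S.card ≤ H.card := by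
    rw [← card_union_of_disjoint hdis]
    have h1 : K₁ ∪ K₂ ⊆ H \ S := union_subset (filter_subset _ _) (filter_subset _ _)
    have h2 := card_le_card h1
    have h3 := card_sdiff_add_card_eq_card hSI
    omega
  have hmem : ∀ x : E, x ∈ reg H → ∀ T ⊆ H, x ∈ reg T := fun x hx T hT p hp => hx p (hT hp)
  have hK₁H : S ∪ K₁ ⊆ H := union_subset hSI ((filter_subset _ _).trans sdiff_subset)
  have hK₂H : S ∪ K₂ ⊆ H := union_subset hSI ((filter_subset _ _).trans sdiff_subset)
  refine ⟨insert (n, t) (S ∪ K₁), insert (-n, -t) (S ∪ K₂), ?_, ?_, ?_, ?_, ?_⟩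
  · intro p hp
    rcases mem_insert.1 hp with h | h
    · rw [h]; exact hn
    · exact hH p (hK₁H h)
  · intro p hp
    rcases mem_insert.1 hp with h | h
    · rw [h]; exact neg_ne_zero.2 hn
    · exact hH p (hK₂H h)
  · ext x
    constructor
    · intro hx
      have hxt : inner ℝ n x ≤ t := hx (n, t) (mem_insert_self _ _)
      refine ⟨fun p hp => ?_, hxt⟩
      by_cases hpS : p ∈ S
      · exact hx p (mem_insert_of_mem (mem_union_left _ hpS))
      by_cases hpP : P p
      · rw [key]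
        exact hpP _ ((hal x).1 hxt) _ fun s hs =>
          (key x s).1 (hx s (mem_insert_of_mem (mem_union_left _ hs)))
      · exact hx p (mem_insert_of_mem (mem_union_right _
          (mem_filter.2 ⟨mem_sdiff.2 ⟨hp, hpS⟩, hpP⟩)))
    · rintro ⟨hx, hxt⟩ p hp
      rcases mem_insert.1 hp with h | h
      · rw [h]; exact hxt
      · exact hx p (hK₁H h)
  · ext x
    constructor
    · intro hx
      have hxt : t ≤ inner ℝ n x := by
        have h1 := hx (-n, -t) (mem_insert_self _ _)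
        simp only [inner_neg_left] at h1
        linarith
      refine ⟨fun p hp => ?_, hxt⟩
      by_cases hpS : p ∈ S
      · exact hx p (mem_insert_of_mem (mem_union_left _ hpS))
      by_cases hpQ : Q p
      · rw [key]
        exact hpQ _ ((hal' x).1 hxt) _ fun s hs =>
          (key x s).1 (hx s (mem_insert_of_mem (mem_union_left _ hs)))
      · exact hx p (mem_insert_of_mem (mem_union_right _
          (mem_filter.2 ⟨mem_sdiff.2 ⟨hp, hpS⟩, hpQ⟩)))
    · rintro ⟨hx, hxt⟩ p hp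
      rcases mem_insert.1 hp with h | h
      · rw [h]
        simp only [inner_neg_left]
        have h2 : t ≤ inner ℝ n x := hxt
        linarith
      · exact hx p (hK₂H h)
  · have h1 := card_insert_le (n, t) (S ∪ K₁)
    have h2 := card_insert_le (-n, -t) (S ∪ K₂)
    have h3 := card_union_le S K₁
    have h4 := card_union_le S K₂
    omega

end Pool.Agent.H79.TS
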