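import Pool.Agent.H79.TS.Face

/-!
MP_887a8d_co.  From finite sets of discs to the upper density.
-/

set_option autoImplicit false

namespace Pool.Agent.H79.TS

open MeasureTheory Real Metric Filter Topology

/-- the closed discs are pairwise separated by lines that meet no open disc of the family -/
def TotSep {ι : Type*} (c : ι → E) (r : ι → ℝ) : Prop :=
  ∀ i j, i ≠ j → ∃ (n : E) (t : ℝ), n ≠ 0 ∧ closedBall (c i) (r i) ⊆ {x | inner ℝ n x ≤ t} ∧
    closedBall (c j) (r j) ⊆ {x | t ≤ inner ℝ n x} ∧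
    ∀ l, l ≠ i → l ≠ j → ∀ x ∈ ball (c l) (r l), inner ℝ n x ≠ t

theorem TotSep.sep {ι : Type*} {c : ι → E} {r : ι → ℝ} (h : TotSep c r) (i j : ι) (hij : i ≠ j) :
    ∃ (n : E) (t : ℝ), n ≠ 0 ∧ closedBall (c i) (r i) ⊆ {x | inner ℝ n x ≤ t} ∧
      closedBall (c j) (r j) ⊆ {x | t ≤ inner ℝ n x} ∧
      ∀ l, closedBall (c l) (r l) ⊆ {x | inner ℝ n x ≤ t} ∨
        closedBall (c l) (r l) ⊆ {x | t ≤ inner ℝ n x} := by
  obtain ⟨n, t, hn, h1, h2, h3⟩ := h i j hij
  refine ⟨n, t, hn, h1, h2, fun l => ?_⟩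
  by_cases hli : l = i
  · exact Or.inl (hli ▸ h1)
  by_cases hlj : l = j
  · exact Or.inr (hlj ▸ h2)
  exact ball_side (h3 l hli hlj)

theorem TotSep.countable {ι : Type*} {c : ι → E} {r : ι → ℝ} (hr : ∀ i, 0 < r i) (h : TotSep c r) :
    Countable ι := by
  have h1 : (Set.univ : Set ι).PairwiseDisjoint (fun i => ball (c i) (r i)) := by
    intro i _ j _ hij
    refine Set.disjoint_left.mpr fun x hxi hxj => ?_
    obtain ⟨n, t, hn, h1, h2, _⟩ := h i j hij
    have e1 : inner ℝ n x = t :=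
      le_antisymm (h1 (ball_subset_closedBall hxi)) (h2 (ball_subset_closedBall hxj))
    -- a point of the open ball slightly beyond the line
    obtain ⟨δ, hδ, hb⟩ := Metric.isOpen_iff.1 (isOpen_ball (x := c i) (ε := r i)) x hxi
    have hpos : 0 < ‖n‖ := norm_pos_iff.2 hn
    have h4 : x + (δ / 2 / ‖n‖) • n ∈ closedBall (c i) (r i) := by
      refine ball_subset_closedBall (hb ?_)
      rw [mem_ball, dist_eq_norm, add_sub_cancel_left, norm_smul, Real.norm_eq_abs,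
        abs_of_pos (by positivity), div_mul_cancel₀ _ hpos.ne']
      linarith
    have h5 : inner ℝ n (x + (δ / 2 / ‖n‖) • n) ≤ t := h1 h4
    rw [inner_add_right, inner_smul_right, real_inner_self_eq_norm_sq, e1] at h5
    have : 0 < δ / 2 / ‖n‖ * ‖n‖ ^ 2 := by positivity
    linarith
  have h2 : (Set.univ : Set ι).Countable :=
    h1.countable_of_isOpen (fun i _ => Metric.isOpen_ball)
      (fun i _ => ⟨c i, Metric.mem_ball_self (hr i)⟩)
  exact Set.countable_univ_iff.mp h2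

/-- polygonal windows close to discs -/
theorem window {δ : ℝ} (hδ : 0 < δ) (hδ1 : δ < 1) : ∃ m : ℕ, ∀ R > 0, ∃ H : Finset (E × ℝ),
    H.card ≤ m ∧ (∀ p ∈ H, p.1 ≠ 0) ∧ closedBall 0 R ⊆ reg H ∧
      reg H ⊆ closedBall 0 (R / (1 - δ ^ 2 / 2)) := by
  classical
  have hcomp : IsCompact (sphere (0 : E) 1) := isCompact_sphere 0 1
  obtain ⟨T, hT1, hT2, hT3⟩ := hcomp.finite_cover_balls hδ
  refine ⟨hT2.toFinset.card, fun R hR => ⟨hT2.toFinset.image (fun u => (u, R)), Finset.card_image_le, ?_, ?_, ?_⟩⟩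
  · intro p hp
    obtain ⟨u, hu, rfl⟩ := Finset.mem_image.1 hp
    have h1 := hT1 (hT2.mem_toFinset.1 hu)
    intro h0
    simp only at h0
    rw [h0] at h1
    simp at h1
  · intro x hx p hp
    obtain ⟨u, hu, rfl⟩ := Finset.mem_image.1 hp
    have h1 : ‖u‖ = 1 := by simpa using hT1 (hT2.mem_toFinset.1 hu)
    have h2 : ‖x‖ ≤ R := by simpa using hx
    calc inner ℝ u x ≤ ‖u‖ * ‖x‖ := real_inner_le_norm u x
      _ ≤ R := by rw [h1, one_mul]; exact h2
  · intro x hx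
    rw [mem_closedBall_zero_iff]
    have hd : 0 < 1 - δ ^ 2 / 2 := by nlinarith
    rw [le_div_iff₀ hd]
    by_cases hx0 : x = 0
    · rw [hx0]; simp [hR.le]
    have hxn : 0 < ‖x‖ := norm_pos_iff.2 hx0
    have h1 : (‖x‖⁻¹ • x) ∈ sphere (0 : E) 1 := by
      rw [mem_sphere_zero_iff_norm, norm_smul, norm_inv, norm_norm, inv_mul_cancel₀ hxn.ne']
    obtain ⟨u, hu, hux⟩ := Set.mem_iUnion₂.1 (hT3 h1)
    have h2 : ‖u‖ = 1 := by simpa using hT1 hu
    have h3 : inner ℝ u x ≤ R := hx (u, R) (Finset.mem_image.2 ⟨u, hT2.mem_toFinset.2 hu, rfl⟩)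
    have h4 : ‖(‖x‖⁻¹ • x) - u‖ < δ := by rw [← dist_eq_norm]; exact hux
    have h5 : ‖(‖x‖⁻¹ • x) - u‖ ^ 2 = 1 - 2 * (‖x‖⁻¹ * inner ℝ u x) + 1 := by
      rw [norm_sub_sq_real, inner_smul_left, real_inner_comm, h2]
      have h6 : ‖(‖x‖⁻¹ • x)‖ = 1 := by simpa using h1
      rw [h6]
      simp
    have h6 : ‖(‖x‖⁻¹ • x) - u‖ ^ 2 < δ ^ 2 := by
      have := norm_nonneg ((‖x‖⁻¹ • x) - u)
      nlinarith
    have h7 : 1 - δ ^ 2 / 2 ≤ ‖x‖⁻¹ * inner ℝ u x := by nlinarith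
    have h8 : ‖x‖ * (1 - δ ^ 2 / 2) ≤ inner ℝ u x := by
      have := mul_le_mul_of_nonneg_left h7 hxn.le
      rwa [← mul_assoc, mul_inv_cancel₀ hxn.ne', one_mul] at this
    linarith

theorem dens {ι : Type*} (c : ι → E) (r : ι → ℝ) (M x κ : ℝ) (hr : ∀ i, 0 < r i) (hM : ∀ i, r i ≤ M)
    (hx : 0 < x) (hκ : 0 ≤ κ)
    (hface : ∀ (H : Finset (E × ℝ)) (i : ι), (∀ p ∈ H, p.1 ≠ 0) → closedBall (c i) (r i) ⊆ reg H →
      ENNReal.ofReal (x * r i ^ 2 - κ * ((H.card : ℝ) - 4)) ≤ volume (reg H))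
    (hsep : TotSep c r) :
    limsup (fun R : ℝ => volume ((⋃ i, closedBall (c i) (r i)) ∩ closedBall 0 R) /
      ENNReal.ofReal (π * R ^ 2)) atTop ≤ ENNReal.ofReal (π / x) := by
  classical
  have hpi := Real.pi_pos
  have hcount : Countable ι := hsep.countable hr
  rcases isEmpty_or_nonempty ι with hem | hne
  · have : (fun R : ℝ => volume ((⋃ i, closedBall (c i) (r i)) ∩ closedBall 0 R) /
        ENNReal.ofReal (π * R ^ 2)) = fun _ => 0 := by
      funext R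
      simp
    rw [this]
    simp
  have hM0 : 0 < M := (hr (Classical.arbitrary ι)).trans_le (hM _)
  -- fixed `δ`
  have key : ∀ δ : ℝ, 0 < δ → δ < 1 →
      limsup (fun R : ℝ => volume ((⋃ i, closedBall (c i) (r i)) ∩ closedBall 0 R) /
        ENNReal.ofReal (π * R ^ 2)) atTop ≤ ENNReal.ofReal (π / x * (1 / (1 - δ ^ 2 / 2) ^ 2)) := by
    intro δ hδ hδ1
    obtain ⟨m, hm⟩ := window hδ hδ1
    have hd : 0 < 1 - δ ^ 2 / 2 := by nlinarith
    let g : ℝ → ℝ := fun R => π / x * ((1 + 2 * M / R) ^ 2 / (1 - δ ^ 2 / 2) ^ 2 +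
      κ * m / π / R ^ 2)
    have hg : Tendsto g atTop (𝓝 (π / x * (1 / (1 - δ ^ 2 / 2) ^ 2))) := by
      have h1 : Tendsto (fun R : ℝ => 2 * M / R) atTop (𝓝 0) := tendsto_const_nhds.div_atTop tendsto_id
      have h2 : Tendsto (fun R : ℝ => κ * m / π / R ^ 2) atTop (𝓝 0) :=
        tendsto_const_nhds.div_atTop (tendsto_pow_atTop (by norm_num))
      have h3 : Tendsto (fun R : ℝ => (1 + 2 * M / R) ^ 2 / (1 - δ ^ 2 / 2) ^ 2) atTop
          (𝓝 ((1 + 0) ^ 2 / (1 - δ ^ 2 / 2) ^ 2)) := ((h1.const_add 1).pow 2).div_const _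
      have h4 := (h3.add h2).const_mul (π / x)
      simpa using h4
    have hlim := (ENNReal.continuous_ofReal.tendsto _).comp hg
    refine le_trans (limsup_le_limsup ?_) (le_of_eq hlim.limsup_eq)
    filter_upwards [eventually_gt_atTop (0 : ℝ)] with R hR
    obtain ⟨H, hHc, hH, hH1, hH2⟩ := hm (R + 2 * M) (by positivity)
    have hvolH : volume (reg H) ≤ ENNReal.ofReal (π * ((R + 2 * M) / (1 - δ ^ 2 / 2)) ^ 2) := by
      rw [← vol_cb 0 (by positivity)]
      exact measure_mono hH2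
    let I : Set ι := {i | (closedBall (c i) (r i) ∩ closedBall 0 R).Nonempty}
    have hIc : I.Countable := Set.to_countable I
    have hsub : (⋃ i, closedBall (c i) (r i)) ∩ closedBall 0 R ⊆ ⋃ i ∈ I, closedBall (c i) (r i) := by
      rintro y ⟨hy1, hy2⟩
      obtain ⟨i, hi⟩ := Set.mem_iUnion.mp hy1
      exact Set.mem_iUnion₂.mpr ⟨i, ⟨y, hi, hy2⟩, hi⟩
    have hIsub : ∀ i ∈ I, closedBall (c i) (r i) ⊆ reg H := by
      rintro i ⟨y, hy1, hy2⟩ z hz
      refine hH1 ?_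
      rw [mem_closedBall] at *
      have h1 := dist_triangle z (c i) 0
      have h2 := dist_triangle (c i) y 0
      rw [dist_comm (c i) y] at h2
      have := hM i
      linarith
    show volume ((⋃ i, closedBall (c i) (r i)) ∩ closedBall 0 R) / ENNReal.ofReal (π * R ^ 2) ≤
      ENNReal.ofReal (g R)
    refine ENNReal.div_le_of_le_mul ?_
    rw [← ENNReal.ofReal_mul (by positivity)]
    refine (measure_mono hsub).trans ((measure_biUnion_le volume hIc _).trans ?_)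
    rw [ENNReal.tsum_eq_iSup_sum]
    refine iSup_le fun s => ?_
    have hs1 : ∀ D ∈ s.map (Function.Embedding.subtype _), D ∈ I := by
      intro D hD
      obtain ⟨a, _, ha⟩ := Finset.mem_map.mp hD
      rw [← ha]
      exact a.2
    have h5 : ∑ a ∈ s, volume (closedBall (c a) (r a)) = ENNReal.ofReal (∑ a ∈ s, π * (r a) ^ 2) := by
      rw [ENNReal.ofReal_sum_of_nonneg (fun a _ => by positivity)]
      exact Finset.sum_congr rfl fun a _ => vol_cb _ (hr a).le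
    rw [h5]
    refine ENNReal.ofReal_le_ofReal ?_
    have h6 : ∑ a ∈ s, (r a) ^ 2 = ∑ i ∈ s.map (Function.Embedding.subtype _), r i ^ 2 := by
      rw [Finset.sum_map]; rfl
    rw [← Finset.mul_sum, h6]
    set S := s.map (Function.Embedding.subtype _) with hS
    have hgR : 0 ≤ π / x * ((R + 2 * M) ^ 2 / (1 - δ ^ 2 / 2) ^ 2 * π + κ * m) := by positivity
    have hfin : x * ∑ i ∈ S, r i ^ 2 ≤ (R + 2 * M) ^ 2 / (1 - δ ^ 2 / 2) ^ 2 * π + κ * m := by
      rcases S.eq_empty_or_nonempty with hSe | hSn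
      · rw [hSe, Finset.sum_empty, mul_zero]
        positivity
      have h7 := (bsp c r hr x κ hκ hface S hSn (fun i _ j _ hij => by
        obtain ⟨n, t, a, b, d, e⟩ := hsep.sep i j hij
        exact ⟨n, t, a, b, d, fun l _ => e l⟩) H hH (fun i hi => hIsub i (hs1 i hi))).trans hvolH
      rw [ENNReal.ofReal_le_ofReal_iff (by positivity)] at h7
      have h8 : (H.card : ℝ) ≤ m := by exact_mod_cast hHc
      have h9 : κ * ((H.card : ℝ) - 4) ≤ κ * m := mul_le_mul_of_nonneg_left (by linarith) hκ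
      rw [div_pow] at h7
      have h10 : π * ((R + 2 * M) ^ 2 / (1 - δ ^ 2 / 2) ^ 2) = (R + 2 * M) ^ 2 / (1 - δ ^ 2 / 2) ^ 2 * π := by
        ring
      linarith
    have e1 : g R * (π * R ^ 2) = π / x * ((R + 2 * M) ^ 2 / (1 - δ ^ 2 / 2) ^ 2 * π + κ * m) := by
      simp only [g]
      field_simp
    rw [e1]
    calc π * ∑ i ∈ S, r i ^ 2 = π / x * (x * ∑ i ∈ S, r i ^ 2) := by field_simp
      _ ≤ _ := mul_le_mul_of_nonneg_left hfin (by positivity)
  -- let `δ → 0`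
  have hlim : Tendsto (fun δ : ℝ => ENNReal.ofReal (π / x * (1 / (1 - δ ^ 2 / 2) ^ 2))) (𝓝[>] 0)
      (𝓝 (ENNReal.ofReal (π / x))) := by
    have h1 : ContinuousAt (fun δ : ℝ => π / x * (1 / (1 - δ ^ 2 / 2) ^ 2)) 0 := by
      refine ContinuousAt.mul continuousAt_const (ContinuousAt.div continuousAt_const (by fun_prop) (by simp))
    have h2 : Tendsto (fun δ : ℝ => π / x * (1 / (1 - δ ^ 2 / 2) ^ 2)) (𝓝 0) (𝓝 (π / x)) := by
      have := h1.tendsto
      simpa using this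
    exact (ENNReal.continuous_ofReal.tendsto _).comp (h2.mono_left nhdsWithin_le_nhds)
  refine ge_of_tendsto hlim ?_
  filter_upwards [Ioo_mem_nhdsGT (zero_lt_one' ℝ)] with δ hδ
  exact key δ hδ.1 hδ.2

end Pool.Agent.H79.TS
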