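import Pool.Agent.H79.TS.PB

/-!
# ROW Dist: averaged colourings move continuously (about 90 lines)

PROOF.
Write `A F := aF l h (mv θ w F) z = aF l (fun i => θ * h i) F (θ * z + w)` (`aF_mv`), `B F := aF l h F z`, `d := ‖θ * z + w - z‖`.  `E ((A - B) ^ 2) = E (A ^ 2) + E (B ^ 2) - 2 E (A B)` (linearity; all bounded).
`E (A ^ 2) = E (B ^ 2)` (`E_inv`) `= ∑∑ l i l j k ‖z + h i - (z + h j)‖ ≤ kc 0 + ε` (`aF_mul2` with `h' = h`, `hW.app z z`).
`E (A B) = ∑∑ l i l j k ‖(θ z + w) + θ h i - (z + h j)‖` (`aF_mul2`); each argument `r` satisfies `|r - d| ≤ ‖θ h i - h j‖ ≤ 2 δ`, so `k r ≥ kc r ≥ kc d - ω` (`S.le`, `hω`), and `E (A B) ≥ kc d - ω` (`l ≥ 0`, `∑ l = 1`).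
-/

set_option autoImplicit false

namespace Pool.Agent.H79.TS

open MeasureTheory Filter Topology Pool.Agent.H93.EG Pool.Agent.H58.ER

theorem dist_est {f : ℂ → Bool} {E : ((ℂ → Bool) → ℝ) → ℝ} {k kc : ℝ → ℝ} (S : Sett f E k kc)
    {ι : Type} [Fintype ι] (l : ι → ℝ) (h : ι → ℂ) (δ ε : ℝ) (hW : Wt k kc δ ε l h) (ω : ℝ)
    (θ w z : ℂ) (hθ : ‖θ‖ = 1)
    (hω : ∀ r : ℝ, 0 ≤ r → |r - ‖θ * z + w - z‖| ≤ 2 * δ → |kc r - kc ‖θ * z + w - z‖| ≤ ω) :
    E (fun F => (aF l h (mv θ w F) z - aF l h F z) ^ 2) ≤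
      2 * (kc 0 - kc ‖θ * z + w - z‖) + 2 * ε + 2 * ω := by
  have hE := S.stat
  have bA : Bdd (fun F : ℂ → Bool => aF l (fun i => θ * h i) F (θ * z + w)) := bdd_aF _ _ _
  have bB : Bdd (fun F : ℂ → Bool => aF l h F z) := bdd_aF _ _ _
  have e1 : (fun F : ℂ → Bool => (aF l h (mv θ w F) z - aF l h F z) ^ 2) =
      fun F => ((aF l (fun i => θ * h i) F (θ * z + w) * aF l (fun i => θ * h i) F (θ * z + w)) +
        (aF l h F z * aF l h F z)) +
        (-2) * (aF l (fun i => θ * h i) F (θ * z + w) * aF l h F z) := by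
    funext F
    rw [aF_mv]
    ring
  have e2 : E (fun F => aF l (fun i => θ * h i) F (θ * z + w) *
      aF l (fun i => θ * h i) F (θ * z + w)) = E (fun F => aF l h F z * aF l h F z) := by
    rw [← E_inv hE θ w hθ (fun F => aF l h F z * aF l h F z) (bdd_mul bB bB)]
    simp only [aF_mv]
  have e3 : E (fun F => aF l h F z * aF l h F z) ≤ kc 0 + ε := by
    rw [aF_mul2 l h h f E hE k S.hk z z]
    have h1 := (abs_le.1 (hW.app z z)).2
    rw [sub_self, norm_zero] at h1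
    linarith
  have e4 : kc ‖θ * z + w - z‖ - ω ≤
      E (fun F => aF l (fun i => θ * h i) F (θ * z + w) * aF l h F z) := by
    rw [aF_mul2 l (fun i => θ * h i) h f E hE k S.hk (θ * z + w) z]
    have h1 : kc ‖θ * z + w - z‖ - ω =
        ∑ i, ∑ j, l i * l j * (kc ‖θ * z + w - z‖ - ω) := by
      have h2 : ∀ i, ∑ j, l i * l j * (kc ‖θ * z + w - z‖ - ω) =
          l i * (kc ‖θ * z + w - z‖ - ω) := by
        intro i
        have h3 : ∀ j, l i * l j * (kc ‖θ * z + w - z‖ - ω) =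
            l j * (l i * (kc ‖θ * z + w - z‖ - ω)) := fun j => by ring
        simp only [h3]
        rw [← Finset.sum_mul, hW.sum, one_mul]
      simp only [h2]
      rw [← Finset.sum_mul, hW.sum, one_mul]
    rw [h1]
    refine Finset.sum_le_sum fun i _ => Finset.sum_le_sum fun j _ => ?_
    refine mul_le_mul_of_nonneg_left ?_ (mul_nonneg (hW.nn i) (hW.nn j))
    have h2 : |‖θ * z + w + θ * h i - (z + h j)‖ - ‖θ * z + w - z‖| ≤ 2 * δ := by
      refine (abs_norm_sub_norm_le _ _).trans ?_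
      have h3 : θ * z + w + θ * h i - (z + h j) - (θ * z + w - z) = θ * h i - h j := by ring
      rw [h3]
      refine (norm_sub_le _ _).trans ?_
      rw [norm_mul, hθ, one_mul]
      linarith [hW.small i, hW.small j]
    have h3 := (abs_le.1 (hω _ (norm_nonneg _) h2)).1
    have h4 := S.le _ (norm_nonneg (θ * z + w + θ * h i - (z + h j)))
    linarith
  rw [e1, hE.add _ _ ((bdd_mul bA bA).add (bdd_mul bB bB)) ((bdd_mul bA bB).smul (-2)),
    hE.add _ _ (bdd_mul bA bA) (bdd_mul bB bB), hE.smul _ _ (bdd_mul bA bB), e2]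
  linarith

end Pool.Agent.H79.TS
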