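import Pool.Agent.H79.TS.GB

/-!
# ROW ErgSet: invariant sets of the circle (about 50 lines)

PROOF.
Apply `h1` and then `h2` (with `ae_shift`): for a.e. `t ∈ Θ`, `t + (g true + g false) ∈ Θ` and `t + (g true + g false) + (g true + -(g false)) = t + (g true + g true) ∈ Θ`.
Apply `h1` and then `h3`: `t + (g false + g false) ∈ Θ`.  Let `g e` have infinite order, `a := g e + g e`; `n • a = (2 n) • g e ≠ 0` for `n > 0`, so
`addOrderOf a = 0` and `x ↦ x + a` is ergodic (`AddCircle.ergodic_add_right`).  `Θ ≤ᵐ (· + a) ⁻¹' Θ`, the measure is finite, so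
`Ergodic.ae_empty_or_univ_of_ae_le_preimage` (Mathlib.Dynamics.Ergodic.Ergodic) gives `Θ =ᵐ ∅` or `Θ =ᵐ univ`.
(Alternative: the indicator function `φ` of `Θ` satisfies `φ t ≤ φ (t + a)` a.e. with equal integrals, so equality a.e., and
`ae_eq_const_of_ae_eq_comp_ae` as in `circ_erg` of `Pool/Agent/H93/EGM/Circ.lean`.)
-/

set_option autoImplicit false

namespace Pool.Agent.H79.TS

open MeasureTheory Filter Topology Pool.Agent.H93.EG

theorem erg_set (g : Bool → UnitAddCircle) (herg : ∃ e, ∀ n : ℕ, 0 < n → n • g e ≠ 0)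
    (Θ : Set UnitAddCircle) (hΘ : MeasurableSet Θ)
    (h1 : ∀ᵐ t : UnitAddCircle, t ∈ Θ → t + (g true + g false) ∈ Θ)
    (h2 : ∀ᵐ t : UnitAddCircle, t ∈ Θ → t + (g true + -(g false)) ∈ Θ)
    (h3 : ∀ᵐ t : UnitAddCircle, t ∈ Θ → t + (-(g true) + g false) ∈ Θ) :
    (∀ᵐ t : UnitAddCircle, t ∈ Θ) ∨ ∀ᵐ t : UnitAddCircle, t ∉ Θ := by
  have hT : ∀ᵐ t : UnitAddCircle, t ∈ Θ → t + (g true + g true) ∈ Θ := by
    filter_upwards [h1, ae_shift h2 (g true + g false)] with t ht1 ht2 ht
    have h4 := ht2 (ht1 ht)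
    have h5 : t + (g true + g false) + (g true + -(g false)) = t + (g true + g true) := by abel
    rwa [h5] at h4
  have hF : ∀ᵐ t : UnitAddCircle, t ∈ Θ → t + (g false + g false) ∈ Θ := by
    filter_upwards [h1, ae_shift h3 (g true + g false)] with t ht1 ht2 ht
    have h4 := ht2 (ht1 ht)
    have h5 : t + (g true + g false) + (-(g true) + g false) = t + (g false + g false) := by abel
    rwa [h5] at h4
  obtain ⟨e, he⟩ := herg
  have hE : ∀ᵐ t : UnitAddCircle, t ∈ Θ → t + (g e + g e) ∈ Θ := by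
    cases e
    · exact hF
    · exact hT
  have hord : addOrderOf (g e + g e) = 0 := by
    rw [addOrderOf_eq_zero_iff']
    intro n hn h0
    apply he (n * 2) (by omega)
    rw [mul_nsmul', two_nsmul]
    exact h0
  have herg' : Ergodic (fun t : UnitAddCircle => t + (g e + g e)) volume :=
    AddCircle.ergodic_add_right.2 hord
  have hle : Θ ≤ᵐ[volume] (fun t : UnitAddCircle => t + (g e + g e)) ⁻¹' Θ := hE
  rcases herg'.ae_empty_or_univ_of_ae_le_preimage hΘ.nullMeasurableSet hle with h | h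
  · right
    filter_upwards [h] with t ht hmem
    have h6 : (t ∈ Θ) = (t ∈ (∅ : Set UnitAddCircle)) := ht
    rw [h6] at hmem
    exact hmem
  · left
    filter_upwards [h] with t ht
    have h6 : (t ∈ Θ) = (t ∈ (Set.univ : Set UnitAddCircle)) := ht
    rw [h6]
    exact Set.mem_univ t

end Pool.Agent.H79.TS
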