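import Pool.Agent.H79.TS.Cap

/-!
MP_887a8d_co.  Lower bound for the area of an intersection of half planes that contains a disc; binary space partitions.
-/

set_option autoImplicit false

namespace Pool.Agent.H79.TS

open MeasureTheory Real Metric

theorem ball_le {n c : E} {ρ t : ℝ} (hn : n ≠ 0) (hρ : 0 ≤ ρ)
    (h : closedBall c ρ ⊆ {x | inner ℝ n x ≤ t}) : inner ℝ n c + ρ * ‖n‖ ≤ t := by
  have hpos : 0 < ‖n‖ := norm_pos_iff.2 hn
  have h1 : c + (ρ / ‖n‖) • n ∈ closedBall c ρ := by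
    rw [mem_closedBall, dist_eq_norm, add_sub_cancel_left, norm_smul, Real.norm_eq_abs,
      abs_of_nonneg (by positivity), div_mul_cancel₀ _ hpos.ne']
  have h2 : inner ℝ n (c + (ρ / ‖n‖) • n) ≤ t := h h1
  rw [inner_add_right, inner_smul_right, real_inner_self_eq_norm_sq] at h2
  have h3 : ρ / ‖n‖ * ‖n‖ ^ 2 = ρ * ‖n‖ := by field_simp
  linarith

theorem vol_cb (c : E) {R : ℝ} (hR : 0 ≤ R) : volume (closedBall c R) = ENNReal.ofReal (π * R ^ 2) := by
  rw [EuclideanSpace.volume_closedBall_fin_two, ← ENNReal.ofReal_pow hR,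
    ← ENNReal.ofReal_mul (by positivity)]
  ring_nf

/-- the area of an intersection of `m` half planes that contains a disc of radius `ρ` -/
theorem area_reg (H : Finset (E × ℝ)) (hH : ∀ p ∈ H, p.1 ≠ 0) {c : E} {ρ : ℝ} (hρ : 0 < ρ)
    (hc : closedBall c ρ ⊆ reg H) {φ : ℝ} (h0 : 0 ≤ φ) (h1 : φ < π / 2) :
    ENNReal.ofReal (ρ ^ 2 * ((π - H.card * φ + H.card * (sin φ * cos φ)) / cos φ ^ 2)) ≤
      volume (reg H) := by
  classical
  have hcos : 0 < cos φ := Real.cos_pos_of_mem_Ioo ⟨by linarith [Real.pi_pos], h1⟩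
  set R := ρ / cos φ with hRd
  have hR : 0 < R := by positivity
  have hRc : R * cos φ = ρ := div_mul_cancel₀ _ hcos.ne'
  let sg : E × ℝ → Set E := fun p =>
    {x : E | dist x c ≤ R ∧ R * cos φ < inner ℝ (‖p.1‖⁻¹ • p.1) (x - c)}
  have hsub : closedBall c R ⊆ reg H ∪ ⋃ p ∈ H, sg p := by
    intro x hx
    by_cases hxr : x ∈ reg H
    · exact Or.inl hxr
    · right
      have : ∃ p ∈ H, p.2 < inner ℝ p.1 x := by
        by_contra hcon
        push Not at hcon
        exact hxr fun p hp => hcon p hp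
      obtain ⟨p, hp, hpx⟩ := this
      refine Set.mem_iUnion₂.2 ⟨p, hp, hx, ?_⟩
      have h2 := ball_le (hH p hp) hρ.le (fun y hy => (hc hy) p hp)
      have hpos : 0 < ‖p.1‖ := norm_pos_iff.2 (hH p hp)
      rw [inner_smul_left, inner_sub_right, hRc]
      simp only [RCLike.conj_to_real]
      rw [← div_eq_inv_mul, lt_div_iff₀ hpos]
      linarith
  have hsg : ∀ p ∈ H, volume (sg p) = ENNReal.ofReal (R ^ 2 * (φ - sin φ * cos φ)) := by
    intro p hp
    refine vol_seg hR h0 h1.le c _ ?_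
    rw [norm_smul, norm_inv, norm_norm, inv_mul_cancel₀ (norm_ne_zero_iff.2 (hH p hp))]
  have hsc : 0 ≤ φ - sin φ * cos φ := by
    have h3 : sin φ ≤ φ := Real.sin_le h0
    have h4 : 0 ≤ sin φ := Real.sin_nonneg_of_nonneg_of_le_pi h0 (by linarith [Real.pi_pos])
    nlinarith [Real.cos_le_one φ]
  have h5 : volume (closedBall c R) ≤ volume (reg H) +
      ENNReal.ofReal (H.card * (R ^ 2 * (φ - sin φ * cos φ))) := by
    refine (measure_mono hsub).trans ((measure_union_le _ _).trans ?_)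
    gcongr
    refine (measure_biUnion_finset_le H sg).trans ?_
    rw [Finset.sum_congr rfl hsg, Finset.sum_const, nsmul_eq_mul, ← ENNReal.ofReal_natCast,
      ← ENNReal.ofReal_mul (by positivity)]
  rw [vol_cb c hR.le] at h5
  have h6 : ρ ^ 2 * ((π - H.card * φ + H.card * (sin φ * cos φ)) / cos φ ^ 2) =
      π * R ^ 2 - H.card * (R ^ 2 * (φ - sin φ * cos φ)) := by
    rw [hRd]
    field_simp
    ring
  rw [h6, ENNReal.ofReal_sub _ (by positivity)]
  exact tsub_le_iff_right.2 h5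

theorem line_null {n : E} (hn : n ≠ 0) (t : ℝ) : volume {x : E | inner ℝ n x = t} = 0 := by
  have hpos : 0 < ‖n‖ := norm_pos_iff.2 hn
  let K : Submodule ℝ E := LinearMap.ker (innerSL ℝ n).toLinearMap
  have hK : K ≠ ⊤ := by
    intro h
    have h1 : n ∈ K := by rw [h]; trivial
    have h2 : inner ℝ n n = (0 : ℝ) := h1
    exact hn (inner_self_eq_zero.1 h2)
  have h1 : {x : E | inner ℝ n x = t} = (fun x => x + (-((t / ‖n‖ ^ 2) • n))) ⁻¹' (K : Set E) := by
    ext x
    have h3 : (x + (-((t / ‖n‖ ^ 2) • n)) ∈ K) ↔ inner ℝ n (x + (-((t / ‖n‖ ^ 2) • n))) = (0 : ℝ) :=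
      Iff.rfl
    have h4 : inner ℝ n (x + (-((t / ‖n‖ ^ 2) • n))) = (inner ℝ n x - t : ℝ) := by
      rw [inner_add_right, inner_neg_right, inner_smul_right, real_inner_self_eq_norm_sq]
      field_simp
      ring
    simp only [Set.mem_preimage, SetLike.mem_coe, h3, h4, Set.mem_setOf_eq]
    constructor <;> intro h <;> linarith
  rw [h1, measure_preimage_add_right]
  exact Measure.addHaar_submodule _ K hK

theorem ball_side {n c : E} {ρ t : ℝ} (h : ∀ x ∈ ball c ρ, inner ℝ n x ≠ t) :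
    closedBall c ρ ⊆ {x | inner ℝ n x ≤ t} ∨ closedBall c ρ ⊆ {x | t ≤ inner ℝ n x} := by
  have key : ∀ (m : E) (s : ℝ), (∀ x ∈ ball c ρ, inner ℝ m x ≠ s) → inner ℝ m c ≤ s →
      closedBall c ρ ⊆ {x | inner ℝ m x ≤ s} := by
    intro m s hs hcs x hx
    by_contra hcon
    have hcon' : s < inner ℝ m x := not_le.1 hcon
    have hd : 0 < inner ℝ m x - inner ℝ m c := by linarith
    have hρ : 0 ≤ ρ := dist_nonneg.trans hx
    set l := (s - inner ℝ m c) / (inner ℝ m x - inner ℝ m c) with hl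
    have hl0 : 0 ≤ l := div_nonneg (by linarith) hd.le
    have hl1 : l < 1 := by rw [hl, div_lt_one hd]; linarith
    rcases hρ.lt_or_eq with hρ | hρ
    · have hy : c + l • (x - c) ∈ ball c ρ := by
        rw [mem_ball, dist_eq_norm, add_sub_cancel_left, norm_smul, Real.norm_eq_abs,
          abs_of_nonneg hl0]
        have h2 : ‖x - c‖ ≤ ρ := by rw [← dist_eq_norm]; exact hx
        calc l * ‖x - c‖ ≤ l * ρ := mul_le_mul_of_nonneg_left h2 hl0
          _ < 1 * ρ := mul_lt_mul_of_pos_right hl1 hρ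
          _ = ρ := one_mul ρ
      apply hs _ hy
      rw [inner_add_right, inner_smul_right, inner_sub_right, hl, div_mul_cancel₀ _ hd.ne']
      ring
    · have h3 : x = c := by
        rw [← hρ, closedBall_zero] at hx
        exact hx
      rw [h3] at hcon'
      linarith
  rcases le_total (inner ℝ n c) t with h1 | h1
  · exact Or.inl (key n t h h1)
  · right
    have h2 := key (-n) (-t) (fun x hx he => h x hx (by
      rw [inner_neg_left] at he; linarith)) (by rw [inner_neg_left]; linarith)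
    intro x hx
    have h3 := h2 hx
    simp only [Set.mem_setOf_eq, inner_neg_left] at h3 ⊢
    linarith

theorem not_both {n c : E} {ρ t : ℝ} (hn : n ≠ 0) (hρ : 0 < ρ)
    (h1 : closedBall c ρ ⊆ {x | inner ℝ n x ≤ t}) (h2 : closedBall c ρ ⊆ {x | t ≤ inner ℝ n x}) :
    False := by
  have h3 := ball_le hn hρ.le h1
  have h4 : t ≤ inner ℝ n c := h2 (mem_closedBall_self hρ.le)
  have hpos : 0 < ‖n‖ := norm_pos_iff.2 hn
  nlinarith [mul_pos hρ hpos]

/-- binary space partitions: `x ∑ r² ≤ area + κ (m - 4)` for discs in an intersection of `m` half planes that can be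
separated by lines -/
theorem bsp {ι : Type*} (c : ι → E) (r : ι → ℝ) (hr : ∀ i, 0 < r i) (x κ : ℝ) (hκ : 0 ≤ κ)
    (hface : ∀ (H : Finset (E × ℝ)) (i : ι), (∀ p ∈ H, p.1 ≠ 0) → closedBall (c i) (r i) ⊆ reg H →
      ENNReal.ofReal (x * r i ^ 2 - κ * ((H.card : ℝ) - 4)) ≤ volume (reg H)) (s : Finset ι) :
    s.Nonempty → (∀ i ∈ s, ∀ j ∈ s, i ≠ j → ∃ (n : E) (t : ℝ), n ≠ 0 ∧
      closedBall (c i) (r i) ⊆ {x | inner ℝ n x ≤ t} ∧ closedBall (c j) (r j) ⊆ {x | t ≤ inner ℝ n x} ∧
      ∀ l ∈ s, closedBall (c l) (r l) ⊆ {x | inner ℝ n x ≤ t} ∨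
        closedBall (c l) (r l) ⊆ {x | t ≤ inner ℝ n x}) →
    ∀ H : Finset (E × ℝ), (∀ p ∈ H, p.1 ≠ 0) → (∀ i ∈ s, closedBall (c i) (r i) ⊆ reg H) →
      ENNReal.ofReal (x * ∑ i ∈ s, r i ^ 2 - κ * ((H.card : ℝ) - 4)) ≤ volume (reg H) := by
  classical
  induction s using Finset.strongInduction with
  | H s ih =>
    intro hne hsep H hH hs
    by_cases hone : ∀ i ∈ s, ∀ j ∈ s, i = j
    · obtain ⟨i, hi⟩ := hne
      have h1 : s = {i} := by
        ext j
        rw [Finset.mem_singleton]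
        exact ⟨fun hj => hone j hj i hi, fun h => h ▸ hi⟩
      rw [h1, Finset.sum_singleton]
      exact hface H i hH (hs i hi)
    · push Not at hone
      obtain ⟨i, hi, j, hj, hij⟩ := hone
      obtain ⟨n, t, hn, h1, h2, h3⟩ := hsep i hi j hj hij
      let P : ι → Prop := fun l => closedBall (c l) (r l) ⊆ {x | inner ℝ n x ≤ t}
      have hci : c i ∈ closedBall (c i) (r i) := mem_closedBall_self (hr i).le
      have hcj : c j ∈ closedBall (c j) (r j) := mem_closedBall_self (hr j).le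
      obtain ⟨H₁, H₂, hH₁, hH₂, e₁, e₂, hcard⟩ := cut H hH hn t ⟨c i, hs i hi hci, h1 hci⟩
        ⟨c j, hs j hj hcj, h2 hcj⟩
      have hPj : ¬ P j := fun h => not_both hn (hr j) h h2
      have hP2 : ∀ l ∈ s, ¬ P l → closedBall (c l) (r l) ⊆ {x | t ≤ inner ℝ n x} := by
        intro l hl hPl
        rcases h3 l hl with h | h
        · exact absurd h hPl
        · exact h
      have hs1 : s.filter P ⊂ s := by
        refine Finset.filter_ssubset.2 ⟨j, hj, hPj⟩
      have hs2 : s.filter (fun l => ¬ P l) ⊂ s := by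
        refine Finset.filter_ssubset.2 ⟨i, hi, fun h => h h1⟩
      have hsepr : ∀ T ⊆ s, ∀ i ∈ T, ∀ j ∈ T, i ≠ j → ∃ (n : E) (t : ℝ), n ≠ 0 ∧
          closedBall (c i) (r i) ⊆ {x | inner ℝ n x ≤ t} ∧
          closedBall (c j) (r j) ⊆ {x | t ≤ inner ℝ n x} ∧
          ∀ l ∈ T, closedBall (c l) (r l) ⊆ {x | inner ℝ n x ≤ t} ∨
            closedBall (c l) (r l) ⊆ {x | t ≤ inner ℝ n x} := by
        intro T hT i hi j hj hij
        obtain ⟨n, t, a, b, d, e⟩ := hsep i (hT hi) j (hT hj) hij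
        exact ⟨n, t, a, b, d, fun l hl => e l (hT hl)⟩
      have i1 := ih _ hs1 ⟨i, Finset.mem_filter.2 ⟨hi, h1⟩⟩ (hsepr _ (Finset.filter_subset _ _)) H₁ hH₁
        (by
          intro l hl
          rw [Finset.mem_filter] at hl
          rw [e₁]
          exact Set.subset_inter (hs l hl.1) hl.2)
      have i2 := ih _ hs2 ⟨j, Finset.mem_filter.2 ⟨hj, hPj⟩⟩ (hsepr _ (Finset.filter_subset _ _)) H₂ hH₂
        (by
          intro l hl
          rw [Finset.mem_filter] at hl
          rw [e₂]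
          exact Set.subset_inter (hs l hl.1) (hP2 l hl.1 hl.2))
      have hvol : volume (reg H₁) + volume (reg H₂) ≤ volume (reg H) := by
        have hm : MeasurableSet {x : E | inner ℝ n x ≤ t} :=
          (isClosed_le (continuous_const.inner continuous_id) continuous_const).measurableSet
        have h5 : volume (reg H₂) ≤ volume (reg H \ {x : E | inner ℝ n x ≤ t}) := by
          have h6 : reg H₂ ⊆ (reg H \ {x : E | inner ℝ n x ≤ t}) ∪ {x : E | inner ℝ n x = t} := by
            rw [e₂]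
            rintro y ⟨hy1, hy2⟩
            by_cases hyt : inner ℝ n y ≤ t
            · exact Or.inr (le_antisymm hyt hy2)
            · exact Or.inl ⟨hy1, hyt⟩
          calc volume (reg H₂) ≤ _ := measure_mono h6
            _ ≤ _ := measure_union_le _ _
            _ = _ := by rw [line_null hn t, add_zero]
        calc volume (reg H₁) + volume (reg H₂)
            ≤ volume (reg H ∩ {x : E | inner ℝ n x ≤ t}) + volume (reg H \ {x : E | inner ℝ n x ≤ t}) := by
              rw [e₁]; gcongr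
          _ = volume (reg H) := measure_inter_add_sdiff _ hm
      refine le_trans ?_ ((add_le_add i1 i2).trans hvol)
      refine le_trans (ENNReal.ofReal_le_ofReal ?_) ENNReal.ofReal_add_le
      have hsum : ∑ l ∈ s, r l ^ 2 = ∑ l ∈ s.filter P, r l ^ 2 + ∑ l ∈ s.filter (fun l => ¬ P l), r l ^ 2 :=
        (Finset.sum_filter_add_sum_filter_not s P _).symm
      have hcr : (H₁.card : ℝ) + H₂.card ≤ H.card + 4 := by exact_mod_cast hcard
      rw [hsum]
      nlinarith [mul_nonneg hκ (sub_nonneg.2 hcr)]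

end Pool.Agent.H79.TS
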