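import Pool.Agent.H79.TS.Theta
import Pool.Agent.H79.TS.Rig0

/-!
# ROW G1: structure at a boundary point with good neighbours (about 130 lines)

PROOF.
By `theta` (for `h`) and `theta` for `h.swap : Cfg b a g u` (hypotheses with `W_swap`: `W b a g u (!κ) = W a b g u κ`): for a.e. `t`: `x + c t * a ∉ Z u` and `x + c t * b ∉ Z u`, i.e. these points are in `U u true ∪ U u false`.
`α t := 1` if `x + c t * a ∈ U u true` and `0` otherwise; `β t := 1` if `x + c t * b ∈ U u false` and `0` otherwise (measurable: preimages of open sets).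
`star h true x _` (types 0, 1; `c t * (b * c σ) = c (t + σ) * b`): if `α t = 1` then `x + c (t + σ) * b ∉ U u true` for `σ = ± g true`, so it is in `U u false` (a.e. `t`): `α t ≤ β (t + σ)`.
`star h false x _`: if `x + c (t + σ) * b ∈ U u false`, `σ = ± g false`, then `x + c t * a ∉ U u false`, so it is in `U u true`: `β (t + σ) ≤ α t`.  `rig0`: `α = β = κ₀` a.e.
If `κ₀ = 1`: `κ := true`; a.e. `t`: `x + c t * a ∈ U u true`, `x + c t * b ∈ U u false`.  If `κ₀ = 0`: `κ := false`: a.e. `x + c t * a ∈ U u false`, `x + c t * b ∈ U u true`.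
`x ∈ W κ`: (1) if `‖z - x‖ = a`, `z ∈ U u (!κ)`: `z = x + c t₀ * a` (`exists_pt`), the set of `t` with `x + c t * a ∈ U u (!κ)` is open, nonempty, so (`exists_open`) it contains a `t` with `x + c t * a ∈ U u κ`; `U_disj`.  (2) the same for `b`.
(3) `‖z - x‖ = cc a b (g e)`, `z ∈ U u e`.  If `e = κ`: `z = x + c t₀ * (b * c (g e) - a)`; for `t` near `t₀` `x + c t * (b * c (g e) - a) ∈ U u e`, and for a.e. `t` `x + c t * (-a) ∈ U u κ` (`ae_rot`): contradiction to `star h e x _ 2 t`.
If `e = !κ`: `z = x + c t₀ * (a - b * c (g e))`, `x + c t * (-(b * c (g e))) ∈ U u (!κ)` for a.e. `t` (`ae_rot` from the circle of radius `b`): `star h e x _ 4 t`.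
-/

set_option autoImplicit false

namespace Pool.Agent.H79.TS

open MeasureTheory Filter Topology Pool.Agent.H93.EG

private theorem G1_notU {u : ℂ → ℝ} {x : ℂ} (hx : x ∈ Z u) (e : Bool) : x ∉ U u e := by
  cases e
  · exact hx.2
  · exact hx.1

private theorem G1_open (u : ℂ → ℝ) (e : Bool) (x d : ℂ) :
    IsOpen {t : UnitAddCircle | x + c t * d ∈ U u e} :=
  (U_open u e).preimage (continuous_const.add (continuous_c.mul continuous_const))

private theorem G1_mem {u : ℂ → ℝ} {y : ℂ} (h : y ∉ Z u) (e : Bool) (h' : y ∉ U u (!e)) :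
    y ∈ U u e := by
  by_contra hn
  apply h
  cases e
  · exact ⟨h', hn⟩
  · exact ⟨hn, h'⟩

private theorem G1_W {a b : ℝ} {g : Bool → UnitAddCircle} {u : ℂ → ℝ} (h : Cfg a b g u)
    (x : ℂ) (hx : x ∈ Z u) (κ : Bool) (HA : ∀ᵐ t : UnitAddCircle, x + c t * a ∈ U u κ)
    (HB : ∀ᵐ t : UnitAddCircle, x + c t * b ∈ U u (!κ)) : x ∈ W a b g u κ := by
  have na : ‖(a : ℂ)‖ = a := by
    rw [Complex.norm_real, Real.norm_of_nonneg h.ha.le]
  have nb : ‖(b : ℂ)‖ = b := by
    rw [Complex.norm_real, Real.norm_of_nonneg h.hb.le]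
  refine ⟨?_, ?_, ?_⟩
  · intro z hz hzU
    obtain ⟨t0, rfl⟩ := exists_pt x (a : ℂ) z (by rw [hz, na])
    obtain ⟨t, ht, ht'⟩ := exists_open HA _ (G1_open u (!κ) x a) ⟨t0, hzU⟩
    exact U_disj u κ _ ht' ht
  · intro z hz hzU
    obtain ⟨t0, rfl⟩ := exists_pt x (b : ℂ) z (by rw [hz, nb])
    obtain ⟨t, ht, ht'⟩ := exists_open HB _ (G1_open u κ x b) ⟨t0, hzU⟩
    exact U_disj u κ _ ht ht'
  · intro e z hz hzU
    by_cases he : e = κ
    · subst he
      obtain ⟨t0, rfl⟩ := exists_pt x ((b : ℂ) * c (g e) - a) z hz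
      have HA' : ∀ᵐ t : UnitAddCircle, x + c t * (-(a : ℂ)) ∈ U u e :=
        ae_rot x (a : ℂ) (-(a : ℂ)) (norm_neg _).symm HA
      obtain ⟨t, ht, ht'⟩ := exists_open HA' _ (G1_open u e x ((b : ℂ) * c (g e) - a)) ⟨t0, hzU⟩
      exact star h e x (G1_notU hx _) 2 t ⟨ht', ht⟩
    · have he' : e = !κ := by
        cases e <;> cases κ <;> simp_all
      subst he'
      have hz' : ‖z - x‖ = ‖(a : ℂ) - b * c (g (!κ))‖ := by
        rw [hz, norm_sub_rev]
        rfl
      obtain ⟨t0, rfl⟩ := exists_pt x ((a : ℂ) - b * c (g (!κ))) z hz'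
      have HB' : ∀ᵐ t : UnitAddCircle, x + c t * (-((b : ℂ) * c (g (!κ)))) ∈ U u (!κ) :=
        ae_rot x (b : ℂ) (-((b : ℂ) * c (g (!κ)))) (by
          rw [norm_neg, norm_mul, norm_c, mul_one]) HB
      obtain ⟨t, ht, ht'⟩ := exists_open HB' _
        (G1_open u (!κ) x ((a : ℂ) - b * c (g (!κ)))) ⟨t0, hzU⟩
      exact star h (!κ) x (G1_notU hx _) 4 t ⟨ht', ht⟩

theorem G1 {a b : ℝ} {g : Bool → UnitAddCircle} {u : ℂ → ℝ} (h : Cfg a b g u)
    (x : ℂ) (hx : x ∈ Z u)
    (hWa : ∀ᵐ t : UnitAddCircle, x + c t * a ∈ Z u → ∃ κ, x + c t * a ∈ W a b g u κ)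
    (hWb : ∀ᵐ t : UnitAddCircle, x + c t * b ∈ Z u → ∃ κ, x + c t * b ∈ W a b g u κ) :
    ∃ κ : Bool, x ∈ W a b g u κ ∧ (∀ᵐ t : UnitAddCircle, x + c t * a ∈ U u κ) ∧
      ∀ᵐ t : UnitAddCircle, x + c t * b ∈ U u (!κ) := by
  have hA : ∀ᵐ t : UnitAddCircle, x + c t * a ∉ Z u := theta h x hx hWa hWb
  have hB : ∀ᵐ t : UnitAddCircle, x + c t * b ∉ Z u := by
    refine theta h.swap x hx ?_ ?_
    · filter_upwards [hWb] with t ht hz
      obtain ⟨κ, hκ⟩ := ht hz
      exact ⟨!κ, by rw [W_swap]; exact hκ⟩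
    · filter_upwards [hWa] with t ht hz
      obtain ⟨κ, hκ⟩ := ht hz
      exact ⟨!κ, by rw [W_swap]; exact hκ⟩
  have e1 : ∀ t σ : UnitAddCircle, x + c t * ((b : ℂ) * c σ) = x + c (t + σ) * b := by
    intro t σ
    rw [c_add]
    ring
  set A : Set UnitAddCircle := {t | x + c t * a ∈ U u true} with hAdef
  set B : Set UnitAddCircle := {t | x + c t * b ∈ U u false} with hBdef
  have mA : MeasurableSet A := (G1_open u true x a).measurableSet
  have mB : MeasurableSet B := (G1_open u false x b).measurableSet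
  have ind01 : ∀ (S : Set UnitAddCircle) (t : UnitAddCircle),
      |S.indicator (fun _ => (1 : ℝ)) t| ≤ 1 := by
    intro S t
    by_cases ht : t ∈ S
    · rw [Set.indicator_of_mem ht, abs_one]
    · rw [Set.indicator_of_notMem ht, abs_zero]
      exact zero_le_one
  have indle : ∀ (S T : Set UnitAddCircle) (t s : UnitAddCircle), (t ∈ S → s ∈ T) →
      S.indicator (fun _ => (1 : ℝ)) t ≤ T.indicator (fun _ => (1 : ℝ)) s := by
    intro S T t s hst
    by_cases ht : t ∈ S
    · rw [Set.indicator_of_mem ht, Set.indicator_of_mem (hst ht)]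
    · rw [Set.indicator_of_notMem ht]
      exact Set.indicator_nonneg (fun _ _ => zero_le_one) s
  have q0 : ∀ (e : Bool) (t : UnitAddCircle), x + c t * a ∈ U u e →
      x + c (t + g e) * b ∉ U u e := by
    intro e t h1 h2
    refine star h e x (G1_notU hx _) 0 t ⟨h1, ?_⟩
    show x + c t * ((b : ℂ) * c (g e)) ∈ U u e
    rw [e1]
    exact h2
  have q1 : ∀ (e : Bool) (t : UnitAddCircle), x + c t * a ∈ U u e →
      x + c (t + -(g e)) * b ∉ U u e := by
    intro e t h1 h2
    refine star h e x (G1_notU hx _) 1 t ⟨h1, ?_⟩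
    show x + c t * ((b : ℂ) * c (-(g e))) ∈ U u e
    rw [e1]
    exact h2
  obtain ⟨κ₀, hα, hβ⟩ := rig0 g h.erg (A.indicator fun _ => (1 : ℝ)) (B.indicator fun _ => (1 : ℝ))
    (measurable_const.indicator mA) (measurable_const.indicator mB) (ind01 A) (ind01 B)
    (by
      filter_upwards [ae_shift hB (g true)] with t ht
      exact indle A B t _ fun h1 => G1_mem ht false (q0 true t h1))
    (by
      filter_upwards [ae_shift hB (-(g true))] with t ht
      exact indle A B t _ fun h1 => G1_mem ht false (q1 true t h1))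
    (by
      filter_upwards [hA] with t ht
      refine indle B A _ t fun h1 => G1_mem ht true fun h2 => q0 false t h2 h1)
    (by
      filter_upwards [hA] with t ht
      refine indle B A _ t fun h1 => G1_mem ht true fun h2 => q1 false t h2 h1)
  have h01 : κ₀ = 1 ∨ κ₀ = 0 := by
    obtain ⟨t, _, ht⟩ := exists_open hα Set.univ isOpen_univ ⟨0, trivial⟩
    by_cases h1 : t ∈ A
    · left
      rw [Set.indicator_of_mem h1] at ht
      exact ht.symm
    · right
      rw [Set.indicator_of_notMem h1] at ht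
      exact ht.symm
  rcases h01 with h1 | h1
  · have HA : ∀ᵐ t : UnitAddCircle, x + c t * a ∈ U u true := by
      filter_upwards [hα] with t ht
      by_contra hn
      have h2 : t ∉ A := hn
      rw [Set.indicator_of_notMem h2, h1] at ht
      exact zero_ne_one ht
    have HB : ∀ᵐ t : UnitAddCircle, x + c t * b ∈ U u (!true) := by
      filter_upwards [hβ] with t ht
      by_contra hn
      have h2 : t ∉ B := hn
      rw [Set.indicator_of_notMem h2, h1] at ht
      exact zero_ne_one ht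
    exact ⟨true, G1_W h x hx true HA HB, HA, HB⟩
  · have HA : ∀ᵐ t : UnitAddCircle, x + c t * a ∈ U u false := by
      filter_upwards [hα, hA] with t ht hz
      refine G1_mem hz false fun h2 => ?_
      have h3 : t ∈ A := h2
      rw [Set.indicator_of_mem h3, h1] at ht
      exact one_ne_zero ht
    have HB : ∀ᵐ t : UnitAddCircle, x + c t * b ∈ U u (!false) := by
      filter_upwards [hβ, hB] with t ht hz
      refine G1_mem hz true fun h2 => ?_
      have h3 : t ∈ B := h2
      rw [Set.indicator_of_mem h3, h1] at ht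
      exact one_ne_zero ht
    exact ⟨false, G1_W h x hx false HA HB, HA, HB⟩

end Pool.Agent.H79.TS
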