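import Pool.Agent.H79.TS.CircK

/-!
# ROW ZW: almost every boundary point is in one of the closed sets W (about 130 lines)

PROOF.
Take `x ∈ Z u` and `κ` as in `circK` (only the two statements on `R` are used).  Let `x n → x` be the sequence of `lim_pts h e x _` (for the `e` indicated; `x ∉ U u (!e)` as `x ∈ Z u`).
(1) Let `‖z - x‖ = a`, `z ∈ U u (!κ)`; `z = x + c t₀ * a` (`exists_pt`).  Use `e = true`.  The set of `t` with `x + c t * a ∈ U u (!κ)` is open and contains `t₀`; choose (`exists_open`) such a `t` satisfying the a.e. conditions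
(countably many `n`): `¬ R .. (!κ) (x + c t * a)`, so eventually `u (x n + c t * a) = - se (!κ) = se κ`; and for every `n`: `x n + c t * a ∈ U u (!κ) → u (x n + c t * a) = se (!κ)`.  `x n + c t * a → x + c t * a ∈ U u (!κ)` (open), so for large `n`
`u (x n + c t * a) = se (!κ) = - se κ`; contradiction (`se κ ≠ 0`).
(2) `‖z - x‖ = b`, `z ∈ U u κ`: the same with `¬ R .. κ (x + c t * b)`, `u (x n + c t * b) = - se κ` and `= se κ`.
(3) `‖z - x‖ = cc a b (g e)`, `z ∈ U u e`.  Case `e = κ`: `z = x + c t₀ * (b * c (g e) - a)`; `lim_pts h e x`; type 2 of `R .. e (x n)`: for a.e. `t`: `se e * (u (x n + c t * (-a)) + u (x n + c t * (b * c (g e) - a))) ≤ 0`.  For a.e. `t`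
(`ae_rot`: `‖-a‖ = ‖a‖`): eventually `u (x n + c t * (-a)) = - se (!κ) = se e`; and for `t` near `t₀`, `n` large, `x n + c t * (b c (g e) - a) ∈ U u e` and (third clause of `lim_pts`, `ae_rot` from the radius `cc a b (g e)`) `u (..) = se e`: `2 ≤ 0`.
To use `ae_rot` for the eventual statement apply it to the property `P w := (¬ R .. (!κ) w → ∀ᶠ n, u (x n + (w - x)) = se e)` with `y = x`.
Case `e = !κ`: `z = x + c t₀ * (a - b * c (g e))`; type 4: `se e * (u (x n + c t * (-(b * c (g e)))) + u (x n + c t * (a - b * c (g e)))) ≤ 0`; for a.e. `t` eventually `u (x n + c t * (-(b * c (g e)))) = - se κ = se e` (from `¬ R .. κ` on the circle of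
radius `b`), and the second value is `se e` as before: `2 ≤ 0`.
-/

set_option autoImplicit false

namespace Pool.Agent.H79.TS

open MeasureTheory Filter Topology Pool.Agent.H93.EG

private theorem ZW_notU {u : ℂ → ℝ} {x : ℂ} (hZ : x ∈ Z u) (e : Bool) : x ∉ U u (!e) := by
  cases e
  · exact hZ.1
  · exact hZ.2

private theorem ZW_open (u : ℂ → ℝ) (e : Bool) (x q : ℂ) :
    IsOpen {t : UnitAddCircle | x + c t * q ∈ U u e} :=
  (U_open u e).preimage (continuous_const.add (continuous_c.mul continuous_const))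

private theorem ZW_norm {r : ℝ} (hr : 0 < r) : ‖(r : ℂ)‖ = r := by
  rw [Complex.norm_real, Real.norm_eq_abs, abs_of_pos hr]

private theorem ZW_one {a b : ℝ} {g : Bool → UnitAddCircle} {u : ℂ → ℝ} (h : Cfg a b g u)
    {x : ℂ} (hZ : x ∈ Z u) (e' : Bool) (r : ℝ) (hr : r = a ∨ r = b) (hr0 : 0 < r)
    (hA : ∀ᵐ t : UnitAddCircle, ¬ R a b g u e' (x + c t * r)) (z : ℂ) (hz : ‖z - x‖ = r) :
    z ∉ U u e' := by
  intro hzU
  obtain ⟨xs, hlim, -, h3, h4⟩ := lim_pts h true x (ZW_notU hZ true)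
  obtain ⟨t0, ht0⟩ := exists_pt x (r : ℂ) z (by rw [hz, ZW_norm hr0])
  have hr' : r = a ∨ r = b ∨ r = cc a b (g true) ∨ r = cc a b (g false) :=
    hr.elim Or.inl fun h5 => Or.inr (Or.inl h5)
  have hall : ∀ᵐ t : UnitAddCircle, (¬ R a b g u e' (x + c t * r)) ∧
      (¬ R a b g u e' (x + c t * r) → ∀ᶠ n in atTop, u (xs n + c t * r) = - se e') ∧
      ∀ n, xs n + c t * r ∈ U u e' → u (xs n + c t * r) = se e' := by
    have h5 : ∀ᵐ t : UnitAddCircle, ∀ n, xs n + c t * r ∈ U u e' → u (xs n + c t * r) = se e' :=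
      ae_all_iff.mpr fun n => h3 n e' r hr'
    filter_upwards [hA, h4 e' r hr, h5] with t h6 h7 h8
    exact ⟨h6, h7, h8⟩
  obtain ⟨t, htO, h6, h7, h8⟩ := exists_open hall {t | x + c t * (r : ℂ) ∈ U u e'}
    (ZW_open u e' x r) ⟨t0, by rw [Set.mem_ofPred_eq, ← ht0]; exact hzU⟩
  have h9 : ∀ᶠ n in atTop, xs n + c t * r ∈ U u e' :=
    (hlim.add_const (c t * (r : ℂ))).eventually ((U_open u e').mem_nhds htO)
  obtain ⟨n, hn1, hn2⟩ := ((h7 h6).and h9).exists
  have h10 := h8 n hn2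
  rw [hn1] at h10
  rcases se_cases e' with h11 | h11 <;> rw [h11] at h10 <;> norm_num at h10

private theorem ZW_three {a b : ℝ} {g : Bool → UnitAddCircle} {u : ℂ → ℝ} (h : Cfg a b g u)
    {x : ℂ} (hZ : x ∈ Z u) (e : Bool) (r : ℝ) (hr : r = a ∨ r = b)
    (hA : ∀ᵐ t : UnitAddCircle, ¬ R a b g u (!e) (x + c t * r)) (i : Fin 6)
    (hp : ‖(r : ℂ)‖ = ‖(ty a b (g e) i).1‖) (hq : cc a b (g e) = ‖(ty a b (g e) i).2‖)
    (z : ℂ) (hz : ‖z - x‖ = cc a b (g e)) : z ∉ U u e := by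
  intro hzU
  obtain ⟨xs, hlim, hR, h3, h4⟩ := lim_pts h e x (ZW_notU hZ e)
  obtain ⟨t0, ht0⟩ := exists_pt x (ty a b (g e) i).2 z (by rw [hz, hq])
  have hcc : 0 < cc a b (g e) := h.cc_pos e
  have hc' : cc a b (g e) = a ∨ cc a b (g e) = b ∨ cc a b (g e) = cc a b (g true) ∨
      cc a b (g e) = cc a b (g false) := by
    cases e
    · exact Or.inr (Or.inr (Or.inr rfl))
    · exact Or.inr (Or.inr (Or.inl rfl))
  have k1 : ∀ᵐ t : UnitAddCircle,
      ∀ᶠ n in atTop, u (xs n + (x + c t * (ty a b (g e) i).1 - x)) = se e := by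
    refine ae_rot (P := fun w => ∀ᶠ n in atTop, u (xs n + (w - x)) = se e) x (r : ℂ) _ hp ?_
    filter_upwards [hA, h4 (!e) r hr] with t h5 h6
    have h7 := h6 h5
    rw [se_not, neg_neg] at h7
    rw [add_sub_cancel_left]
    exact h7
  have k2 : ∀ᵐ t : UnitAddCircle, ∀ n, xs n + c t * (ty a b (g e) i).2 ∈ U u e →
      u (xs n + c t * (ty a b (g e) i).2) = se e := by
    refine ae_all_iff.mpr fun n => ?_
    exact ae_rot (P := fun w => w ∈ U u e → u w = se e) (xs n) ((cc a b (g e) : ℝ) : ℂ) _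
      (by rw [ZW_norm hcc, hq]) (h3 n e _ hc')
  have k3 : ∀ᵐ t : UnitAddCircle, ∀ n, se e * (u (xs n + c t * (ty a b (g e) i).1) +
      u (xs n + c t * (ty a b (g e) i).2)) ≤ 0 := ae_all_iff.mpr fun n => hR n i
  have hall : ∀ᵐ t : UnitAddCircle,
      (∀ᶠ n in atTop, u (xs n + (x + c t * (ty a b (g e) i).1 - x)) = se e) ∧
      (∀ n, xs n + c t * (ty a b (g e) i).2 ∈ U u e →
        u (xs n + c t * (ty a b (g e) i).2) = se e) ∧
      ∀ n, se e * (u (xs n + c t * (ty a b (g e) i).1) +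
        u (xs n + c t * (ty a b (g e) i).2)) ≤ 0 := by
    filter_upwards [k1, k2, k3] with t h5 h6 h7
    exact ⟨h5, h6, h7⟩
  obtain ⟨t, htO, h5, h6, h7⟩ := exists_open hall {t | x + c t * (ty a b (g e) i).2 ∈ U u e}
    (ZW_open u e x _) ⟨t0, by rw [Set.mem_ofPred_eq, ← ht0]; exact hzU⟩
  have h9 : ∀ᶠ n in atTop, xs n + c t * (ty a b (g e) i).2 ∈ U u e :=
    (hlim.add_const (c t * (ty a b (g e) i).2)).eventually ((U_open u e).mem_nhds htO)
  obtain ⟨n, hn1, hn2⟩ := (h5.and h9).exists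
  have h10 := h6 n hn2
  have h11 := h7 n
  rw [add_sub_cancel_left] at hn1
  rw [hn1, h10] at h11
  have h12 := se_mul_self e
  nlinarith

theorem ZW {a b : ℝ} {g : Bool → UnitAddCircle} {u : ℂ → ℝ} (h : Cfg a b g u) :
    ∀ᵐ x : ℂ, x ∈ Z u → ∃ κ : Bool, x ∈ W a b g u κ := by
  filter_upwards [circK h] with x hx hZ
  obtain ⟨κ, hA, hB, -, -⟩ := hx hZ
  refine ⟨κ, fun z hz => ZW_one h hZ (!κ) a (Or.inl rfl) h.ha hA z hz,
    fun z hz => ZW_one h hZ κ b (Or.inr rfl) h.hb hB z hz, fun e z hz => ?_⟩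
  by_cases he : e = κ
  · subst he
    refine ZW_three h hZ e a (Or.inl rfl) hA 2 ?_ rfl z hz
    exact (norm_neg _).symm
  · have hκ : κ = !e := by
      revert he
      cases e <;> cases κ <;> simp
    rw [hκ] at hB
    refine ZW_three h hZ e b (Or.inr rfl) hB 4 ?_ ?_ z hz
    · show ‖(b : ℂ)‖ = ‖-((b : ℂ) * c (g e))‖
      rw [norm_neg, norm_mul, norm_c, mul_one]
    · show ‖(b : ℂ) * c (g e) - a‖ = ‖(a : ℂ) - b * c (g e)‖
      rw [norm_sub_rev]

end Pool.Agent.H79.TS
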