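import Pool.Agent.H79.TS.G1
import Pool.Agent.H79.TS.ZW

/-!
# ROW G3: structure at every boundary point (about 40 lines)

PROOF.
(A) For every `x` and `r ∈ {a, b}`: for a.e. `t`: if `y := x + c t * r ∈ Z u` then `∃ κ, y ∈ W κ`.  Indeed by `ZW` and `ae_circ2` (multipliers `r` and `a`, resp. `r` and `b`, all nonzero): for a.e. `t`, for a.e. `s`:
`x + c t * r + c s * a ∈ Z u → ∃ κ, .. ∈ W κ` and the same with `c s * b`.  So for a.e. `t`, if `y ∈ Z u` then the hypotheses of `G1` hold for `y`, hence `y ∈ W κ` for some `κ`.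
(B) By (A) the hypotheses of `G1` hold for every `x ∈ Z u`.
-/

set_option autoImplicit false

namespace Pool.Agent.H79.TS

open MeasureTheory Filter Topology Pool.Agent.H93.EG

private theorem G3_good {a b : ℝ} {g : Bool → UnitAddCircle} {u : ℂ → ℝ} (h : Cfg a b g u)
    (x : ℂ) (r : ℝ) (hr : 0 < r) :
    ∀ᵐ t : UnitAddCircle, x + c t * r ∈ Z u → ∃ κ, x + c t * r ∈ W a b g u κ := by
  have hrc : (r : ℂ) ≠ 0 := by exact_mod_cast hr.ne'
  have hac : (a : ℂ) ≠ 0 := by exact_mod_cast h.ha.ne'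
  have hbc : (b : ℂ) ≠ 0 := by exact_mod_cast h.hb.ne'
  filter_upwards [ae_circ2 (ZW h) x (r : ℂ) (a : ℂ) hrc hac,
    ae_circ2 (ZW h) x (r : ℂ) (b : ℂ) hrc hbc] with t h1 h2 hZ
  obtain ⟨κ, hκ, _⟩ := G1 h (x + c t * r) hZ h1 h2
  exact ⟨κ, hκ⟩

theorem G3 {a b : ℝ} {g : Bool → UnitAddCircle} {u : ℂ → ℝ} (h : Cfg a b g u)
    (x : ℂ) (hx : x ∈ Z u) :
    ∃ κ : Bool, x ∈ W a b g u κ ∧ (∀ᵐ t : UnitAddCircle, x + c t * a ∈ U u κ) ∧
      ∀ᵐ t : UnitAddCircle, x + c t * b ∈ U u (!κ) :=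
  G1 h x hx (G3_good h x a h.ha) (G3_good h x b h.hb)

end Pool.Agent.H79.TS
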