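import Pool.Agent.H93.EGM.Loc
import Pool.Agent.H93.EGM.Weak

/-!
# Two triangles with two common sides: basic definitions of the measurable part

Notation of the note H79_TwoSides.md.  `c t = exp (2 π i t)`, `t` in the circle `UnitAddCircle`
(`Pool.Agent.H93.EG.c`).  Colours are `e : Bool`, `se true = 1`, `se false = -1`.  `a`, `b` are the two
common sides, `g e` is the angle (in turns) between the sides `a` and `b` of the triangle which is
missing in colour `e`.
-/

set_option autoImplicit false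

namespace Pool.Agent.H79.TS

open MeasureTheory Filter Topology Pool.Agent.H93.EG

/-- Sign of a colour. -/
def se (e : Bool) : ℝ := if e then 1 else -1

/-- The six types: the triangle has vertices `x`, `x + c t * p`, `x + c t * q`, and `x` is the vertex
between the sides `a`, `b` (types 0, 1), the other end of `a` (2, 3), the other end of `b` (4, 5). -/
noncomputable def ty (a b : ℝ) (g : UnitAddCircle) : Fin 6 → ℂ × ℂ
  | 0 => ((a : ℂ), (b : ℂ) * c g)
  | 1 => ((a : ℂ), (b : ℂ) * c (-g))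
  | 2 => (-(a : ℂ), (b : ℂ) * c g - a)
  | 3 => (-(a : ℂ), (b : ℂ) * c (-g) - a)
  | 4 => (-((b : ℂ) * c g), (a : ℂ) - b * c g)
  | 5 => (-((b : ℂ) * c (-g)), (a : ℂ) - b * c (-g))

/-- The third side. -/
noncomputable def cc (a b : ℝ) (g : UnitAddCircle) : ℝ := ‖(b : ℂ) * c g - a‖

/-- The constraint of colour `e` holds at `y` for almost every rotation. -/
def R (a b : ℝ) (g : Bool → UnitAddCircle) (u : ℂ → ℝ) (e : Bool) (y : ℂ) : Prop :=
  ∀ i : Fin 6, ∀ᵐ s : UnitAddCircle,
    se e * (u (y + c s * (ty a b (g e) i).1) + u (y + c s * (ty a b (g e) i).2)) ≤ 0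

/-- Both constraints hold at `y`. -/
def Y (a b : ℝ) (g : Bool → UnitAddCircle) (u : ℂ → ℝ) (y : ℂ) : Prop :=
  R a b g u true y ∧ R a b g u false y

/-- The function `u` is almost everywhere equal to `χ` on the circle of radius `r` around `y`. -/
def Cc (u : ℂ → ℝ) (y : ℂ) (r χ : ℝ) : Prop := ∀ᵐ t : UnitAddCircle, u (y + c t * r) = χ

/-- The setting: sides `a, b`, angles `g true`, `g false` (not multiples of a half turn, one of them of
infinite order), a measurable function `u` with values in `{1, -1, 0}`, not almost everywhere zero,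
satisfying the two families of constraints. -/
structure Cfg (a b : ℝ) (g : Bool → UnitAddCircle) (u : ℂ → ℝ) : Prop where
  ha : 0 < a
  hb : 0 < b
  hg : ∀ e, (c (g e)).im ≠ 0
  erg : ∃ e, ∀ n : ℕ, 0 < n → n • g e ≠ 0
  meas : Measurable u
  val : ∀ x, u x = 1 ∨ u x = -1 ∨ u x = 0
  con : ∀ e : Bool, ∀ᵐ x : ℂ, 0 ≤ se e * u x → R a b g u e x
  nz : ¬ ∀ᵐ x : ℂ, u x = 0

/-- The largest open set on which `u` is almost everywhere `se e`. -/
def U (u : ℂ → ℝ) (e : Bool) : Set ℂ := locSet u (se e)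

/-- The boundary set. -/
def Z (u : ℂ → ℝ) : Set ℂ := {x | x ∉ U u true ∧ x ∉ U u false}

/-- The points whose circles of radius `a`, `b`, `cc` avoid the open sets as indicated. -/
def W (a b : ℝ) (g : Bool → UnitAddCircle) (u : ℂ → ℝ) (κ : Bool) : Set ℂ :=
  {x | (∀ z : ℂ, ‖z - x‖ = a → z ∉ U u (!κ)) ∧ (∀ z : ℂ, ‖z - x‖ = b → z ∉ U u κ) ∧
    ∀ (e : Bool) (z : ℂ), ‖z - x‖ = cc a b (g e) → z ∉ U u e}

theorem U_open (u : ℂ → ℝ) (e : Bool) : IsOpen (U u e) := locSet_open u (se e)

theorem Z_closed (u : ℂ → ℝ) : IsClosed (Z u) := by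
  have : Z u = (U u true ∪ U u false)ᶜ := by
    ext x
    simp [Z]
  rw [this]
  exact ((U_open u true).union (U_open u false)).isClosed_compl

theorem se_mul_self (e : Bool) : se e * se e = 1 := by
  cases e <;> norm_num [se]

theorem se_not (e : Bool) : se (!e) = - se e := by
  cases e <;> norm_num [se]

theorem se_cases (e : Bool) : se e = 1 ∨ se e = -1 := by
  cases e <;> norm_num [se]

theorem U_disj (u : ℂ → ℝ) (e : Bool) (x : ℂ) (h : x ∈ U u e) (h' : x ∈ U u (!e)) : False := by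
  obtain ⟨r, hr, h1⟩ := h
  obtain ⟨r', hr', h2⟩ := h'
  have h3 : ∀ᵐ z : ℂ, z ∉ Metric.ball x (min r r') := by
    filter_upwards [h1, h2] with z hz hz' hm
    have e1 := hz (Metric.ball_subset_ball (min_le_left _ _) hm)
    have e2 := hz' (Metric.ball_subset_ball (min_le_right _ _) hm)
    rw [e1, se_not] at e2
    have := se_mul_self e
    have h0 : se e = 0 := by linarith
    rw [h0] at this
    norm_num at this
  have h4 : volume (Metric.ball x (min r r')) = 0 := by
    rw [ae_iff] at h3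
    have e0 : {z : ℂ | ¬ z ∉ Metric.ball x (min r r')} = Metric.ball x (min r r') := by
      ext z
      exact not_not
    rwa [e0] at h3
  exact (Metric.measure_ball_pos volume x (lt_min hr hr')).ne' h4

/-- Almost every point of `U u e` has the value `se e`. -/
theorem U_ae (u : ℂ → ℝ) (e : Bool) : ∀ᵐ x : ℂ, x ∈ U u e → u x = se e := by
  rw [ae_iff]
  refine measure_null_of_locally_null _ (fun x0 hx0 => ?_)
  have hU : x0 ∈ U u e := by
    by_contra hn
    exact hx0 fun h => absurd h hn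
  obtain ⟨r, hr, h⟩ := hU
  refine ⟨{x | ¬ (x ∈ U u e → u x = se e)} ∩ Metric.ball x0 r, ?_, ?_⟩
  · exact inter_mem_nhdsWithin _ (Metric.ball_mem_nhds x0 hr)
  · rw [ae_iff] at h
    refine measure_mono_null ?_ h
    rintro x ⟨hx, hxb⟩ hh
    exact hx fun _ => hh hxb

/-- A point outside `U u e` has points of a non-null set with `u ≠ se e` in every neighbourhood. -/
theorem not_U (u : ℂ → ℝ) (e : Bool) (x : ℂ) (h : x ∉ U u e) (r : ℝ) (hr : 0 < r) :
    ∃ᵐ z : ℂ, z ∈ Metric.ball x r ∧ u z ≠ se e := by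
  rw [Filter.Frequently]
  intro h1
  apply h
  refine ⟨r, hr, ?_⟩
  filter_upwards [h1] with z hz hm
  by_contra hne
  exact hz ⟨hm, hne⟩

theorem exists_c (v : ℂ) (hv : ‖v‖ = 1) : ∃ s : UnitAddCircle, c s = v := by
  have hmem : v ∈ Submonoid.unitSphere ℂ := mem_sphere_zero_iff_norm.mpr hv
  obtain ⟨s, hs⟩ := (AddCircle.homeomorphCircle (T := 1) one_ne_zero).surjective (⟨v, hmem⟩ : Circle)
  refine ⟨s, ?_⟩
  unfold c
  rw [← AddCircle.homeomorphCircle_apply one_ne_zero, hs]

/-- A number of absolute value `‖d‖` is `c s * d`. -/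
theorem exists_rot (d d' : ℂ) (hd : ‖d‖ = ‖d'‖) : ∃ s : UnitAddCircle, d' = c s * d := by
  by_cases h0 : d = 0
  · subst h0
    rw [norm_zero] at hd
    exact ⟨0, by rw [norm_eq_zero.mp hd.symm, mul_zero]⟩
  · obtain ⟨s, hs⟩ := exists_c (d' / d) (by
      rw [norm_div, hd, div_self]
      rw [← hd]
      exact norm_ne_zero_iff.mpr h0)
    exact ⟨s, by rw [hs, div_mul_cancel₀ _ h0]⟩

/-- The statements about circles depend only on the radius. -/
theorem ae_rot {P : ℂ → Prop} (y d d' : ℂ) (hd : ‖d‖ = ‖d'‖)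
    (h : ∀ᵐ t : UnitAddCircle, P (y + c t * d)) : ∀ᵐ t : UnitAddCircle, P (y + c t * d') := by
  obtain ⟨s, rfl⟩ := exists_rot d d' hd
  filter_upwards [ae_shift h s] with t ht
  rwa [c_add, mul_assoc] at ht

/-- Every point at distance `‖d‖` from `y` is `y + c t * d`. -/
theorem exists_pt (y d z : ℂ) (hz : ‖z - y‖ = ‖d‖) : ∃ t : UnitAddCircle, z = y + c t * d := by
  obtain ⟨s, hs⟩ := exists_rot d (z - y) hz.symm
  exact ⟨s, by rw [← hs]; ring⟩

theorem norm_ct (t : UnitAddCircle) (d : ℂ) : ‖c t * d‖ = ‖d‖ := by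
  rw [norm_mul, norm_c, one_mul]

theorem c_neg (t : UnitAddCircle) : c (-t) = (starRingEnd ℂ) (c t) := by
  have h1 : c t * c (-t) = 1 := by rw [← c_add, add_neg_cancel, c_zero]
  have h2 : c t * (starRingEnd ℂ) (c t) = 1 := by
    rw [Complex.mul_conj, Complex.normSq_eq_norm_sq, norm_c]
    norm_num
  exact mul_left_cancel₀ (c_ne_zero t) (h1.trans h2.symm)

theorem c_neg_mul (t : UnitAddCircle) : c (-t) * c t = 1 := by
  rw [← c_add, neg_add_cancel, c_zero]

theorem cc_neg (a b : ℝ) (g : UnitAddCircle) : cc a b (-g) = cc a b g := by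
  unfold cc
  rw [c_neg]
  rw [← Complex.norm_conj, map_sub, map_mul, Complex.conj_conj, Complex.conj_ofReal,
    Complex.conj_ofReal]

theorem cc_swap (a b : ℝ) (g : UnitAddCircle) : cc b a g = cc a b g := by
  rw [← cc_neg a b]
  unfold cc
  rw [← norm_ct g ((b : ℂ) * c (-g) - a)]
  rw [show c g * ((b : ℂ) * c (-g) - a) = b * (c (-g) * c g) - a * c g by ring, c_neg_mul, mul_one,
    norm_sub_rev]

/-- The triangle inequalities are strict. -/
theorem cc_tri (a b : ℝ) (g : UnitAddCircle) (ha : 0 < a) (hb : 0 < b) (hg : (c g).im ≠ 0) :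
    |a - b| < cc a b g ∧ cc a b g < a + b := by
  have h0 : 0 ≤ cc a b g := norm_nonneg _
  have hn : (c g).re ^ 2 + (c g).im ^ 2 = 1 := by
    have := norm_c g
    have h2 : ‖c g‖ ^ 2 = 1 := by rw [this]; norm_num
    rw [← Complex.normSq_eq_norm_sq, Complex.normSq_apply] at h2
    nlinarith
  have hsq : cc a b g ^ 2 = a ^ 2 + b ^ 2 - 2 * (a * b) * (c g).re := by
    unfold cc
    rw [← Complex.normSq_eq_norm_sq, Complex.normSq_apply]
    simp only [Complex.sub_re, Complex.mul_re, Complex.ofReal_re, Complex.ofReal_im, zero_mul,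
      sub_zero, Complex.sub_im, Complex.mul_im, add_zero]
    nlinarith
  have him : 0 < (c g).im ^ 2 := by positivity
  have hre : |(c g).re| < 1 := by
    rw [← sq_lt_one_iff_abs_lt_one]
    linarith
  obtain ⟨h1, h2⟩ := abs_lt.mp hre
  have hab : 0 < a * b := mul_pos ha hb
  constructor
  · have : |a - b| ^ 2 < cc a b g ^ 2 := by
      rw [sq_abs, hsq]
      nlinarith
    exact lt_of_pow_lt_pow_left₀ 2 h0 this
  · have : cc a b g ^ 2 < (a + b) ^ 2 := by
      rw [hsq]
      nlinarith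
    exact lt_of_pow_lt_pow_left₀ 2 (by linarith) this

/-- The radius `b` lies strictly between `|a - cc|` and `a + cc`, the radius `a` strictly between
`|b - cc|` and `b + cc`. -/
theorem cc_tri' (a b : ℝ) (g : UnitAddCircle) (ha : 0 < a) (hb : 0 < b) (hg : (c g).im ≠ 0) :
    (|a - cc a b g| < b ∧ b < a + cc a b g) ∧ (|b - cc a b g| < a ∧ a < b + cc a b g) := by
  obtain ⟨h1, h2⟩ := cc_tri a b g ha hb hg
  obtain ⟨h3, h4⟩ := abs_lt.mp h1
  refine ⟨⟨abs_lt.mpr ⟨by linarith, by linarith⟩, by linarith⟩,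
    ⟨abs_lt.mpr ⟨by linarith, by linarith⟩, by linarith⟩⟩

theorem Cfg.cc_pos {a b : ℝ} {g : Bool → UnitAddCircle} {u : ℂ → ℝ} (h : Cfg a b g u) (e : Bool) :
    0 < cc a b (g e) := lt_of_le_of_lt (abs_nonneg _) (cc_tri a b (g e) h.ha h.hb (h.hg e)).1

/-- All multipliers are nonzero. -/
theorem Cfg.ty_ne {a b : ℝ} {g : Bool → UnitAddCircle} {u : ℂ → ℝ} (h : Cfg a b g u) (e : Bool)
    (i : Fin 6) : (ty a b (g e) i).1 ≠ 0 ∧ (ty a b (g e) i).2 ≠ 0 := by
  have ha : (a : ℂ) ≠ 0 := by exact_mod_cast h.ha.ne'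
  have hb : (b : ℂ) ≠ 0 := by exact_mod_cast h.hb.ne'
  have h1 := h.cc_pos e
  have h2 : 0 < cc a b (-(g e)) := by rw [cc_neg]; exact h1
  have n1 : (b : ℂ) * c (g e) - a ≠ 0 := norm_pos_iff.mp h1
  have n2 : (b : ℂ) * c (-(g e)) - a ≠ 0 := norm_pos_iff.mp h2
  have n3 : (a : ℂ) - b * c (g e) ≠ 0 := by rw [← neg_sub]; exact neg_ne_zero.mpr n1
  have n4 : (a : ℂ) - b * c (-(g e)) ≠ 0 := by rw [← neg_sub]; exact neg_ne_zero.mpr n2
  fin_cases i
  · exact ⟨ha, mul_ne_zero hb (c_ne_zero _)⟩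
  · exact ⟨ha, mul_ne_zero hb (c_ne_zero _)⟩
  · exact ⟨neg_ne_zero.mpr ha, n1⟩
  · exact ⟨neg_ne_zero.mpr ha, n2⟩
  · exact ⟨neg_ne_zero.mpr (mul_ne_zero hb (c_ne_zero _)), n3⟩
  · exact ⟨neg_ne_zero.mpr (mul_ne_zero hb (c_ne_zero _)), n4⟩

theorem R_swap1 {a b : ℝ} {g : Bool → UnitAddCircle} {u : ℂ → ℝ} {e : Bool} {y : ℂ}
    (h : R a b g u e y) : R b a g u e y := by
  have key : ∀ (i : Fin 6) (p q : ℂ) (s : UnitAddCircle),
      c s * (ty a b (g e) i).1 = q → c s * (ty a b (g e) i).2 = p →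
      ∀ᵐ t : UnitAddCircle, se e * (u (y + c t * p) + u (y + c t * q)) ≤ 0 := by
    intro i p q s h1 h2
    filter_upwards [ae_shift (h i) s] with t ht
    rw [c_add, mul_assoc, mul_assoc, h1, h2] at ht
    rwa [add_comm (u (y + c t * p))]
  have key' : ∀ (i : Fin 6) (p q : ℂ) (s : UnitAddCircle),
      c s * (ty a b (g e) i).1 = p → c s * (ty a b (g e) i).2 = q →
      ∀ᵐ t : UnitAddCircle, se e * (u (y + c t * p) + u (y + c t * q)) ≤ 0 := by
    intro i p q s h1 h2
    filter_upwards [ae_shift (h i) s] with t ht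
    rwa [c_add, mul_assoc, mul_assoc, h1, h2] at ht
  have k1 : c (-(g e)) * c (g e) = 1 := c_neg_mul _
  have k2 : c (g e) * c (-(g e)) = 1 := by rw [mul_comm]; exact k1
  intro i
  fin_cases i
  · exact key 1 _ _ (g e) (by simp only [ty]; ring) (by
      simp only [ty]
      linear_combination (b : ℂ) * k2)
  · exact key 0 _ _ (-(g e)) (by simp only [ty]; ring) (by
      simp only [ty]
      linear_combination (b : ℂ) * k1)
  · exact key' 5 _ _ (g e) (by
      simp only [ty]
      linear_combination -(b : ℂ) * k2) (by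
      simp only [ty]
      linear_combination -(b : ℂ) * k2)
  · exact key' 4 _ _ (-(g e)) (by
      simp only [ty]
      linear_combination -(b : ℂ) * k1) (by
      simp only [ty]
      linear_combination -(b : ℂ) * k1)
  · exact key' 3 _ _ (g e) (by simp only [ty]; ring) (by
      simp only [ty]
      linear_combination (b : ℂ) * k2)
  · exact key' 2 _ _ (-(g e)) (by simp only [ty]; ring) (by
      simp only [ty]
      linear_combination (b : ℂ) * k1)

/-- The constraints are symmetric in `a`, `b`. -/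
theorem R_swap (a b : ℝ) (g : Bool → UnitAddCircle) (u : ℂ → ℝ) (e : Bool) (y : ℂ) :
    R b a g u e y ↔ R a b g u e y := ⟨R_swap1, R_swap1⟩

theorem Y_swap (a b : ℝ) (g : Bool → UnitAddCircle) (u : ℂ → ℝ) (y : ℂ) :
    Y b a g u y ↔ Y a b g u y :=
  and_congr (R_swap a b g u true y) (R_swap a b g u false y)

theorem Cfg.swap {a b : ℝ} {g : Bool → UnitAddCircle} {u : ℂ → ℝ} (h : Cfg a b g u) :
    Cfg b a g u where
  ha := h.hb
  hb := h.ha
  hg := h.hg
  erg := h.erg
  meas := h.meas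
  val := h.val
  con := by
    intro e
    filter_upwards [h.con e] with x hx hx'
    exact (R_swap a b g u e x).mpr (hx hx')
  nz := h.nz

theorem W_swap (a b : ℝ) (g : Bool → UnitAddCircle) (u : ℂ → ℝ) (κ : Bool) :
    W b a g u (!κ) = W a b g u κ := by
  ext x
  constructor
  · rintro ⟨h1, h2, h3⟩
    refine ⟨h2, ?_, ?_⟩
    · intro z hz
      have := h1 z hz
      rwa [Bool.not_not] at this
    · intro e z hz
      exact h3 e z (by rw [cc_swap]; exact hz)
  · rintro ⟨h1, h2, h3⟩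
    refine ⟨?_, h1, ?_⟩
    · intro z hz
      rw [Bool.not_not]
      exact h2 z hz
    · intro e z hz
      exact h3 e z (by rw [cc_swap] at hz; exact hz)

/-- Almost everywhere statements over `ℂ × circle`, slices and change of variables. -/
theorem ae_circ {P : ℂ → Prop} (h : ∀ᵐ z : ℂ, P z) (d : ℂ) :
    ∀ᵐ x : ℂ, ∀ᵐ t : UnitAddCircle, P (x + c t * d) :=
  Measure.ae_ae_of_ae_prod ((nullA d).ae h)

theorem ae_circ2 {P : ℂ → Prop} (h : ∀ᵐ z : ℂ, P z) (x d d' : ℂ) (hd : d ≠ 0) (hd' : d' ≠ 0) :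
    ∀ᵐ t : UnitAddCircle, ∀ᵐ s : UnitAddCircle, P (x + c t * d + c s * d') := by
  have h1 : ∀ᵐ z : ℂ, P (x + z) :=
    (measurePreserving_add_left (volume : Measure ℂ) x).quasiMeasurePreserving.ae h
  have := Measure.ae_ae_of_ae_prod ((nullB d d' hd hd').ae h1)
  filter_upwards [this] with t ht
  filter_upwards [ht] with s hs
  rwa [← add_assoc] at hs

theorem meas_pt (d : ℂ) : Measurable (fun yt : ℂ × UnitAddCircle => yt.1 + c yt.2 * d) :=
  measurable_fst.add ((measurable_c.comp measurable_snd).mul_const d)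

/-- The set of `y` such that a measurable property holds for almost all `s`. -/
theorem meas_ae {P : ℂ × UnitAddCircle → Prop} (hP : MeasurableSet {p | P p}) :
    MeasurableSet {y : ℂ | ∀ᵐ s : UnitAddCircle, P (y, s)} := by
  have h1 : Measurable (fun y : ℂ => volume (Prod.mk y ⁻¹' {p | P p}ᶜ : Set UnitAddCircle)) :=
    measurable_measure_prodMk_left hP.compl
  have h2 : {y : ℂ | ∀ᵐ s : UnitAddCircle, P (y, s)} =
      (fun y : ℂ => volume (Prod.mk y ⁻¹' {p | P p}ᶜ : Set UnitAddCircle)) ⁻¹' {0} := by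
    ext y
    simp only [Set.mem_preimage, Set.mem_singleton_iff]
    exact ae_iff
  rw [h2]
  exact h1 (measurableSet_singleton 0)

theorem R_meas (a b : ℝ) (g : Bool → UnitAddCircle) (u : ℂ → ℝ) (hu : Measurable u) (e : Bool) :
    MeasurableSet {y : ℂ | R a b g u e y} := by
  have : {y : ℂ | R a b g u e y} = ⋂ i : Fin 6, {y : ℂ | ∀ᵐ s : UnitAddCircle,
      se e * (u (y + c s * (ty a b (g e) i).1) + u (y + c s * (ty a b (g e) i).2)) ≤ 0} := by
    ext y
    simp only [Set.mem_iInter]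
    rfl
  rw [this]
  refine MeasurableSet.iInter fun i => meas_ae (P := fun p : ℂ × UnitAddCircle =>
      se e * (u (p.1 + c p.2 * (ty a b (g e) i).1) + u (p.1 + c p.2 * (ty a b (g e) i).2)) ≤ 0) ?_
  exact measurableSet_le (((hu.comp (meas_pt _)).add (hu.comp (meas_pt _))).const_mul _)
    measurable_const

theorem Cc_meas (u : ℂ → ℝ) (hu : Measurable u) (r χ : ℝ) : MeasurableSet {y : ℂ | Cc u y r χ} :=
  meas_ae (P := fun p : ℂ × UnitAddCircle => u (p.1 + c p.2 * r) = χ)
    (measurableSet_eq_fun (hu.comp (meas_pt _)) measurable_const)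

/-- From slices to the product and change of variables: if for almost every `y`, for almost every `t`,
`P (y, t)` (with `P` measurable) then for almost every `x`, for almost every `t`, `P (x + c t * d, t)`. -/
theorem ae_change {P : ℂ × UnitAddCircle → Prop} (hP : MeasurableSet {p | P p})
    (h : ∀ᵐ y : ℂ, ∀ᵐ t : UnitAddCircle, P (y, t)) (d : ℂ) :
    ∀ᵐ x : ℂ, ∀ᵐ t : UnitAddCircle, P (x + c t * d, t) := by
  have h1 : ∀ᵐ p : ℂ × UnitAddCircle, p ∈ {p | P p} :=
    (Measure.ae_prod_mem_iff_ae_ae_mem hP).mpr h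
  exact Measure.ae_ae_of_ae_prod ((mp_shift d).quasiMeasurePreserving.ae h1)

theorem sphere_closed (V : Set ℂ) (hV : IsOpen V) (r : ℝ) :
    IsClosed {x : ℂ | ∀ z : ℂ, ‖z - x‖ = r → z ∉ V} := by
  rw [← isOpen_compl_iff]
  have : {x : ℂ | ∀ z : ℂ, ‖z - x‖ = r → z ∉ V}ᶜ =
      ⋃ d : {d : ℂ // ‖d‖ = r}, (fun x : ℂ => x + d.1) ⁻¹' V := by
    ext x
    simp only [Set.mem_compl_iff, Set.mem_iUnion, Set.mem_preimage, Subtype.exists]
    constructor
    · intro h
      by_contra hcon
      apply h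
      intro z hz hzV
      apply hcon
      exact ⟨z - x, hz, by rw [add_sub_cancel]; exact hzV⟩
    · rintro ⟨d, hd, hx⟩ h
      exact h (x + d) (by rw [add_sub_cancel_left]; exact hd) hx
  rw [this]
  exact isOpen_iUnion fun d => hV.preimage (continuous_id.add continuous_const)

theorem W_closed (a b : ℝ) (g : Bool → UnitAddCircle) (u : ℂ → ℝ) (κ : Bool) :
    IsClosed (W a b g u κ) := by
  have : W a b g u κ = {x : ℂ | ∀ z : ℂ, ‖z - x‖ = a → z ∉ U u (!κ)} ∩
      ({x : ℂ | ∀ z : ℂ, ‖z - x‖ = b → z ∉ U u κ} ∩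
        ({x : ℂ | ∀ z : ℂ, ‖z - x‖ = cc a b (g true) → z ∉ U u true} ∩
          {x : ℂ | ∀ z : ℂ, ‖z - x‖ = cc a b (g false) → z ∉ U u false})) := by
    ext x
    constructor
    · rintro ⟨h1, h2, h3⟩
      exact ⟨h1, h2, h3 true, h3 false⟩
    · rintro ⟨h1, h2, h3, h4⟩
      refine ⟨h1, h2, fun e => ?_⟩
      cases e
      · exact h4
      · exact h3
  rw [this]
  exact (sphere_closed _ (U_open _ _) _).inter ((sphere_closed _ (U_open _ _) _).inter
    ((sphere_closed _ (U_open _ _) _).inter (sphere_closed _ (U_open _ _) _)))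

/-- Almost every point where the constraint of colour `e` fails has the opposite value. -/
theorem Cfg.lock {a b : ℝ} {g : Bool → UnitAddCircle} {u : ℂ → ℝ} (h : Cfg a b g u) (e : Bool) :
    ∀ᵐ z : ℂ, ¬ R a b g u e z → u z = - se e := by
  filter_upwards [h.con e] with z hz hn
  have h1 : ¬ 0 ≤ se e * u z := fun h0 => hn (hz h0)
  push Not at h1
  rcases h.val z with h2 | h2 | h2 <;> rcases se_cases e with h3 | h3 <;> rw [h2, h3] at h1 <;>
    rw [h2, h3] <;> revert h1 <;> norm_num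

/-- A property which holds for almost all `t` holds for some `t` in every nonempty open set. -/
theorem exists_open {P : UnitAddCircle → Prop} (h : ∀ᵐ t : UnitAddCircle, P t)
    (O : Set UnitAddCircle) (hO : IsOpen O) (hne : O.Nonempty) : ∃ t ∈ O, P t := by
  by_contra hcon
  push Not at hcon
  have h1 : volume O = 0 := by
    rw [ae_iff] at h
    exact measure_mono_null (fun t ht => hcon t ht) h
  exact (hO.measure_pos volume hne).ne' h1

/-- The same in the plane. -/
theorem exists_open' {P : ℂ → Prop} (h : ∀ᵐ z : ℂ, P z)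
    (O : Set ℂ) (hO : IsOpen O) (hne : O.Nonempty) : ∃ z ∈ O, P z := by
  by_contra hcon
  push Not at hcon
  have h1 : volume O = 0 := by
    rw [ae_iff] at h
    exact measure_mono_null (fun t ht => hcon t ht) h
  exact (hO.measure_pos volume hne).ne' h1

end Pool.Agent.H79.TS
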