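import Pool.Agent.H79.TS.GB

/-!
# ROW Img: the image of a null set of pairs of angles is null (about 70 lines)

PROOF.
Every element of `UnitAddCircle` is the class of a real number `t ∈ [0, 1)`, and `c ((t : ℝ) : UnitAddCircle) = exp (2 π t I)` (`c_coe`).  Let
`M' := {z : ℂ | z.re ∈ Ico 0 1, z.im ∈ Ico 0 1, ((z.re : UnitAddCircle), (z.im : UnitAddCircle)) ∈ M}` (the plane `ℂ` as the plane of pairs of real angles).
`volume M' = 0`: the map `ℝ → UnitAddCircle` is measure preserving from `volume.restrict (Ioc 0 1)` (`AddCircle.measurePreserving_mk`, or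
`UnitAddCircle.measurePreserving_mk`), the same with products (`MeasurePreserving.prod`), `Complex.volume_preserving_equiv_real_prod`
(Ico instead of Ioc is not essential: take `Ioc`, every class has a representative in `Ioc 0 1`).
The image of `M` is contained in the image of `M'` under `F z := x + exp (2 π z.re I) * p + exp (2 π z.im I) * q`, which is differentiable over `ℝ`, so
`MeasureTheory.addHaar_image_eq_zero_of_differentiableOn_of_addHaar_eq_zero` (for `volume` on `ℂ`, a real vector space of dimension 2) gives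
`volume (F '' M') = 0`.  (Compare the proof of `nullB` in `Pool/Agent/H93/EGM/Null.lean`, which has the derivative of the same map.)
-/

set_option autoImplicit false

namespace Pool.Agent.H79.TS

open MeasureTheory Filter Topology Pool.Agent.H93.EG

theorem img_null (x p q : ℂ) (M : Set (UnitAddCircle × UnitAddCircle)) (hM : volume M = 0) :
    volume ((fun ts : UnitAddCircle × UnitAddCircle => x + c ts.1 * p + c ts.2 * q) '' M) = 0 := by
  -- a measurable null superset
  obtain ⟨M1, hMM1, hM1m, hM1⟩ : ∃ M1 : Set (UnitAddCircle × UnitAddCircle), M ⊆ M1 ∧ MeasurableSet M1 ∧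
      volume M1 = 0 :=
    ⟨toMeasurable volume M, subset_toMeasurable _ _, measurableSet_toMeasurable _ _, by
      rw [measure_toMeasurable]
      exact hM⟩
  have hmk := AddCircle.measurePreserving_mk 1 0
  have hprod := hmk.prod hmk
  have hmap : Measurable (Prod.map (fun t : ℝ => (t : UnitAddCircle)) (fun t : ℝ => (t : UnitAddCircle))) :=
    hprod.measurable
  obtain ⟨T, hT⟩ : ∃ T : Set (ℝ × ℝ), T = (Prod.map (fun t : ℝ => (t : UnitAddCircle))
      (fun t : ℝ => (t : UnitAddCircle))) ⁻¹' M1 := ⟨_, rfl⟩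
  have hTm : MeasurableSet T := by
    rw [hT]
    exact hmap hM1m
  have hT0 : (volume : Measure (ℝ × ℝ)) (T ∩ (Set.Ioc (0 : ℝ) (0 + 1)) ×ˢ (Set.Ioc (0 : ℝ) (0 + 1))) = 0 := by
    have h1 := hprod.measure_preimage (s := M1) (by
      change NullMeasurableSet M1 (volume : Measure (UnitAddCircle × UnitAddCircle))
      exact hM1m.nullMeasurableSet)
    have h2 : ((volume : Measure UnitAddCircle).prod (volume : Measure UnitAddCircle)) M1 = 0 := hM1
    rw [h2, Measure.prod_restrict] at h1
    rw [hT, ← Measure.restrict_apply (by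
      rw [hT] at hTm
      exact hTm)]
    exact h1
  obtain ⟨M', hM'⟩ : ∃ M' : Set ℂ, M' = Complex.measurableEquivRealProd ⁻¹'
      (T ∩ (Set.Ioc (0 : ℝ) (0 + 1)) ×ˢ (Set.Ioc (0 : ℝ) (0 + 1))) := ⟨_, rfl⟩
  have hM'0 : volume M' = 0 := by
    rw [hM', Complex.volume_preserving_equiv_real_prod.measure_preimage
      ((hTm.inter (measurableSet_Ioc.prod measurableSet_Ioc)).nullMeasurableSet)]
    exact hT0
  obtain ⟨F, hF⟩ : ∃ F : ℂ → ℂ, F = fun z : ℂ => x + Complex.exp (2 * Real.pi * (z.re : ℂ) * Complex.I) * p +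
      Complex.exp (2 * Real.pi * (z.im : ℂ) * Complex.I) * q := ⟨_, rfl⟩
  have hre : Differentiable ℝ (fun z : ℂ => (z.re : ℂ)) :=
    (Complex.ofRealCLM.comp Complex.reCLM).differentiable
  have him : Differentiable ℝ (fun z : ℂ => (z.im : ℂ)) :=
    (Complex.ofRealCLM.comp Complex.imCLM).differentiable
  have hFd : Differentiable ℝ F := by
    rw [hF]
    have h1 : Differentiable ℝ (fun z : ℂ => Complex.exp (2 * Real.pi * (z.re : ℂ) * Complex.I)) :=
      (((hre.const_mul _).mul_const _)).cexp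
    have h2 : Differentiable ℝ (fun z : ℂ => Complex.exp (2 * Real.pi * (z.im : ℂ) * Complex.I)) :=
      (((him.const_mul _).mul_const _)).cexp
    exact ((h1.mul_const p).const_add x).add (h2.mul_const q)
  have h0 := MeasureTheory.addHaar_image_eq_zero_of_differentiableOn_of_addHaar_eq_zero (volume : Measure ℂ)
    (hFd.differentiableOn (s := M')) hM'0
  refine measure_mono_null ?_ h0
  rintro _ ⟨⟨t, s⟩, hts, rfl⟩
  obtain ⟨a, ha, ha'⟩ : ∃ a : ℝ, a ∈ Set.Ioc (0 : ℝ) (0 + 1) ∧ (a : UnitAddCircle) = t :=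
    ⟨(AddCircle.equivIoc (1 : ℝ) 0 t : ℝ), (AddCircle.equivIoc (1 : ℝ) 0 t).2, AddCircle.coe_equivIoc⟩
  obtain ⟨b, hb, hb'⟩ : ∃ b : ℝ, b ∈ Set.Ioc (0 : ℝ) (0 + 1) ∧ (b : UnitAddCircle) = s :=
    ⟨(AddCircle.equivIoc (1 : ℝ) 0 s : ℝ), (AddCircle.equivIoc (1 : ℝ) 0 s).2, AddCircle.coe_equivIoc⟩
  refine ⟨⟨a, b⟩, ?_, ?_⟩
  · rw [hM']
    refine ⟨?_, ha, hb⟩
    rw [hT]
    change ((a : UnitAddCircle), (b : UnitAddCircle)) ∈ M1
    rw [ha', hb']
    exact hMM1 hts
  · rw [hF]
    change x + Complex.exp (2 * Real.pi * (a : ℂ) * Complex.I) * p +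
      Complex.exp (2 * Real.pi * (b : ℂ) * Complex.I) * q = x + c t * p + c s * q
    rw [← c_coe, ← c_coe, ha', hb']

end Pool.Agent.H79.TS
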