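import Pool.Agent.H79.TS.PosB

/-!
# ROW NoPair: circles with different values do not cross (about 70 lines)

PROOF.
Let `Y' := {y | Cc u y s χ'}` (measurable: `Cc_meas`).  For a.e. `y`, a.e. `t`: `y ∈ Y' → u (y + c t * s) = χ'` (definition).  This is a measurable property
`P (y, t)`, so `ae_change` with `d := -(s : ℂ)` (applied to `P`; `(x + c t * (-s)) + c t * s = x`) gives: for a.e. `w`, for a.e. `t`:
`w + c t * (-s) ∈ Y' → u w = χ'`.  By `ae_rot` (`‖-s‖ = ‖s‖`): for a.e. `w`, a.e. `t`: `w + c t * s ∈ Y' → u w = χ'`.  So for a.e. `w`: `Q w := (u w = χ → ∀ᵐ t, w + c t * s ∉ Y')`.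
`ae_circ` with `d := r`: for a.e. `x`, for a.e. `t`: `Q (x + c t * r)`.  If moreover `Cc u x r χ`, then for a.e. `t`, for a.e. `t'`:
`x + c t * r + c t' * s ∉ Y'`.  `posB` (with `P z := z ∉ Y'`) gives the claim.
-/

set_option autoImplicit false

namespace Pool.Agent.H79.TS

open MeasureTheory Filter Topology Pool.Agent.H93.EG

theorem noPair (u : ℂ → ℝ) (hu : Measurable u) (r s : ℝ) (hr : 0 < r) (hs : 0 < s) (χ χ' : ℝ)
    (hne : χ ≠ χ') :
    ∀ᵐ x : ℂ, Cc u x r χ → ∀ᵐ y : ℂ, |r - s| < ‖y - x‖ → ‖y - x‖ < r + s → ¬ Cc u y s χ' := by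
  have hY : MeasurableSet {y : ℂ | Cc u y s χ'} := Cc_meas u hu s χ'
  have hP : MeasurableSet {p : ℂ × UnitAddCircle | Cc u p.1 s χ' → u (p.1 + c p.2 * s) = χ'} := by
    have h1 : MeasurableSet {p : ℂ × UnitAddCircle | Cc u p.1 s χ'} := measurable_fst hY
    have h2 : MeasurableSet {p : ℂ × UnitAddCircle | u (p.1 + c p.2 * s) = χ'} :=
      measurableSet_eq_fun (hu.comp (meas_pt _)) measurable_const
    have h3 : {p : ℂ × UnitAddCircle | Cc u p.1 s χ' → u (p.1 + c p.2 * s) = χ'} =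
        {p : ℂ × UnitAddCircle | Cc u p.1 s χ'}ᶜ ∪
          {p : ℂ × UnitAddCircle | u (p.1 + c p.2 * s) = χ'} := by
      ext p
      simp only [Set.mem_setOf_eq, Set.mem_union, Set.mem_compl_iff]
      exact imp_iff_not_or
    rw [h3]
    exact h1.compl.union h2
  have h1 : ∀ᵐ y : ℂ, ∀ᵐ t : UnitAddCircle, Cc u (y, t).1 s χ' →
      u ((y, t).1 + c (y, t).2 * s) = χ' := by
    refine Filter.Eventually.of_forall fun y => ?_
    by_cases hy : Cc u y s χ'
    · filter_upwards [hy] with t ht _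
      exact ht
    · exact Filter.Eventually.of_forall fun t h => absurd h hy
  have h2 := ae_change hP h1 (-(s : ℂ))
  have h3 : ∀ᵐ w : ℂ, u w = χ → ∀ᵐ t : UnitAddCircle, ¬ Cc u (w + c t * s) s χ' := by
    filter_upwards [h2] with w hw hχ
    have h4 : ∀ᵐ t : UnitAddCircle, (fun z => Cc u z s χ' → u w = χ') (w + c t * -(s : ℂ)) := by
      filter_upwards [hw] with t ht hc
      have h5 := ht hc
      have h6 : w + c t * -(s : ℂ) + c t * s = w := by ring
      simpa only [h6] using h5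
    have h7 := ae_rot (P := fun z => Cc u z s χ' → u w = χ') w (-(s : ℂ)) (s : ℂ) (norm_neg _) h4
    filter_upwards [h7] with t ht hc
    exact hne (hχ.symm.trans (ht hc))
  have h8 := ae_circ (P := fun w => u w = χ → ∀ᵐ t : UnitAddCircle, ¬ Cc u (w + c t * s) s χ')
    h3 (r : ℂ)
  filter_upwards [h8] with x hx hc
  refine posB (fun z => ¬ Cc u z s χ') ?_ x r s hr hs ?_
  · exact hY.compl
  · filter_upwards [hx, hc] with t ht hct
    exact ht hct

end Pool.Agent.H79.TS
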