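import Pool.Agent.H79.TS.Rigid
import Pool.Agent.H79.TS.NoPair

/-!
# ROW Kappa: the value zero does not occur (about 130 lines)

PROOF.
Write `Y0 := {y | Y y ∧ Cc u y a 0}` and `V' := {y | Cc u y a 1 ∨ Cc u y a (-1)}` (measurable: `R_meas`, `Cc_meas`).  Suppose `Y0` is not null.
(1) `noPair` with `r = s = a`, `χ = 0`, `χ' = ± 1`: for a.e. `x`: if `x ∈ Y0` then for a.e. `y`: `0 < ‖y - x‖ → ‖y - x‖ < 2 a → y ∉ V'` (the single point `y = x` is null).
Let `O := {z | ∃ r > 0, ∀ᵐ w, w ∈ Metric.ball z r → w ∉ V'}`.  `V' ∩ O` is null (`measure_null_of_locally_null`, as in `U_ae` of GB.lean), so (`ae_circ`) for a.e. `x`, a.e. `t`: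
`x + c t * a ∉ V' ∩ O`.  For a.e. `x ∈ Y0` every `x + c t * a` is in `O` (ball of radius `a` around it).  So (2) for a.e. `x ∈ Y0`: a.e. `t`: `x + c t * a ∉ V'`.
(3) For a.e. `x ∈ Y0`, a.e. `t`: the point `z = x + c t * a` has `u z = 0` (`Cc u x a 0`), so `0 ≤ se e * u z` for both `e` and hence `Y z` (for a.e. `t`, by `h.con` and `ae_circ`),
so by `rigid` `Cc u z a κ` for some `κ`, and `κ = 0` by (2).  So for a.e. `x ∈ Y0`: a.e. `t`: `x + c t * a ∈ A := {z | z ∈ Y0 ∧ u z = 0}`.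
(4) Using (3) twice (`ae_circ` for the a.e. statement (3)): for a.e. `x ∈ Y0`: a.e. `t`, a.e. `s`: `x + c t * a + c s * a ∈ A`; `posB` with `p = q = a`: a.e. `w` with `‖w - x‖ < 2 a` is in `A`.
(5) Let `O' := {z | ∃ r > 0, ∀ᵐ w, w ∈ Metric.ball z r → w ∈ A}`.  It is open.  It is nonempty: `Y0` is not null, so it has a point satisfying (4).  If `z ∈ O'` then
`Metric.ball z a ⊆ O'`: take `r > 0` for `z`, `r ≤ a`; a.e. point of `ball z r` is in `A ⊆ Y0` and satisfies (4) (for a.e. point), so there is such a point `x'` with `‖x' - z‖ < r`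
arbitrarily near `z`; for `z'` with `‖z' - z‖ < a` choose `x'` with `‖x' - z‖ < a`, then `‖z' - x'‖ < 2 a`, so `z' ∈ O'`.
So `O'` is clopen: `O' = ℂ` (`IsClopen.eq_univ`; closed: if `z` is in the closure take `z0 ∈ O'` with `‖z - z0‖ < a`, then `z ∈ ball z0 a ⊆ O'`).
Hence `u = 0` a.e. (`measure_null_of_locally_null`, as in `locSet_univ`), contradiction with `h.nz`.
`Y_third` follows: by `rigid` and `kappa` for a.e. `y` with `Y y` the value `κ` is `1` or `-1`, then `third`.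
-/

set_option autoImplicit false

namespace Pool.Agent.H79.TS

open MeasureTheory Filter Topology Pool.Agent.H93.EG

/-- The points with a neighbourhood where `P` holds almost everywhere. -/
private def TSKappaL (P : ℂ → Prop) : Set ℂ :=
  {z | ∃ r : ℝ, 0 < r ∧ ∀ᵐ w : ℂ, w ∈ Metric.ball z r → P w}

private theorem TSKappa_ae (P : ℂ → Prop) : ∀ᵐ z : ℂ, z ∈ TSKappaL P → P z := by
  rw [ae_iff]
  refine measure_null_of_locally_null _ (fun x0 hx0 => ?_)
  have hU : x0 ∈ TSKappaL P := by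
    by_contra hn
    exact hx0 fun h => absurd h hn
  obtain ⟨r, hr, h⟩ := hU
  refine ⟨{x | ¬ (x ∈ TSKappaL P → P x)} ∩ Metric.ball x0 r, ?_, ?_⟩
  · exact inter_mem_nhdsWithin _ (Metric.ball_mem_nhds x0 hr)
  · rw [ae_iff] at h
    refine measure_mono_null ?_ h
    rintro x ⟨hx, hxb⟩ hh
    exact hx fun _ => hh hxb

private theorem TSKappa_ne (x : ℂ) : ∀ᵐ y : ℂ, y ≠ x := by
  rw [ae_iff]
  have h1 : {y : ℂ | ¬ y ≠ x} = {x} := by
    ext y
    simp
  rw [h1]
  exact measure_singleton x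

private theorem TSKappa_ball (a : ℝ) (x : ℂ) (P : ℂ → Prop)
    (h : ∀ᵐ y : ℂ, |a - a| < ‖y - x‖ → ‖y - x‖ < a + a → P y) :
    ∀ᵐ y : ℂ, y ∈ Metric.ball x (2 * a) → P y := by
  filter_upwards [h, TSKappa_ne x] with y hy hne hm
  rw [Metric.mem_ball, dist_eq_norm] at hm
  refine hy ?_ (by linarith)
  rw [sub_self, abs_zero]
  exact norm_pos_iff.2 (sub_ne_zero.2 hne)

private theorem TSKappa_main {a b : ℝ} {g : Bool → UnitAddCircle} {u : ℂ → ℝ} (h : Cfg a b g u) :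
    ∀ᵐ x : ℂ, (Y a b g u x ∧ Cc u x a 0) → ∀ᵐ w : ℂ, w ∈ Metric.ball x (2 * a) →
      ((Y a b g u w ∧ Cc u w a 0) ∧ u w = 0) := by
  have ha := h.ha
  -- (2)
  have h1 : ∀ᵐ x : ℂ, Cc u x a 0 → ∀ᵐ t : UnitAddCircle,
      ¬ (Cc u (x + c t * a) a 1 ∨ Cc u (x + c t * a) a (-1)) := by
    have k1 := noPair u h.meas a a ha ha 0 1 (by norm_num)
    have k2 := noPair u h.meas a a ha ha 0 (-1) (by norm_num)
    have k3 := ae_circ (TSKappa_ae (fun w => ¬ (Cc u w a 1 ∨ Cc u w a (-1)))) (a : ℂ)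
    filter_upwards [k1, k2, k3] with x h1 h2 h3 hx
    have h4 : ∀ᵐ y : ℂ, y ∈ Metric.ball x (2 * a) → ¬ (Cc u y a 1 ∨ Cc u y a (-1)) := by
      refine TSKappa_ball a x _ ?_
      filter_upwards [h1 hx, h2 hx] with y y1 y2 y3 y4 y5
      rcases y5 with y5 | y5
      · exact y1 y3 y4 y5
      · exact y2 y3 y4 y5
    filter_upwards [h3] with t ht
    refine ht ⟨a, ha, ?_⟩
    filter_upwards [h4] with y hy hm
    refine hy ?_
    rw [Metric.mem_ball, dist_eq_norm] at hm ⊢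
    have h5 : y - x = (y - (x + c t * a)) + c t * a := by ring
    have h6 : ‖c t * (a : ℂ)‖ = a := by
      rw [norm_ct, Complex.norm_real, Real.norm_of_nonneg ha.le]
    calc ‖y - x‖ = ‖(y - (x + c t * a)) + c t * a‖ := by rw [← h5]
      _ ≤ ‖y - (x + c t * a)‖ + ‖c t * (a : ℂ)‖ := norm_add_le _ _
      _ < a + a := by
        rw [h6]
        linarith
      _ = 2 * a := by ring
  -- (3)
  have h3 : ∀ᵐ x : ℂ, (Y a b g u x ∧ Cc u x a 0) → ∀ᵐ t : UnitAddCircle,
      ((Y a b g u (x + c t * a) ∧ Cc u (x + c t * a) a 0) ∧ u (x + c t * a) = 0) := by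
    have k1 := ae_circ (h.con true) (a : ℂ)
    have k2 := ae_circ (h.con false) (a : ℂ)
    filter_upwards [h1, k1, k2] with x hx1 hx2 hx3 hx
    filter_upwards [hx1 hx.2, hx2, hx3, hx.2] with t t1 t2 t3 t4
    have hz : u (x + c t * a) = 0 := t4
    have hY : Y a b g u (x + c t * a) := by
      refine ⟨t2 ?_, t3 ?_⟩ <;> rw [hz, mul_zero]
    obtain ⟨κ, hκ, k3, _⟩ := rigid h _ hY
    refine ⟨⟨hY, ?_⟩, hz⟩
    rcases hκ with hκ | hκ | hκ
    · exact absurd (Or.inl (hκ ▸ k3)) t1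
    · exact absurd (Or.inr (hκ ▸ k3)) t1
    · exact hκ ▸ k3
  -- (4)
  have hmeas : MeasurableSet {z : ℂ | (Y a b g u z ∧ Cc u z a 0) ∧ u z = 0} :=
    (((R_meas a b g u h.meas true).inter (R_meas a b g u h.meas false)).inter
      (Cc_meas u h.meas a 0)).inter (measurableSet_eq_fun h.meas measurable_const)
  have k3 := ae_circ h3 (a : ℂ)
  filter_upwards [h3, k3] with x hx1 hx2 hx
  refine TSKappa_ball a x _ ?_
  refine posB (fun z => (Y a b g u z ∧ Cc u z a 0) ∧ u z = 0) hmeas x a a ha ha ?_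
  filter_upwards [hx1 hx, hx2] with t t1 t2
  exact t2 t1.1

theorem kappa {a b : ℝ} {g : Bool → UnitAddCircle} {u : ℂ → ℝ} (h : Cfg a b g u) :
    ∀ᵐ y : ℂ, Y a b g u y → ¬ Cc u y a 0 := by
  by_contra hcon
  have hfr : ∃ᵐ y : ℂ, Y a b g u y ∧ Cc u y a 0 := by
    intro h1
    apply hcon
    filter_upwards [h1] with y hy h2 h3
    exact hy ⟨h2, h3⟩
  have ha := h.ha
  have hm := TSKappa_main h
  obtain ⟨x0, hx0, hx1⟩ := (hfr.and_eventually hm).exists
  obtain ⟨A, hA⟩ : ∃ A : ℂ → Prop, A = fun w => (Y a b g u w ∧ Cc u w a 0) ∧ u w = 0 := ⟨_, rfl⟩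
  have hbig : ∀ z ∈ TSKappaL A, Metric.ball z a ⊆ TSKappaL A := by
    rintro z ⟨r, hr, hz⟩ z' hz'
    have hP : ∀ᵐ w : ℂ, (w ∈ Metric.ball z r → A w) ∧ ((Y a b g u w ∧ Cc u w a 0) →
        ∀ᵐ w' : ℂ, w' ∈ Metric.ball w (2 * a) → A w') := by
      filter_upwards [hz, hm] with w w1 w2
      refine ⟨w1, fun w3 => ?_⟩
      rw [hA]
      exact w2 w3
    obtain ⟨x', hx', h1, h2⟩ := exists_open' hP (Metric.ball z (min r a)) Metric.isOpen_ball
      ⟨z, Metric.mem_ball_self (lt_min hr ha)⟩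
    have h3 : A x' := h1 (Metric.ball_subset_ball (min_le_left _ _) hx')
    rw [hA] at h3
    have h4 := h2 h3.1
    have h5 : dist x' z < a := Metric.ball_subset_ball (min_le_right _ _) hx'
    have h6 : dist z' z < a := hz'
    have h7 : dist z' x' < 2 * a := by
      have := dist_triangle z' z x'
      rw [dist_comm z x'] at this
      linarith
    refine ⟨2 * a - dist z' x', by linarith, ?_⟩
    filter_upwards [h4] with w hw hwm
    refine hw ?_
    rw [Metric.mem_ball] at hwm ⊢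
    have := dist_triangle w z' x'
    linarith
  have hne : (TSKappaL A).Nonempty := by
    refine ⟨x0, 2 * a, by linarith, ?_⟩
    rw [hA]
    exact hx1 hx0
  have hopen : IsOpen (TSKappaL A) := by
    rw [Metric.isOpen_iff]
    intro z hz
    exact ⟨a, ha, hbig z hz⟩
  have hclosed : IsClosed (TSKappaL A) := by
    refine isClosed_of_closure_subset fun z hz => ?_
    obtain ⟨z0, hz0, hd⟩ := Metric.mem_closure_iff.1 hz a ha
    exact hbig z0 hz0 hd
  have huniv : TSKappaL A = Set.univ := IsClopen.eq_univ ⟨hclosed, hopen⟩ hne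
  apply h.nz
  filter_upwards [TSKappa_ae A] with z hz
  have h1 : A z := hz (by rw [huniv]; trivial)
  rw [hA] at h1
  exact h1.2

theorem Y_third {a b : ℝ} {g : Bool → UnitAddCircle} {u : ℂ → ℝ} (h : Cfg a b g u) :
    ∀ᵐ y : ℂ, Y a b g u y → ∀ e : Bool, Cc u y (cc a b (g e)) (- se e) := by
  filter_upwards [kappa h] with y hy hY e
  obtain ⟨κ, hκ, h1, h2⟩ := rigid h y hY
  rcases hκ with hκ | hκ | hκ
  · exact third h y hY κ (Or.inl hκ) h1 h2 e
  · exact third h y hY κ (Or.inr hκ) h1 h2 e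
  · exact absurd (hκ ▸ h1) (hy hY)

end Pool.Agent.H79.TS
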