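import Pool.Agent.H79.TS.PB

/-!
# ROW KcPos: the continuous part does not vanish (about 170 lines)

PROOF.
Suppose `kc 0 ≤ 0`.  (1) `kc = 0` on `[0, ∞)`: for all `ε > 0` (weights with `δ = 1`) and all `z, w`: `0 ≤ E ((aF l h F z ± aF l h F w) ^ 2) = 2 ∑∑ l l k ‖h i - h j‖ ± 2 ∑∑ l l k ‖z + h i - (w + h j)‖ ≤ 2 (kc 0 + ε) ± 2 kc ‖z - w‖ + 2 ε` (`aF_mul2`, `app`), so
`|kc r| ≤ kc 0 + 2 ε ≤ 2 ε` for all `r = ‖z - w‖ ≥ 0` and all `ε`.  Hence `k r = 0` for `r > 0` (`S.eq`).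
(2) `μ := E (fun F => sg (F z))` does not depend on `z` (`E_inv` with the translation `mv 1 w`), and `μ = 0`: for `n ≥ 1`, `Ψ := (1/n) ∑_{j < n} sg (F j)` has `E Ψ = μ` and `E (Ψ ^ 2) = 1 / n` (`hk`, `k 0 = 1`, `k = 0` at the differences `|i - j| > 0`), so `|μ| ≤ 1 / √n` (`E_abs`, `E_abs_sq`).
(3) Triple products.  On the orbit of `f` (`h1`) not all of `s₀ = sg (F 0)`, `s₁ = sg (F p)`, `s₂ = sg (F q)` (`F = mv θ w f`: `F 0 = f w`, `F p = f (θ p + w)`) are `ε`, so `(1 + ε s₀)(1 + ε s₁)(1 + ε s₂) = 0`, i.e. `1 + ε (s₀ + s₁ + s₂) + (s₀ s₁ + s₁ s₂ + s₂ s₀) + ε s₀ s₁ s₂ = 0`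
(`ε² = 1`).  Taking `E` (`E_mono` in both directions; the three pair correlations are `0` as `0, p, q` are different, the means are `0`): `E (ε s₀ s₁ s₂) = -1`.  The same for `q'` (`h2`): `E (ε s₀ s₁ s₂') = -1`.
(4) For all signs: `1 - s₂ s₂' ≤ (1 + ε s₀ s₁ s₂) + (1 + ε s₀ s₁ s₂')` (if `s₂ = s₂'` the left side is `0`; otherwise the two products are opposite and both sides are `2`).  `E`: `1 - k ‖q - q'‖ ≤ 0`, but `k ‖q - q'‖ = 0`: contradiction.
-/

set_option autoImplicit false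

namespace Pool.Agent.H79.TS

open MeasureTheory Filter Topology Pool.Agent.H93.EG Pool.Agent.H58.ER

private theorem KcPos_cross {f : ℂ → Bool} {E : ((ℂ → Bool) → ℝ) → ℝ} (hE : IsStat f E)
    (A B : (ℂ → Bool) → ℝ) (hA : Bdd A) (hB : Bdd B) (M : ℝ)
    (h1 : E (fun F => A F * A F) ≤ M) (h2 : E (fun F => B F * B F) ≤ M) :
    |E (fun F => A F * B F)| ≤ M := by
  have hAA := bdd_mul hA hA
  have hBB := bdd_mul hB hB
  have hAB := bdd_mul hA hB
  have e1 : E (fun F => (1 / 2) * (A F * A F) + (1 / 2) * (B F * B F)) =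
      (1 / 2) * E (fun F => A F * A F) + (1 / 2) * E (fun F => B F * B F) := by
    rw [hE.add _ _ (hAA.smul _) (hBB.smul _), hE.smul _ _ hAA, hE.smul _ _ hBB]
  rw [abs_le]
  constructor
  · have := E_mono' hE (fun F => (-1) * (A F * B F))
      (fun F => (1 / 2) * (A F * A F) + (1 / 2) * (B F * B F)) (hAB.smul _)
      ((hAA.smul _).add (hBB.smul _)) fun F => by nlinarith [sq_nonneg (A F + B F)]
    rw [hE.smul _ _ hAB, e1] at this
    linarith
  · have := E_mono' hE (fun F => A F * B F)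
      (fun F => (1 / 2) * (A F * A F) + (1 / 2) * (B F * B F)) hAB
      ((hAA.smul _).add (hBB.smul _)) fun F => by nlinarith [sq_nonneg (A F - B F)]
    rw [e1] at this
    linarith

/-- The correlations vanish. -/
private theorem KcPos_k {f : ℂ → Bool} {E : ((ℂ → Bool) → ℝ) → ℝ} {k kc : ℝ → ℝ}
    (S : Sett f E k kc) (h0 : kc 0 ≤ 0) (r : ℝ) (hr : 0 < r) : k r = 0 := by
  have hE := S.stat
  rw [← S.eq r hr]
  have key : ∀ e : ℝ, 0 < e → |kc r| ≤ 0 + e := by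
    intro e he
    obtain ⟨ι, hι, l, h, hW⟩ := S.dec 1 one_pos (e / 2) (half_pos he)
    have hb : ∀ z : ℂ, E (fun F => aF l h F z * aF l h F z) ≤ e / 2 := by
      intro z
      rw [aF_mul2 l h h f E hE k S.hk z z]
      have h1 := (abs_le.1 (hW.app z z)).2
      rw [sub_self, norm_zero] at h1
      linarith
    have h1 := KcPos_cross hE (fun F => aF l h F 0) (fun F => aF l h F (r : ℂ)) (bdd_aF _ _ _)
      (bdd_aF _ _ _) (e / 2) (hb 0) (hb r)
    rw [aF_mul2 l h h f E hE k S.hk 0 r] at h1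
    have h2 := hW.app 0 (r : ℂ)
    have h3 : ‖(0 : ℂ) - (r : ℂ)‖ = r := by
      rw [zero_sub, norm_neg, Complex.norm_real, Real.norm_eq_abs, abs_of_pos hr]
    rw [h3] at h2
    rw [abs_le] at h1 h2 ⊢
    constructor
    · linarith [h1.1, h1.2, h2.1, h2.2]
    · linarith [h1.1, h1.2, h2.1, h2.2]
  have h1 := le_of_forall_pos_le_add key
  exact abs_eq_zero.1 (le_antisymm h1 (abs_nonneg _))

/-- The means vanish. -/
private theorem KcPos_mu {f : ℂ → Bool} {E : ((ℂ → Bool) → ℝ) → ℝ} {k kc : ℝ → ℝ}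
    (S : Sett f E k kc) (hk0 : ∀ r, 0 < r → k r = 0) (z : ℂ) :
    E (fun F => sg (F z)) = 0 := by
  have hE := S.stat
  have hz : ∀ z : ℂ, E (fun F => sg (F z)) = E (fun F => sg (F 0)) := by
    intro z
    rw [← E_inv hE 1 z (by simp) (fun F => sg (F 0)) (bdd_sg 0)]
    simp only [mv, mul_zero, zero_add]
  rw [hz z]
  have key : ∀ e : ℝ, 0 < e → |E (fun F => sg (F 0))| ≤ 0 + e := by
    intro e he
    obtain ⟨n, hn⟩ := exists_nat_gt (1 / e ^ 2)
    have he2 : 0 < e ^ 2 := by positivity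
    have hn0 : (0 : ℝ) < n := lt_trans (by positivity) hn
    have hn1 : (1 : ℝ) / n ≤ e ^ 2 := by
      rw [div_lt_iff₀ he2] at hn
      rw [div_le_iff₀ hn0]
      linarith
    let l : Fin n → ℝ := fun _ => 1 / n
    let h : Fin n → ℂ := fun j => ((j : ℕ) : ℂ)
    have hb : Bdd (fun F : ℂ → Bool => aF l h F 0) := bdd_aF _ _ _
    have h1 : E (fun F => aF l h F 0) = E (fun F => sg (F 0)) := by
      have e1 : (fun F => aF l h F 0) = fun F => ∑ i ∈ (Finset.univ : Finset (Fin n)),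
          l i * (fun i (F : ℂ → Bool) => sg (F (0 + h i))) i F := by
        funext F
        rfl
      rw [e1, stat_sum f E hE Finset.univ l (fun i F => sg (F (0 + h i))) fun i _ => bdd_sg _]
      simp only [hz]
      rw [← Finset.sum_mul]
      have : ∑ i : Fin n, l i = 1 := by
        simp only [l, Finset.sum_const, Finset.card_univ, Fintype.card_fin, nsmul_eq_mul]
        field_simp
      rw [this, one_mul]
    have h2 : E (fun F => aF l h F 0 ^ 2) ≤ e ^ 2 := by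
      have e1 : (fun F => aF l h F 0 ^ 2) = fun F => aF l h F 0 * aF l h F 0 := by
        funext F
        ring
      rw [e1, aF_mul2 l h h f E hE k S.hk 0 0]
      refine le_trans (le_of_eq ?_) hn1
      have h3 : ∀ i j : Fin n, l i * l j * k ‖0 + h i - (0 + h j)‖ =
          if i = j then (1 / (n : ℝ)) * (1 / n) else 0 := by
        intro i j
        by_cases hij : i = j
        · rw [if_pos hij, hij, sub_self, norm_zero, S.k0, mul_one]
        · rw [if_neg hij, hk0, mul_zero]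
          rw [norm_pos_iff, sub_ne_zero, zero_add, zero_add]
          intro h4
          apply hij
          apply Fin.ext
          have h5 : ((i : ℕ) : ℂ) = ((j : ℕ) : ℂ) := h4
          exact_mod_cast h5
      simp only [h3, Finset.sum_ite_eq, Finset.mem_univ, if_true, Finset.sum_const,
        Finset.card_univ, Fintype.card_fin, nsmul_eq_mul]
      field_simp
    have h3 := E_abs_sq hE _ hb e he h2
    have h4 := E_abs hE _ hb
    rw [h1] at h4
    linarith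
  have h1 := le_of_forall_pos_le_add key
  exact abs_eq_zero.1 (le_antisymm h1 (abs_nonneg _))

private theorem KcPos_sg (b : Bool) : sg b = 1 ∨ sg b = -1 := by
  cases b <;> simp [sg]

private theorem KcPos_prod (a b d e : ℝ) (ha : a = 1 ∨ a = -1) (hb : b = 1 ∨ b = -1)
    (hd : d = 1 ∨ d = -1) (he : e = 1 ∨ e = -1) (h : ¬ (a = e ∧ b = e ∧ d = e)) :
    (1 + e * a) * (1 + e * b) * (1 + e * d) = 0 := by
  rcases ha with rfl | rfl <;> rcases hb with rfl | rfl <;> rcases hd with rfl | rfl <;>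
    rcases he with rfl | rfl <;> first | exact absurd ⟨rfl, rfl, rfl⟩ h | norm_num

/-- The triple correlation. -/
private theorem KcPos_trip {f : ℂ → Bool} {E : ((ℂ → Bool) → ℝ) → ℝ} {k kc : ℝ → ℝ}
    (S : Sett f E k kc) (hk0 : ∀ r, 0 < r → k r = 0)
    (ε : ℝ) (hε : ε = 1 ∨ ε = -1) (p q : ℂ) (hp : p ≠ 0) (hq : q ≠ 0) (hpq : p ≠ q)
    (h1 : ∀ θ w : ℂ, ‖θ‖ = 1 →
      ¬ (sg (f w) = ε ∧ sg (f (θ * p + w)) = ε ∧ sg (f (θ * q + w)) = ε)) :
    E (fun F => ε * (sg (F 0) * sg (F p) * sg (F q))) = -1 := by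
  have hE := S.stat
  have hkz : ∀ z w : ℂ, z ≠ w → E (fun F => sg (F z) * sg (F w)) = 0 := by
    intro z w hzw
    rw [S.hk, hk0]
    rw [norm_pos_iff, sub_ne_zero]
    exact hzw
  have hmu := KcPos_mu S hk0
  have b1 : ∀ z : ℂ, Bdd (fun F : ℂ → Bool => ε * sg (F z)) := fun z => (bdd_sg z).smul ε
  have b2 : ∀ z w : ℂ, Bdd (fun F : ℂ → Bool => sg (F z) * sg (F w)) := fun z w =>
    bdd_mul (bdd_sg z) (bdd_sg w)
  have b3 : Bdd (fun F : ℂ → Bool => sg (F 0) * sg (F p) * sg (F q)) :=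
    bdd_mul (b2 0 p) (bdd_sg q)
  have b3' : Bdd (fun F : ℂ → Bool => ε * (sg (F 0) * sg (F p) * sg (F q))) := b3.smul ε
  have e2 : (fun F : ℂ → Bool => (1 + ε * sg (F 0)) * (1 + ε * sg (F p)) * (1 + ε * sg (F q))) =
      fun F => (1 + (ε * sg (F 0) + (ε * sg (F p) + ε * sg (F q)))) +
        ((sg (F 0) * sg (F p) + (sg (F p) * sg (F q) + sg (F 0) * sg (F q))) +
          ε * (sg (F 0) * sg (F p) * sg (F q))) := by
    funext F
    rcases hε with h | h
    · rw [h]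
      ring
    · rw [h]
      ring
  have bX : Bdd (fun F : ℂ → Bool => 1 + (ε * sg (F 0) + (ε * sg (F p) + ε * sg (F q)))) :=
    (bdd_const 1).add ((b1 0).add ((b1 p).add (b1 q)))
  have bY : Bdd (fun F : ℂ → Bool => sg (F 0) * sg (F p) + (sg (F p) * sg (F q) +
      sg (F 0) * sg (F q))) := (b2 0 p).add ((b2 p q).add (b2 0 q))
  have bZ : Bdd (fun F : ℂ → Bool => (sg (F 0) * sg (F p) + (sg (F p) * sg (F q) +
      sg (F 0) * sg (F q))) + ε * (sg (F 0) * sg (F p) * sg (F q))) := bY.add b3'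
  have bW : Bdd (fun F : ℂ → Bool =>
      (1 + ε * sg (F 0)) * (1 + ε * sg (F p)) * (1 + ε * sg (F q))) := by
    rw [e2]
    exact bX.add bZ
  have horb : ∀ θ w : ℂ, ‖θ‖ = 1 →
      (1 + ε * sg (mv θ w f 0)) * (1 + ε * sg (mv θ w f p)) * (1 + ε * sg (mv θ w f q)) = 0 := by
    intro θ w hθ
    have h2 := h1 θ w hθ
    have m0 : mv θ w f 0 = f w := by
      unfold mv
      rw [mul_zero, zero_add]
    rw [m0]
    unfold mv
    exact KcPos_prod _ _ _ _ (KcPos_sg _) (KcPos_sg _) (KcPos_sg _) hε h2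
  have e0 : E (fun F : ℂ → Bool =>
      (1 + ε * sg (F 0)) * (1 + ε * sg (F p)) * (1 + ε * sg (F q))) = 0 := by
    refine le_antisymm ?_ ?_
    · have := E_mono hE _ (fun _ => (0 : ℝ)) bW (bdd_const 0) fun θ w hθ => (horb θ w hθ).le
      rwa [E_const hE] at this
    · have := E_mono hE (fun _ => (0 : ℝ)) _ (bdd_const 0) bW fun θ w hθ => (horb θ w hθ).ge
      rwa [E_const hE] at this
  rw [e2, hE.add _ _ bX bZ, hE.add _ _ bY b3', hE.add _ _ (b2 0 p) ((b2 p q).add (b2 0 q)),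
    hE.add _ _ (b2 p q) (b2 0 q), hE.add _ _ (bdd_const 1) ((b1 0).add ((b1 p).add (b1 q))),
    hE.add _ _ (b1 0) ((b1 p).add (b1 q)), hE.add _ _ (b1 p) (b1 q), hE.smul _ _ (bdd_sg 0),
    hE.smul _ _ (bdd_sg p), hE.smul _ _ (bdd_sg q), hE.one, hmu, hmu, hmu, hkz 0 p hp.symm,
    hkz p q hpq, hkz 0 q hq.symm] at e0
  linarith


theorem kc_pos {f : ℂ → Bool} {E : ((ℂ → Bool) → ℝ) → ℝ} {k kc : ℝ → ℝ} (S : Sett f E k kc)
    (ε : ℝ) (hε : ε = 1 ∨ ε = -1) (p q q' : ℂ) (hp : p ≠ 0) (hq : q ≠ 0) (hq' : q' ≠ 0)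
    (hpq : p ≠ q) (hpq' : p ≠ q') (hqq : q ≠ q')
    (h1 : ∀ θ w : ℂ, ‖θ‖ = 1 →
      ¬ (sg (f w) = ε ∧ sg (f (θ * p + w)) = ε ∧ sg (f (θ * q + w)) = ε))
    (h2 : ∀ θ w : ℂ, ‖θ‖ = 1 →
      ¬ (sg (f w) = ε ∧ sg (f (θ * p + w)) = ε ∧ sg (f (θ * q' + w)) = ε)) : 0 < kc 0 := by
  by_contra hcon
  rw [not_lt] at hcon
  have hE := S.stat
  have hk0 : ∀ r, 0 < r → k r = 0 := fun r hr => KcPos_k S hcon r hr
  have t1 := KcPos_trip S hk0 ε hε p q hp hq hpq h1
  have t2 := KcPos_trip S hk0 ε hε p q' hp hq' hpq' h2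
  have b2 : Bdd (fun F : ℂ → Bool => sg (F q) * sg (F q')) := bdd_mul (bdd_sg q) (bdd_sg q')
  have b3 : ∀ z : ℂ, Bdd (fun F : ℂ → Bool => ε * (sg (F 0) * sg (F p) * sg (F z))) := fun z =>
    (bdd_mul (bdd_mul (bdd_sg 0) (bdd_sg p)) (bdd_sg z)).smul ε
  have h3 := E_mono' hE (fun F => 1 + (-1) * (sg (F q) * sg (F q')))
    (fun F => 2 + (ε * (sg (F 0) * sg (F p) * sg (F q)) + ε * (sg (F 0) * sg (F p) * sg (F q'))))
    ((bdd_const 1).add (b2.smul _)) ((bdd_const 2).add ((b3 q).add (b3 q'))) fun F => by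
      rcases KcPos_sg (F 0) with a | a <;> rcases KcPos_sg (F p) with b | b <;>
        rcases KcPos_sg (F q) with d | d <;> rcases KcPos_sg (F q') with d' | d' <;>
        rcases hε with e | e <;> rw [a, b, d, d', e] <;> norm_num
  rw [hE.add _ _ (bdd_const 1) (b2.smul _), hE.smul _ _ b2, S.hk, hk0 _ (by
    rw [norm_pos_iff, sub_ne_zero]
    exact hqq), hE.one, hE.add _ _ (bdd_const 2) ((b3 q).add (b3 q')), hE.add _ _ (b3 q) (b3 q'),
    t1, t2, E_const hE] at h3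
  linarith

end Pool.Agent.H79.TS
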