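import Pool.Agent.H79.TS.GB

/-!
# ROW LeafW: the angle function of two circles (about 90 lines)

PROOF.
`X ρ := (ρ² + r² - s²) / (2 r)`.  For `|r - s| < ρ < r + s` (so `0 < ρ`): `ρ - X = (s² - (ρ - r)²) / (2 r) > 0` (as `|ρ - r| < s`) and `ρ + X = ((ρ + r)² - s²) / (2 r) > 0` (as `ρ + r > s`).  So `|X / ρ| < 1`.  Take `ω ρ := arccos (X ρ / ρ) / (2 π)`: continuous on the
open interval (`Real.continuous_arccos`, `ρ ≠ 0`).  `cos (2 π ω ρ) = X ρ / ρ` (`Real.cos_arccos`).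
Distance: `c (θ : UnitAddCircle) = exp (2 π θ I)` (`c_coe`), `ρ * c ((θ + ω ρ : ℝ)) - r * c (θ) = c θ * (ρ * c (ω ρ) - r)`, and `‖ρ * c (ω ρ) - r‖² = ρ² + r² - 2 ρ r cos (2 π ω ρ) = ρ² + r² - 2 r X ρ = s²`; the same with `- ω ρ`.
Not constant: if `ω p = ω q` then `X p / p = X q / q` (apply `cos`), i.e. `p + (r² - s²) / p = q + (r² - s²) / q`, `(p - q) (1 - (r² - s²) / (p q)) = 0`.  Let `δ > 0`; take three different numbers `p₁ < p₂ < p₃` in `(ρ₀ - δ, ρ₀ + δ)` and in the interval: if `ω` had the same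
value at all three, then `p₁ p₂ = r² - s² = p₁ p₃`, contradiction.  So two of them have different values of `ω`.
-/

set_option autoImplicit false

namespace Pool.Agent.H79.TS

open MeasureTheory Filter Topology Pool.Agent.H93.EG

private theorem leafW_dist (r s ρ ω : ℝ) (hs : 0 < s) (hcos : 2 * ρ * r * Real.cos (2 * Real.pi * ω) = ρ ^ 2 + r ^ 2 - s ^ 2)
    (θ : ℝ) : ‖(ρ : ℂ) * c ((θ + ω : ℝ) : UnitAddCircle) - r * c ((θ : ℝ) : UnitAddCircle)‖ = s := by
  have h1 : (ρ : ℂ) * c ((θ + ω : ℝ) : UnitAddCircle) - r * c ((θ : ℝ) : UnitAddCircle)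
      = c ((θ : ℝ) : UnitAddCircle) * ((ρ : ℂ) * c ((ω : ℝ) : UnitAddCircle) - r) := by
    rw [show ((θ + ω : ℝ) : UnitAddCircle) = (θ : UnitAddCircle) + (ω : UnitAddCircle) by rfl, c_add]
    ring
  rw [h1, norm_mul, norm_c, one_mul]
  have h2 : c ((ω : ℝ) : UnitAddCircle) = (Real.cos (2 * Real.pi * ω) : ℂ) + (Real.sin (2 * Real.pi * ω) : ℂ) * Complex.I := by
    rw [c_coe, show (2 * (Real.pi : ℂ) * ω * Complex.I) = ((2 * Real.pi * ω : ℝ) : ℂ) * Complex.I by push_cast; ring,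
      Complex.exp_mul_I, Complex.ofReal_cos, Complex.ofReal_sin]
  rw [h2]
  have h3 : (ρ : ℂ) * ((Real.cos (2 * Real.pi * ω) : ℂ) + (Real.sin (2 * Real.pi * ω) : ℂ) * Complex.I) - r
      = ((ρ * Real.cos (2 * Real.pi * ω) - r : ℝ) : ℂ) + ((ρ * Real.sin (2 * Real.pi * ω) : ℝ) : ℂ) * Complex.I := by
    push_cast; ring
  rw [h3, Complex.norm_add_mul_I]
  have h4 : (ρ * Real.cos (2 * Real.pi * ω) - r) ^ 2 + (ρ * Real.sin (2 * Real.pi * ω)) ^ 2 = s ^ 2 := by
    have := Real.sin_sq_add_cos_sq (2 * Real.pi * ω)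
    nlinarith [this]
  rw [h4, Real.sqrt_sq hs.le]

theorem leafW (r s ρ₀ : ℝ) (hr : 0 < r) (hs : 0 < s) (h1 : |r - s| < ρ₀) (h2 : ρ₀ < r + s) :
    ∃ ω : ℝ → ℝ, ContinuousOn ω (Set.Ioo |r - s| (r + s)) ∧
      (∀ δ : ℝ, 0 < δ → ∃ p q : ℝ, |p - ρ₀| < δ ∧ |q - ρ₀| < δ ∧ p ∈ Set.Ioo |r - s| (r + s) ∧
        q ∈ Set.Ioo |r - s| (r + s) ∧ ω p < ω q) ∧
      ∀ ρ ∈ Set.Ioo |r - s| (r + s), ∀ θ : ℝ,
        ‖(ρ : ℂ) * c ((θ + ω ρ : ℝ) : UnitAddCircle) - r * c ((θ : ℝ) : UnitAddCircle)‖ = s ∧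
        ‖(ρ : ℂ) * c ((θ - ω ρ : ℝ) : UnitAddCircle) - r * c ((θ : ℝ) : UnitAddCircle)‖ = s := by
  have hpos : ∀ ρ ∈ Set.Ioo |r - s| (r + s), 0 < ρ := fun ρ h => lt_of_le_of_lt (abs_nonneg _) h.1
  set X : ℝ → ℝ := fun ρ => (ρ ^ 2 + r ^ 2 - s ^ 2) / (2 * ρ * r) with hX
  have hlt : ∀ ρ ∈ Set.Ioo |r - s| (r + s), X ρ < 1 := by
    intro ρ h
    have hρ := hpos ρ h
    have ha := abs_lt.1 h.1
    rw [hX]; simp only
    rw [div_lt_one (by positivity)]
    have h3 : (ρ - r - s) < 0 := by linarith [h.2]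
    have h4 : 0 < (ρ - r + s) := by linarith
    nlinarith [mul_neg_of_neg_of_pos h3 h4]
  have hgt : ∀ ρ ∈ Set.Ioo |r - s| (r + s), -1 < X ρ := by
    intro ρ h
    have hρ := hpos ρ h
    have ha := abs_lt.1 h.1
    rw [hX]; simp only
    rw [lt_div_iff₀ (by positivity)]
    have h3 : 0 < ρ + r - s := by linarith
    have h4 : 0 < ρ + r + s := by linarith
    nlinarith [mul_pos h3 h4]
  refine ⟨fun ρ => Real.arccos (X ρ) / (2 * Real.pi), ?_, ?_, ?_⟩
  · refine ContinuousOn.div_const ?_ _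
    refine Real.continuous_arccos.comp_continuousOn ?_
    refine ContinuousOn.div (by fun_prop) (by fun_prop) ?_
    intro ρ h
    have := hpos ρ h
    positivity
  · intro δ hδ
    -- three points
    set a := ρ₀ - |r - s| with ha
    set b := r + s - ρ₀ with hb
    have ha0 : 0 < a := by rw [ha]; linarith
    have hb0 : 0 < b := by rw [hb]; linarith
    set η := min δ b / 4 with hη
    have hη0 : 0 < η := by rw [hη]; positivity
    have hηδ : 4 * η ≤ δ := by rw [hη]; have := min_le_left δ b; linarith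
    have hηb : 4 * η ≤ b := by rw [hη]; have := min_le_right δ b; linarith
    have hm : ∀ k : ℝ, 0 ≤ k → k ≤ 2 → |ρ₀ + k * η - ρ₀| < δ ∧ ρ₀ + k * η ∈ Set.Ioo |r - s| (r + s) := by
      intro k hk0 hk2
      have hkη : 0 ≤ k * η := by positivity
      have hkη2 : k * η ≤ 2 * η := by nlinarith
      refine ⟨?_, ?_, ?_⟩
      · rw [abs_of_nonneg (by linarith)]; linarith
      · linarith
      · linarith
    obtain ⟨d0, m0⟩ := hm 0 le_rfl (by norm_num)
    obtain ⟨d1, m1⟩ := hm 1 (by norm_num) (by norm_num)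
    obtain ⟨d2, m2⟩ := hm 2 (by norm_num) (by norm_num)
    by_contra hcon
    push Not at hcon
    have heq : ∀ p q : ℝ, |p - ρ₀| < δ → |q - ρ₀| < δ → p ∈ Set.Ioo |r - s| (r + s) → q ∈ Set.Ioo |r - s| (r + s) → X p = X q := by
      intro p q hp hq hp' hq'
      have e1 := hcon p q hp hq hp' hq'
      have e2 := hcon q p hq hp hq' hp'
      have e3 : Real.arccos (X p) = Real.arccos (X q) := by
        have h2pi : 0 < 2 * Real.pi := by positivity
        have := le_antisymm e2 e1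
        field_simp at this
        exact this
      have e4 := congrArg Real.cos e3
      rwa [Real.cos_arccos (hgt p hp').le (hlt p hp').le, Real.cos_arccos (hgt q hq').le (hlt q hq').le] at e4
    have hprod : ∀ p q : ℝ, p < q → p ∈ Set.Ioo |r - s| (r + s) → q ∈ Set.Ioo |r - s| (r + s) → X p = X q →
        p * q = r ^ 2 - s ^ 2 := by
      intro p q hpq hp hq h
      have hp0 := hpos p hp
      have hq0 := hpos q hq
      rw [hX] at h; simp only at h
      rw [div_eq_div_iff (by positivity) (by positivity)] at h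
      have h5 : (q - p) * (2 * r) * (p * q - (r ^ 2 - s ^ 2)) = 0 := by
        have : (p ^ 2 + r ^ 2 - s ^ 2) * (2 * q * r) - (q ^ 2 + r ^ 2 - s ^ 2) * (2 * p * r) = 0 := by linarith
        nlinarith [this]
      have h6 : (q - p) * (2 * r) ≠ 0 := by
        have : 0 < q - p := by linarith
        positivity
      have := (mul_eq_zero.1 h5).resolve_left h6
      linarith
    have e01 := hprod _ _ (by linarith) m0 m1 (heq _ _ d0 d1 m0 m1)
    have e02 := hprod _ _ (by linarith) m0 m2 (heq _ _ d0 d2 m0 m2)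
    have hρ : 0 < ρ₀ + 0 * η := hpos _ m0
    nlinarith
  · intro ρ h θ
    have hρ := hpos ρ h
    have hcos : 2 * ρ * r * Real.cos (2 * Real.pi * (Real.arccos (X ρ) / (2 * Real.pi))) = ρ ^ 2 + r ^ 2 - s ^ 2 := by
      rw [show 2 * Real.pi * (Real.arccos (X ρ) / (2 * Real.pi)) = Real.arccos (X ρ) by field_simp,
        Real.cos_arccos (hgt ρ h).le (hlt ρ h).le, hX]
      simp only
      field_simp
    constructor
    · exact leafW_dist r s ρ _ hs hcos θ
    · have := leafW_dist r s ρ (-(Real.arccos (X ρ) / (2 * Real.pi))) hs (by rw [mul_neg, Real.cos_neg]; exact hcos) θ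
      rw [← sub_eq_add_neg] at this
      exact this

end Pool.Agent.H79.TS
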