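import Pool.Agent.H79.TS.LeafB
import Pool.Agent.H79.TS.LeafW
import Pool.Agent.H79.TS.Img

/-!
# ROW LeafA: a boundary does not separate along crossing circles (about 170 lines)

PROOF.
`ω` from `leafW` (`r := f`, `s := e`, `ρ₀ := ‖x' - x‖`).  Choose `φ₀ : ℝ` with `x' = x + c φ₀ * ρ₀` (`exists_pt`; every class has a real representative).  `Q (ρ, φ) := x + c (φ : UnitAddCircle) * ρ`, continuous on `ℝ × ℝ`, `Q (ρ₀, φ₀) = x'`.
Choose `ρ₁ < ρ₀ < ρ₂` with `Icc ρ₁ ρ₂ ⊆ Ioo |e - f| (e + f)` and `η > 0` with `‖Q (ρ, φ) - x'‖ < r` for `ρ ∈ Icc ρ₁ ρ₂`, `|φ - φ₀| < η` (continuity).  `N := {θ : ℝ | x + c θ * f ∉ V ψ}`.  `Nᶜ` is dense: `N'  := {t : UnitAddCircle | x + c t * f ∉ V ψ}` is null by `hc`, so its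
complement meets every nonempty open set, and `ℝ → UnitAddCircle` is an open map (`QuotientAddGroup.isOpenMap_coe`).
`hp`: let `θ ∉ N`, `ρ ∈ Icc ρ₁ ρ₂`, `|θ + ω ρ - φ₀| < η`, `z := Q (ρ, θ + ω ρ)`.  Suppose `z ∉ V true`, `z ∉ V false`.  `‖z - x'‖ < r`, so by `hz` `z + c t * e ∉ V ψ` for all `t`.  But `w := x + c θ * f ∈ V ψ` and `‖w - z‖ = e` (`leafW`), so `w = z + c t * e` for some `t`
(`exists_pt`): contradiction.  `hm`: the same.  `leafB` (with `V k` replaced by `Q ⁻¹' V k`) gives `k` and `δ`: if `|ρ - ρ₀| < δ`, `|φ - φ₀| < δ` and `φ - ω ρ ∉ N` then `Q (ρ, φ) ∈ V k`.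
Choose `ρ' > 0` such that every `z` with `‖z - x'‖ < ρ'` is `Q (ρ, φ)` with `|ρ - ρ₀| < δ`, `|φ - φ₀| < δ`, `ρ ∈ Ioo |e - f| (e + f)`: `ρ := ‖z - x‖`, `φ := φ₀ + arg ((z - x) / (x' - x)) / (2 π)` (continuous near `x'`, `Complex.continuousAt_arg`; `z - x = ‖z - x‖ exp (i arg)`).
If such a `z` is not in `V k` then `θ := φ - ω ρ ∈ N`, and `‖z - (x + c θ * f)‖ = e`, so `z = x + c θ * f + c s * e` for some `s` and `(θ, s) ∈ N' ×ˢ univ`, which is a null set (`Measure.prod_prod`).  So `z` is in the image of a null set, which is null by `img_null`.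
-/

/-!
# ROW LeafA: a boundary does not separate along crossing circles (about 170 lines)

PROOF.
`ω` from `leafW` (`r := f`, `s := e`, `ρ₀ := ‖x' - x‖`).  Choose `φ₀ : ℝ` with `x' = x + c φ₀ * ρ₀` (`exists_pt`; every class has a real representative).  `Q (ρ, φ) := x + c (φ : UnitAddCircle) * ρ`, continuous on `ℝ × ℝ`, `Q (ρ₀, φ₀) = x'`.
Choose `ρ₁ < ρ₀ < ρ₂` with `Icc ρ₁ ρ₂ ⊆ Ioo |e - f| (e + f)` and `η > 0` with `‖Q (ρ, φ) - x'‖ < r` for `ρ ∈ Icc ρ₁ ρ₂`, `|φ - φ₀| < η` (continuity).  `N := {θ : ℝ | x + c θ * f ∉ V ψ}`.  `Nᶜ` is dense: `N'  := {t : UnitAddCircle | x + c t * f ∉ V ψ}` is null by `hc`, so its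
complement meets every nonempty open set, and `ℝ → UnitAddCircle` is an open map (`QuotientAddGroup.isOpenMap_coe`).
`hp`: let `θ ∉ N`, `ρ ∈ Icc ρ₁ ρ₂`, `|θ + ω ρ - φ₀| < η`, `z := Q (ρ, θ + ω ρ)`.  Suppose `z ∉ V true`, `z ∉ V false`.  `‖z - x'‖ < r`, so by `hz` `z + c t * e ∉ V ψ` for all `t`.  But `w := x + c θ * f ∈ V ψ` and `‖w - z‖ = e` (`leafW`), so `w = z + c t * e` for some `t`
(`exists_pt`): contradiction.  `hm`: the same.  `leafB` (with `V k` replaced by `Q ⁻¹' V k`) gives `k` and `δ`: if `|ρ - ρ₀| < δ`, `|φ - φ₀| < δ` and `φ - ω ρ ∉ N` then `Q (ρ, φ) ∈ V k`.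
Choose `ρ' > 0` such that every `z` with `‖z - x'‖ < ρ'` is `Q (ρ, φ)` with `|ρ - ρ₀| < δ`, `|φ - φ₀| < δ`, `ρ ∈ Ioo |e - f| (e + f)`: `ρ := ‖z - x‖`, `φ := φ₀ + arg ((z - x) / (x' - x)) / (2 π)` (continuous near `x'`, `Complex.continuousAt_arg`; `z - x = ‖z - x‖ exp (i arg)`).
If such a `z` is not in `V k` then `θ := φ - ω ρ ∈ N`, and `‖z - (x + c θ * f)‖ = e`, so `z = x + c θ * f + c s * e` for some `s` and `(θ, s) ∈ N' ×ˢ univ`, which is a null set (`Measure.prod_prod`).  So `z` is in the image of a null set, which is null by `img_null`.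
-/

set_option autoImplicit false

namespace Pool.Agent.H79.TS

open MeasureTheory Filter Topology Pool.Agent.H93.EG

private theorem LeafA_cont (x : ℂ) :
    Continuous (fun p : ℝ × ℝ => x + c ((p.2 : ℝ) : UnitAddCircle) * (p.1 : ℂ)) := by
  have h : (fun p : ℝ × ℝ => x + c ((p.2 : ℝ) : UnitAddCircle) * (p.1 : ℂ)) =
      fun p : ℝ × ℝ => x + Complex.exp (2 * Real.pi * (p.2 : ℂ) * Complex.I) * (p.1 : ℂ) := by
    funext p
    rw [c_coe]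
  rw [h]
  fun_prop

private theorem LeafA_polar (x x' : ℂ) (φ₀ : ℝ) (h0 : 0 < ‖x' - x‖)
    (hx' : x' = x + c ((φ₀ : ℝ) : UnitAddCircle) * (‖x' - x‖ : ℝ)) (z : ℂ) :
    z = x + c ((φ₀ + ((z - x) / (x' - x)).arg / (2 * Real.pi) : ℝ) : UnitAddCircle) *
      (‖z - x‖ : ℝ) := by
  have h1 := Complex.norm_mul_exp_arg_mul_I ((z - x) / (x' - x))
  rw [norm_div] at h1
  have hne : x' - x ≠ 0 := norm_pos_iff.1 h0
  have h0' : ((‖x' - x‖ : ℝ) : ℂ) ≠ 0 := by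
    exact_mod_cast h0.ne'
  have h2 : x' - x = c ((φ₀ : ℝ) : UnitAddCircle) * (‖x' - x‖ : ℝ) := by
    linear_combination hx'
  have h3 : c ((φ₀ + ((z - x) / (x' - x)).arg / (2 * Real.pi) : ℝ) : UnitAddCircle) =
      c ((φ₀ : ℝ) : UnitAddCircle) * Complex.exp (((z - x) / (x' - x)).arg * Complex.I) := by
    rw [c_coe, c_coe, ← Complex.exp_add]
    congr 1
    push_cast
    have hpi : (Real.pi : ℂ) ≠ 0 := by
      exact_mod_cast Real.pi_ne_zero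
    field_simp
  rw [h3]
  have h4 : z - x = (x' - x) * ((z - x) / (x' - x)) := by
    field_simp
  have h5 : ((‖z - x‖ / ‖x' - x‖ : ℝ) : ℂ) = (‖z - x‖ : ℝ) / (‖x' - x‖ : ℝ) := by
    push_cast
    rfl
  rw [h5] at h1
  have h6 : z - x = c ((φ₀ : ℝ) : UnitAddCircle) *
      Complex.exp (((z - x) / (x' - x)).arg * Complex.I) * (‖z - x‖ : ℝ) := by
    calc z - x = (x' - x) * ((z - x) / (x' - x)) := h4
      _ = (c ((φ₀ : ℝ) : UnitAddCircle) * (‖x' - x‖ : ℝ)) *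
          ((((‖z - x‖ : ℝ) : ℂ) / ((‖x' - x‖ : ℝ) : ℂ)) *
            Complex.exp (((z - x) / (x' - x)).arg * Complex.I)) := by
          rw [h1, ← h2]
      _ = _ := by
          field_simp
  linear_combination h6

theorem leaf (V : Bool → Set ℂ) (hV : ∀ k, IsOpen (V k)) (hd : Disjoint (V true) (V false))
    (ψ : Bool) (x x' : ℂ) (e f r : ℝ) (he : 0 < e) (hf : 0 < f) (hr : 0 < r)
    (h1 : |e - f| < ‖x' - x‖) (h2 : ‖x' - x‖ < e + f)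
    (hc : ∀ᵐ t : UnitAddCircle, x + c t * f ∈ V ψ)
    (hz : ∀ z : ℂ, z ∉ V true → z ∉ V false → ‖z - x'‖ < r →
      ∀ t : UnitAddCircle, z + c t * e ∉ V ψ) :
    ∃ k : Bool, ∃ ρ : ℝ, 0 < ρ ∧ ∀ᵐ z : ℂ, ‖z - x'‖ < ρ → z ∈ V k := by
  obtain ⟨ρ₀, hρ₀⟩ : ∃ ρ₀ : ℝ, ρ₀ = ‖x' - x‖ := ⟨_, rfl⟩
  have h1' : |f - e| < ρ₀ := by
    rw [abs_sub_comm, hρ₀]
    exact h1
  have h2' : ρ₀ < f + e := by
    rw [hρ₀]
    linarith
  have hρpos : 0 < ρ₀ := lt_of_le_of_lt (abs_nonneg _) h1'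
  obtain ⟨ω, hωc, hωne, hωd⟩ := leafW f e ρ₀ hf he h1' h2'
  obtain ⟨φ₀, hφ₀⟩ : ∃ φ₀ : ℝ, x' = x + c ((φ₀ : ℝ) : UnitAddCircle) * (ρ₀ : ℂ) := by
    obtain ⟨t, ht⟩ := exists_pt x (ρ₀ : ℂ) x' (by
      rw [Complex.norm_real, Real.norm_of_nonneg hρpos.le, hρ₀])
    obtain ⟨φ₀, rfl⟩ := QuotientAddGroup.mk_surjective t
    exact ⟨φ₀, ht⟩
  obtain ⟨Q, hQ⟩ : ∃ Q : ℝ × ℝ → ℂ,
      Q = fun p : ℝ × ℝ => x + c ((p.2 : ℝ) : UnitAddCircle) * (p.1 : ℂ) := ⟨_, rfl⟩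
  have hQa : ∀ ρ φ : ℝ, Q (ρ, φ) = x + c ((φ : ℝ) : UnitAddCircle) * (ρ : ℂ) := by
    intro ρ φ
    rw [hQ]
  have hQc : Continuous Q := by
    rw [hQ]
    exact LeafA_cont x
  have hQ0 : Q (ρ₀, φ₀) = x' := by
    rw [hQa, ← hφ₀]
  -- the size of the neighbourhood
  obtain ⟨δ0, hδ0, hδ0'⟩ := Metric.continuousAt_iff.1 (hQc.continuousAt (x := (ρ₀, φ₀))) r hr
  obtain ⟨κ, hκ0, hκ1, hκ2, hκ3⟩ : ∃ κ : ℝ, 0 < κ ∧ κ < δ0 ∧ κ < ρ₀ - |f - e| ∧ κ < f + e - ρ₀ := by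
    refine ⟨min δ0 (min (ρ₀ - |f - e|) (f + e - ρ₀)) / 2, ?_, ?_, ?_, ?_⟩
    · exact half_pos (lt_min hδ0 (lt_min (by linarith) (by linarith)))
    · have h3 : 0 < min δ0 (min (ρ₀ - |f - e|) (f + e - ρ₀)) :=
        lt_min hδ0 (lt_min (by linarith) (by linarith))
      have h4 := min_le_left δ0 (min (ρ₀ - |f - e|) (f + e - ρ₀))
      linarith
    · have h3 : 0 < min δ0 (min (ρ₀ - |f - e|) (f + e - ρ₀)) :=
        lt_min hδ0 (lt_min (by linarith) (by linarith))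
      have h4 := (min_le_right δ0 (min (ρ₀ - |f - e|) (f + e - ρ₀))).trans (min_le_left _ _)
      linarith
    · have h3 : 0 < min δ0 (min (ρ₀ - |f - e|) (f + e - ρ₀)) :=
        lt_min hδ0 (lt_min (by linarith) (by linarith))
      have h4 := (min_le_right δ0 (min (ρ₀ - |f - e|) (f + e - ρ₀))).trans (min_le_right _ _)
      linarith
  have hIcc : ∀ ρ ∈ Set.Icc (ρ₀ - κ) (ρ₀ + κ), ρ ∈ Set.Ioo |f - e| (f + e) := by
    intro ρ hρ
    exact ⟨by linarith [hρ.1], by linarith [hρ.2]⟩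
  have hnear : ∀ ρ ∈ Set.Icc (ρ₀ - κ) (ρ₀ + κ), ∀ φ : ℝ, |φ - φ₀| < κ → ‖Q (ρ, φ) - x'‖ < r := by
    intro ρ hρ φ hφ
    have h3 := @hδ0' (ρ, φ) (by
      rw [Prod.dist_eq, max_lt_iff, Real.dist_eq, Real.dist_eq]
      refine ⟨?_, hφ.trans hκ1⟩
      rw [abs_lt]
      exact ⟨by linarith [hρ.1], by linarith [hρ.2]⟩)
    rwa [hQ0, dist_eq_norm] at h3
  -- the set `N`
  obtain ⟨N', hN'⟩ : ∃ N' : Set UnitAddCircle, N' = {t | x + c t * f ∉ V ψ} := ⟨_, rfl⟩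
  have hN'0 : volume N' = 0 := by
    rw [hN']
    exact hc
  obtain ⟨N, hN⟩ : ∃ N : Set ℝ, N = {θ | x + c ((θ : ℝ) : UnitAddCircle) * f ∉ V ψ} := ⟨_, rfl⟩
  have hNd : Dense Nᶜ := by
    have h3 : Dense {t : UnitAddCircle | x + c t * f ∈ V ψ} := Measure.dense_of_ae hc
    have h4 := h3.preimage (f := fun θ : ℝ => (θ : UnitAddCircle)) QuotientAddGroup.isOpenMap_coe
    have h5 : Nᶜ = (fun θ : ℝ => (θ : UnitAddCircle)) ⁻¹' {t : UnitAddCircle | x + c t * f ∈ V ψ} := by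
      ext θ
      rw [hN]
      simp
    rw [h5]
    exact h4
  have hdist : ∀ θ ρ θ' : ℝ, θ ∉ N → ρ ∈ Set.Icc (ρ₀ - κ) (ρ₀ + κ) → |θ' - φ₀| < κ →
      ‖(ρ : ℂ) * c ((θ' : ℝ) : UnitAddCircle) - f * c ((θ : ℝ) : UnitAddCircle)‖ = e →
      (ρ, θ') ∈ Q ⁻¹' V true ∪ Q ⁻¹' V false := by
    intro θ ρ θ' hθ hρ hθ' hdd
    by_contra hcon
    rw [Set.mem_union, not_or, Set.mem_preimage, Set.mem_preimage] at hcon
    have hw : x + c ((θ : ℝ) : UnitAddCircle) * f ∈ V ψ := by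
      by_contra h
      apply hθ
      rw [hN]
      exact h
    obtain ⟨t, ht⟩ := exists_pt (Q (ρ, θ')) (e : ℂ) (x + c ((θ : ℝ) : UnitAddCircle) * f) (by
      rw [Complex.norm_real, Real.norm_of_nonneg he.le, ← hdd, hQa, ← norm_neg]
      congr 1
      ring)
    apply hz (Q (ρ, θ')) hcon.1 hcon.2 (hnear ρ hρ θ' hθ') t
    rw [← ht]
    exact hw
  obtain ⟨k, δ, hδ, hk⟩ := leafB (fun k => Q ⁻¹' V k) (fun k => (hV k).preimage hQc)
    (hd.preimage Q) N hNd ω (ρ₀ - κ) (ρ₀ + κ) ρ₀ φ₀ κ (by linarith) (by linarith) hκ0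
    (hωc.mono hIcc) (by
      intro δ hδ
      obtain ⟨p, q, hp, hq, _, _, hpq⟩ := hωne (min δ κ) (lt_min hδ hκ0)
      have hp' := abs_lt.1 (hp.trans_le (min_le_right _ _))
      have hq' := abs_lt.1 (hq.trans_le (min_le_right _ _))
      exact ⟨p, q, hp.trans_le (min_le_left _ _), hq.trans_le (min_le_left _ _),
        ⟨by linarith, by linarith⟩, ⟨by linarith, by linarith⟩, hpq⟩)
    (fun θ ρ hθ hρ hh => hdist θ ρ (θ + ω ρ) hθ hρ hh (hωd ρ (hIcc ρ hρ) θ).1)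
    (fun θ ρ hθ hρ hh => hdist θ ρ (θ - ω ρ) hθ hρ hh (hωd ρ (hIcc ρ hρ) θ).2)
  refine ⟨k, ?_⟩
  -- polar coordinates
  have hx'x : x' - x ≠ 0 := by
    rw [← norm_pos_iff, ← hρ₀]
    exact hρpos
  have hc1 : ContinuousAt (fun z : ℂ => ‖z - x‖) x' := by fun_prop
  have hc2 : ContinuousAt (fun z : ℂ => ((z - x) / (x' - x)).arg / (2 * Real.pi)) x' := by
    have h3 : ContinuousAt (fun z : ℂ => (z - x) / (x' - x)) x' := by fun_prop
    have h4 : ContinuousAt Complex.arg ((x' - x) / (x' - x)) := by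
      apply Complex.continuousAt_arg
      rw [div_self hx'x]
      exact Complex.one_mem_slitPlane
    exact (ContinuousAt.comp (f := fun z : ℂ => (z - x) / (x' - x)) h4 h3).div_const _
  have he1 : ∀ᶠ z in 𝓝 x', |‖z - x‖ - ρ₀| < min δ κ := by
    have h3 := (Metric.tendsto_nhds.1 hc1) (min δ κ) (lt_min hδ hκ0)
    filter_upwards [h3] with z hz'
    rw [Real.dist_eq] at hz'
    rw [hρ₀]
    exact hz'
  have he2 : ∀ᶠ z in 𝓝 x', |((z - x) / (x' - x)).arg / (2 * Real.pi)| < δ := by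
    have h3 := (Metric.tendsto_nhds.1 hc2) δ hδ
    filter_upwards [h3] with z hz'
    rw [Real.dist_eq, div_self hx'x, Complex.arg_one, zero_div, sub_zero] at hz'
    exact hz'
  obtain ⟨ρ', hρ', hρ''⟩ := Metric.eventually_nhds_iff.1 (he1.and he2)
  refine ⟨ρ', hρ', ?_⟩
  have hnull := img_null x (f : ℂ) (e : ℂ) (N' ×ˢ Set.univ) (by
    rw [show (volume : Measure (UnitAddCircle × UnitAddCircle)) =
      (volume : Measure UnitAddCircle).prod volume from rfl, Measure.prod_prod, hN'0, zero_mul])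
  have hae : ∀ᵐ z : ℂ, z ∉ (fun ts : UnitAddCircle × UnitAddCircle =>
      x + c ts.1 * (f : ℂ) + c ts.2 * (e : ℂ)) '' (N' ×ˢ Set.univ) := by
    rw [ae_iff]
    simp only [not_not]
    exact hnull
  filter_upwards [hae] with z hz1 hz2
  obtain ⟨h3, h4⟩ := @hρ'' z (by rw [dist_eq_norm]; exact hz2)
  have hpol := LeafA_polar x x' φ₀ (by rw [← hρ₀]; exact hρpos) (by rw [← hρ₀]; exact hφ₀) z
  obtain ⟨ρ, hρ⟩ : ∃ ρ : ℝ, ρ = ‖z - x‖ := ⟨_, rfl⟩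
  obtain ⟨φ, hφ⟩ : ∃ φ : ℝ, φ = φ₀ + ((z - x) / (x' - x)).arg / (2 * Real.pi) := ⟨_, rfl⟩
  rw [← hρ, ← hφ] at hpol
  rw [← hρ] at h3
  have h4' : |φ - φ₀| < δ := by
    rw [hφ, add_sub_cancel_left]
    exact h4
  by_contra hcon
  have hθ : φ - ω ρ ∈ N := by
    by_contra hθ
    have h5 := hk ρ φ (h3.trans_le (min_le_left _ _)) h4' hθ
    rw [Set.mem_preimage, hQa, ← hpol] at h5
    exact hcon h5
  have h6 := abs_lt.1 (h3.trans_le (min_le_right _ _))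
  have hρI : ρ ∈ Set.Ioo |f - e| (f + e) := hIcc ρ ⟨by linarith, by linarith⟩
  have h7 := (hωd ρ hρI (φ - ω ρ)).1
  rw [sub_add_cancel] at h7
  obtain ⟨s, hs⟩ := exists_pt (x + c ((φ - ω ρ : ℝ) : UnitAddCircle) * f) (e : ℂ) z (by
    rw [Complex.norm_real, Real.norm_of_nonneg he.le, ← h7]
    congr 1
    linear_combination hpol)
  apply hz1
  refine ⟨(((φ - ω ρ : ℝ) : UnitAddCircle), s), ⟨?_, Set.mem_univ _⟩, hs.symm⟩
  rw [hN']
  rw [hN] at hθ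
  exact hθ

end Pool.Agent.H79.TS
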