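import Mathlib

/-!
# ROW LeafB: two families of leaves (about 130 lines)

PROOF.
Pure real analysis.  Let `θ₀ := φ₀ - ω ρ₀`.  (1) Choose `δ₁ > 0` with `I' := Icc (ρ₀ - δ₁) (ρ₀ + δ₁) ⊆ Icc ρ₁ ρ₂` and `|ω ρ - ω ρ₀| < η / 4` on `I'` (continuity).  By `hne` there are `p, q ∈ I'` with `ω p < ω q`; put `A := ω p`, `B := ω q`
(so `B - A < η / 2`).  By the intermediate value theorem (`intermediate_value_uIcc`, or `(isPreconnected_uIcc.image ..)`) every `v ∈ Icc A B` is `ω ρ` for some `ρ ∈ I'`.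
(2) Choose `δ > 0` with `δ ≤ δ₁`, `δ ≤ (B - A) / 4` and `|ω ρ - ω ρ₀| < (B - A) / 4` for `|ρ - ρ₀| < δ`.  If `|ρ - ρ₀| < δ` and `|φ - φ₀| < δ` then `θ := φ - ω ρ` has `|θ - θ₀| < (B - A) / 2`.
(3) Leaves.  Let `θ ∉ N`, `|θ - θ₀| < (B - A) / 2 (≤ η / 4)`.  For `ρ ∈ I'`: `|θ + ω ρ - φ₀| ≤ |θ - θ₀| + |ω ρ - ω ρ₀| < η`, so `(ρ, θ + ω ρ) ∈ V true ∪ V false` (`hp`).  The set `{(ρ, θ + ω ρ) | ρ ∈ I'}` is preconnected (image of `Icc` under a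
continuous map), `V true`, `V false` are open and disjoint, so it is contained in `V k` for one `k` (`IsPreconnected.subset_or_subset`).  In the same way, if `θ' ∉ N` and `|θ' - ω ρ - φ₀| < η` for all `ρ ∈ I'`, then all `(ρ, θ' - ω ρ)`, `ρ ∈ I'`, are in one `V k`.
(4) Let `θ₁, θ₂ ∉ N` with `|θ_j - θ₀| < (B - A) / 2`, so `|θ₁ - θ₂| < B - A`.  The intervals `(θ_j + 2 A, θ_j + 2 B)`, `j = 1, 2`, of length `2 (B - A)` intersect in a nonempty open interval, which contains some `θ' ∉ N` (`hN`: `Nᶜ` is dense).  So `θ' = θ_j + 2 ω r_j` with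
`r_j ∈ I'`.  For `ρ ∈ I'`: `θ' - ω ρ - φ₀ = (θ₁ - θ₀) + 2 (ω r₁ - ω ρ₀) - (ω ρ - ω ρ₀)`, of absolute value `< η / 4 + 2 η / 4 + η / 4 = η`.  So the minus-leaf of `θ'` is in one `V k'`, and it contains `(r_j, θ' - ω r_j) = (r_j, θ_j + ω r_j)`, a point of
the plus-leaf of `θ_j`; as `V true`, `V false` are disjoint, the plus-leaves of `θ₁` and `θ₂` are in the same `V k'`.
(5) There is some `θ₁ ∉ N` with `|θ₁ - θ₀| < (B - A) / 2`; let `k` be its colour.  For `|ρ - ρ₀| < δ`, `|φ - φ₀| < δ`, `θ := φ - ω ρ ∉ N`: the plus-leaf of `θ` is in `V k` by (4) and contains `(ρ, θ + ω ρ) = (ρ, φ)`.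
-/

set_option autoImplicit false

namespace Pool.Agent.H79.TS

open Filter Topology

private theorem leafB_graph (V : Bool → Set (ℝ × ℝ)) (hV : ∀ k, IsOpen (V k))
    (hd : Disjoint (V true) (V false)) (a b : ℝ) (g : ℝ → ℝ) (hg : ContinuousOn g (Set.Icc a b))
    (h : ∀ ρ ∈ Set.Icc a b, (ρ, g ρ) ∈ V true ∪ V false) :
    ∃ k : Bool, ∀ ρ ∈ Set.Icc a b, (ρ, g ρ) ∈ V k := by
  have hc : ContinuousOn (fun ρ : ℝ => (ρ, g ρ)) (Set.Icc a b) := continuousOn_id.prodMk hg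
  have hp : IsPreconnected ((fun ρ : ℝ => (ρ, g ρ)) '' Set.Icc a b) :=
    isPreconnected_Icc.image _ hc
  have hs : (fun ρ : ℝ => (ρ, g ρ)) '' Set.Icc a b ⊆ V true ∪ V false := by
    rintro _ ⟨ρ, hρ, rfl⟩
    exact h ρ hρ
  rcases hp.subset_or_subset (hV true) (hV false) hd hs with h1 | h1
  · exact ⟨true, fun ρ hρ => h1 ⟨ρ, hρ, rfl⟩⟩
  · exact ⟨false, fun ρ hρ => h1 ⟨ρ, hρ, rfl⟩⟩

private theorem leafB_same (V : Bool → Set (ℝ × ℝ)) (hd : Disjoint (V true) (V false))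
    (x : ℝ × ℝ) (k l : Bool) (hk : x ∈ V k) (hl : x ∈ V l) : k = l := by
  cases k <;> cases l
  · rfl
  · exact absurd hk (Set.disjoint_left.1 hd hl)
  · exact absurd hl (Set.disjoint_left.1 hd hk)
  · rfl

theorem leafB (V : Bool → Set (ℝ × ℝ)) (hV : ∀ k, IsOpen (V k)) (hd : Disjoint (V true) (V false))
    (N : Set ℝ) (hN : Dense Nᶜ) (ω : ℝ → ℝ) (ρ₁ ρ₂ ρ₀ φ₀ η : ℝ) (h1 : ρ₁ < ρ₀) (h2 : ρ₀ < ρ₂)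
    (hη : 0 < η) (hω : ContinuousOn ω (Set.Icc ρ₁ ρ₂))
    (hne : ∀ δ : ℝ, 0 < δ → ∃ p q : ℝ, |p - ρ₀| < δ ∧ |q - ρ₀| < δ ∧ p ∈ Set.Icc ρ₁ ρ₂ ∧
      q ∈ Set.Icc ρ₁ ρ₂ ∧ ω p < ω q)
    (hp : ∀ θ ρ : ℝ, θ ∉ N → ρ ∈ Set.Icc ρ₁ ρ₂ → |θ + ω ρ - φ₀| < η →
      (ρ, θ + ω ρ) ∈ V true ∪ V false)
    (hm : ∀ θ ρ : ℝ, θ ∉ N → ρ ∈ Set.Icc ρ₁ ρ₂ → |θ - ω ρ - φ₀| < η →
      (ρ, θ - ω ρ) ∈ V true ∪ V false) :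
    ∃ k : Bool, ∃ δ : ℝ, 0 < δ ∧ ∀ ρ φ : ℝ, |ρ - ρ₀| < δ → |φ - φ₀| < δ → φ - ω ρ ∉ N →
      (ρ, φ) ∈ V k := by
  have hρ0 : ρ₀ ∈ Set.Icc ρ₁ ρ₂ := ⟨h1.le, h2.le⟩
  have hcont : ∀ ε : ℝ, 0 < ε → ∃ δ : ℝ, 0 < δ ∧ ∀ ρ ∈ Set.Icc ρ₁ ρ₂, |ρ - ρ₀| < δ →
      |ω ρ - ω ρ₀| < ε := by
    intro ε hε
    obtain ⟨δ, hδ, h⟩ := Metric.continuousOn_iff.1 hω ρ₀ hρ0 ε hε
    refine ⟨δ, hδ, fun ρ hρ hr => ?_⟩
    have := h ρ hρ (by rw [Real.dist_eq]; exact hr)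
    rwa [Real.dist_eq] at this
  obtain ⟨δ₀, hδ₀, hc0⟩ := hcont (η / 4) (by linarith)
  obtain ⟨δ₁, hδ₁, hδ₁a, hδ₁b, hδ₁c⟩ : ∃ δ₁ : ℝ, 0 < δ₁ ∧ δ₁ < δ₀ ∧ δ₁ ≤ ρ₀ - ρ₁ ∧
      δ₁ ≤ ρ₂ - ρ₀ := by
    refine ⟨min (δ₀ / 2) (min (ρ₀ - ρ₁) (ρ₂ - ρ₀)), ?_, ?_, ?_, ?_⟩
    · exact lt_min (by linarith) (lt_min (by linarith) (by linarith))
    · exact lt_of_le_of_lt (min_le_left _ _) (by linarith)
    · exact le_trans (min_le_right _ _) (min_le_left _ _)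
    · exact le_trans (min_le_right _ _) (min_le_right _ _)
  have hI : ∀ ρ ∈ Set.Icc (ρ₀ - δ₁) (ρ₀ + δ₁), ρ ∈ Set.Icc ρ₁ ρ₂ := by
    intro ρ hρ
    exact ⟨by linarith [hρ.1], by linarith [hρ.2]⟩
  have hIω : ∀ ρ ∈ Set.Icc (ρ₀ - δ₁) (ρ₀ + δ₁), |ω ρ - ω ρ₀| < η / 4 := by
    intro ρ hρ
    refine hc0 ρ (hI ρ hρ) (lt_of_le_of_lt ?_ hδ₁a)
    rw [abs_le]
    exact ⟨by linarith [hρ.1], by linarith [hρ.2]⟩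
  have hωI : ContinuousOn ω (Set.Icc (ρ₀ - δ₁) (ρ₀ + δ₁)) := hω.mono hI
  obtain ⟨p, q, hpd, hqd, -, -, hpq⟩ := hne δ₁ hδ₁
  have hpI : p ∈ Set.Icc (ρ₀ - δ₁) (ρ₀ + δ₁) := by
    rw [abs_lt] at hpd
    exact ⟨by linarith [hpd.1], by linarith [hpd.2]⟩
  have hqI : q ∈ Set.Icc (ρ₀ - δ₁) (ρ₀ + δ₁) := by
    rw [abs_lt] at hqd
    exact ⟨by linarith [hqd.1], by linarith [hqd.2]⟩
  have hivt : ∀ v : ℝ, ω p ≤ v → v ≤ ω q → ∃ ρ ∈ Set.Icc (ρ₀ - δ₁) (ρ₀ + δ₁), ω ρ = v := by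
    intro v hv1 hv2
    exact isPreconnected_Icc.intermediate_value hpI hqI hωI ⟨hv1, hv2⟩
  have hpw := abs_lt.1 (hIω p hpI)
  have hqw := abs_lt.1 (hIω q hqI)
  -- plus leaves
  have hplus : ∀ θ : ℝ, θ ∉ N → |θ - (φ₀ - ω ρ₀)| < (ω q - ω p) / 2 →
      ∃ k : Bool, ∀ ρ ∈ Set.Icc (ρ₀ - δ₁) (ρ₀ + δ₁), (ρ, θ + ω ρ) ∈ V k := by
    intro θ hθ hθ0
    refine leafB_graph V hV hd _ _ (fun ρ => θ + ω ρ) (continuousOn_const.add hωI) ?_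
    intro ρ hρ
    refine hp θ ρ hθ (hI ρ hρ) ?_
    have e1 := abs_lt.1 (hIω ρ hρ)
    have e2 := abs_lt.1 hθ0
    rw [abs_lt]
    constructor
    · linarith [e1.1, e2.1, hpw.1, hqw.2]
    · linarith [e1.2, e2.2, hpw.1, hqw.2]
  have hminus : ∀ θ : ℝ, θ ∉ N → (∀ ρ ∈ Set.Icc (ρ₀ - δ₁) (ρ₀ + δ₁), |θ - ω ρ - φ₀| < η) →
      ∃ k : Bool, ∀ ρ ∈ Set.Icc (ρ₀ - δ₁) (ρ₀ + δ₁), (ρ, θ - ω ρ) ∈ V k := by
    intro θ hθ hθ0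
    refine leafB_graph V hV hd _ _ (fun ρ => θ - ω ρ) (continuousOn_const.sub hωI) ?_
    intro ρ hρ
    exact hm θ ρ hθ (hI ρ hρ) (hθ0 ρ hρ)
  -- two plus leaves have the same colour
  have hsame : ∀ θ₁ θ₂ : ℝ, θ₁ ∉ N → θ₂ ∉ N → |θ₁ - (φ₀ - ω ρ₀)| < (ω q - ω p) / 2 →
      |θ₂ - (φ₀ - ω ρ₀)| < (ω q - ω p) / 2 → ∀ k l : Bool,
      (∀ ρ ∈ Set.Icc (ρ₀ - δ₁) (ρ₀ + δ₁), (ρ, θ₁ + ω ρ) ∈ V k) →
      (∀ ρ ∈ Set.Icc (ρ₀ - δ₁) (ρ₀ + δ₁), (ρ, θ₂ + ω ρ) ∈ V l) → k = l := by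
    intro θ₁ θ₂ hθ₁ hθ₂ ha1 ha2 k l hk hl
    have b1 := abs_lt.1 ha1
    have b2 := abs_lt.1 ha2
    have hlt : max (θ₁ + 2 * ω p) (θ₂ + 2 * ω p) < min (θ₁ + 2 * ω q) (θ₂ + 2 * ω q) := by
      rw [max_lt_iff, lt_min_iff, lt_min_iff]
      exact ⟨⟨by linarith, by linarith [b1.1, b1.2, b2.1, b2.2]⟩,
        ⟨by linarith [b1.1, b1.2, b2.1, b2.2], by linarith⟩⟩
    obtain ⟨θ', hθ'N, hθ'⟩ := hN.exists_between hlt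
    have c1 := max_lt_iff.1 hθ'.1
    have c2 := lt_min_iff.1 hθ'.2
    obtain ⟨r₁, hr₁, hr₁'⟩ := hivt ((θ' - θ₁) / 2) (by linarith [c1.1]) (by linarith [c2.1])
    obtain ⟨r₂, hr₂, hr₂'⟩ := hivt ((θ' - θ₂) / 2) (by linarith [c1.2]) (by linarith [c2.2])
    obtain ⟨j, hj⟩ := hminus θ' hθ'N (by
      intro ρ hρ
      have e1 := abs_lt.1 (hIω ρ hρ)
      have e2 := abs_lt.1 (hIω r₁ hr₁)
      rw [abs_lt]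
      constructor
      · linarith [e1.1, e1.2, e2.1, e2.2, b1.1, b1.2, hpw.1, hpw.2, hqw.1, hqw.2]
      · linarith [e1.1, e1.2, e2.1, e2.2, b1.1, b1.2, hpw.1, hpw.2, hqw.1, hqw.2])
    have d1 : (r₁, θ₁ + ω r₁) ∈ V j := by
      have := hj r₁ hr₁
      have e : θ' - ω r₁ = θ₁ + ω r₁ := by linarith
      rwa [e] at this
    have d2 : (r₂, θ₂ + ω r₂) ∈ V j := by
      have := hj r₂ hr₂
      have e : θ' - ω r₂ = θ₂ + ω r₂ := by linarith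
      rwa [e] at this
    have f1 := leafB_same V hd _ k j (hk r₁ hr₁) d1
    have f2 := leafB_same V hd _ l j (hl r₂ hr₂) d2
    rw [f1, f2]
  -- a first leaf
  obtain ⟨θ₁, hθ₁N, hθ₁⟩ := hN.exists_between
    (show (φ₀ - ω ρ₀) - (ω q - ω p) / 2 < (φ₀ - ω ρ₀) + (ω q - ω p) / 2 by linarith)
  have hθ₁a : |θ₁ - (φ₀ - ω ρ₀)| < (ω q - ω p) / 2 := by
    rw [abs_lt]
    exact ⟨by linarith [hθ₁.1], by linarith [hθ₁.2]⟩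
  obtain ⟨k, hk⟩ := hplus θ₁ hθ₁N hθ₁a
  obtain ⟨δ₂, hδ₂, hc2⟩ := hcont ((ω q - ω p) / 4) (by linarith)
  refine ⟨k, min (min δ₁ δ₂) ((ω q - ω p) / 4), lt_min (lt_min hδ₁ hδ₂) (by linarith), ?_⟩
  intro ρ φ hρ hφ hnot
  have g1 : |ρ - ρ₀| < δ₁ := lt_of_lt_of_le hρ (le_trans (min_le_left _ _) (min_le_left _ _))
  have g2 : |ρ - ρ₀| < δ₂ := lt_of_lt_of_le hρ (le_trans (min_le_left _ _) (min_le_right _ _))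
  have g3 : |φ - φ₀| < (ω q - ω p) / 4 := lt_of_lt_of_le hφ (min_le_right _ _)
  have hρI : ρ ∈ Set.Icc (ρ₀ - δ₁) (ρ₀ + δ₁) := by
    rw [abs_lt] at g1
    exact ⟨by linarith [g1.1], by linarith [g1.2]⟩
  have g4 := abs_lt.1 (hc2 ρ (hI ρ hρI) g2)
  have g5 := abs_lt.1 g3
  have hθa : |(φ - ω ρ) - (φ₀ - ω ρ₀)| < (ω q - ω p) / 2 := by
    rw [abs_lt]
    exact ⟨by linarith [g4.1, g4.2, g5.1, g5.2], by linarith [g4.1, g4.2, g5.1, g5.2]⟩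
  obtain ⟨l, hl⟩ := hplus (φ - ω ρ) hnot hθa
  have hkl : k = l := hsame θ₁ (φ - ω ρ) hθ₁N hnot hθ₁a hθa k l hk hl
  have := hl ρ hρI
  rw [hkl]
  have e : φ - ω ρ + ω ρ = φ := by ring
  rwa [e] at this

end Pool.Agent.H79.TS
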