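import Pool.Agent.H79.TS.GB

/-!
# ROW LimPts: approximation of a point outside an open colour class (about 150 lines)

PROOF.
`B r := {x | ∀ᵐ t, ∀ e', x + c t * r ∈ U u e' → u (x + c t * r) = se e'}` and `B' r := {x | ∀ᵐ t, ∀ e', ¬ R .. e' (x + c t * r) → u (x + c t * r) = - se e'}` contain a.e. `x`
(`ae_circ` applied to `U_ae` and to `h.lock`).  `hx`, `not_U`: every ball around `x₀` contains a non-null set of `z` with `u z ≠ se (!e)`, i.e. `0 ≤ se e * u z`; by `h.con e` and the above a.e. such `z`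
has `R .. e z`, and lies in all the sets `B r` (for the four radii) and `B' a`, `B' b`.  So choose `z_n` of this kind with `‖z_n - x₀‖ < 1/(n+1)`; `z_n → x₀`.
`trans_cont u h.meas _ z x₀`: a subsequence `x := z ∘ φ` with `u (x n + w) → u (x₀ + w)` for a.e. `w`; the values are in `{1, -1, 0}`, so for a.e. `w`: `u (x n + w) = u (x₀ + w)` for all large `n`
(as in `conv_subseq` of `Pool/Agent/H93/EGM/Loc.lean`).  This gives all but the last statement.
Last statement, `r ∈ {a, b}`: `conv_two` (same file) with `d = r`, `p` = each of the twelve nonzero multipliers `(ty a b (g e') i).1`, `.2` (`h.ty_ne`): for a.e. `t`, for a.e. `s`, eventually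
`u (x n + (c t * r + c s * p)) = u (x₀ + (c t * r + c s * p))`.  Fix such a `t` with moreover `x n ∈ B' r`-property at this `t` for all `n` (countably many a.e. conditions) and let
`¬ R .. e' (x₀ + c t * r)`.  Then for some `i` the set `S` of `s` with `0 < se e' * (u (x₀ + c t * r + c s * p) + u (x₀ + c t * r + c s * q))` is not null.  Suppose that for infinitely many `n` (frequently)
`R .. e' (x n + c t * r)`.  For each `n` (countably many) for a.e. `s`: [`R .. e' (x n + c t * r)` → `se e' * (u (x n + c t * r + c s * p) + u (.. q)) ≤ 0`].  Take `s ∈ S` with all these properties and the eventual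
equalities for `p` and `q`: contradiction for a large `n` with `R`.  So `¬ R .. e' (x n + c t * r)` for all large `n`, hence `u (x n + c t * r) = - se e'`.
-/

set_option autoImplicit false

namespace Pool.Agent.H79.TS

open MeasureTheory Filter Topology Pool.Agent.H93.EG

private theorem limPts_conv (F : ℂ → ℝ) (hm : Measurable F)
    (hv : ∀ x, F x = 1 ∨ F x = -1 ∨ F x = 0) (x : ℕ → ℂ)
    (x0 : ℂ) (hx : Tendsto x atTop (𝓝 x0)) :
    ∃ φ : ℕ → ℕ, StrictMono φ ∧ ∀ᵐ z : ℂ, ∀ᶠ n in atTop, F (x (φ n) + z) = F (x0 + z) := by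
  have hb : ∀ x, |F x| ≤ 1 := by
    intro x
    rcases hv x with e | e | e <;> rw [e] <;> norm_num
  obtain ⟨φ, hφ, h⟩ := trans_cont F hm hb x x0 hx
  refine ⟨φ, hφ, ?_⟩
  filter_upwards [h] with z hz
  have h1 : ∀ᶠ n in atTop, |F (x (φ n) + z) - F (x0 + z)| < 1 := by
    have := (Metric.tendsto_nhds.mp hz) 1 one_pos
    simpa [Real.dist_eq] using this
  filter_upwards [h1] with n hn
  rcases hv (x (φ n) + z) with e | e | e <;> rcases hv (x0 + z) with e' | e' | e' <;>
    rw [e, e'] at hn ⊢ <;> exfalso <;> revert hn <;> norm_num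

private theorem limPts_ball (x₀ : ℂ) (z : ℕ → ℂ)
    (hz : ∀ n : ℕ, z n ∈ Metric.ball x₀ (1 / ((n : ℝ) + 1))) : Tendsto z atTop (𝓝 x₀) := by
  rw [tendsto_iff_dist_tendsto_zero]
  exact squeeze_zero (fun n => dist_nonneg) (fun n => (Metric.mem_ball.mp (hz n)).le)
    tendsto_one_div_add_atTop_nhds_zero_nat

private theorem limPts_step {a b : ℝ} {g : Bool → UnitAddCircle} {u : ℂ → ℝ} (h : Cfg a b g u)
    (x₀ : ℂ) (x : ℕ → ℂ) (hconv : ∀ᵐ z : ℂ, ∀ᶠ n in atTop, u (x n + z) = u (x₀ + z))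
    (e' : Bool) (r : ℝ) (hr : r ≠ 0)
    (hl : ∀ n, ∀ᵐ t : UnitAddCircle, ¬ R a b g u e' (x n + c t * r) →
      u (x n + c t * r) = - se e') :
    ∀ᵐ t : UnitAddCircle, ¬ R a b g u e' (x₀ + c t * r) →
      ∀ᶠ n in atTop, u (x n + c t * r) = - se e' := by
  have hr' : (r : ℂ) ≠ 0 := by exact_mod_cast hr
  have h1 := ae_all_iff.mpr (fun i => conv_two u x x₀ hconv (r : ℂ) _ hr' (h.ty_ne e' i).1)
  have h2 := ae_all_iff.mpr (fun i => conv_two u x x₀ hconv (r : ℂ) _ hr' (h.ty_ne e' i).2)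
  filter_upwards [h1, h2, ae_all_iff.mpr hl] with t h1 h2 h3
  intro hnR
  have hex : ∃ i : Fin 6, ¬ ∀ᵐ s : UnitAddCircle,
      se e' * (u (x₀ + c t * r + c s * (ty a b (g e') i).1) +
        u (x₀ + c t * r + c s * (ty a b (g e') i).2)) ≤ 0 := by
    by_contra hcon
    apply hnR
    intro i
    by_contra hi
    exact hcon ⟨i, hi⟩
  obtain ⟨i, hi⟩ := hex
  have hev : ∀ᶠ n in atTop, ¬ R a b g u e' (x n + c t * r) := by
    by_contra hcon
    apply hi
    have hf : ∀ n, ∀ᵐ s : UnitAddCircle, R a b g u e' (x n + c t * r) →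
        se e' * (u (x n + c t * r + c s * (ty a b (g e') i).1) +
          u (x n + c t * r + c s * (ty a b (g e') i).2)) ≤ 0 := by
      intro n
      by_cases hR : R a b g u e' (x n + c t * r)
      · filter_upwards [hR i] with s hs _ using hs
      · exact Filter.Eventually.of_forall (fun s hR' => absurd hR' hR)
    filter_upwards [h1 i, h2 i, ae_all_iff.mpr hf] with s e1 e2 e3
    by_contra hpos
    apply hcon
    filter_upwards [e1, e2] with n e4 e5 hR
    have h6 := e3 n hR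
    rw [add_assoc (x n), add_assoc (x n), e4, e5, ← add_assoc, ← add_assoc] at h6
    exact hpos h6
  filter_upwards [hev] with n hn
  exact h3 n hn

theorem lim_pts {a b : ℝ} {g : Bool → UnitAddCircle} {u : ℂ → ℝ} (h : Cfg a b g u) (e : Bool)
    (x₀ : ℂ) (hx : x₀ ∉ U u (!e)) :
    ∃ x : ℕ → ℂ, Tendsto x atTop (𝓝 x₀) ∧ (∀ n, R a b g u e (x n)) ∧
      (∀ (n : ℕ) (e' : Bool) (r : ℝ), r = a ∨ r = b ∨ r = cc a b (g true) ∨ r = cc a b (g false) →
        ∀ᵐ t : UnitAddCircle, x n + c t * r ∈ U u e' → u (x n + c t * r) = se e') ∧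
      ∀ (e' : Bool) (r : ℝ), r = a ∨ r = b → ∀ᵐ t : UnitAddCircle,
        ¬ R a b g u e' (x₀ + c t * r) → ∀ᶠ n in atTop, u (x n + c t * r) = - se e' := by
  have hgood : ∀ᵐ z : ℂ, 0 ≤ se e * u z → (R a b g u e z ∧
      (∀ (e' : Bool) (r : ℝ), r = a ∨ r = b ∨ r = cc a b (g true) ∨ r = cc a b (g false) →
        ∀ᵐ t : UnitAddCircle, z + c t * r ∈ U u e' → u (z + c t * r) = se e') ∧
      ∀ (e' : Bool) (r : ℝ), r = a ∨ r = b → ∀ᵐ t : UnitAddCircle,
        ¬ R a b g u e' (z + c t * r) → u (z + c t * r) = - se e') := by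
    have k1 := fun r : ℝ => ae_all_iff.mpr (fun e' => ae_circ (U_ae u e') (r : ℂ))
    have k2 := fun r : ℝ => ae_all_iff.mpr (fun e' => ae_circ (h.lock e') (r : ℂ))
    filter_upwards [h.con e, k1 a, k1 b, k1 (cc a b (g true)), k1 (cc a b (g false)), k2 a, k2 b]
      with z h0 h1 h2 h3 h4 h5 h6
    intro hz
    refine ⟨h0 hz, ?_, ?_⟩
    · rintro e' r (rfl | rfl | rfl | rfl)
      · exact h1 e'
      · exact h2 e'
      · exact h3 e'
      · exact h4 e'
    · rintro e' r (rfl | rfl)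
      · exact h5 e'
      · exact h6 e'
  have ex : ∀ n : ℕ, ∃ z ∈ Metric.ball x₀ (1 / ((n : ℝ) + 1)), (R a b g u e z ∧
      (∀ (e' : Bool) (r : ℝ), r = a ∨ r = b ∨ r = cc a b (g true) ∨ r = cc a b (g false) →
        ∀ᵐ t : UnitAddCircle, z + c t * r ∈ U u e' → u (z + c t * r) = se e') ∧
      ∀ (e' : Bool) (r : ℝ), r = a ∨ r = b → ∀ᵐ t : UnitAddCircle,
        ¬ R a b g u e' (z + c t * r) → u (z + c t * r) = - se e') := by
    intro n
    obtain ⟨z, ⟨hz1, hz2⟩, hz3⟩ :=
      ((not_U u (!e) x₀ hx (1 / ((n : ℝ) + 1)) (by positivity)).and_eventually hgood).exists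
    refine ⟨z, hz1, hz3 ?_⟩
    rw [se_not] at hz2
    rcases h.val z with h2 | h2 | h2 <;> rcases se_cases e with h3 | h3 <;> rw [h2, h3] at hz2 ⊢ <;>
      revert hz2 <;> norm_num
  choose z hzb hzg using ex
  obtain ⟨φ, hφ, hconv⟩ := limPts_conv u h.meas h.val z x₀ (limPts_ball x₀ z hzb)
  refine ⟨fun n => z (φ n), (limPts_ball x₀ z hzb).comp hφ.tendsto_atTop, fun n => (hzg _).1,
    fun n => (hzg _).2.1, ?_⟩
  intro e' r hr
  have hr0 : r ≠ 0 := by
    rcases hr with rfl | rfl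
    · exact h.ha.ne'
    · exact h.hb.ne'
  exact limPts_step h x₀ (fun n => z (φ n)) hconv e' r hr0 (fun n => (hzg _).2.2 e' r hr)

end Pool.Agent.H79.TS
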