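import Pool.Agent.H79.TS.PB

/-!
# ROW Rt1: rotations about x: the product of a colour with a fluctuation (about 80 lines)

PROOF.
`W F := sg (F y) - aF l h F y`, `|W F| ≤ 2` (`aF_le`), `W' i F := W (mv (θ i) (w i) F)`.  For every `i`: `E (Φ F * (sg (F x) * W F)) = E (Φ (mv (θ i) (w i) F) * (sg (F x) * W' i F))` (`E_inv`; `mv (θ i) (w i) F x = F (θ i * x + w i) = F x`).
So `|E (Φ F * (sg (F x) * W F)) - E (Φ F * (sg (F x) * W' i F))| ≤ E (|Φ (mv ..) - Φ| * 2) ≤ 2 β`.  Average over `i`: `|E (Φ F * (sg (F x) * W F)) - (1/K) E (Φ F * (sg (F x) * ∑ i, W' i F))| ≤ 2 β`, and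
`|E (Φ F * (sg (F x) * ∑ i, W' i F))| ≤ E (|∑ i, W' i F|) ≤ K * lam` (`|Φ| ≤ 1`, `E_abs_sq` with `hV`).
-/

set_option autoImplicit false

namespace Pool.Agent.H79.TS

open MeasureTheory Filter Topology Pool.Agent.H93.EG Pool.Agent.H58.ER

theorem rt_est {f : ℂ → Bool} {E : ((ℂ → Bool) → ℝ) → ℝ} {k kc : ℝ → ℝ} (S : Sett f E k kc)
    {ι : Type} [Fintype ι] (l : ι → ℝ) (h : ι → ℂ) (δ ε : ℝ) (hW : Wt k kc δ ε l h)
    (Φ : (ℂ → Bool) → ℝ) (hΦ : ∀ F, |Φ F| ≤ 1) (x y : ℂ) (K : ℕ) (hK : 0 < K)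
    (θ w : Fin K → ℂ) (hθ : ∀ i, ‖θ i‖ = 1) (hfix : ∀ i, θ i * x + w i = x) (β lam : ℝ)
    (hl : 0 < lam) (hβ : ∀ i, E (fun F => |Φ (mv (θ i) (w i) F) - Φ F|) ≤ β)
    (hV : E (fun F => (∑ i, (sg (mv (θ i) (w i) F y) - aF l h (mv (θ i) (w i) F) y)) ^ 2) ≤
      (K * lam) ^ 2) :
    |E (fun F => Φ F * (sg (F x) * (sg (F y) - aF l h F y)))| ≤ 2 * β + lam := by
  have hE := S.stat
  set W : (ℂ → Bool) → ℝ := fun F => sg (F y) - aF l h F y with hWdef
  have hWb : ∀ F, |W F| ≤ 2 := by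
    intro F
    have h1 := aF_le l h hW.nn hW.sum F y
    have h2 := abs_sg (F y)
    calc |W F| ≤ |sg (F y)| + |aF l h F y| := abs_sub _ _
      _ ≤ 2 := by rw [h2]; linarith
  have bW : Bdd W := bdd_of 2 hWb
  have bΦ : Bdd Φ := bdd_of 1 hΦ
  have bP : Bdd (fun F => Φ F * (sg (F x) * W F)) := bdd_mul bΦ (bdd_mul (bdd_sg x) bW)
  have hmx : ∀ (i : Fin K) (F : ℂ → Bool), mv (θ i) (w i) F x = F x := by
    intro i F
    show F (θ i * x + w i) = F x
    rw [hfix i]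
  have bQ : ∀ i : Fin K, Bdd (fun F => Φ F * (sg (F x) * W (mv (θ i) (w i) F))) := fun i =>
    bdd_mul bΦ (bdd_mul (bdd_sg x) (bdd_mv bW (θ i) (w i)))
  have step : ∀ i : Fin K, |E (fun F => Φ F * (sg (F x) * W F)) -
      E (fun F => Φ F * (sg (F x) * W (mv (θ i) (w i) F)))| ≤ 2 * β := by
    intro i
    have e1 : E (fun F => Φ (mv (θ i) (w i) F) * (sg (mv (θ i) (w i) F x) * W (mv (θ i) (w i) F))) =
        E (fun F => Φ F * (sg (F x) * W F)) :=
      E_inv hE (θ i) (w i) (hθ i) (fun F => Φ F * (sg (F x) * W F)) bP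
    have bP' : Bdd (fun F => Φ (mv (θ i) (w i) F) *
        (sg (mv (θ i) (w i) F x) * W (mv (θ i) (w i) F))) := bdd_mv bP (θ i) (w i)
    rw [← e1, ← E_sub hE _ _ bP' (bQ i)]
    have bD : Bdd (fun F => Φ (mv (θ i) (w i) F) - Φ F) := bdd_sub (bdd_mv bΦ (θ i) (w i)) bΦ
    calc |E (fun F => Φ (mv (θ i) (w i) F) * (sg (mv (θ i) (w i) F x) * W (mv (θ i) (w i) F)) -
          Φ F * (sg (F x) * W (mv (θ i) (w i) F)))|
        ≤ E (fun F => |Φ (mv (θ i) (w i) F) * (sg (mv (θ i) (w i) F x) * W (mv (θ i) (w i) F)) -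
          Φ F * (sg (F x) * W (mv (θ i) (w i) F))|) := E_abs hE _ (bdd_sub bP' (bQ i))
      _ ≤ E (fun F => 2 * |Φ (mv (θ i) (w i) F) - Φ F|) := by
          refine E_mono' hE _ _ (bdd_abs (bdd_sub bP' (bQ i))) ((bdd_abs bD).smul 2) fun F => ?_
          rw [hmx i F]
          have e2 : Φ (mv (θ i) (w i) F) * (sg (F x) * W (mv (θ i) (w i) F)) -
              Φ F * (sg (F x) * W (mv (θ i) (w i) F)) =
              (Φ (mv (θ i) (w i) F) - Φ F) * (sg (F x) * W (mv (θ i) (w i) F)) := by ring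
          rw [e2, abs_mul, abs_mul, abs_sg, one_mul, mul_comm]
          exact mul_le_mul_of_nonneg_right (hWb _) (abs_nonneg _)
      _ = 2 * E (fun F => |Φ (mv (θ i) (w i) F) - Φ F|) := hE.smul 2 _ (bdd_abs bD)
      _ ≤ 2 * β := by linarith [hβ i]
  have hsum : |E (fun F => Φ F * (sg (F x) * ∑ i, W (mv (θ i) (w i) F)))| ≤ K * lam := by
    have bS : Bdd (fun F => ∑ i, W (mv (θ i) (w i) F)) := by
      refine bdd_of (∑ _i : Fin K, 2) fun F => ?_
      exact (Finset.abs_sum_le_sum_abs _ _).trans (Finset.sum_le_sum fun i _ => hWb _)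
    have bT : Bdd (fun F => Φ F * (sg (F x) * ∑ i, W (mv (θ i) (w i) F))) :=
      bdd_mul bΦ (bdd_mul (bdd_sg x) bS)
    have hKl : 0 < (K : ℝ) * lam := mul_pos (by exact_mod_cast hK) hl
    calc |E (fun F => Φ F * (sg (F x) * ∑ i, W (mv (θ i) (w i) F)))|
        ≤ E (fun F => |Φ F * (sg (F x) * ∑ i, W (mv (θ i) (w i) F))|) := E_abs hE _ bT
      _ ≤ E (fun F => |∑ i, W (mv (θ i) (w i) F)|) := by
          refine E_mono' hE _ _ (bdd_abs bT) (bdd_abs bS) fun F => ?_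
          rw [abs_mul, abs_mul, abs_sg, one_mul]
          exact mul_le_of_le_one_left (abs_nonneg _) (hΦ F)
      _ ≤ K * lam := E_abs_sq hE _ bS _ hKl hV
  have hlin : E (fun F => Φ F * (sg (F x) * ∑ i, W (mv (θ i) (w i) F))) =
      ∑ i : Fin K, E (fun F => Φ F * (sg (F x) * W (mv (θ i) (w i) F))) := by
    have h1 := stat_sum f E hE (Finset.univ : Finset (Fin K)) (fun _ => 1)
      (fun i F => Φ F * (sg (F x) * W (mv (θ i) (w i) F))) (fun i _ => bQ i)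
    simp only [one_mul] at h1
    rw [← h1]
    congr 1
    funext F
    rw [Finset.mul_sum, Finset.mul_sum]
  have hK' : 0 < (K : ℝ) := by exact_mod_cast hK
  have htot : |(K : ℝ) * E (fun F => Φ F * (sg (F x) * W F)) -
      ∑ i : Fin K, E (fun F => Φ F * (sg (F x) * W (mv (θ i) (w i) F)))| ≤ K * (2 * β) := by
    have e3 : (K : ℝ) * E (fun F => Φ F * (sg (F x) * W F)) -
        ∑ i : Fin K, E (fun F => Φ F * (sg (F x) * W (mv (θ i) (w i) F))) =
        ∑ i : Fin K, (E (fun F => Φ F * (sg (F x) * W F)) -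
          E (fun F => Φ F * (sg (F x) * W (mv (θ i) (w i) F)))) := by
      rw [Finset.sum_sub_distrib, Finset.sum_const, Finset.card_univ, Fintype.card_fin, nsmul_eq_mul]
    rw [e3]
    refine (Finset.abs_sum_le_sum_abs _ _).trans ?_
    refine (Finset.sum_le_sum fun i _ => step i).trans ?_
    rw [Finset.sum_const, Finset.card_univ, Fintype.card_fin, nsmul_eq_mul]
  rw [hlin] at hsum
  have h4 : |(K : ℝ) * E (fun F => Φ F * (sg (F x) * W F))| ≤ K * (2 * β) + K * lam := by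
    have := abs_sub_abs_le_abs_sub ((K : ℝ) * E (fun F => Φ F * (sg (F x) * W F)))
      (∑ i : Fin K, E (fun F => Φ F * (sg (F x) * W (mv (θ i) (w i) F))))
    linarith
  rw [abs_mul, abs_of_pos hK', ← mul_add] at h4
  exact le_of_mul_le_mul_left h4 hK'

end Pool.Agent.H79.TS
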