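import Pool.Agent.H79.TS.Tr1
import Pool.Agent.H79.TS.Rt1

/-!
# ROW MainEst: the main estimate (about 170 lines)

PROOF.
Write `Gx F := aF l h F x` etc. (`|G| ≤ 1`, `aF_le`), `sx F := sg (F x)`.  `u F := (1 + e * Gx F) * (e * (Gy F + Gz F))`, `|u| ≤ 4`; `u~ F := (1 + e * sx F) * (e * (sy F + sz F))`; `Φ F := min 1 (max 0 (u F / η)) ∈ [0, 1]`.
(1) `max 0 (u F) ≤ η + u F * Φ F` (cases `u ≤ 0`, `0 < u < η`, `η ≤ u`).  (2) `u~ F ≤ 0` for `F = mv θ w f`, `‖θ‖ = 1`: if `sx = -e` it is `0`, if `sx = e` then not both `sy, sz` are `e` (`hf`), so `e (sy + sz) ≤ 0`.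
So `E (max 0 u) ≤ η + E (Φ * (u - u~))` (`E_mono`).  (3) `u - u~ = e (Gy - sy) + e (Gz - sz) + (Gx Gy - sx sy) + (Gx Gz - sx sz)` (`e² = 1`) and `sx sy - Gx Gy = Gy (sx - Gx) + sx (sy - Gy)`.
(4) Lipschitz: for every motion `m`: `|Φ (m F) - Φ F| ≤ |u (m F) - u F| / η ≤ (2 / η) (|Gx (m F) - Gx F| + |Gy (m F) - Gy F| + |Gz (m F) - Gz F|)`.  So for the translations of `H1` and the motions of `H2`: `E |Φ (m F) - Φ F| ≤ 6 β / η`, and for `Φ' := Φ * Gy` (or `Φ * Gz`; `|Φ'| ≤ 1`):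
`E |Φ' (m F) - Φ' F| ≤ 6 β / η + β ≤ 7 β / η` (`η ≤ 1`).
(5) `tr_est` with `Φ`: `|E (Φ (sy - Gy))| ≤ 6 β / η`, the same for `z`.  `tr_est` with `Φ * Gy` at the point `x`: `|E (Φ Gy (sx - Gx))| ≤ 7 β / η`.  `rt_est` with `lam := β` (`H2 y`): `|E (Φ (sx (sy - Gy)))| ≤ 2 (6 β / η) + β ≤ 13 β / η`.  The same for `z`.
Total: `2 * 6 + 2 * (7 + 13) = 52`.
-/

set_option autoImplicit false

namespace Pool.Agent.H79.TS

open MeasureTheory Filter Topology Pool.Agent.H93.EG Pool.Agent.H58.ER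

private theorem MainEst_clip (a b : ℝ) : |min 1 (max 0 a) - min 1 (max 0 b)| ≤ |a - b| := by
  have h1 := abs_min_sub_min_le_max 1 (max 0 a) 1 (max 0 b)
  have h2 := abs_max_sub_max_le_max 0 a 0 b
  have h3 : max |(0 : ℝ) - 0| |a - b| = |a - b| := by
    rw [sub_self, abs_zero]
    exact max_eq_right (abs_nonneg _)
  have h4 : max |(1 : ℝ) - 1| |max 0 a - max 0 b| = |max 0 a - max 0 b| := by
    rw [sub_self, abs_zero]
    exact max_eq_right (abs_nonneg _)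
  rw [h4] at h1
  rw [h3] at h2
  exact h1.trans h2

private theorem MainEst_lip (e : ℝ) (he : e = 1 ∨ e = -1) (η : ℝ) (hη : 0 < η) (a b c a' b' c' : ℝ)
    (ha : |a| ≤ 1) (hb' : |b'| ≤ 1) (hc' : |c'| ≤ 1) :
    |min 1 (max 0 (((1 + e * a') * (e * (b' + c'))) / η)) -
        min 1 (max 0 (((1 + e * a) * (e * (b + c))) / η))| ≤
      2 / η * (|a' - a| + (|b' - b| + |c' - c|)) := by
  refine (MainEst_clip _ _).trans ?_
  have h1 : (1 + e * a') * (e * (b' + c')) / η - (1 + e * a) * (e * (b + c)) / η =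
      ((e * (a' - a)) * (e * (b' + c')) + (1 + e * a) * (e * ((b' - b) + (c' - c)))) / η := by
    ring
  rw [h1, abs_div, abs_of_pos hη, div_le_iff₀ hη]
  have h2 : 2 / η * (|a' - a| + (|b' - b| + |c' - c|)) * η =
      |a' - a| * 2 + 2 * (|b' - b| + |c' - c|) := by
    field_simp
    try ring
  rw [h2]
  have hee : |e| = 1 := by
    rcases he with h | h <;> rw [h] <;> norm_num
  refine (abs_add_le _ _).trans (add_le_add ?_ ?_)
  · rw [abs_mul, abs_mul, abs_mul, hee, one_mul, one_mul]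
    refine mul_le_mul_of_nonneg_left ?_ (abs_nonneg _)
    exact (abs_add_le _ _).trans (by linarith)
  · rw [abs_mul, abs_mul, hee, one_mul]
    refine mul_le_mul ?_ (abs_add_le _ _) (abs_nonneg _) (by norm_num)
    refine (abs_add_le _ _).trans ?_
    rw [abs_mul, hee, one_mul, abs_one]
    linarith

private theorem MainEst_sg (b : Bool) : sg b = 1 ∨ sg b = -1 := by
  cases b
  · exact Or.inr rfl
  · exact Or.inl rfl

private theorem MainEst_ut (e a b c : ℝ) (he : e = 1 ∨ e = -1) (ha : a = 1 ∨ a = -1) (hb : b = 1 ∨ b = -1)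
    (hc : c = 1 ∨ c = -1) (h : ¬ (a = e ∧ b = e ∧ c = e)) : (1 + e * a) * (e * (b + c)) ≤ 0 := by
  rcases he with rfl | rfl <;> rcases ha with rfl | rfl <;> rcases hb with rfl | rfl <;>
    rcases hc with rfl | rfl <;> first
    | (exfalso; exact h ⟨rfl, rfl, rfl⟩)
    | norm_num

private theorem MainEst_phi (u ut η : ℝ) (hη : 0 < η) (h : ut ≤ 0) :
    max 0 u ≤ η + min 1 (max 0 (u / η)) * (u - ut) := by
  have h0 : 0 ≤ min 1 (max 0 (u / η)) := le_min zero_le_one (le_max_left _ _)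
  have h1 : max 0 u ≤ η + min 1 (max 0 (u / η)) * u := by
    by_cases hu : u ≤ 0
    · have h2 : u / η ≤ 0 := div_nonpos_of_nonpos_of_nonneg hu hη.le
      rw [max_eq_left hu, max_eq_left h2, min_eq_right zero_le_one, zero_mul, add_zero]
      exact hη.le
    · push Not at hu
      have h2 : 0 ≤ u / η := div_nonneg hu.le hη.le
      rw [max_eq_right hu.le, max_eq_right h2]
      by_cases h3 : η ≤ u
      · have h4 : 1 ≤ u / η := (one_le_div hη).mpr h3
        rw [min_eq_left h4, one_mul]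
        linarith
      · push Not at h3
        have h4 : 0 ≤ min 1 (u / η) * u := mul_nonneg (le_min zero_le_one h2) hu.le
        linarith
  have h2 : 0 ≤ min 1 (max 0 (u / η)) * (-ut) := mul_nonneg h0 (by linarith)
  have h3 : min 1 (max 0 (u / η)) * (u - ut) =
      min 1 (max 0 (u / η)) * u + min 1 (max 0 (u / η)) * (-ut) := by ring
  rw [h3]
  linarith

theorem main_est {f : ℂ → Bool} {E : ((ℂ → Bool) → ℝ) → ℝ} {k kc : ℝ → ℝ} (S : Sett f E k kc)
    {ι : Type} [Fintype ι] (l : ι → ℝ) (h : ι → ℂ) (δ ε : ℝ) (hW : Wt k kc δ ε l h)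
    (e : ℝ) (he : e = 1 ∨ e = -1) (x y z : ℂ)
    (hf : ∀ θ w : ℂ, ‖θ‖ = 1 → ¬ (sg (f (θ * x + w)) = e ∧ sg (f (θ * y + w)) = e ∧
      sg (f (θ * z + w)) = e))
    (β η : ℝ) (hβ : 0 < β) (hη : 0 < η) (hη1 : η ≤ 1)
    (H1 : ∀ i, ∀ v : ℂ, (v = x ∨ v = y ∨ v = z) →
      E (fun F => |aF l h (mv 1 (-(h i)) F) v - aF l h F v|) ≤ β)
    (H2 : ∀ v' : ℂ, (v' = y ∨ v' = z) → ∃ (K : ℕ) (θ w : Fin K → ℂ), 0 < K ∧
      (∀ i, ‖θ i‖ = 1) ∧ (∀ i, θ i * x + w i = x) ∧
      (∀ i, ∀ v : ℂ, (v = x ∨ v = y ∨ v = z) →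
        E (fun F => |aF l h (mv (θ i) (w i) F) v - aF l h F v|) ≤ β) ∧
      E (fun F => (∑ i, (sg (mv (θ i) (w i) F v') - aF l h (mv (θ i) (w i) F) v')) ^ 2) ≤
        (K * β) ^ 2) :
    E (fun F => max 0 ((1 + e * aF l h F x) * (e * (aF l h F y + aF l h F z)))) ≤
      η + 52 * β / η := by
  have hE := S.stat
  have hG : ∀ (v : ℂ) (F : ℂ → Bool), |aF l h F v| ≤ 1 := fun v F => aF_le l h hW.nn hW.sum F v
  have hβη : β ≤ β / η := by
    rw [le_div_iff₀ hη]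
    nlinarith
  have hββ : 0 < β / η := div_pos hβ hη
  set Φ : (ℂ → Bool) → ℝ := fun F =>
    min 1 (max 0 (((1 + e * aF l h F x) * (e * (aF l h F y + aF l h F z))) / η)) with hΦdef
  have hΦ0 : ∀ F, 0 ≤ Φ F := fun F => le_min zero_le_one (le_max_left _ _)
  have hΦ1 : ∀ F, Φ F ≤ 1 := fun F => min_le_left _ _
  have hΦ : ∀ F, |Φ F| ≤ 1 := fun F => by
    rw [abs_of_nonneg (hΦ0 F)]
    exact hΦ1 F
  have bΦ : Bdd Φ := ⟨1, hΦ⟩
  have bG : ∀ v : ℂ, Bdd (fun F : ℂ → Bool => aF l h F v) := fun v => bdd_aF l h v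
  -- Lipschitz estimates
  have L1 : ∀ θ w : ℂ, (∀ v : ℂ, (v = x ∨ v = y ∨ v = z) →
      E (fun F => |aF l h (mv θ w F) v - aF l h F v|) ≤ β) →
      E (fun F => |Φ (mv θ w F) - Φ F|) ≤ 6 * (β / η) := by
    intro θ w hm
    have bD : ∀ v : ℂ, Bdd (fun F => |aF l h (mv θ w F) v - aF l h F v|) := fun v =>
      bdd_abs (bdd_sub (bdd_mv (bG v) θ w) (bG v))
    have h1 := E_mono' hE (fun F => |Φ (mv θ w F) - Φ F|)
      (fun F => 2 / η * (|aF l h (mv θ w F) x - aF l h F x| +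
        (|aF l h (mv θ w F) y - aF l h F y| + |aF l h (mv θ w F) z - aF l h F z|)))
      (bdd_abs (bdd_sub (bdd_mv bΦ θ w) bΦ))
      (((bD x).add ((bD y).add (bD z))).smul (2 / η))
      (fun F => MainEst_lip e he η hη _ _ _ _ _ _ (hG x F) (hG y _) (hG z _))
    rw [hE.smul _ _ ((bD x).add ((bD y).add (bD z))), hE.add _ _ (bD x) ((bD y).add (bD z)),
      hE.add _ _ (bD y) (bD z)] at h1
    have hx := hm x (Or.inl rfl)
    have hy := hm y (Or.inr (Or.inl rfl))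
    have hz := hm z (Or.inr (Or.inr rfl))
    have h2 : 2 / η * (E (fun F => |aF l h (mv θ w F) x - aF l h F x|) +
        (E (fun F => |aF l h (mv θ w F) y - aF l h F y|) +
          E (fun F => |aF l h (mv θ w F) z - aF l h F z|))) ≤ 2 / η * (3 * β) :=
      mul_le_mul_of_nonneg_left (by linarith) (by positivity)
    have h3 : 2 / η * (3 * β) = 6 * (β / η) := by ring
    linarith
  have L2 : ∀ θ w : ℂ, (∀ v : ℂ, (v = x ∨ v = y ∨ v = z) →
      E (fun F => |aF l h (mv θ w F) v - aF l h F v|) ≤ β) →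
      ∀ v : ℂ, (v = x ∨ v = y ∨ v = z) →
      E (fun F => |Φ (mv θ w F) * aF l h (mv θ w F) v - Φ F * aF l h F v|) ≤ 7 * (β / η) := by
    intro θ w hm v hv
    have b1 : Bdd (fun F => |Φ (mv θ w F) - Φ F|) := bdd_abs (bdd_sub (bdd_mv bΦ θ w) bΦ)
    have b2 : Bdd (fun F => |aF l h (mv θ w F) v - aF l h F v|) :=
      bdd_abs (bdd_sub (bdd_mv (bG v) θ w) (bG v))
    have h1 := E_mono' hE (fun F => |Φ (mv θ w F) * aF l h (mv θ w F) v - Φ F * aF l h F v|)
      (fun F => |Φ (mv θ w F) - Φ F| + |aF l h (mv θ w F) v - aF l h F v|)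
      (bdd_abs (bdd_sub (bdd_mul (bdd_mv bΦ θ w) (bdd_mv (bG v) θ w)) (bdd_mul bΦ (bG v))))
      (b1.add b2) (fun F => by
        have h2 : Φ (mv θ w F) * aF l h (mv θ w F) v - Φ F * aF l h F v =
          (Φ (mv θ w F) - Φ F) * aF l h (mv θ w F) v +
            Φ F * (aF l h (mv θ w F) v - aF l h F v) := by ring
        rw [h2]
        refine (abs_add_le _ _).trans (add_le_add ?_ ?_)
        · rw [abs_mul]
          exact mul_le_of_le_one_right (abs_nonneg _) (hG v _)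
        · rw [abs_mul]
          exact mul_le_of_le_one_left (abs_nonneg _) (hΦ F))
    rw [hE.add _ _ b1 b2] at h1
    have h3 := L1 θ w hm
    have h4 := hm v hv
    linarith
  -- the six terms
  have A : ∀ v : ℂ, |E (fun F => Φ F * (sg (F v) - aF l h F v))| ≤ 6 * (β / η) := fun v =>
    tr_est S l h δ ε hW Φ hΦ (6 * (β / η)) (fun i => L1 1 (-(h i)) (H1 i)) v
  have B : ∀ v : ℂ, (v = x ∨ v = y ∨ v = z) →
      |E (fun F => (Φ F * aF l h F v) * (sg (F x) - aF l h F x))| ≤ 7 * (β / η) := fun v hv =>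
    tr_est S l h δ ε hW (fun F => Φ F * aF l h F v) (fun F => by
      rw [abs_mul]
      exact mul_le_one₀ (hΦ F) (abs_nonneg _) (hG v F)) (7 * (β / η))
      (fun i => L2 1 (-(h i)) (H1 i) v hv) x
  have C : ∀ v : ℂ, (v = y ∨ v = z) →
      |E (fun F => Φ F * (sg (F x) * (sg (F v) - aF l h F v)))| ≤ 13 * (β / η) := by
    intro v hv
    obtain ⟨K, θ, w, hK, hθ, hfix, hm, hV⟩ := H2 v hv
    have h1 := rt_est S l h δ ε hW Φ hΦ x v K hK θ w hθ hfix (6 * (β / η)) β hβ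
      (fun i => L1 (θ i) (w i) (hm i)) hV
    linarith
  have A1 := abs_le.mp (A y)
  have A2 := abs_le.mp (A z)
  have B1 := abs_le.mp (B y (Or.inr (Or.inl rfl)))
  have B2 := abs_le.mp (B z (Or.inr (Or.inr rfl)))
  have C1 := abs_le.mp (C y (Or.inl rfl))
  have C2 := abs_le.mp (C z (Or.inr rfl))
  have bs : ∀ v : ℂ, Bdd (fun F : ℂ → Bool => sg (F v) - aF l h F v) := fun v =>
    bdd_sub (bdd_sg v) (bG v)
  have bA : ∀ v : ℂ, Bdd (fun F => Φ F * (sg (F v) - aF l h F v)) := fun v => bdd_mul bΦ (bs v)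
  have bB : ∀ v : ℂ, Bdd (fun F => (Φ F * aF l h F v) * (sg (F x) - aF l h F x)) := fun v =>
    bdd_mul (bdd_mul bΦ (bG v)) (bs x)
  have bC : ∀ v : ℂ, Bdd (fun F => Φ F * (sg (F x) * (sg (F v) - aF l h F v))) := fun v =>
    bdd_mul bΦ (bdd_mul (bdd_sg x) (bs v))
  have b6 := ((bA y).smul (-e)).add (((bA z).smul (-e)).add (((bB y).smul (-1)).add
    (((bB z).smul (-1)).add (((bC y).smul (-1)).add ((bC z).smul (-1))))))
  have b5 := ((bA z).smul (-e)).add (((bB y).smul (-1)).add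
    (((bB z).smul (-1)).add (((bC y).smul (-1)).add ((bC z).smul (-1)))))
  have b4 := ((bB y).smul (-1)).add
    (((bB z).smul (-1)).add (((bC y).smul (-1)).add ((bC z).smul (-1))))
  have b3 := ((bB z).smul (-1)).add (((bC y).smul (-1)).add ((bC z).smul (-1)))
  have b2 := ((bC y).smul (-1)).add ((bC z).smul (-1))
  have bu : Bdd (fun F : ℂ → Bool => max 0 ((1 + e * aF l h F x) * (e * (aF l h F y + aF l h F z)))) := by
    obtain ⟨D, hD⟩ := bdd_mul ((bdd_const (1 : ℝ)).add ((bG x).smul e))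
      (((bG y).add (bG z)).smul e)
    refine ⟨D, fun F => ?_⟩
    rw [abs_of_nonneg (le_max_left _ _)]
    exact max_le ((abs_nonneg _).trans (hD F)) ((le_abs_self _).trans (hD F))
  have hmain := E_mono hE
    (fun F : ℂ → Bool => max 0 ((1 + e * aF l h F x) * (e * (aF l h F y + aF l h F z)))) _
    bu ((bdd_const η).add b6) (fun θ w hθ => by
      have h1 := MainEst_phi ((1 + e * aF l h (mv θ w f) x) * (e * (aF l h (mv θ w f) y + aF l h (mv θ w f) z)))
        ((1 + e * sg (mv θ w f x)) * (e * (sg (mv θ w f y) + sg (mv θ w f z)))) η hη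
        (MainEst_ut e _ _ _ he (MainEst_sg _) (MainEst_sg _) (MainEst_sg _) (hf θ w hθ))
      refine h1.trans (le_of_eq ?_)
      have hee : e * e = 1 := by
        rcases he with h | h <;> rw [h] <;> norm_num
      show η + Φ (mv θ w f) * _ = _
      linear_combination (Φ (mv θ w f) * (aF l h (mv θ w f) x * (aF l h (mv θ w f) y + aF l h (mv θ w f) z) -
        sg (mv θ w f x) * (sg (mv θ w f y) + sg (mv θ w f z)))) * hee)
  rw [hE.add _ _ (bdd_const η) b6, hE.add _ _ ((bA y).smul (-e)) b5, hE.add _ _ ((bA z).smul (-e)) b4,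
    hE.add _ _ ((bB y).smul (-1)) b3, hE.add _ _ ((bB z).smul (-1)) b2,
    hE.add _ _ ((bC y).smul (-1)) ((bC z).smul (-1)), hE.smul _ _ (bA y), hE.smul _ _ (bA z),
    hE.smul _ _ (bB y), hE.smul _ _ (bB z), hE.smul _ _ (bC y), hE.smul _ _ (bC z), E_const hE] at hmain
  have hfin : 52 * β / η = 52 * (β / η) := by ring
  rw [hfin]
  rcases he with h | h <;> rw [h] at hmain ⊢ <;> linarith [A1.1, A1.2, A2.1, A2.2, B1.1, B1.2, B2.1, B2.2, C1.1, C1.2, C2.1, C2.2]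

end Pool.Agent.H79.TS
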