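import Pool.Agent.H79.TS.PB

/-!
# ROW Vv: the fluctuations at different points are almost orthogonal (about 140 lines)

PROOF.
`y i := θ i * y + w i`, `W i F := sg (F (y i)) - aF l (fun a => θ i * h a) F (y i)` (this is the `i`-th summand, `aF_mv`).  `|W i F| ≤ 2` (`aF_le` for `mv (θ i) (w i) F`).  Expand the square: `E ((∑ W i) ^ 2) = ∑ i, ∑ j, E (W i * W j)`.
Diagonal: `E (W i ^ 2) ≤ 4`.  Off-diagonal, `i ≠ j`, `d := ‖y i - y j‖ > 2 δ`: `E (W i * W j) = k d - ∑ a, l a k ‖y i - (y j + θ j h a)‖ - ∑ a, l a k ‖y j - (y i + θ i h a)‖ + ∑ a, ∑ b, l a l b k ‖(y i + θ i h a) - (y j + θ j h b)‖` (`hk`, `aF_mul1`, `aF_mul2`; note the different shifts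
`θ i * h a`, `θ j * h b`).  All arguments `r` satisfy `|r - d| ≤ 2 δ` (`‖θ h‖ = ‖h‖ < δ`), in fact `r > d - 2 δ > 0`, so `k r = kc r` (`S.eq`) and `|k r - kc d| ≤ ω` (`hω`).  With `∑ l = 1` (hence also `δ > 0`, `d > 0`): `E (W i * W j) ≤ kc d - (kc d - ω) - (kc d - ω) + (kc d + ω) = 3 ω ≤ 4 ω`.
Total `≤ 4 K + 4 ω K ^ 2`.
-/

set_option autoImplicit false

namespace Pool.Agent.H79.TS

open MeasureTheory Filter Topology Pool.Agent.H93.EG Pool.Agent.H58.ER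

/-- The summand. -/
private noncomputable def Vv_W {ι : Type} [Fintype ι] (l : ι → ℝ) (h : ι → ℂ) (y : ℂ) (F : ℂ → Bool) : ℝ :=
  sg (F y) - aF l h F y

private theorem Vv_W_le {ι : Type} [Fintype ι] (l : ι → ℝ) (h : ι → ℂ) (hl : ∀ i, 0 ≤ l i)
    (hl1 : ∑ i, l i = 1) (y : ℂ) (F : ℂ → Bool) : |Vv_W l h y F| ≤ 2 := by
  unfold Vv_W
  have h1 := aF_le l h hl hl1 F y
  have h2 := (abs_sg (F y)).le
  have h3 := abs_sub (sg (F y)) (aF l h F y)
  linarith

private theorem Vv_W_bdd {ι : Type} [Fintype ι] (l : ι → ℝ) (h : ι → ℂ) (hl : ∀ i, 0 ≤ l i)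
    (hl1 : ∑ i, l i = 1) (y : ℂ) : Bdd (fun F => Vv_W l h y F) :=
  ⟨2, fun F => Vv_W_le l h hl hl1 y F⟩

private theorem Vv_WW {f : ℂ → Bool} {E : ((ℂ → Bool) → ℝ) → ℝ} {k kc : ℝ → ℝ}
    (S : Sett f E k kc) {ι : Type} [Fintype ι] (l : ι → ℝ) (h h' : ι → ℂ) (y y' : ℂ) :
    E (fun F => Vv_W l h y F * Vv_W l h' y' F) =
      k ‖y - y'‖ - ∑ a, l a * k ‖y - (y' + h' a)‖ - ∑ a, l a * k ‖y' - (y + h a)‖ +
        ∑ a, ∑ b, l a * l b * k ‖y + h a - (y' + h' b)‖ := by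
  have b1 : Bdd (fun F : ℂ → Bool => sg (F y) * sg (F y')) := bdd_mul (bdd_sg _) (bdd_sg _)
  have b2 : Bdd (fun F : ℂ → Bool => sg (F y) * aF l h' F y') := bdd_mul (bdd_sg _) (bdd_aF _ _ _)
  have b3 : Bdd (fun F : ℂ → Bool => sg (F y') * aF l h F y) := bdd_mul (bdd_sg _) (bdd_aF _ _ _)
  have b4 : Bdd (fun F : ℂ → Bool => aF l h F y * aF l h' F y') :=
    bdd_mul (bdd_aF _ _ _) (bdd_aF _ _ _)
  have e0 : (fun F => Vv_W l h y F * Vv_W l h' y' F) = fun F =>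
      ((sg (F y) * sg (F y') - sg (F y) * aF l h' F y') - sg (F y') * aF l h F y) +
        aF l h F y * aF l h' F y' := by
    funext F
    unfold Vv_W
    ring
  rw [e0, S.stat.add _ _ (bdd_sub (bdd_sub b1 b2) b3) b4, E_sub S.stat _ _ (bdd_sub b1 b2) b3,
    E_sub S.stat _ _ b1 b2, S.hk, aF_mul1 l h' f E S.stat k S.hk, aF_mul1 l h f E S.stat k S.hk,
    aF_mul2 l h h' f E S.stat k S.hk]

private theorem Vv_off {f : ℂ → Bool} {E : ((ℂ → Bool) → ℝ) → ℝ} {k kc : ℝ → ℝ}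
    (S : Sett f E k kc) {ι : Type} [Fintype ι] (l : ι → ℝ) (h h' : ι → ℂ) (hl : ∀ i, 0 ≤ l i)
    (hl1 : ∑ i, l i = 1) (δ ω : ℝ) (hh : ∀ i, ‖h i‖ < δ) (hh' : ∀ i, ‖h' i‖ < δ) (hω0 : 0 ≤ ω)
    (y y' : ℂ) (hd : 2 * δ < ‖y - y'‖)
    (hω : ∀ r : ℝ, 0 ≤ r → |r - ‖y - y'‖| ≤ 2 * δ → |kc r - kc ‖y - y'‖| ≤ ω) :
    E (fun F => Vv_W l h y F * Vv_W l h' y' F) ≤ 4 * ω := by
  have hne : ∃ a : ι, True := by
    by_contra hcon
    push Not at hcon
    have : IsEmpty ι := ⟨fun a => hcon a⟩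
    rw [Finset.univ_eq_empty, Finset.sum_empty] at hl1
    exact zero_ne_one hl1
  obtain ⟨a0, -⟩ := hne
  have hδ : 0 < δ := lt_of_le_of_lt (norm_nonneg _) (hh a0)
  obtain ⟨d, hdd⟩ : ∃ d : ℝ, d = ‖y - y'‖ := ⟨_, rfl⟩
  rw [← hdd] at hd hω
  have hk : ∀ r : ℝ, |r - d| < 2 * δ → |k r - kc d| ≤ ω := by
    intro r hr
    have hr0 : 0 < r := by
      have := (abs_lt.mp hr).1
      linarith
    rw [← S.eq r hr0]
    exact hω r hr0.le hr.le
  have hd0 : 0 < d := by linarith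
  rw [Vv_WW S l h h' y y', ← hdd]
  -- the arguments
  have r1 : ∀ a, |‖y - (y' + h' a)‖ - d| < 2 * δ := by
    intro a
    rw [hdd]
    have h1 := abs_norm_sub_norm_le (y - (y' + h' a)) (y - y')
    have h2 : (y - (y' + h' a)) - (y - y') = - h' a := by ring
    rw [h2, norm_neg] at h1
    have := hh' a
    linarith
  have r2 : ∀ a, |‖y' - (y + h a)‖ - d| < 2 * δ := by
    intro a
    rw [hdd, norm_sub_rev y y']
    have h1 := abs_norm_sub_norm_le (y' - (y + h a)) (y' - y)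
    have h2 : (y' - (y + h a)) - (y' - y) = - h a := by ring
    rw [h2, norm_neg] at h1
    have := hh a
    linarith
  have r3 : ∀ a b, |‖y + h a - (y' + h' b)‖ - d| < 2 * δ := by
    intro a b
    rw [hdd]
    have h1 := abs_norm_sub_norm_le (y + h a - (y' + h' b)) (y - y')
    have h2 : (y + h a - (y' + h' b)) - (y - y') = h a - h' b := by ring
    rw [h2] at h1
    have h3 := norm_sub_le (h a) (h' b)
    have := hh a
    have := hh' b
    linarith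
  have s1 : kc d - ω ≤ ∑ a, l a * k ‖y - (y' + h' a)‖ := by
    calc kc d - ω = ∑ a, l a * (kc d - ω) := by rw [← Finset.sum_mul, hl1, one_mul]
      _ ≤ _ := Finset.sum_le_sum fun a _ => mul_le_mul_of_nonneg_left (by
        have := (abs_le.mp (hk _ (r1 a))).1
        linarith) (hl a)
  have s2 : kc d - ω ≤ ∑ a, l a * k ‖y' - (y + h a)‖ := by
    calc kc d - ω = ∑ a, l a * (kc d - ω) := by rw [← Finset.sum_mul, hl1, one_mul]
      _ ≤ _ := Finset.sum_le_sum fun a _ => mul_le_mul_of_nonneg_left (by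
        have := (abs_le.mp (hk _ (r2 a))).1
        linarith) (hl a)
  have s3 : ∑ a, ∑ b, l a * l b * k ‖y + h a - (y' + h' b)‖ ≤ kc d + ω := by
    calc ∑ a, ∑ b, l a * l b * k ‖y + h a - (y' + h' b)‖
        ≤ ∑ a, ∑ b, l a * l b * (kc d + ω) := Finset.sum_le_sum fun a _ =>
          Finset.sum_le_sum fun b _ => mul_le_mul_of_nonneg_left (by
            have := (abs_le.mp (hk _ (r3 a b))).2
            linarith) (mul_nonneg (hl a) (hl b))
      _ = kc d + ω := by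
        have e1 : ∀ a, ∑ b, l a * l b * (kc d + ω) = l a * (kc d + ω) := by
          intro a
          rw [← Finset.sum_mul, ← Finset.mul_sum, hl1, mul_one]
        rw [Finset.sum_congr rfl fun a _ => e1 a, ← Finset.sum_mul, hl1, one_mul]
  have s0 : k d = kc d := (S.eq d hd0).symm
  rw [s0]
  linarith

theorem vv_est {f : ℂ → Bool} {E : ((ℂ → Bool) → ℝ) → ℝ} {k kc : ℝ → ℝ} (S : Sett f E k kc)
    {ι : Type} [Fintype ι] (l : ι → ℝ) (h : ι → ℂ) (δ ε : ℝ) (hW : Wt k kc δ ε l h)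
    (y : ℂ) (K : ℕ) (θ w : Fin K → ℂ) (hθ : ∀ i, ‖θ i‖ = 1) (ω : ℝ) (hω0 : 0 ≤ ω)
    (hsep : ∀ i j, i ≠ j → 2 * δ < ‖(θ i * y + w i) - (θ j * y + w j)‖)
    (hω : ∀ i j, i ≠ j → ∀ r : ℝ, 0 ≤ r →
      |r - ‖(θ i * y + w i) - (θ j * y + w j)‖| ≤ 2 * δ →
      |kc r - kc ‖(θ i * y + w i) - (θ j * y + w j)‖| ≤ ω) :
    E (fun F => (∑ i, (sg (mv (θ i) (w i) F y) - aF l h (mv (θ i) (w i) F) y)) ^ 2) ≤
      4 * K + 4 * ω * (K : ℝ) ^ 2 := by
  classical
  obtain ⟨X, hX⟩ : ∃ X : Fin K → (ℂ → Bool) → ℝ, X = fun i F =>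
    Vv_W l (fun a => θ i * h a) (θ i * y + w i) F := ⟨_, rfl⟩
  have hXb : ∀ i, Bdd (X i) := by
    intro i
    rw [hX]
    exact Vv_W_bdd l _ hW.nn hW.sum _
  have e0 : (fun F => (∑ i, (sg (mv (θ i) (w i) F y) - aF l h (mv (θ i) (w i) F) y)) ^ 2) =
      fun F => ∑ p ∈ (Finset.univ : Finset (Fin K × Fin K)), (1 : ℝ) * (X p.1 F * X p.2 F) := by
    funext F
    have e1 : ∀ i, sg (mv (θ i) (w i) F y) - aF l h (mv (θ i) (w i) F) y = X i F := by
      intro i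
      rw [aF_mv, hX]
      rfl
    rw [Finset.sum_congr rfl fun i _ => e1 i, pow_two, Finset.sum_mul_sum, Fintype.sum_prod_type]
    refine Finset.sum_congr rfl fun i _ => Finset.sum_congr rfl fun j _ => ?_
    rw [one_mul]
  rw [e0, stat_sum f E S.stat Finset.univ (fun _ => (1 : ℝ))
    (fun (p : Fin K × Fin K) F => X p.1 F * X p.2 F) fun p _ => bdd_mul (hXb _) (hXb _),
    Fintype.sum_prod_type]
  have hnorm : ∀ i a, ‖θ i * h a‖ < δ := by
    intro i a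
    rw [norm_mul, hθ i, one_mul]
    exact hW.small a
  have key : ∀ i j, (1 : ℝ) * E (fun F => X i F * X j F) ≤ (if i = j then 4 else 0) + 4 * ω := by
    intro i j
    rw [one_mul]
    by_cases hij : i = j
    · rw [if_pos hij, ← hij]
      have h1 : E (fun F => X i F * X i F) ≤ E (fun _ => 4) := by
        refine E_mono' S.stat _ _ (bdd_mul (hXb i) (hXb i)) (bdd_const 4) fun F => ?_
        have h2 : |X i F| ≤ 2 := by
          rw [hX]
          exact Vv_W_le l _ hW.nn hW.sum _ F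
        have h3 : X i F * X i F = |X i F| ^ 2 := by rw [sq_abs]; ring
        rw [h3]
        have h4 := abs_nonneg (X i F)
        nlinarith
      rw [E_const S.stat] at h1
      linarith
    · rw [if_neg hij, zero_add]
      have := Vv_off S l (fun a => θ i * h a) (fun a => θ j * h a) hW.nn hW.sum δ ω
        (fun a => hnorm i a) (fun a => hnorm j a) hω0 (θ i * y + w i) (θ j * y + w j)
        (hsep i j hij) (hω i j hij)
      rw [hX]
      exact this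
  refine (Finset.sum_le_sum fun i _ => Finset.sum_le_sum fun j _ => key i j).trans (le_of_eq ?_)
  have e2 : ∀ i : Fin K, ∑ j : Fin K, ((if i = j then (4 : ℝ) else 0) + 4 * ω) =
      4 + K * (4 * ω) := by
    intro i
    rw [Finset.sum_add_distrib, Finset.sum_ite_eq, if_pos (Finset.mem_univ _), Finset.sum_const,
      Finset.card_univ, Fintype.card_fin, nsmul_eq_mul]
  rw [Finset.sum_congr rfl fun i _ => e2 i, Finset.sum_const, Finset.card_univ, Fintype.card_fin,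
    nsmul_eq_mul]
  ring

end Pool.Agent.H79.TS
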