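import Pool.Agent.H79.TS.Dist
import Pool.Agent.H79.TS.Vv

/-!
# ROW Para: choice of the parameters (about 170 lines)

PROOF.
Let `M := ‖p‖ + ‖q‖ + 1`.  (1) `kc` is continuous at 0: choose `0 < s ≤ 1` with `kc 0 - kc r ≤ β² / 8` for `0 ≤ r ≤ s`.  (2) Choose `K ≥ 1` with `4 / K ≤ β² / 2` and `α > 0` with `α ≤ 1` and `α * M ≤ s`; `θ i := exp (α (i + 1) / K * I)`, `i : Fin K`: unit numbers, pairwise different (the angles are different numbers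
in `(0, 1]`), `‖θ i - 1‖ ≤ α` (`‖exp (t I) - 1‖ ≤ |t|`, `Complex.norm_exp_I_mul_ofReal_sub_one_le` or similar).  `d₀ > 0` with `d₀ ≤ ‖θ i - θ j‖ * min ‖p‖ ‖q‖` for all `i ≠ j` (finitely many; take `d₀ = 1` if `K = 1`).
(3) `kc` is uniformly continuous on `[0, 2 M + 2]` (compact): choose `δ₁ > 0`, `δ₁ ≤ 1/2` with `|kc r - kc r'| ≤ β² / 16` for `r, r' ∈ [0, 2 M + 2]`, `|r - r'| ≤ 2 δ₁`.  `ω := β² / 16`.
`δ₀ := min (min δ₁ s) (min (d₀ / 3) (β² / 16))`.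
First claim: `aF l h F v' = aF l h (mv 1 (v' - v) F) v` (`aF_mv`; `θ = 1`), so `dist_est` (`‖v' - v‖ ≤ δ₀ ≤ s`): `E (.. ^ 2) ≤ 2 (β² / 8) + 2 ε + 2 ω ≤ β² / 4 + β² / 8 + β² / 8 ≤ β²` and `E_abs_sq`.
Second claim (`mv 1 (-(h i))` moves `v` to `v - h i`, `‖h i‖ < δ ≤ δ₀`): the same.
Third claim, for `v' = x + Θ p` (or `x + Θ q`): `w i := x - θ i * x`, so `θ i * x + w i = x` and `θ i * v + w i - v = (θ i - 1) (v - x)`, of norm `≤ α M ≤ s` for `v ∈ {x, x + Θ p, x + Θ q}`: `dist_est` and `E_abs_sq` as before.  The last inequality: `vv_est`: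
`‖(θ i v' + w i) - (θ j v' + w j)‖ = ‖θ i - θ j‖ ‖v' - x‖ ≥ d₀ > 2 δ₀ ≥ 2 δ` and `≤ 2 M`, so `E (..) ≤ 4 K + 4 ω K² ≤ K² (β² / 2 + β² / 4) ≤ (K β)²`.
-/

set_option autoImplicit false

namespace Pool.Agent.H79.TS

open MeasureTheory Filter Topology Pool.Agent.H93.EG Pool.Agent.H58.ER

private theorem Para_lb {α : Type} [Fintype α] (g : α → ℝ) (hg : ∀ a, 0 < g a) :
    ∃ d : ℝ, 0 < d ∧ ∀ a, d ≤ g a := by
  rcases isEmpty_or_nonempty α with h | h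
  · exact ⟨1, one_pos, fun a => h.elim a⟩
  · obtain ⟨a, ha⟩ := Finite.exists_min g
    exact ⟨g a, hg a, ha⟩

private theorem Para_kc0 {kc : ℝ → ℝ} (hc : Continuous kc) (η : ℝ) (hη : 0 < η) :
    ∃ s : ℝ, 0 < s ∧ s ≤ 1 ∧ ∀ r, 0 ≤ r → r ≤ s → kc 0 - kc r ≤ η := by
  obtain ⟨s0, hs0, h0⟩ := Metric.continuousAt_iff.1 (hc.continuousAt (x := 0)) η hη
  refine ⟨min 1 (s0 / 2), lt_min one_pos (by linarith), min_le_left _ _, fun r hr hrs => ?_⟩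
  have h1 : dist r 0 < s0 := by
    rw [Real.dist_eq, sub_zero, abs_of_nonneg hr]
    have := hrs.trans (min_le_right _ _)
    linarith
  have h2 := h0 h1
  rw [Real.dist_eq] at h2
  have h3 := neg_abs_le (kc r - kc 0)
  linarith

private theorem Para_uc {kc : ℝ → ℝ} (hc : Continuous kc) (R η : ℝ) (hη : 0 < η) :
    ∃ δ : ℝ, 0 < δ ∧ δ ≤ 1 / 2 ∧ ∀ r r', 0 ≤ r → r ≤ R → 0 ≤ r' → r' ≤ R → |r - r'| ≤ 2 * δ →
      |kc r - kc r'| ≤ η := by
  have hu := (isCompact_Icc (a := (0 : ℝ)) (b := R)).uniformContinuousOn_of_continuous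
    hc.continuousOn
  obtain ⟨δ, hδ, h⟩ := Metric.uniformContinuousOn_iff.1 hu η hη
  refine ⟨min (1 / 2) (δ / 4), lt_min (by norm_num) (by linarith), min_le_left _ _, ?_⟩
  intro r r' h1 h2 h3 h4 h5
  have h6 := min_le_right (1 / 2) (δ / 4)
  have h7 := h r ⟨h1, h2⟩ r' ⟨h3, h4⟩ (by
    rw [Real.dist_eq]
    linarith)
  rw [Real.dist_eq] at h7
  exact h7.le

private theorem Para_ne {K : ℕ} (hK : 0 < K) (α : ℝ) (hα : 0 < α) (hα1 : α ≤ 1) (i j : Fin K)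
    (hij : i ≠ j) :
    Complex.exp (Complex.I * ((α * ((i : ℕ) + 1) / K : ℝ) : ℂ)) ≠
      Complex.exp (Complex.I * ((α * ((j : ℕ) + 1) / K : ℝ) : ℂ)) := by
  intro he
  have hKr : (0 : ℝ) < K := by exact_mod_cast hK
  have hmem : ∀ i : Fin K, (α * ((i : ℕ) + 1) / K : ℝ) ∈ Set.Icc (-(Real.pi / 2)) (Real.pi / 2) := by
    intro i
    have h1 : ((i : ℕ) : ℝ) + 1 ≤ K := by
      have := i.2
      exact_mod_cast this
    have h2 : (0 : ℝ) ≤ α * ((i : ℕ) + 1) / K := by positivity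
    have h3 : α * ((i : ℕ) + 1) / K ≤ 1 := by
      rw [div_le_one hKr]
      have h4 : (0 : ℝ) ≤ ((i : ℕ) : ℝ) + 1 := by positivity
      nlinarith
    have h5 := Real.pi_gt_three
    constructor
    · linarith
    · linarith
  have h1 := congrArg Complex.im he
  rw [mul_comm Complex.I, mul_comm Complex.I, Complex.exp_ofReal_mul_I_im,
    Complex.exp_ofReal_mul_I_im] at h1
  have h2 := Real.injOn_sin (hmem i) (hmem j) h1
  apply hij
  have h3 : α * (((i : ℕ) : ℝ) + 1) = α * (((j : ℕ) : ℝ) + 1) := by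
    have h4 := (div_left_inj' hKr.ne').1 h2
    exact h4
  have h5 := mul_left_cancel₀ hα.ne' h3
  have h6 : ((i : ℕ) : ℝ) = ((j : ℕ) : ℝ) := by linarith
  exact Fin.ext (by exact_mod_cast h6)

theorem para {f : ℂ → Bool} {E : ((ℂ → Bool) → ℝ) → ℝ} {k kc : ℝ → ℝ} (S : Sett f E k kc)
    (p q : ℂ) (hp : p ≠ 0) (hq : q ≠ 0) (β : ℝ) (hβ : 0 < β) :
    ∃ δ₀ : ℝ, 0 < δ₀ ∧ ∀ (ι : Type) (_ : Fintype ι) (l : ι → ℝ) (h : ι → ℂ) (δ ε : ℝ),
      Wt k kc δ ε l h → δ ≤ δ₀ → ε ≤ δ₀ →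
      (∀ v v' : ℂ, ‖v' - v‖ ≤ δ₀ → E (fun F => |aF l h F v' - aF l h F v|) ≤ β) ∧
      ∀ x Θ : ℂ, ‖Θ‖ = 1 →
        (∀ i, ∀ v : ℂ, E (fun F => |aF l h (mv 1 (-(h i)) F) v - aF l h F v|) ≤ β) ∧
        ∀ v' : ℂ, (v' = x + Θ * p ∨ v' = x + Θ * q) → ∃ (K : ℕ) (θ w : Fin K → ℂ), 0 < K ∧
          (∀ i, ‖θ i‖ = 1) ∧ (∀ i, θ i * x + w i = x) ∧
          (∀ i, ∀ v : ℂ, (v = x ∨ v = x + Θ * p ∨ v = x + Θ * q) →
            E (fun F => |aF l h (mv (θ i) (w i) F) v - aF l h F v|) ≤ β) ∧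
          E (fun F => (∑ i, (sg (mv (θ i) (w i) F v') - aF l h (mv (θ i) (w i) F) v')) ^ 2) ≤
            (K * β) ^ 2 := by
  obtain ⟨M, hM⟩ : ∃ M : ℝ, M = ‖p‖ + ‖q‖ + 1 := ⟨_, rfl⟩
  have hp0 : 0 < ‖p‖ := norm_pos_iff.2 hp
  have hq0 : 0 < ‖q‖ := norm_pos_iff.2 hq
  have hM0 : 0 < M := by linarith
  have hb2 : 0 < β ^ 2 := by positivity
  obtain ⟨s, hs, hs1, hsk⟩ := Para_kc0 S.cont (β ^ 2 / 8) (by positivity)
  obtain ⟨δ₁, hδ₁, hδ₁h, hδ₁k⟩ := Para_uc S.cont (2 * M + 2) (β ^ 2 / 16) (by positivity)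
  obtain ⟨K, hK, hKb⟩ : ∃ K : ℕ, 0 < K ∧ (4 : ℝ) ≤ β ^ 2 / 2 * K := by
    obtain ⟨n, hn⟩ := exists_nat_ge (8 / β ^ 2)
    refine ⟨n + 1, Nat.succ_pos n, ?_⟩
    rw [div_le_iff₀ hb2] at hn
    push_cast
    nlinarith
  have hKr : (0 : ℝ) < K := by exact_mod_cast hK
  obtain ⟨α, hα, hα1, hαM⟩ : ∃ α : ℝ, 0 < α ∧ α ≤ 1 ∧ α * M ≤ s := by
    refine ⟨min 1 (s / M), lt_min one_pos (div_pos hs hM0), min_le_left _ _, ?_⟩
    have := mul_le_mul_of_nonneg_right (min_le_right 1 (s / M)) hM0.le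
    rwa [div_mul_cancel₀ _ hM0.ne'] at this
  obtain ⟨θ, hθ⟩ : ∃ θ : Fin K → ℂ, ∀ i : Fin K,
      θ i = Complex.exp (Complex.I * ((α * ((i : ℕ) + 1) / K : ℝ) : ℂ)) := ⟨_, fun _ => rfl⟩
  have hθ1 : ∀ i, ‖θ i‖ = 1 := by
    intro i
    rw [hθ, mul_comm]
    exact Complex.norm_exp_ofReal_mul_I _
  have hθα : ∀ i, ‖θ i - 1‖ ≤ α := by
    intro i
    rw [hθ]
    refine (Real.norm_exp_I_mul_ofReal_sub_one_le (x := α * ((i : ℕ) + 1) / K)).trans ?_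
    have h2 : (0 : ℝ) ≤ α * ((i : ℕ) + 1) / K := by positivity
    rw [Real.norm_eq_abs, abs_of_nonneg h2, div_le_iff₀ hKr]
    have h1 : ((i : ℕ) : ℝ) + 1 ≤ K := by
      have := i.2
      exact_mod_cast this
    exact mul_le_mul_of_nonneg_left h1 hα.le
  have hθne : ∀ i j, i ≠ j → 0 < ‖θ i - θ j‖ := by
    intro i j hij
    rw [norm_pos_iff, sub_ne_zero, hθ, hθ]
    exact Para_ne hK α hα hα1 i j hij
  have hmin : 0 < min ‖p‖ ‖q‖ := lt_min hp0 hq0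
  obtain ⟨d₀, hd₀, hd₀'⟩ := Para_lb (fun a : {a : Fin K × Fin K // a.1 ≠ a.2} =>
    ‖θ a.1.1 - θ a.1.2‖ * min ‖p‖ ‖q‖) (fun a => mul_pos (hθne _ _ a.2) hmin)
  have move : ∀ (ι : Type) (_ : Fintype ι) (l : ι → ℝ) (h : ι → ℂ) (δ ε : ℝ),
      Wt k kc δ ε l h → δ ≤ δ₁ → ε ≤ β ^ 2 / 16 → ∀ ϑ w v : ℂ, ‖ϑ‖ = 1 → ‖ϑ * v + w - v‖ ≤ s →
        E (fun F => |aF l h (mv ϑ w F) v - aF l h F v|) ≤ β := by
    intro ι _ l h δ ε hW hδ hε ϑ w v hϑ hd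
    refine E_abs_sq S.stat (fun F => aF l h (mv ϑ w F) v - aF l h F v)
      (bdd_sub (bdd_mv (bdd_aF l h v) ϑ w) (bdd_aF l h v)) β hβ ?_
    have h1 := dist_est S l h δ ε hW (β ^ 2 / 16) ϑ w v hϑ (fun r hr hrd => by
      have h3 := (abs_le.1 hrd).2
      exact hδ₁k r _ hr (by linarith) (norm_nonneg _) (by linarith) (hrd.trans (by linarith)))
    have h2 := hsk _ (norm_nonneg _) hd
    linarith
  refine ⟨min (min δ₁ s) (min (d₀ / 3) (β ^ 2 / 16)), ?_, ?_⟩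
  · exact lt_min (lt_min hδ₁ hs) (lt_min (by linarith) (by positivity))
  intro ι _ l h δ ε hW hδ hε
  have hδ1 : δ ≤ δ₁ := hδ.trans ((min_le_left _ _).trans (min_le_left _ _))
  have hδs : δ ≤ s := hδ.trans ((min_le_left _ _).trans (min_le_right _ _))
  have hδd : δ ≤ d₀ / 3 := hδ.trans ((min_le_right _ _).trans (min_le_left _ _))
  have hεb : ε ≤ β ^ 2 / 16 := hε.trans ((min_le_right _ _).trans (min_le_right _ _))
  refine ⟨fun v v' hv => ?_, fun x Θ hΘ => ⟨fun i v => ?_, fun v' hv' =>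
    ⟨K, θ, fun i => x - θ i * x, hK, hθ1, fun i => by ring, fun i v hv => ?_, ?_⟩⟩⟩
  · have e : ∀ F, aF l h (mv 1 (v' - v) F) v = aF l h F v' := by
      intro F
      rw [aF_mv]
      simp only [one_mul]
      congr 1
      ring
    have h1 := move ι _ l h δ ε hW hδ1 hεb 1 (v' - v) v norm_one (by
      have h2 : (1 : ℂ) * v + (v' - v) - v = v' - v := by ring
      rw [h2]
      exact hv.trans ((min_le_left _ _).trans (min_le_right _ _)))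
    simp only [e] at h1
    exact h1
  · refine move ι _ l h δ ε hW hδ1 hεb 1 (-(h i)) v norm_one ?_
    have h2 : (1 : ℂ) * v + -(h i) - v = -(h i) := by ring
    rw [h2, norm_neg]
    exact (hW.small i).le.trans hδs
  · refine move ι _ l h δ ε hW hδ1 hεb (θ i) (x - θ i * x) v (hθ1 i) ?_
    have h2 : θ i * v + (x - θ i * x) - v = (θ i - 1) * (v - x) := by ring
    have h3 : ‖v - x‖ ≤ M := by
      rcases hv with h | h | h
      · rw [h, sub_self, norm_zero]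
        exact hM0.le
      · rw [h, add_sub_cancel_left, norm_mul, hΘ, one_mul]
        linarith
      · rw [h, add_sub_cancel_left, norm_mul, hΘ, one_mul]
        linarith
    rw [h2, norm_mul]
    exact (mul_le_mul (hθα i) h3 (norm_nonneg _) hα.le).trans hαM
  · have hvx : min ‖p‖ ‖q‖ ≤ ‖v' - x‖ ∧ ‖v' - x‖ ≤ M := by
      rcases hv' with h | h
      · rw [h, add_sub_cancel_left, norm_mul, hΘ, one_mul]
        exact ⟨min_le_left _ _, by linarith⟩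
      · rw [h, add_sub_cancel_left, norm_mul, hΘ, one_mul]
        exact ⟨min_le_right _ _, by linarith⟩
    have hdist : ∀ i j : Fin K, (θ i * v' + (x - θ i * x)) - (θ j * v' + (x - θ j * x)) =
        (θ i - θ j) * (v' - x) := by
      intro i j
      ring
    have hfin := vv_est S l h δ ε hW v' K θ (fun i => x - θ i * x) hθ1 (β ^ 2 / 16)
      (by positivity) (fun i j hij => by
        rw [hdist, norm_mul]
        have h1 := hd₀' ⟨(i, j), hij⟩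
        have h2 : ‖θ i - θ j‖ * min ‖p‖ ‖q‖ ≤ ‖θ i - θ j‖ * ‖v' - x‖ :=
          mul_le_mul_of_nonneg_left hvx.1 (norm_nonneg _)
        have h3 : d₀ ≤ ‖θ i - θ j‖ * min ‖p‖ ‖q‖ := h1
        linarith) (fun i j hij r hr hrd => by
        rw [hdist, norm_mul] at hrd ⊢
        have h1 : ‖θ i - θ j‖ ≤ 2 := by
          refine (norm_sub_le _ _).trans ?_
          rw [hθ1, hθ1]
          norm_num
        have h2 : ‖θ i - θ j‖ * ‖v' - x‖ ≤ 2 * M := mul_le_mul h1 hvx.2 (norm_nonneg _) (by norm_num)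
        have h3 := (abs_le.1 hrd).2
        exact hδ₁k r _ hr (by linarith) (by positivity) (by linarith) (hrd.trans (by linarith)))
    refine hfin.trans ?_
    have h1 : 4 * (K : ℝ) ≤ β ^ 2 / 2 * K * K := mul_le_mul_of_nonneg_right hKb hKr.le
    have h2 : 0 < β ^ 2 * (K : ℝ) ^ 2 := by positivity
    have h3 : ((K : ℝ) * β) ^ 2 = β ^ 2 * (K : ℝ) ^ 2 := by ring
    rw [h3]
    linarith

end Pool.Agent.H79.TS
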