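import Pool.Agent.H79.TS.MainEst
import Pool.Agent.H79.TS.Para

/-!
# ROW Near: the estimate for almost exact copies (about 90 lines)

PROOF.
`η := min 1 (τ / 4)`, `β := min (τ / 24) (η * τ / 208)`, so `η ≤ τ / 4`, `52 β / η ≤ τ / 4`, `6 β ≤ τ / 4`.  `para` gives `δ₀`.  For `x, Θ` put `y := x + Θ p`, `z := x + Θ q`; a motion of the triple `x, y, z`: `θ * (x + Θ * p) + w = (θ * Θ) * p + (θ * x + w)`, so the hypothesis `hf` gives the one of
`main_est`, whose conclusion is `E (max 0 u) ≤ η + 52 β / η ≤ τ / 2` with `u F := (1 + e * G x) * (e * (G y + G z))`.  For the primed points `|u' F - u F| ≤ 2 (|G x' - G x| + |G y' - G y| + |G z' - G z|)` (`|G| ≤ 1`, `aF_le`), `max 0 u' ≤ max 0 u + |u' - u|`, and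
`E |G v' - G v| ≤ β` (first claim of `para`): `E (max 0 u') ≤ τ / 2 + 6 β ≤ τ`.
-/

set_option autoImplicit false

namespace Pool.Agent.H79.TS

open MeasureTheory Filter Topology Pool.Agent.H93.EG Pool.Agent.H58.ER

private theorem Near_lip (e : ℝ) (he : e = 1 ∨ e = -1) (a b c a' b' c' : ℝ)
    (ha : |a| ≤ 1) (hb' : |b'| ≤ 1) (hc' : |c'| ≤ 1) :
    |((1 + e * a') * (e * (b' + c'))) - ((1 + e * a) * (e * (b + c)))| ≤
      2 * (|a' - a| + (|b' - b| + |c' - c|)) := by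
  have h1 : (1 + e * a') * (e * (b' + c')) - (1 + e * a) * (e * (b + c)) =
      (e * (a' - a)) * (e * (b' + c')) + (1 + e * a) * (e * ((b' - b) + (c' - c))) := by
    ring
  rw [h1]
  have h2 : 2 * (|a' - a| + (|b' - b| + |c' - c|)) = |a' - a| * 2 + 2 * (|b' - b| + |c' - c|) := by
    ring
  rw [h2]
  have hee : |e| = 1 := by
    rcases he with h | h <;> rw [h] <;> norm_num
  refine (abs_add_le _ _).trans (add_le_add ?_ ?_)
  · rw [abs_mul, abs_mul, abs_mul, hee, one_mul, one_mul]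
    refine mul_le_mul_of_nonneg_left ?_ (abs_nonneg _)
    exact (abs_add_le _ _).trans (by linarith)
  · rw [abs_mul, abs_mul, hee, one_mul]
    refine mul_le_mul ?_ (abs_add_le _ _) (abs_nonneg _) (by norm_num)
    refine (abs_add_le _ _).trans ?_
    rw [abs_mul, hee, one_mul, abs_one]
    linarith

private theorem Near_max (u v : ℝ) : max 0 v ≤ max 0 u + |v - u| := by
  have h1 : v ≤ u + |v - u| := by
    have := le_abs_self (v - u)
    linarith
  have h2 : u ≤ max 0 u := le_max_right _ _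
  have h3 : 0 ≤ max 0 u := le_max_left _ _
  have h4 : 0 ≤ |v - u| := abs_nonneg _
  exact max_le (by linarith) (by linarith)

theorem near {f : ℂ → Bool} {E : ((ℂ → Bool) → ℝ) → ℝ} {k kc : ℝ → ℝ} (S : Sett f E k kc)
    (e : ℝ) (he : e = 1 ∨ e = -1) (p q : ℂ) (hp : p ≠ 0) (hq : q ≠ 0)
    (hf : ∀ θ w : ℂ, ‖θ‖ = 1 →
      ¬ (sg (f w) = e ∧ sg (f (θ * p + w)) = e ∧ sg (f (θ * q + w)) = e))
    (τ : ℝ) (hτ : 0 < τ) :
    ∃ δ₀ : ℝ, 0 < δ₀ ∧ ∀ (ι : Type) (_ : Fintype ι) (l : ι → ℝ) (h : ι → ℂ) (δ ε : ℝ),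
      Wt k kc δ ε l h → δ ≤ δ₀ → ε ≤ δ₀ →
      ∀ x Θ x' y' z' : ℂ, ‖Θ‖ = 1 → ‖x' - x‖ ≤ δ₀ → ‖y' - (x + Θ * p)‖ ≤ δ₀ →
        ‖z' - (x + Θ * q)‖ ≤ δ₀ →
        E (fun F => max 0 ((1 + e * aF l h F x') * (e * (aF l h F y' + aF l h F z')))) ≤ τ := by
  obtain ⟨η, hηdef⟩ : ∃ η : ℝ, η = min 1 (τ / 4) := ⟨_, rfl⟩
  have hη : 0 < η := by
    rw [hηdef]
    exact lt_min one_pos (by linarith)
  have hη1 : η ≤ 1 := by
    rw [hηdef]
    exact min_le_left _ _
  have hητ : η ≤ τ / 4 := by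
    rw [hηdef]
    exact min_le_right _ _
  obtain ⟨β, hβdef⟩ : ∃ β : ℝ, β = min (τ / 24) (η * τ / 208) := ⟨_, rfl⟩
  have hβ : 0 < β := by
    rw [hβdef]
    exact lt_min (by linarith) (by positivity)
  have hβ1 : β ≤ τ / 24 := by
    rw [hβdef]
    exact min_le_left _ _
  have hβ2 : β ≤ η * τ / 208 := by
    rw [hβdef]
    exact min_le_right _ _
  have h52 : 52 * β / η ≤ τ / 4 := by
    rw [div_le_iff₀ hη]
    linarith
  obtain ⟨δ₀, hδ₀, hpara⟩ := para S p q hp hq β hβ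
  refine ⟨δ₀, hδ₀, ?_⟩
  intro ι _ l h δ ε hW hδ hε x Θ x' y' z' hΘ hx' hy' hz'
  obtain ⟨P1, P2⟩ := hpara ι _ l h δ ε hW hδ hε
  obtain ⟨P3, P4⟩ := P2 x Θ hΘ
  have hE := S.stat
  have hmain := main_est S l h δ ε hW e he x (x + Θ * p) (x + Θ * q) (fun θ w hθ => by
      have h1 := hf (θ * Θ) (θ * x + w) (by rw [norm_mul, hθ, hΘ, mul_one])
      have e1 : θ * Θ * p + (θ * x + w) = θ * (x + Θ * p) + w := by ring
      have e2 : θ * Θ * q + (θ * x + w) = θ * (x + Θ * q) + w := by ring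
      rw [e1, e2] at h1
      exact h1) β η hβ hη hη1 (fun i v _ => P3 i v) (fun v' hv' => P4 v' hv')
  have hG : ∀ (v : ℂ) (F : ℂ → Bool), |aF l h F v| ≤ 1 := fun v F => aF_le l h hW.nn hW.sum F v
  have bG : ∀ v : ℂ, Bdd (fun F : ℂ → Bool => aF l h F v) := fun v => bdd_aF l h v
  have bmax : ∀ x y z : ℂ,
      Bdd (fun F : ℂ → Bool => max 0 ((1 + e * aF l h F x) * (e * (aF l h F y + aF l h F z)))) := by
    intro x y z
    obtain ⟨D, hD⟩ := bdd_mul ((bdd_const (1 : ℝ)).add ((bG x).smul e))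
      (((bG y).add (bG z)).smul e)
    refine ⟨D, fun F => ?_⟩
    rw [abs_of_nonneg (le_max_left _ _)]
    exact max_le ((abs_nonneg _).trans (hD F)) ((le_abs_self _).trans (hD F))
  have bD : ∀ v v' : ℂ, Bdd (fun F : ℂ → Bool => |aF l h F v' - aF l h F v|) := fun v v' =>
    bdd_abs (bdd_sub (bG v') (bG v))
  have hcomp := E_mono' hE
    (fun F => max 0 ((1 + e * aF l h F x') * (e * (aF l h F y' + aF l h F z'))))
    (fun F => max 0 ((1 + e * aF l h F x) * (e * (aF l h F (x + Θ * p) + aF l h F (x + Θ * q)))) +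
      2 * (|aF l h F x' - aF l h F x| + (|aF l h F y' - aF l h F (x + Θ * p)| +
        |aF l h F z' - aF l h F (x + Θ * q)|)))
    (bmax x' y' z')
    ((bmax x (x + Θ * p) (x + Θ * q)).add (((bD x x').add ((bD (x + Θ * p) y').add
      (bD (x + Θ * q) z'))).smul 2))
    (fun F => (Near_max _ _).trans (add_le_add le_rfl
      (Near_lip e he _ _ _ _ _ _ (hG x F) (hG y' F) (hG z' F))))
  rw [hE.add _ _ (bmax x (x + Θ * p) (x + Θ * q)) (((bD x x').add ((bD (x + Θ * p) y').add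
      (bD (x + Θ * q) z'))).smul 2),
    hE.smul _ _ ((bD x x').add ((bD (x + Θ * p) y').add (bD (x + Θ * q) z'))),
    hE.add _ _ (bD x x') ((bD (x + Θ * p) y').add (bD (x + Θ * q) z')),
    hE.add _ _ (bD (x + Θ * p) y') (bD (x + Θ * q) z')] at hcomp
  have q1 := P1 x x' hx'
  have q2 := P1 (x + Θ * p) y' hy'
  have q3 := P1 (x + Θ * q) z' hz'
  linarith

end Pool.Agent.H79.TS
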