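import Pool.Agent.H79.TS.G3
import Pool.Agent.H79.TS.LeafA

/-!
# ROW NoCfg: the measurable theorem
-/

set_option autoImplicit false

namespace Pool.Agent.H79.TS

open MeasureTheory Filter Topology Pool.Agent.H93.EG

private theorem NoCfg_U_disjoint (u : ℂ → ℝ) (e : Bool) : Disjoint (U u e) (U u (!e)) :=
  Set.disjoint_left.mpr fun x h h' => U_disj u e x h h'

private theorem NoCfg_norm (x : ℂ) (t : UnitAddCircle) (r : ℝ) (hr : 0 ≤ r) : ‖x + c t * r - x‖ = r := by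
  rw [add_sub_cancel_left, norm_ct, Complex.norm_real, Real.norm_of_nonneg hr]

/-- There are boundary points. -/
private theorem NoCfg_Z {a b : ℝ} {g : Bool → UnitAddCircle} {u : ℂ → ℝ} (h : Cfg a b g u) :
    ∃ x, x ∈ Z u := by
  by_contra hne
  have hall : (Set.univ : Set ℂ) ⊆ U u true ∪ U u (!true) := by
    intro x _
    by_contra hx
    exact hne ⟨x, fun h1 => hx (Or.inl h1), fun h1 => hx (Or.inr h1)⟩
  have h1 : ∃ e, U u e = Set.univ := by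
    rcases isPreconnected_univ.subset_or_subset (U_open u true) (U_open u (!true))
      (NoCfg_U_disjoint u true) hall with h2 | h2
    · exact ⟨true, Set.univ_subset_iff.mp h2⟩
    · exact ⟨!true, Set.univ_subset_iff.mp h2⟩
  obtain ⟨e, he⟩ := h1
  have h2 : ∀ᵐ x : ℂ, u x = se e := locSet_univ u (se e) he
  have h3 := ae_circ (P := fun z => u z = se e) h2 (ty a b (g e) 0).1
  have h4 := ae_circ (P := fun z => u z = se e) h2 (ty a b (g e) 0).2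
  obtain ⟨x, ⟨⟨hx1, hx2⟩, hx3⟩, hx4⟩ := (((h.con e).and h2).and (h3.and h4)).exists.imp
    (fun x hx => (⟨⟨⟨hx.1.1, hx.1.2⟩, hx.2.1⟩, hx.2.2⟩ :
      (((0 ≤ se e * u x → R a b g u e x) ∧ u x = se e) ∧
        (∀ᵐ t : UnitAddCircle, u (x + c t * (ty a b (g e) 0).1) = se e)) ∧
        ∀ᵐ t : UnitAddCircle, u (x + c t * (ty a b (g e) 0).2) = se e))
  have h5 : R a b g u e x := hx1 (by
    rw [hx2, se_mul_self]
    exact zero_le_one)
  obtain ⟨t, ⟨ht1, ht2⟩, ht3⟩ := (((h5 0).and hx3).and hx4).exists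
  rw [ht2, ht3] at ht1
  have := se_mul_self e
  nlinarith

/-- The crossing lemma. -/
private theorem NoCfg_cross (u : ℂ → ℝ) (x x' : ℂ) (hx' : x' ∈ Z u) (e' f r : ℝ) (he : 0 < e') (hf : 0 < f)
    (hr : 0 < r) (ψ : Bool) (h1 : |e' - f| < ‖x' - x‖) (h2 : ‖x' - x‖ < e' + f)
    (hc : ∀ᵐ t : UnitAddCircle, x + c t * f ∈ U u ψ)
    (hz : ∀ z ∈ Z u, ‖z - x'‖ < r → ∀ w : ℂ, ‖w - z‖ = e' → w ∉ U u ψ) : False := by
  obtain ⟨k, ρ, hρ, hk⟩ := leaf (U u) (U_open u) (NoCfg_U_disjoint u true) ψ x x' e' f r he hf hr h1 h2 hc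
    (fun z hz1 hz2 hz3 t => hz z ⟨hz1, hz2⟩ hz3 (z + c t * e') (NoCfg_norm z t e' he.le))
  have hk' : x' ∈ U u k := by
    refine ⟨ρ, hρ, ?_⟩
    filter_upwards [hk, U_ae u k] with z hz1 hz2 hm
    exact hz2 (hz1 (by rwa [Metric.mem_ball, dist_eq_norm] at hm))
  cases k with
  | true => exact hx'.1 hk'
  | false => exact hx'.2 hk'

/-- Near a boundary point of colour `κ` all boundary points have the colour `κ`. -/
private theorem NoCfg_near {a b : ℝ} {g : Bool → UnitAddCircle} {u : ℂ → ℝ} (h : Cfg a b g u)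
    (x' : ℂ) (κ : Bool) (ha : ∀ᵐ t : UnitAddCircle, x' + c t * a ∈ U u κ) :
    ∃ r : ℝ, 0 < r ∧ ∀ z ∈ Z u, ‖z - x'‖ < r → z ∈ W a b g u κ := by
  have h1 : x' ∉ W a b g u (!κ) := by
    intro hw
    obtain ⟨t, ht⟩ := ha.exists
    have h2 := hw.1 (x' + c t * a) (NoCfg_norm x' t a h.ha.le)
    rw [Bool.not_not] at h2
    exact h2 ht
  have h2 : (W a b g u (!κ))ᶜ ∈ 𝓝 x' := (W_closed a b g u (!κ)).isOpen_compl.mem_nhds h1
  obtain ⟨r, hr, hr2⟩ := Metric.mem_nhds_iff.mp h2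
  refine ⟨r, hr, ?_⟩
  intro z hz hzr
  have h3 : z ∉ W a b g u (!κ) := hr2 (by rwa [Metric.mem_ball, dist_eq_norm])
  obtain ⟨κ', hk, _, _⟩ := G3 h z hz
  by_cases hkk : κ' = κ
  · rwa [hkk] at hk
  · have : κ' = !κ := by
      cases κ <;> cases κ' <;> simp_all
    rw [this] at hk
    exact absurd hk h3

theorem no_cfg {a b : ℝ} {g : Bool → UnitAddCircle} {u : ℂ → ℝ} (h : Cfg a b g u) : False := by
  obtain ⟨x, hx⟩ := NoCfg_Z h
  obtain ⟨κ, hκW, hκa, hκb⟩ := G3 h x hx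
  have hapos := h.ha
  have hbpos := h.hb
  obtain ⟨m, χ, hmχ, ham, hbm, hmae⟩ : ∃ (m : ℝ) (χ : Bool), ((m = a ∧ χ = κ) ∨ (m = b ∧ χ = !κ)) ∧ a ≤ m ∧ b ≤ m ∧
      ∀ᵐ t : UnitAddCircle, x + c t * m ∈ U u χ := by
    rcases le_total b a with hle | hle
    · exact ⟨a, κ, Or.inl ⟨rfl, rfl⟩, le_refl _, hle, hκa⟩
    · exact ⟨b, !κ, Or.inr ⟨rfl, rfl⟩, hle, le_refl _, hκb⟩
  have hmpos : 0 < m := lt_of_lt_of_le hapos ham
  have hm1 : |a - b| < m := by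
    rw [abs_lt]
    constructor <;> linarith
  have hm2 : m < a + b := by
    rcases hmχ with ⟨h1, _⟩ | ⟨h1, _⟩ <;> linarith
  obtain ⟨t, ht⟩ := hmae.exists
  obtain ⟨hc1, hc2⟩ := cc_tri a b (g χ) hapos hbpos (h.hg χ)
  have hcpos := h.cc_pos χ
  have hw2 : x + c t * (cc a b (g χ)) ∉ U u χ := hκW.2.2 χ _ (NoCfg_norm x t _ hcpos.le)
  -- a boundary point on the segment
  obtain ⟨ρ, hρ, hρZ⟩ : ∃ ρ ∈ Set.uIcc m (cc a b (g χ)), x + c t * (ρ : ℝ) ∈ Z u := by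
    by_contra hne
    have hpre : IsPreconnected ((fun ρ : ℝ => x + c t * (ρ : ℂ)) '' Set.uIcc m (cc a b (g χ))) := by
      refine isPreconnected_uIcc.image _ ?_
      exact (continuous_const.add (continuous_const.mul Complex.continuous_ofReal)).continuousOn
    have hsub : (fun ρ : ℝ => x + c t * (ρ : ℂ)) '' Set.uIcc m (cc a b (g χ)) ⊆ U u χ ∪ U u (!χ) := by
      rintro z ⟨ρ, hρ, rfl⟩
      by_contra hz
      apply hne
      refine ⟨ρ, hρ, ?_⟩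
      have hz1 : x + c t * (ρ : ℂ) ∉ U u χ := fun h1 => hz (Or.inl h1)
      have hz2 : x + c t * (ρ : ℂ) ∉ U u (!χ) := fun h1 => hz (Or.inr h1)
      cases χ with
      | true => exact ⟨hz1, hz2⟩
      | false => exact ⟨hz2, hz1⟩
    have e1 : x + c t * (m : ℂ) ∈ (fun ρ : ℝ => x + c t * (ρ : ℂ)) '' Set.uIcc m (cc a b (g χ)) :=
      ⟨m, Set.left_mem_uIcc, rfl⟩
    have e2 : x + c t * ((cc a b (g χ) : ℝ) : ℂ) ∈ (fun ρ : ℝ => x + c t * (ρ : ℂ)) '' Set.uIcc m (cc a b (g χ)) :=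
      ⟨cc a b (g χ), Set.right_mem_uIcc, rfl⟩
    rcases hpre.subset_or_subset (U_open u χ) (U_open u (!χ)) (NoCfg_U_disjoint u χ) hsub with h1 | h1
    · exact hw2 (h1 e2)
    · exact U_disj u χ _ ht (h1 e1)
  have hρ1 : |a - b| < ρ := by
    rcases Set.mem_uIcc.mp hρ with h1 | h1
    · exact lt_of_lt_of_le hm1 h1.1
    · exact lt_of_lt_of_le hc1 h1.1
  have hρ2 : ρ < a + b := by
    rcases Set.mem_uIcc.mp hρ with h1 | h1
    · exact lt_of_le_of_lt h1.2 hc2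
    · exact lt_of_le_of_lt h1.2 hm2
  have hρ0 : 0 < ρ := lt_of_le_of_lt (abs_nonneg _) hρ1
  have hnorm : ‖x + c t * (ρ : ℂ) - x‖ = ρ := NoCfg_norm x t ρ hρ0.le
  obtain ⟨κ', hκ'W, hκ'a, hκ'b⟩ := G3 h _ hρZ
  obtain ⟨r, hr, hnear⟩ := NoCfg_near h _ κ' hκ'a
  by_cases hkk : κ' = κ
  · refine NoCfg_cross u x _ hρZ a b r hapos hbpos hr (!κ) (by rw [hnorm]; exact hρ1) (by rw [hnorm]; exact hρ2) hκb ?_
    intro z hz hzr w hw
    have := hnear z hz hzr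
    rw [hkk] at this
    exact this.1 w hw
  · have hk2 : κ' = !κ := by
      cases κ <;> cases κ' <;> simp_all
    refine NoCfg_cross u x _ hρZ m m r hmpos hmpos hr χ (by rw [hnorm, sub_self, abs_zero]; exact hρ0)
      (by rw [hnorm]; linarith) hmae ?_
    intro z hz hzr w hw
    have h1 := hnear z hz hzr
    rw [hk2] at h1
    rcases hmχ with ⟨h2, h3⟩ | ⟨h2, h3⟩
    · have := h1.1 w (by rw [hw, h2])
      rw [Bool.not_not] at this
      rwa [h3]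
    · have := h1.2.1 w (by rw [hw, h2])
      rwa [h3]

end Pool.Agent.H79.TS
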