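import Pool.Agent.H79.TS.Dens

/-!
MP_887a8d_co.  The numerical part: the inequality for one cell.
-/

set_option autoImplicit false

namespace Pool.Agent.H79.TS

open MeasureTheory Real Metric Filter Topology

theorem sqrt3_bd : 1.73205 < √3 ∧ √3 < 1.73206 := by
  constructor
  · exact Real.lt_sqrt_of_sq_lt (by norm_num)
  · rw [Real.sqrt_lt' (by norm_num)]; norm_num

theorem face {ι : Type*} (c : ι → E) (r : ι → ℝ) (hr : ∀ i, 0 < r i) {q x M : ℝ} (hq : 0 < q)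
    (hx3 : 3 ≤ x) (hx4 : x ≤ 4)
    (h4 : ∀ n : ℕ, 4 ≤ n → ∃ φ : ℝ, 0 ≤ φ ∧ φ < π / 2 ∧
      x * (1 + ((n : ℝ) - 4) * q ^ 2) ≤ (π - n * φ + n * (sin φ * cos φ)) / cos φ ^ 2 +
        ((n : ℝ) - 4) * q ^ 2 * (3 * √3))
    (h1 : ∀ i, q * M ≤ r i) (h2 : ∀ i, r i ≤ M) (H : Finset (E × ℝ)) (i : ι)
    (hH : ∀ p ∈ H, p.1 ≠ 0) (hi : closedBall (c i) (r i) ⊆ reg H) :
    ENNReal.ofReal (x * r i ^ 2 - (3 * √3 - x) * q ^ 2 * M ^ 2 * ((H.card : ℝ) - 4)) ≤
      volume (reg H) := by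
  have hs := sqrt3_bd
  have hs3 : √3 ^ 2 = 3 := Real.sq_sqrt (by norm_num)
  have hpi := Real.pi_gt_d2
  have hM : 0 < M := (hr i).trans_le (h2 i)
  have hk : 0 ≤ 3 * √3 - x := by linarith [hs.1]
  have hqM : q ^ 2 * M ^ 2 ≤ r i ^ 2 := by
    rw [← mul_pow]
    exact pow_le_pow_left₀ (by positivity) (h1 i) 2
  have hrM : r i ^ 2 ≤ M ^ 2 := pow_le_pow_left₀ (hr i).le (h2 i) 2
  have hr2 : 0 < r i ^ 2 := pow_pos (hr i) 2
  rcases Nat.lt_or_ge H.card 4 with hn | hn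
  · have ha := area_reg H hH (hr i) hi (φ := π / 3) (by positivity) (by linarith)
    refine le_trans (ENNReal.ofReal_le_ofReal ?_) ha
    rw [Real.cos_pi_div_three, Real.sin_pi_div_three]
    have hn3 : (H.card : ℝ) ≤ 3 := by exact_mod_cast Nat.lt_succ_iff.1 hn
    have hn0 : (0 : ℝ) ≤ H.card := Nat.cast_nonneg _
    set m : ℝ := (H.card : ℝ) with hm
    have e1 : (3 * √3 - x) * q ^ 2 * M ^ 2 * (4 - m) ≤ (3 * √3 - x) * (4 - m) * r i ^ 2 := by
      have := mul_le_mul_of_nonneg_left hqM (mul_nonneg hk (by linarith : (0 : ℝ) ≤ 4 - m))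
      linarith
    have e2 : x + (3 * √3 - x) * (4 - m) ≤ (π - m * (π / 3) + m * (√3 / 2 * (1 / 2))) / (1 / 2) ^ 2 := by
      have : (π - m * (π / 3) + m * (√3 / 2 * (1 / 2))) / (1 / 2) ^ 2 =
          4 * (π - m * (π / 3)) + m * √3 := by ring
      rw [this]
      nlinarith [mul_nonneg (sub_nonneg.2 hn3) (by linarith : (0 : ℝ) ≤ π - 3.14),
        mul_nonneg (sub_nonneg.2 hn3) (by linarith : (0 : ℝ) ≤ 1.73206 - √3),
        mul_nonneg (sub_nonneg.2 hn3) (by linarith : (0 : ℝ) ≤ x - 3)]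
    have e3 := mul_le_mul_of_nonneg_right e2 hr2.le
    nlinarith
  · obtain ⟨φ, hφ0, hφ1, hφ⟩ := h4 H.card hn
    have ha := area_reg H hH (hr i) hi hφ0 hφ1
    refine le_trans (ENNReal.ofReal_le_ofReal ?_) ha
    have hn4 : (4 : ℝ) ≤ H.card := by exact_mod_cast hn
    set m : ℝ := (H.card : ℝ) with hm
    have e1 : (3 * √3 - x) * (m - 4) * q ^ 2 * r i ^ 2 ≤ (3 * √3 - x) * q ^ 2 * M ^ 2 * (m - 4) := by
      have := mul_le_mul_of_nonneg_left hrM (mul_nonneg (mul_nonneg hk (by linarith : (0 : ℝ) ≤ m - 4))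
        (sq_nonneg q))
      linarith
    have e3 := mul_le_mul_of_nonneg_right hφ hr2.le
    nlinarith

/-- the bound for the density of totally separable packings whose radii differ by a factor at most `1/q` -/
theorem main {ι : Type*} (c : ι → E) (r : ι → ℝ) (hr : ∀ i, 0 < r i) {q x : ℝ} (hq : 0 < q)
    (hx3 : 3 ≤ x) (hx4 : x ≤ 4)
    (h4 : ∀ n : ℕ, 4 ≤ n → ∃ φ : ℝ, 0 ≤ φ ∧ φ < π / 2 ∧
      x * (1 + ((n : ℝ) - 4) * q ^ 2) ≤ (π - n * φ + n * (sin φ * cos φ)) / cos φ ^ 2 +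
        ((n : ℝ) - 4) * q ^ 2 * (3 * √3))
    (hrq : ∀ i j, q * r i ≤ r j) (hsep : TotSep c r) :
    limsup (fun R : ℝ => volume ((⋃ i, closedBall (c i) (r i)) ∩ closedBall 0 R) /
      ENNReal.ofReal (π * R ^ 2)) atTop ≤ ENNReal.ofReal (π / x) := by
  rcases isEmpty_or_nonempty ι with hem | hne
  · have : (fun R : ℝ => volume ((⋃ i, closedBall (c i) (r i)) ∩ closedBall 0 R) /
        ENNReal.ofReal (π * R ^ 2)) = fun _ => 0 := by
      funext R
      simp
    rw [this]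
    simp
  have hbdd : BddAbove (Set.range r) := by
    refine ⟨r (Classical.arbitrary ι) / q, ?_⟩
    rintro _ ⟨i, rfl⟩
    rw [le_div_iff₀ hq, mul_comm]
    exact hrq i _
  set M := ⨆ i, r i with hM
  have h2 : ∀ i, r i ≤ M := fun i => le_ciSup hbdd i
  have h1 : ∀ i, q * M ≤ r i := by
    intro i
    have h3 : M ≤ r i / q := ciSup_le fun j => by
      rw [le_div_iff₀ hq, mul_comm]
      exact hrq j i
    rw [le_div_iff₀ hq] at h3
    linarith
  have hs := sqrt3_bd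
  refine dens c r M x ((3 * √3 - x) * q ^ 2 * M ^ 2) hr h2 (by linarith) ?_ ?_ hsep
  · have : 0 ≤ 3 * √3 - x := by linarith [hs.1]
    positivity
  · intro H i hH hi
    exact face c r hr hq hx3 hx4 h4 h1 h2 H i hH hi

/-- `5 tan 36° > 3.6326` -/
theorem five : (3.6326 : ℝ) ≤ (π - (5 : ℕ) * (π / 5) + (5 : ℕ) * (sin (π / 5) * cos (π / 5))) / cos (π / 5) ^ 2 := by
  have hpi := Real.pi_pos
  have hc : cos (π / 5) = (1 + √5) / 4 := Real.cos_pi_div_five
  have h5 : √5 ^ 2 = 5 := Real.sq_sqrt (by norm_num)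
  have h5u : √5 < 2.23607 := by rw [Real.sqrt_lt' (by norm_num)]; norm_num
  have h5l : 2.236 < √5 := Real.lt_sqrt_of_sq_lt (by norm_num)
  have hc0 : 0 < cos (π / 5) := by rw [hc]; positivity
  have hs0 : 0 < sin (π / 5) := Real.sin_pos_of_pos_of_lt_pi (by positivity) (by linarith)
  have hsc := Real.sin_sq_add_cos_sq (π / 5)
  have h6 : 0.72652 * cos (π / 5) ≤ sin (π / 5) := by
    have h7 : (0.72652 * cos (π / 5)) ^ 2 ≤ sin (π / 5) ^ 2 := by
      have h8 : cos (π / 5) ^ 2 ≤ 0.65451 := by rw [hc]; nlinarith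
      nlinarith
    exact le_of_sq_le_sq h7 hs0.le
  rw [le_div_iff₀ (by positivity)]
  push_cast
  nlinarith

theorem six (n : ℝ) : (π - n * (π / 6) + n * (sin (π / 6) * cos (π / 6))) / cos (π / 6) ^ 2 =
    4 / 3 * π - 2 / 9 * n * π + n * √3 / 3 := by
  rw [Real.cos_pi_div_six, Real.sin_pi_div_six]
  have hs3 : √3 ^ 2 = 3 := Real.sq_sqrt (by norm_num)
  rw [div_pow, hs3]
  ring

theorem four : (π - (4 : ℕ) * (π / 4) + (4 : ℕ) * (sin (π / 4) * cos (π / 4))) / cos (π / 4) ^ 2 = 4 := by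
  rw [Real.cos_pi_div_four, Real.sin_pi_div_four]
  have h2 : √2 ^ 2 = 2 := Real.sq_sqrt (by norm_num)
  have h3 : √2 / 2 * (√2 / 2) = 1 / 2 := by linear_combination (1 / 4) * h2
  have h4 : (√2 / 2) ^ 2 = 1 / 2 := by linear_combination (1 / 4) * h2
  rw [h3, h4]
  push_cast
  ring

theorem ratio3 {ι : Type*} (c : ι → E) (r : ι → ℝ) (hr : ∀ i, 0 < r i)
    (hrq : ∀ i j, r i ≤ 3 * r j) (hsep : TotSep c r) :
    limsup (fun R : ℝ => volume ((⋃ i, closedBall (c i) (r i)) ∩ closedBall 0 R) /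
      ENNReal.ofReal (π * R ^ 2)) atTop ≤ ENNReal.ofReal (11 * π / (24 * √3)) := by
  have hs := sqrt3_bd
  have hs3 : √3 ^ 2 = 3 := Real.sq_sqrt (by norm_num)
  have hpi := Real.pi_gt_d4
  have hpi2 := Real.pi_lt_d4
  have hx : 11 * π / (24 * √3) = π / (24 * √3 / 11) := by field_simp
  rw [hx]
  refine main c r hr (q := 1 / 3) (x := 24 * √3 / 11) (by norm_num) (by linarith [hs.1])
    (by linarith [hs.2]) ?_ (fun i j => by linarith [hrq i j]) hsep
  intro n hn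
  rcases Nat.lt_or_ge n 6 with h6 | h6
  · have : n = 4 ∨ n = 5 := by omega
    rcases this with rfl | rfl
    · refine ⟨π / 4, by positivity, by linarith, ?_⟩
      rw [four]
      push_cast
      linarith [hs.2]
    · refine ⟨π / 5, by positivity, by linarith, ?_⟩
      have h5 := five
      push_cast at h5 ⊢
      linarith [hs.1, hs.2]
  · refine ⟨π / 6, by positivity, by linarith, ?_⟩
    rw [six]
    have hn6 : (6 : ℝ) ≤ n := by exact_mod_cast h6
    nlinarith [mul_nonneg (sub_nonneg.2 hn6) (by linarith [hs.1] : (0 : ℝ) ≤ 14 / 33 * √3 - 2 / 9 * π)]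

theorem ratio95 {ι : Type*} (c : ι → E) (r : ι → ℝ) (hr : ∀ i, 0 < r i)
    (hrq : ∀ i j, r i ≤ 9 / 5 * r j) (hsep : TotSep c r) :
    limsup (fun R : ℝ => volume ((⋃ i, closedBall (c i) (r i)) ∩ closedBall 0 R) /
      ENNReal.ofReal (π * R ^ 2)) atTop ≤ ENNReal.ofReal (π / 4) := by
  have hs := sqrt3_bd
  have hpi := Real.pi_gt_d4
  have hpi2 := Real.pi_lt_d4
  refine main c r hr (q := 5 / 9) (x := 4) (by norm_num) (by norm_num)
    (by norm_num) ?_ (fun i j => by linarith [hrq i j]) hsep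
  intro n hn
  rcases Nat.lt_or_ge n 6 with h6 | h6
  · have : n = 4 ∨ n = 5 := by omega
    rcases this with rfl | rfl
    · refine ⟨π / 4, by positivity, by linarith, ?_⟩
      rw [four]
      push_cast
      linarith [hs.2]
    · refine ⟨π / 5, by positivity, by linarith, ?_⟩
      have h5 := five
      push_cast at h5 ⊢
      linarith [hs.1, hs.2]
  · refine ⟨π / 6, by positivity, by linarith, ?_⟩
    rw [six]
    have hn6 : (6 : ℝ) ≤ n := by exact_mod_cast h6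
    nlinarith [mul_nonneg (sub_nonneg.2 hn6) (by linarith [hs.1] : (0 : ℝ) ≤ √3 / 3 + 25 / 27 * √3 - 2 / 9 * π - 100 / 81)]

theorem ratioq {ι : Type*} (c : ι → E) (r : ι → ℝ) (hr : ∀ i, 0 < r i) {q x : ℝ} (hq : 0 < q)
    (hx3 : 3 ≤ x)
    (h4 : ∀ n : ℕ, 4 ≤ n → x * (1 + ((n : ℝ) - 4) * q ^ 2) ≤ n * tan (π / n) +
        ((n : ℝ) - 4) * q ^ 2 * (3 * √3))
    (hrq : ∀ i j, q * r i ≤ r j) (hsep : TotSep c r) :
    limsup (fun R : ℝ => volume ((⋃ i, closedBall (c i) (r i)) ∩ closedBall 0 R) /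
      ENNReal.ofReal (π * R ^ 2)) atTop ≤ ENNReal.ofReal (π / x) := by
  have hpi := Real.pi_pos
  have hx4 : x ≤ 4 := by
    have h := h4 4 le_rfl
    norm_num at h
    exact h
  refine main c r hr hq hx3 hx4 ?_ hrq hsep
  intro n hn
  have hn4 : (4 : ℝ) ≤ n := by exact_mod_cast hn
  have hn0 : (0 : ℝ) < n := by linarith
  refine ⟨π / n, by positivity, ?_, ?_⟩
  · rw [div_lt_div_iff₀ hn0 (by norm_num)]
    nlinarith
  · have hcos : 0 < cos (π / n) := by
      apply Real.cos_pos_of_mem_Ioo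
      constructor
      · have : 0 < π / n := by positivity
        linarith
      · rw [div_lt_div_iff₀ hn0 (by norm_num)]
        nlinarith
    have e : (π - n * (π / n) + n * (sin (π / n) * cos (π / n))) / cos (π / n) ^ 2 = n * tan (π / n) := by
      rw [Real.tan_eq_sin_div_cos]
      field_simp
      ring
    rw [e]
    exact h4 n hn

end Pool.Agent.H79.TS
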