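import Pool.Agent.H93.EGM.Samp
import Pool.Agent.H93.EGM.Dec

/-!
# Two triangles with two common sides: basic definitions of the probabilistic part

`f` is a colouring of the plane, `E` an invariant mean on the functions of the colourings
(`IsStat f E`), `sg true = 1`, `sg false = -1`, `k` the pair correlation function, `kc` its continuous part.
`aF l h F z = ∑ i, l i * sg (F (z + h i))`.
-/

set_option autoImplicit false

namespace Pool.Agent.H79.TS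

open MeasureTheory Filter Topology Pool.Agent.H93.EG Pool.Agent.H58.ER

/-- Weights: nonnegative, sum one, all shifts smaller than `δ`, the averaged correlations are within
`ε` of the continuous part. -/
structure Wt (k kc : ℝ → ℝ) (δ ε : ℝ) {ι : Type} [Fintype ι] (l : ι → ℝ) (h : ι → ℂ) : Prop where
  nn : ∀ i, 0 ≤ l i
  sum : ∑ i, l i = 1
  small : ∀ i, ‖h i‖ < δ
  app : ∀ z w : ℂ, |∑ i, ∑ j, l i * l j * k ‖z + h i - (w + h j)‖ - kc ‖z - w‖| ≤ ε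

/-- The setting. -/
structure Sett (f : ℂ → Bool) (E : ((ℂ → Bool) → ℝ) → ℝ) (k kc : ℝ → ℝ) : Prop where
  stat : IsStat f E
  hk : ∀ z w : ℂ, E (fun F => sg (F z) * sg (F w)) = k ‖z - w‖
  k0 : k 0 = 1
  cont : Continuous kc
  eq : ∀ r, 0 < r → kc r = k r
  le : ∀ r, 0 ≤ r → kc r ≤ k r
  dec : ∀ δ : ℝ, 0 < δ → ∀ ε : ℝ, 0 < ε → ∃ (ι : Type) (_ : Fintype ι) (l : ι → ℝ) (h : ι → ℂ),
    Wt k kc δ ε l h

/-- Motions act on colourings. -/
def mv (θ w : ℂ) (F : ℂ → Bool) : ℂ → Bool := fun z => F (θ * z + w)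

/-- Bounded by a constant, with the constant given. -/
theorem bdd_of {Ψ : (ℂ → Bool) → ℝ} (C : ℝ) (h : ∀ F, |Ψ F| ≤ C) : Bdd Ψ := ⟨C, h⟩

theorem bdd_mul {Ψ Φ : (ℂ → Bool) → ℝ} (h : Bdd Ψ) (h' : Bdd Φ) : Bdd (fun F => Ψ F * Φ F) := by
  obtain ⟨C, hC⟩ := h
  obtain ⟨D, hD⟩ := h'
  refine ⟨C * D, fun F => ?_⟩
  rw [abs_mul]
  exact mul_le_mul (hC F) (hD F) (abs_nonneg _) ((abs_nonneg _).trans (hC F))

theorem bdd_sub {Ψ Φ : (ℂ → Bool) → ℝ} (h : Bdd Ψ) (h' : Bdd Φ) : Bdd (fun F => Ψ F - Φ F) := by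
  obtain ⟨C, hC⟩ := h
  obtain ⟨D, hD⟩ := h'
  exact ⟨C + D, fun F => (abs_sub _ _).trans (add_le_add (hC F) (hD F))⟩

theorem bdd_abs {Ψ : (ℂ → Bool) → ℝ} (h : Bdd Ψ) : Bdd (fun F => |Ψ F|) := by
  obtain ⟨C, hC⟩ := h
  exact ⟨C, fun F => by rw [abs_abs]; exact hC F⟩

theorem bdd_mv {Ψ : (ℂ → Bool) → ℝ} (h : Bdd Ψ) (θ w : ℂ) : Bdd (fun F => Ψ (mv θ w F)) := by
  obtain ⟨C, hC⟩ := h
  exact ⟨C, fun F => hC _⟩

theorem bdd_sg (z : ℂ) : Bdd (fun F : ℂ → Bool => sg (F z)) := ⟨1, fun _ => (abs_sg _).le⟩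

theorem bdd_aF {ι : Type} [Fintype ι] (l : ι → ℝ) (h : ι → ℂ) (z : ℂ) :
    Bdd (fun F : ℂ → Bool => aF l h F z) := by
  refine ⟨∑ i, |l i|, fun F => ?_⟩
  unfold aF
  refine (Finset.abs_sum_le_sum_abs _ _).trans (Finset.sum_le_sum fun i _ => ?_)
  rw [abs_mul, abs_sg, mul_one]

theorem E_inv {f : ℂ → Bool} {E : ((ℂ → Bool) → ℝ) → ℝ} (hE : IsStat f E) (θ w : ℂ) (hθ : ‖θ‖ = 1)
    (Ψ : (ℂ → Bool) → ℝ) (hΨ : Bdd Ψ) : E (fun F => Ψ (mv θ w F)) = E Ψ := hE.inv θ w hθ Ψ hΨ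

theorem E_sub {f : ℂ → Bool} {E : ((ℂ → Bool) → ℝ) → ℝ} (hE : IsStat f E)
    (Ψ Φ : (ℂ → Bool) → ℝ) (hΨ : Bdd Ψ) (hΦ : Bdd Φ) :
    E (fun F => Ψ F - Φ F) = E Ψ - E Φ := by
  have h1 : (fun F => Ψ F - Φ F) = fun F => Ψ F + (-1) * Φ F := by
    funext F
    ring
  rw [h1, hE.add _ _ hΨ (hΦ.smul (-1)), hE.smul _ _ hΦ]
  ring

/-- Monotonicity: only the colourings in the orbit of `f` matter. -/
theorem E_mono {f : ℂ → Bool} {E : ((ℂ → Bool) → ℝ) → ℝ} (hE : IsStat f E)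
    (Ψ Φ : (ℂ → Bool) → ℝ) (hΨ : Bdd Ψ) (hΦ : Bdd Φ)
    (h : ∀ θ w : ℂ, ‖θ‖ = 1 → Ψ (mv θ w f) ≤ Φ (mv θ w f)) : E Ψ ≤ E Φ := by
  have h1 := hE.nonneg (fun F => Φ F - Ψ F) (bdd_sub hΦ hΨ) fun θ w hθ => sub_nonneg.mpr (h θ w hθ)
  rw [E_sub hE _ _ hΦ hΨ] at h1
  linarith

theorem E_mono' {f : ℂ → Bool} {E : ((ℂ → Bool) → ℝ) → ℝ} (hE : IsStat f E)
    (Ψ Φ : (ℂ → Bool) → ℝ) (hΨ : Bdd Ψ) (hΦ : Bdd Φ) (h : ∀ F, Ψ F ≤ Φ F) : E Ψ ≤ E Φ :=
  E_mono hE Ψ Φ hΨ hΦ fun _ _ _ => h _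

theorem E_const {f : ℂ → Bool} {E : ((ℂ → Bool) → ℝ) → ℝ} (hE : IsStat f E) (C : ℝ) :
    E (fun _ => C) = C := by
  have := hE.smul C (fun _ => 1) (bdd_const 1)
  rw [hE.one] at this
  simpa using this

theorem E_abs {f : ℂ → Bool} {E : ((ℂ → Bool) → ℝ) → ℝ} (hE : IsStat f E)
    (Ψ : (ℂ → Bool) → ℝ) (hΨ : Bdd Ψ) : |E Ψ| ≤ E (fun F => |Ψ F|) := by
  rw [abs_le]
  constructor
  · have h1 := E_mono' hE (fun F => (-1) * |Ψ F|) Ψ ((bdd_abs hΨ).smul (-1)) hΨ fun F => by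
      have := neg_abs_le (Ψ F)
      linarith
    rw [hE.smul _ _ (bdd_abs hΨ)] at h1
    linarith
  · exact E_mono' hE Ψ _ hΨ (bdd_abs hΨ) fun F => le_abs_self _

/-- First moment from the second. -/
theorem E_abs_sq {f : ℂ → Bool} {E : ((ℂ → Bool) → ℝ) → ℝ} (hE : IsStat f E)
    (Ψ : (ℂ → Bool) → ℝ) (hΨ : Bdd Ψ) (lam : ℝ) (hl : 0 < lam)
    (h : E (fun F => Ψ F ^ 2) ≤ lam ^ 2) : E (fun F => |Ψ F|) ≤ lam := by
  have hb2 : Bdd (fun F => Ψ F ^ 2) := by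
    have := bdd_mul hΨ hΨ
    have e : (fun F => Ψ F * Ψ F) = fun F => Ψ F ^ 2 := by
      funext F
      ring
    rwa [e] at this
  have h1 := E_mono' hE (fun F => |Ψ F|) (fun F => lam / 2 + (1 / (2 * lam)) * Ψ F ^ 2) (bdd_abs hΨ)
    ((bdd_const (lam / 2)).add (hb2.smul _)) fun F => by
      have h2 : 0 ≤ (|Ψ F| - lam) ^ 2 / (2 * lam) := by positivity
      have h3 : (|Ψ F| - lam) ^ 2 / (2 * lam) =
          lam / 2 + (1 / (2 * lam)) * Ψ F ^ 2 - |Ψ F| := by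
        rw [sub_sq, sq_abs]
        field_simp
        ring
      linarith
  rw [hE.add _ _ (bdd_const _) (hb2.smul _), hE.smul _ _ hb2, E_const hE] at h1
  have h4 : (1 / (2 * lam)) * E (fun F => Ψ F ^ 2) ≤ (1 / (2 * lam)) * lam ^ 2 :=
    mul_le_mul_of_nonneg_left h (by positivity)
  have h5 : (1 / (2 * lam)) * lam ^ 2 = lam / 2 := by
    field_simp
  linarith

/-- Products of two averaged colourings with different shifts. -/
theorem aF_mul2 {ι : Type} [Fintype ι] (l : ι → ℝ) (h h' : ι → ℂ) (f : ℂ → Bool)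
    (E : ((ℂ → Bool) → ℝ) → ℝ) (hE : IsStat f E) (k : ℝ → ℝ)
    (hk : ∀ z w : ℂ, E (fun F => sg (F z) * sg (F w)) = k ‖z - w‖) (z w : ℂ) :
    E (fun F => aF l h F z * aF l h' F w) = ∑ i, ∑ j, l i * l j * k ‖z + h i - (w + h' j)‖ := by
  have h1 : (fun F => aF l h F z * aF l h' F w) = fun F => ∑ p ∈ (Finset.univ : Finset (ι × ι)),
      (l p.1 * l p.2) * (sg (F (z + h p.1)) * sg (F (w + h' p.2))) := by
    funext F
    unfold aF
    rw [Finset.sum_mul_sum, Fintype.sum_prod_type]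
    refine Finset.sum_congr rfl fun i _ => Finset.sum_congr rfl fun j _ => ?_
    ring
  rw [h1, stat_sum f E hE Finset.univ (fun p : ι × ι => l p.1 * l p.2)
    (fun p F => sg (F (z + h p.1)) * sg (F (w + h' p.2))), Fintype.sum_prod_type]
  · refine Finset.sum_congr rfl fun i _ => Finset.sum_congr rfl fun j _ => ?_
    rw [hk]
  · intro p _
    refine ⟨1, fun F => ?_⟩
    rw [abs_mul, abs_sg, abs_sg, one_mul]

/-- The same with a single point. -/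
theorem aF_mul1 {ι : Type} [Fintype ι] (l : ι → ℝ) (h : ι → ℂ) (f : ℂ → Bool)
    (E : ((ℂ → Bool) → ℝ) → ℝ) (hE : IsStat f E) (k : ℝ → ℝ)
    (hk : ∀ z w : ℂ, E (fun F => sg (F z) * sg (F w)) = k ‖z - w‖) (z w : ℂ) :
    E (fun F => sg (F z) * aF l h F w) = ∑ j, l j * k ‖z - (w + h j)‖ := by
  have h1 : (fun F => sg (F z) * aF l h F w) = fun F => ∑ j ∈ (Finset.univ : Finset ι),
      l j * (sg (F z) * sg (F (w + h j))) := by
    funext F
    unfold aF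
    rw [Finset.mul_sum]
    refine Finset.sum_congr rfl fun j _ => ?_
    ring
  rw [h1, stat_sum f E hE Finset.univ l (fun j F => sg (F z) * sg (F (w + h j)))]
  · refine Finset.sum_congr rfl fun j _ => ?_
    rw [hk]
  · intro p _
    refine ⟨1, fun F => ?_⟩
    rw [abs_mul, abs_sg, abs_sg, one_mul]

/-- A motion moves the point and rotates the shifts. -/
theorem aF_mv {ι : Type} [Fintype ι] (l : ι → ℝ) (h : ι → ℂ) (θ w z : ℂ) (F : ℂ → Bool) :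
    aF l h (mv θ w F) z = aF l (fun i => θ * h i) F (θ * z + w) := by
  unfold aF mv
  refine Finset.sum_congr rfl fun i _ => ?_
  congr 3
  ring

/-- Discretisation of integrals over pairs (point, angle). -/
theorem int_gen (ρ : ℝ) (hρ : 0 < ρ) (L : ℝ) (p q : ℂ) :
    ∃ (J : Finset ((ℤ × ℤ) × (ℤ × ℤ) × (ℤ × ℤ))) (v : (ℤ × ℤ) × (ℤ × ℤ) × (ℤ × ℤ) → ℝ),
      (∀ j, 0 ≤ v j) ∧
      (∑ j ∈ J, v j =
        (volume ((Metric.ball (0 : ℂ) L) ×ˢ (Set.univ : Set UnitAddCircle))).toReal) ∧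
      (∀ j, v j ≠ 0 → ∃ (x : ℂ) (t : UnitAddCircle), cell ρ x = j.1 ∧
        cell ρ (x + c t * p) = j.2.1 ∧ cell ρ (x + c t * q) = j.2.2) ∧
      ∀ Ψ : ℂ → ℂ → ℂ → ℝ, ∫ xt in (Metric.ball (0 : ℂ) L) ×ˢ (Set.univ : Set UnitAddCircle),
        Ψ (corner ρ (cell ρ xt.1)) (corner ρ (cell ρ (xt.1 + c xt.2 * p)))
          (corner ρ (cell ρ (xt.1 + c xt.2 * q))) =
          ∑ j ∈ J, v j * Ψ (corner ρ j.1) (corner ρ j.2.1) (corner ρ j.2.2) := by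
  set S : Set (ℂ × UnitAddCircle) := (Metric.ball (0 : ℂ) L) ×ˢ (Set.univ : Set UnitAddCircle)
    with hS
  have hSm : MeasurableSet S := measurableSet_ball.prod MeasurableSet.univ
  have hSf : volume S ≠ ⊤ := by
    rw [hS, Measure.volume_eq_prod, Measure.prod_prod]
    exact ENNReal.mul_ne_top measure_ball_lt_top.ne (measure_ne_top _ _)
  obtain ⟨J0, hJ0⟩ := cell_fin ρ hρ (L + ‖p‖ + ‖q‖)
  let g : ℂ × UnitAddCircle → (ℤ × ℤ) × (ℤ × ℤ) × (ℤ × ℤ) := fun xt =>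
    (cell ρ xt.1, cell ρ (xt.1 + c xt.2 * p), cell ρ (xt.1 + c xt.2 * q))
  have hg : Measurable g := by
    refine ((cell_meas ρ).comp measurable_fst).prodMk (Measurable.prodMk ?_ ?_)
    · exact (cell_meas ρ).comp (measurable_fst.add ((measurable_c.comp measurable_snd).mul_const p))
    · exact (cell_meas ρ).comp (measurable_fst.add ((measurable_c.comp measurable_snd).mul_const q))
  have hJ : ∀ a ∈ S, g a ∈ J0 ×ˢ J0 ×ˢ J0 := by
    rintro ⟨x, t⟩ ⟨hx, -⟩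
    have hx' : ‖x‖ < L := by simpa using hx
    have hp0 := norm_nonneg p
    have hq0 := norm_nonneg q
    simp only [g, Finset.mem_product]
    refine ⟨hJ0 _ (by linarith), hJ0 _ ?_, hJ0 _ ?_⟩
    · have := norm_add_le x (c t * p)
      rw [norm_mul, norm_c, one_mul] at this
      linarith
    · have := norm_add_le x (c t * q)
      rw [norm_mul, norm_c, one_mul] at this
      linarith
  refine ⟨J0 ×ˢ J0 ×ˢ J0, fun j => (volume (S ∩ g ⁻¹' {j})).toReal, fun j => ENNReal.toReal_nonneg,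
    ?_, ?_, ?_⟩
  · have := integral_fin_range volume S hSm hSf g hg _ hJ (fun _ => 1)
    simp only [mul_one] at this
    rw [← this]
    simp [Measure.real]
  · intro j hj
    have hne : (S ∩ g ⁻¹' {j}).Nonempty := by
      rw [Set.nonempty_iff_ne_empty]
      intro h0
      apply hj
      show (volume (S ∩ g ⁻¹' {j})).toReal = 0
      rw [h0]
      simp
    obtain ⟨⟨x, t⟩, -, h2⟩ := hne
    have h3 : g (x, t) = j := h2
    refine ⟨x, t, ?_, ?_, ?_⟩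
    · rw [← h3]
    · rw [← h3]
    · rw [← h3]
  · intro Ψ
    exact integral_fin_range volume S hSm hSf g hg _ hJ
      (fun j => Ψ (corner ρ j.1) (corner ρ j.2.1) (corner ρ j.2.2))

end Pool.Agent.H79.TS
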