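import Pool.Agent.H79.TS.Near

/-!
# ROW Samp2: measurable functions with small one-sided defects (about 180 lines)

PROOF.
Model: the proof of `samp` in `Pool/Agent/H93/EGM/Samp.lean`.  (1) `r₁ > 0` with `kc r ≥ kc 0 / 2` for `|r - r₁| ≤ r₁` (continuity at 0; take `r₁` small, `[0, 2 r₁]`).  `V₁ := (volume (ball 0 1 ×ˢ univ)).toReal > 0`, `c₀ := V₁ * kc 0 / 16`.
(2) Given `L, τ`: `V := (volume (ball 0 L ×ˢ univ)).toReal`, `N := Fintype.card I`, `M > 0` with `V₁ / M < τ`.  `τ' > 0` with `M * N * V * τ' ≤ 2 c₀`.  `near` for each `i` (type `P i`, sign `e i`) with `τ'` gives `δ_i`; `δ₀ := min` of the `δ_i` and of `kc 0 / 4` (finitely many `i`; work with an eventual statement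
or `Finset.exists_le`/`Finite` minimum).  Mesh `ρ > 0` with `2 ρ ≤ δ₀`, `4 ρ ≤ r₁`.  Weights `l, h` from `S.dec δ₀ .. δ₀ ..` (`Wt k kc δ₀ δ₀ l h`).
(3) `int_gen ρ hρ L (P i).1 (P i).2` gives `J i, v i`.  `D F := ∑ i, ∑ j ∈ J i, v i j * max 0 ((1 + e i * aF l h F (corner ρ j.1)) * (e i * (aF l h F (corner ρ j.2.1) + aF l h F (corner ρ j.2.2))))`.  For `v i j ≠ 0` the three corners are within `2 ρ ≤ δ₀` (`corner_near`) of
`x, x + c t * (P i).1, x + c t * (P i).2`, so by `near` (`Θ = c t`) each term has mean `≤ τ'`; so `E D ≤ N V τ'` (`stat_sum`).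
(4) `int_gen ρ hρ 1 r₁ r₁` gives `J', v'`; `Q F := ∑ j ∈ J', v' j * (aF l h F (corner ρ j.1) * aF l h F (corner ρ j.2.1))`.  For `v' j ≠ 0` the distance of the two corners is within `4 ρ ≤ r₁` of `r₁` (`near_dist`), so `E (aF * aF) ≥ kc (dist) - δ₀ ≥ kc 0 / 2 - kc 0 / 4` (`aF_mul2`, `app`).  So
`E Q ≥ V₁ kc 0 / 4 = 4 c₀`.
(5) `E (Q - M D - c₀) ≥ 4 c₀ - 2 c₀ - c₀ > 0`, so there is a motion `(θ, w)` with `Q F - M D F - c₀ > 0` for `F = mv θ w f` (otherwise `E ≤ 0` by `E_mono`, `E_const`).  So `Q F ≥ c₀` (`D ≥ 0`) and `M D F ≤ Q F ≤ V₁` (`|aF| ≤ 1`), `D F ≤ V₁ / M < τ`.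
`G x := aF l h F (corner ρ (cell ρ x))` is measurable (`cell_meas`, countable range), `|G| ≤ 1`, the integrals are the sums (`int_gen` with `Ψ x y z := max 0 (..)`, resp. `Ψ x y z := ..`), each integral of the nonnegative function is `≤ D F < τ`.
-/

set_option autoImplicit false

namespace Pool.Agent.H79.TS

open MeasureTheory Filter Topology Pool.Agent.H93.EG Pool.Agent.H58.ER

private theorem Samp2_bdd {ι : Type} [Fintype ι] (l : ι → ℝ) (h : ι → ℂ) (hl : ∀ i, 0 ≤ l i)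
    (hl1 : ∑ i, l i = 1) (e : ℝ) (he : e = 1 ∨ e = -1) (x y z : ℂ) :
    Bdd (fun F => max 0 ((1 + e * aF l h F x) * (e * (aF l h F y + aF l h F z)))) := by
  refine ⟨4, fun F => ?_⟩
  have h1 := aF_le l h hl hl1 F x
  have h2 := aF_le l h hl hl1 F y
  have h3 := aF_le l h hl hl1 F z
  have he1 : |e| = 1 := by
    rcases he with he | he <;> rw [he] <;> norm_num
  have h4 : |1 + e * aF l h F x| ≤ 2 := by
    refine (abs_add_le _ _).trans ?_
    rw [abs_mul, he1, one_mul, abs_one]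
    linarith
  have h5 : |e * (aF l h F y + aF l h F z)| ≤ 2 := by
    rw [abs_mul, he1, one_mul]
    refine (abs_add_le _ _).trans ?_
    linarith
  have h6 : |(1 + e * aF l h F x) * (e * (aF l h F y + aF l h F z))| ≤ 2 * 2 := by
    rw [abs_mul]
    exact mul_le_mul h4 h5 (abs_nonneg _) (by norm_num)
  rw [abs_of_nonneg (le_max_left _ _)]
  refine max_le (by norm_num) ((le_abs_self _).trans (h6.trans (by norm_num)))

theorem samp2 {f : ℂ → Bool} {E : ((ℂ → Bool) → ℝ) → ℝ} {k kc : ℝ → ℝ} (S : Sett f E k kc)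
    (hpos : 0 < kc 0) {I : Type} [Fintype I] (e : I → ℝ) (he : ∀ i, e i = 1 ∨ e i = -1)
    (P : I → ℂ × ℂ) (hP : ∀ i, (P i).1 ≠ 0 ∧ (P i).2 ≠ 0)
    (hf : ∀ i, ∀ θ w : ℂ, ‖θ‖ = 1 →
      ¬ (sg (f w) = e i ∧ sg (f (θ * (P i).1 + w)) = e i ∧ sg (f (θ * (P i).2 + w)) = e i)) :
    ∃ r₁ c₀ : ℝ, 0 < r₁ ∧ 0 < c₀ ∧ ∀ L τ : ℝ, 0 < L → 0 < τ →
      ∃ G : ℂ → ℝ, Measurable G ∧ (∀ x, |G x| ≤ 1) ∧
        (∀ i, ∫ xt in (Metric.ball (0 : ℂ) L) ×ˢ (Set.univ : Set UnitAddCircle),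
          max 0 ((1 + e i * G xt.1) *
            (e i * (G (xt.1 + c xt.2 * (P i).1) + G (xt.1 + c xt.2 * (P i).2)))) < τ) ∧
        c₀ ≤ ∫ xt in (Metric.ball (0 : ℂ) 1) ×ˢ (Set.univ : Set UnitAddCircle),
          G xt.1 * G (xt.1 + c xt.2 * r₁) := by
  classical
  obtain ⟨r₀, hr₀, hr₀k⟩ := Metric.continuous_iff.mp S.cont 0 (kc 0 / 2) (by positivity)
  have hkr : ∀ r : ℝ, |r| < r₀ → kc 0 / 2 < kc r := by
    intro r hr
    have h1 := hr₀k r (by rw [Real.dist_eq, sub_zero]; exact hr)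
    rw [Real.dist_eq] at h1
    linarith [(abs_lt.mp h1).1]
  obtain ⟨r₁, hr₁⟩ : ∃ r₁ : ℝ, r₁ = r₀ / 4 := ⟨_, rfl⟩
  have hr₁0 : 0 < r₁ := by
    rw [hr₁]
    positivity
  obtain ⟨V₁, hV₁⟩ : ∃ V₁ : ℝ, V₁ = (volume ((Metric.ball (0 : ℂ) 1) ×ˢ
    (Set.univ : Set UnitAddCircle))).toReal := ⟨_, rfl⟩
  have hV₁0 : 0 < V₁ := by
    rw [hV₁, Measure.volume_eq_prod, Measure.prod_prod]
    refine ENNReal.toReal_pos ?_ ?_
    · refine mul_ne_zero (Metric.measure_ball_pos volume (0 : ℂ) one_pos).ne' ?_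
      exact (isOpen_univ.measure_pos (volume : Measure UnitAddCircle) Set.univ_nonempty).ne'
    · exact ENNReal.mul_ne_top measure_ball_lt_top.ne (measure_ne_top _ _)
  obtain ⟨c₀, hc₀⟩ : ∃ c₀ : ℝ, c₀ = V₁ * kc 0 / 16 := ⟨_, rfl⟩
  have hc₀0 : 0 < c₀ := by
    rw [hc₀]
    positivity
  refine ⟨r₁, c₀, hr₁0, hc₀0, fun L τ hL hτ => ?_⟩
  obtain ⟨V, hV⟩ : ∃ V : ℝ, V = (volume ((Metric.ball (0 : ℂ) L) ×ˢ
    (Set.univ : Set UnitAddCircle))).toReal := ⟨_, rfl⟩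
  have hV0 : 0 ≤ V := by
    rw [hV]
    exact ENNReal.toReal_nonneg
  obtain ⟨M, hM⟩ : ∃ M : ℝ, M = V₁ / τ + 1 := ⟨_, rfl⟩
  have hM0 : 0 < M := by
    rw [hM]
    positivity
  have hMτ : V₁ < M * τ := by
    rw [hM, add_mul, one_mul, div_mul_cancel₀ _ hτ.ne']
    linarith
  obtain ⟨N, hN⟩ : ∃ N : ℝ, N = (Fintype.card I : ℝ) := ⟨_, rfl⟩
  have hN0 : 0 ≤ N := by
    rw [hN]
    exact Nat.cast_nonneg _
  obtain ⟨τ', hτ'⟩ : ∃ τ' : ℝ, τ' = 2 * c₀ / (M * (N * V) + 1) := ⟨_, rfl⟩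
  have hMNV : 0 ≤ M * (N * V) := by positivity
  have hτ'0 : 0 < τ' := by
    rw [hτ']
    positivity
  have hτ'M : M * (N * (V * τ')) ≤ 2 * c₀ := by
    have h1 : τ' * (M * (N * V) + 1) = 2 * c₀ := by
      rw [hτ']
      field_simp
    nlinarith
  choose δ hδ hδn using fun i => near S (e i) (he i) (P i).1 (P i).2 (hP i).1 (hP i).2 (hf i) τ' hτ'0
  obtain ⟨δ₀, hδ₀0, hδ₀k, hδ₀⟩ : ∃ δ₀ : ℝ, 0 < δ₀ ∧ δ₀ < kc 0 / 4 ∧ ∀ i, δ₀ < δ i := by
    have h1 : ∀ᶠ ρ in nhdsWithin (0 : ℝ) (Set.Ioi 0), ρ < kc 0 / 4 :=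
      nhdsWithin_le_nhds (gt_mem_nhds (by positivity))
    have h2 : ∀ᶠ ρ in nhdsWithin (0 : ℝ) (Set.Ioi 0), ∀ i : I, ρ < δ i := by
      rw [Filter.eventually_all]
      intro i
      exact nhdsWithin_le_nhds (gt_mem_nhds (hδ i))
    obtain ⟨ρ, ⟨h3, h4⟩, h5⟩ := ((h1.and h2).and self_mem_nhdsWithin).exists
    exact ⟨ρ, h5, h3, h4⟩
  obtain ⟨ρ, hρ, hρδ, hρr⟩ : ∃ ρ : ℝ, 0 < ρ ∧ 2 * ρ ≤ δ₀ ∧ 4 * ρ ≤ r₁ := by
    refine ⟨min (δ₀ / 2) (r₁ / 4), lt_min (by positivity) (by positivity), ?_, ?_⟩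
    · have := min_le_left (δ₀ / 2) (r₁ / 4)
      linarith
    · have := min_le_right (δ₀ / 2) (r₁ / 4)
      linarith
  obtain ⟨ι, _, l, h, hW⟩ := S.dec δ₀ hδ₀0 δ₀ hδ₀0
  choose J v hv0 hv1 hvne hvi using fun i => int_gen ρ hρ L (P i).1 (P i).2
  obtain ⟨J', v', hv0', hv1', hvne', hvi'⟩ := int_gen ρ hρ 1 r₁ r₁
  obtain ⟨T, hT⟩ : ∃ T : I → ℂ → ℂ → ℂ → (ℂ → Bool) → ℝ, T = fun i x y z F =>
    max 0 ((1 + e i * aF l h F x) * (e i * (aF l h F y + aF l h F z))) := ⟨_, rfl⟩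
  have hTb : ∀ i x y z, Bdd (T i x y z) := by
    intro i x y z
    rw [hT]
    exact Samp2_bdd l h hW.nn hW.sum (e i) (he i) x y z
  have hT0 : ∀ i x y z F, 0 ≤ T i x y z F := by
    intro i x y z F
    rw [hT]
    exact le_max_left _ _
  obtain ⟨A, hA⟩ : ∃ A : I → (ℂ → Bool) → ℝ, A = fun i F => ∑ j ∈ J i, v i j *
    T i (corner ρ j.1) (corner ρ j.2.1) (corner ρ j.2.2) F := ⟨_, rfl⟩
  have hAb : ∀ i, Bdd (A i) := by
    intro i
    rw [hA]
    exact bdd_sum (J i) (v i) _ fun j _ => hTb i _ _ _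
  have hA0 : ∀ i F, 0 ≤ A i F := by
    intro i F
    rw [hA]
    exact Finset.sum_nonneg fun j _ => mul_nonneg (hv0 i j) (hT0 i _ _ _ F)
  have hAE : ∀ i, E (A i) ≤ V * τ' := by
    intro i
    rw [hA]
    simp only
    rw [stat_sum f E S.stat (J i) (v i) (fun j => T i (corner ρ j.1) (corner ρ j.2.1) (corner ρ j.2.2))
      (fun j _ => hTb i _ _ _), hV, ← hv1 i, Finset.sum_mul]
    refine Finset.sum_le_sum fun j _ => ?_
    by_cases h0 : v i j = 0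
    · rw [h0, zero_mul, zero_mul]
    · refine mul_le_mul_of_nonneg_left ?_ (hv0 i j)
      obtain ⟨x, t, e1, e2, e3⟩ := hvne i j h0
      rw [← e1, ← e2, ← e3, hT]
      refine hδn i ι _ l h δ₀ δ₀ hW (hδ₀ i).le (hδ₀ i).le x (c t) _ _ _ (norm_c t) ?_ ?_ ?_
      · exact (corner_near ρ hρ x).trans (hρδ.trans (hδ₀ i).le)
      · exact (corner_near ρ hρ _).trans (hρδ.trans (hδ₀ i).le)
      · exact (corner_near ρ hρ _).trans (hρδ.trans (hδ₀ i).le)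
  obtain ⟨D, hD⟩ : ∃ D : (ℂ → Bool) → ℝ, D = fun F => ∑ i ∈ (Finset.univ : Finset I), 1 * A i F := ⟨_, rfl⟩
  have hDb : Bdd D := by
    rw [hD]
    exact bdd_sum Finset.univ (fun _ => 1) A fun i _ => hAb i
  have hDE : E D ≤ N * (V * τ') := by
    rw [hD, stat_sum f E S.stat Finset.univ (fun _ => 1) A fun i _ => hAb i]
    simp only [one_mul]
    refine (Finset.sum_le_sum fun i _ => hAE i).trans (le_of_eq ?_)
    rw [Finset.sum_const, Finset.card_univ, nsmul_eq_mul, hN]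
  have hD0 : ∀ F, 0 ≤ D F := by
    intro F
    rw [hD]
    exact Finset.sum_nonneg fun i _ => mul_nonneg zero_le_one (hA0 i F)
  obtain ⟨Q, hQ⟩ : ∃ Q : (ℂ → Bool) → ℝ, Q = fun F => ∑ j ∈ J', v' j *
    (aF l h F (corner ρ j.1) * aF l h F (corner ρ j.2.1)) := ⟨_, rfl⟩
  have hQb : Bdd Q := by
    rw [hQ]
    exact bdd_sum J' v' (fun j F => aF l h F (corner ρ j.1) * aF l h F (corner ρ j.2.1))
      fun j _ => bdd_prod l h hW.nn hW.sum _ _
  have hQE : 4 * c₀ ≤ E Q := by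
    rw [hQ, stat_sum f E S.stat J' v' (fun j F => aF l h F (corner ρ j.1) * aF l h F (corner ρ j.2.1))
      (fun j _ => bdd_prod l h hW.nn hW.sum _ _)]
    have h1 : 4 * c₀ = ∑ j ∈ J', v' j * (kc 0 / 4) := by
      rw [← Finset.sum_mul, hv1', ← hV₁, hc₀]
      ring
    rw [h1]
    refine Finset.sum_le_sum fun j _ => ?_
    by_cases h0 : v' j = 0
    · rw [h0, zero_mul, zero_mul]
    · refine mul_le_mul_of_nonneg_left ?_ (hv0' j)
      obtain ⟨x, t, e1, e2, -⟩ := hvne' j h0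
      rw [← e1, ← e2, aF_mul2 l h h f E S.stat k S.hk]
      have h2 := near_dist ρ hρ x (x + c t * r₁)
      rw [show x - (x + c t * (r₁ : ℂ)) = -(c t * r₁) by ring, norm_neg, norm_mul, norm_c, one_mul,
        Complex.norm_real, Real.norm_eq_abs, abs_of_pos hr₁0] at h2
      have h3 := hW.app (corner ρ (cell ρ x)) (corner ρ (cell ρ (x + c t * r₁)))
      obtain ⟨h4, h5⟩ := abs_le.mp h2
      have h6 := hkr ‖corner ρ (cell ρ x) - corner ρ (cell ρ (x + c t * r₁))‖ (by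
        rw [abs_of_nonneg (norm_nonneg _)]
        have : r₀ = 4 * r₁ := by rw [hr₁]; ring
        linarith)
      have h7 := (abs_le.mp h3).1
      linarith
  have hQ1 : ∀ F, Q F ≤ V₁ := by
    intro F
    rw [hQ, hV₁, ← hv1']
    refine Finset.sum_le_sum fun j _ => ?_
    have h1 : aF l h F (corner ρ j.1) * aF l h F (corner ρ j.2.1) ≤ 1 := by
      refine (le_abs_self _).trans ?_
      rw [abs_mul]
      exact mul_le_one₀ (aF_le l h hW.nn hW.sum F _) (abs_nonneg _) (aF_le l h hW.nn hW.sum F _)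
    calc v' j * (aF l h F (corner ρ j.1) * aF l h F (corner ρ j.2.1)) ≤ v' j * 1 :=
          mul_le_mul_of_nonneg_left h1 (hv0' j)
      _ = v' j := mul_one _
  have hex : ∃ θ w : ℂ, ‖θ‖ = 1 ∧ c₀ < Q (mv θ w f) - M * D (mv θ w f) := by
    by_contra hcon
    push Not at hcon
    have h1 := E_mono S.stat (fun F => Q F - M * D F) (fun _ => c₀) (bdd_sub hQb (hDb.smul M)) (bdd_const c₀)
      (fun θ w hθ => hcon θ w hθ)
    rw [E_sub S.stat Q (fun F => M * D F) hQb (hDb.smul M), S.stat.smul M D hDb, E_const S.stat c₀] at h1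
    have h2 : M * E D ≤ 2 * c₀ := (mul_le_mul_of_nonneg_left hDE hM0.le).trans hτ'M
    linarith
  obtain ⟨θ, w, -, hF⟩ := hex
  obtain ⟨F, hFd⟩ : ∃ F : ℂ → Bool, F = mv θ w f := ⟨_, rfl⟩
  rw [← hFd] at hF
  have hGb : ∀ x, |aF l h F (corner ρ (cell ρ x))| ≤ 1 := fun x => aF_le l h hW.nn hW.sum F _
  refine ⟨fun x => aF l h F (corner ρ (cell ρ x)), ?_, hGb, ?_, ?_⟩
  · have : Measurable (fun j : ℤ × ℤ => aF l h F (corner ρ j)) := measurable_of_countable _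
    exact this.comp (cell_meas ρ)
  · intro i
    have h1 := hvi i (fun x y z => max 0 ((1 + e i * aF l h F x) * (e i * (aF l h F y + aF l h F z))))
    have h2 : A i F ≤ D F := by
      rw [hD]
      simp only [one_mul]
      exact Finset.single_le_sum (f := fun i => A i F) (fun i' _ => hA0 i' F) (Finset.mem_univ i)
    have h3 : M * D F < M * τ := by
      have := hQ1 F
      linarith
    have h4 : D F < τ := lt_of_mul_lt_mul_left h3 hM0.le
    have h5 : A i F = ∑ j ∈ J i, v i j * max 0 ((1 + e i * aF l h F (corner ρ j.1)) *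
        (e i * (aF l h F (corner ρ j.2.1) + aF l h F (corner ρ j.2.2)))) := by
      rw [hA, hT]
    rw [← h5] at h1
    refine lt_of_le_of_lt (le_of_eq ?_) (lt_of_le_of_lt h2 h4)
    exact h1
  · have h1 := hvi' (fun x y _ => aF l h F x * aF l h F y)
    have h2 : Q F = ∑ j ∈ J', v' j * (aF l h F (corner ρ j.1) * aF l h F (corner ρ j.2.1)) := by
      rw [hQ]
    rw [← h2] at h1
    have h3 := mul_nonneg hM0.le (hD0 F)
    have h4 : c₀ ≤ Q F := by linarith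
    exact h4.trans (le_of_eq h1.symm)

end Pool.Agent.H79.TS
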