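import Pool.Agent.H79.TS.WLin

/-!
# ROW WLim: the limit function (about 170 lines)

PROOF.
Model: `lim_exists` in `Pool/Agent/H93/EGM/Weak.lean`.  `F n` := the function for `L = n + 1`, `τ = 1 / (n + 1)`.  `weak_seq` gives `φ` and `G`.  `uf i K (x, t) := (1 + e i * K x) * (e i * (K (x + c t * p) + K (x + c t * q)))` with `(p, q) = P i`; as `e i ^ 2 = 1`,
`uf i K = e i * K (x + c t p) + e i * K (x + c t q) + K x * K (x + c t p) + K x * K (x + c t q)`.  For a measurable `S` with `‖x‖ ≤ R` on `S` (finite measure): `∫_S uf i (F (φ n)) → ∫_S uf i G` (`wlin` for the linear terms, `bilin` with `w = p ≠ 0`, `w = q ≠ 0` for the others).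
Let `S ⊆ ball 0 L ×ˢ univ`.  For `n` large `∫_S uf i (F (φ n)) ≤ ∫_S max 0 (uf ..) ≤ ∫_{ball 0 (φ n + 1)} max 0 (uf ..) < 1 / (φ n + 1) → 0`.  So `∫_S uf i G ≤ 0`.  Take `S := {xt ∈ ball 0 L ×ˢ univ | 0 < uf i G xt}`: the integral of a positive function over `S` is `≤ 0`, so `S` is null
(`setIntegral_pos_iff_support_of_nonneg_ae` or `integral_eq_zero_iff_of_nonneg_ae`).  Union over `L ∈ ℕ`: `uf i G ≤ 0` a.e.
Not zero: `bilin` with `w = r₁`, `S = ball 0 1 ×ˢ univ`: `c₀ ≤ ∫_S G x * G (x + c t * r₁)`.  If `G = 0` a.e. then `G x * .. = 0` for a.e. `(x, t)` (`Measure.quasiMeasurePreserving_fst.ae`), the integral is `0 < c₀`: contradiction.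
-/

set_option autoImplicit false

namespace Pool.Agent.H79.TS

open MeasureTheory Filter Topology Pool.Agent.H93.EG

private noncomputable def wlimU (e : ℝ) (p q : ℂ) (K : ℂ → ℝ) (xt : ℂ × UnitAddCircle) : ℝ :=
  (1 + e * K xt.1) * (e * (K (xt.1 + c xt.2 * p) + K (xt.1 + c xt.2 * q)))

private theorem wlim_mr (K : ℂ → ℝ) (hK : Measurable K) (r : ℂ) :
    Measurable (fun xt : ℂ × UnitAddCircle => K (xt.1 + c xt.2 * r)) :=
  hK.comp (measurable_fst.add ((measurable_c.comp measurable_snd).mul_const r))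

private theorem wlimU_meas (e : ℝ) (p q : ℂ) (K : ℂ → ℝ) (hK : Measurable K) :
    Measurable (wlimU e p q K) := by
  unfold wlimU
  exact (measurable_const.add ((hK.comp measurable_fst).const_mul e)).mul
    (((wlim_mr K hK p).add (wlim_mr K hK q)).const_mul e)

private theorem wlimU_bd (e : ℝ) (he : e = 1 ∨ e = -1) (p q : ℂ) (K : ℂ → ℝ)
    (hK : ∀ x, |K x| ≤ 1) (xt : ℂ × UnitAddCircle) : |wlimU e p q K xt| ≤ 4 := by
  unfold wlimU
  have h1 := abs_le.mp (hK xt.1)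
  have h2 := abs_le.mp (hK (xt.1 + c xt.2 * p))
  have h3 := abs_le.mp (hK (xt.1 + c xt.2 * q))
  rw [abs_mul]
  have e1 : |1 + e * K xt.1| ≤ 2 := by
    rw [abs_le]
    rcases he with rfl | rfl <;> constructor <;> linarith [h1.1, h1.2]
  have e2 : |e * (K (xt.1 + c xt.2 * p) + K (xt.1 + c xt.2 * q))| ≤ 2 := by
    rw [abs_le]
    rcases he with rfl | rfl <;> constructor <;> linarith [h2.1, h2.2, h3.1, h3.2]
  calc |1 + e * K xt.1| * |e * (K (xt.1 + c xt.2 * p) + K (xt.1 + c xt.2 * q))|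
      ≤ 2 * 2 := mul_le_mul e1 e2 (abs_nonneg _) (by norm_num)
    _ = 4 := by norm_num

private theorem wlim_fin (R : ℝ) (S : Set (ℂ × UnitAddCircle))
    (hSR : ∀ xt ∈ S, ‖xt.1‖ ≤ R) :
    IsFiniteMeasure ((volume : Measure (ℂ × UnitAddCircle)).restrict S) := by
  refine ⟨?_⟩
  rw [Measure.restrict_apply_univ]
  have hsub : S ⊆ (Metric.closedBall (0 : ℂ) R) ×ˢ (Set.univ : Set UnitAddCircle) := by
    intro xt hxt
    exact ⟨by rw [Metric.mem_closedBall, dist_zero_right]; exact hSR xt hxt, Set.mem_univ _⟩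
  refine lt_of_le_of_lt (measure_mono hsub) ?_
  rw [Measure.volume_eq_prod, Measure.prod_prod]
  exact ENNReal.mul_lt_top measure_closedBall_lt_top (measure_lt_top _ _)

private theorem wlim_split (K : ℂ → ℝ) (hK : Measurable K) (hKb : ∀ x, |K x| ≤ 1)
    (e : ℝ) (he : e = 1 ∨ e = -1) (p q : ℂ) (R : ℝ) (S : Set (ℂ × UnitAddCircle))
    (hSR : ∀ xt ∈ S, ‖xt.1‖ ≤ R) :
    ∫ xt in S, wlimU e p q K xt =
      (e * (∫ xt in S, K (xt.1 + c xt.2 * p)) + e * (∫ xt in S, K (xt.1 + c xt.2 * q))) +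
      ((∫ xt in S, K xt.1 * K (xt.1 + c xt.2 * p)) +
        ∫ xt in S, K xt.1 * K (xt.1 + c xt.2 * q)) := by
  have hfin := wlim_fin R S hSR
  have hee : e * e = 1 := by rcases he with rfl | rfl <;> norm_num
  have bd : ∀ a b : ℝ, |a| ≤ 1 → |b| ≤ 1 → ‖a * b‖ ≤ 1 := by
    intro a b ha hb
    rw [Real.norm_eq_abs, abs_mul]
    have := abs_nonneg a
    have := abs_nonneg b
    nlinarith
  have m0 : Measurable (fun xt : ℂ × UnitAddCircle => K xt.1) := hK.comp measurable_fst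
  have il : ∀ r : ℂ, Integrable (fun xt : ℂ × UnitAddCircle => e * K (xt.1 + c xt.2 * r))
      (volume.restrict S) := fun r =>
    (Integrable.of_bound (wlim_mr K hK r).aestronglyMeasurable 1
      (Eventually.of_forall fun xt => by rw [Real.norm_eq_abs]; exact hKb _)).const_mul e
  have ib : ∀ r : ℂ, Integrable (fun xt : ℂ × UnitAddCircle => K xt.1 * K (xt.1 + c xt.2 * r))
      (volume.restrict S) := fun r =>
    Integrable.of_bound (m0.mul (wlim_mr K hK r)).aestronglyMeasurable 1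
      (Eventually.of_forall fun xt => bd _ _ (hKb _) (hKb _))
  have i1 : Integrable (fun xt : ℂ × UnitAddCircle => e * K (xt.1 + c xt.2 * p) +
      e * K (xt.1 + c xt.2 * q)) (volume.restrict S) := (il p).add (il q)
  have i2 : Integrable (fun xt : ℂ × UnitAddCircle => K xt.1 * K (xt.1 + c xt.2 * p) +
      K xt.1 * K (xt.1 + c xt.2 * q)) (volume.restrict S) := (ib p).add (ib q)
  rw [← integral_const_mul, ← integral_const_mul, ← integral_add (il p) (il q),
    ← integral_add (ib p) (ib q), ← integral_add i1 i2]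
  refine integral_congr_ae (Eventually.of_forall fun xt => ?_)
  show (1 + e * K xt.1) * (e * (K (xt.1 + c xt.2 * p) + K (xt.1 + c xt.2 * q))) = _
  have : (1 + e * K xt.1) * (e * (K (xt.1 + c xt.2 * p) + K (xt.1 + c xt.2 * q))) =
    (e * K (xt.1 + c xt.2 * p) + e * K (xt.1 + c xt.2 * q)) +
      (e * e) * (K xt.1 * K (xt.1 + c xt.2 * p) + K xt.1 * K (xt.1 + c xt.2 * q)) := by ring
  rw [this, hee, one_mul]

private theorem wlim_conv (F : ℕ → ℂ → ℝ) (hm : ∀ n, Measurable (F n)) (hb : ∀ n x, |F n x| ≤ 1)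
    (G : ℂ → ℝ) (hG : Measurable G) (hGb : ∀ x, |G x| ≤ 1)
    (hw : ∀ (ν : Measure ℂ) [IsFiniteMeasure ν], ν ≪ volume →
        Tendsto (fun n => ∫ x, F n x ∂ν) atTop (𝓝 (∫ x, G x ∂ν)))
    (e : ℝ) (he : e = 1 ∨ e = -1) (p q : ℂ) (hp : p ≠ 0) (hq : q ≠ 0)
    (R : ℝ) (S : Set (ℂ × UnitAddCircle)) (hS : MeasurableSet S)
    (hSR : ∀ xt ∈ S, ‖xt.1‖ ≤ R) :
    Tendsto (fun n => ∫ xt in S, wlimU e p q (F n) xt) atTop
      (𝓝 (∫ xt in S, wlimU e p q G xt)) := by
  rw [wlim_split G hG hGb e he p q R S hSR]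
  simp_rw [fun n => wlim_split (F n) (hm n) (hb n) e he p q R S hSR]
  refine (Tendsto.add ?_ ?_).add (Tendsto.add ?_ ?_)
  · exact (wlin F hm hb G hG hGb hw p R S hS hSR).const_mul e
  · exact (wlin F hm hb G hG hGb hw q R S hS hSR).const_mul e
  · exact bilin F hm hb G hG hGb hw p hp R S hS hSR
  · exact bilin F hm hb G hG hGb hw q hq R S hS hSR


theorem wlim {I : Type} [Fintype I] (e : I → ℝ) (he : ∀ i, e i = 1 ∨ e i = -1)
    (P : I → ℂ × ℂ) (hP : ∀ i, (P i).1 ≠ 0 ∧ (P i).2 ≠ 0) (r₁ c₀ : ℝ) (hr : 0 < r₁)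
    (hc : 0 < c₀)
    (h : ∀ L τ : ℝ, 0 < L → 0 < τ → ∃ G : ℂ → ℝ, Measurable G ∧ (∀ x, |G x| ≤ 1) ∧
        (∀ i, ∫ xt in (Metric.ball (0 : ℂ) L) ×ˢ (Set.univ : Set UnitAddCircle),
          max 0 ((1 + e i * G xt.1) *
            (e i * (G (xt.1 + c xt.2 * (P i).1) + G (xt.1 + c xt.2 * (P i).2)))) < τ) ∧
        c₀ ≤ ∫ xt in (Metric.ball (0 : ℂ) 1) ×ˢ (Set.univ : Set UnitAddCircle),
          G xt.1 * G (xt.1 + c xt.2 * r₁)) :
    ∃ G : ℂ → ℝ, Measurable G ∧ (∀ x, |G x| ≤ 1) ∧ (¬ ∀ᵐ x : ℂ, G x = 0) ∧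
      ∀ i, ∀ᵐ xt : ℂ × UnitAddCircle, (1 + e i * G xt.1) *
        (e i * (G (xt.1 + c xt.2 * (P i).1) + G (xt.1 + c xt.2 * (P i).2))) ≤ 0 := by
  have h' : ∀ n : ℕ, ∃ G : ℂ → ℝ, Measurable G ∧ (∀ x, |G x| ≤ 1) ∧
        (∀ i, ∫ xt in (Metric.ball (0 : ℂ) ((n : ℝ) + 1)) ×ˢ (Set.univ : Set UnitAddCircle),
          max 0 (wlimU (e i) (P i).1 (P i).2 G xt) < 1 / ((n : ℝ) + 1)) ∧
        c₀ ≤ ∫ xt in (Metric.ball (0 : ℂ) 1) ×ˢ (Set.univ : Set UnitAddCircle),
          G xt.1 * G (xt.1 + c xt.2 * r₁) := fun n =>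
    h ((n : ℝ) + 1) (1 / ((n : ℝ) + 1)) (by positivity) (by positivity)
  choose F hm hb hF hc0 using h'
  obtain ⟨φ, hφ, G, hG, hGb, hw⟩ := weak_seq F hm hb
  have hbR : ∀ (L : ℝ), ∀ xt ∈ (Metric.ball (0 : ℂ) L) ×ˢ (Set.univ : Set UnitAddCircle),
      ‖xt.1‖ ≤ L := by
    rintro L ⟨x, t⟩ ⟨hx, -⟩
    have hx' : ‖x‖ < L := by simpa using hx
    exact hx'.le
  have hbm : ∀ (L : ℝ), MeasurableSet ((Metric.ball (0 : ℂ) L) ×ˢ
      (Set.univ : Set UnitAddCircle)) := fun L => measurableSet_ball.prod MeasurableSet.univ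
  refine ⟨G, hG, hGb, ?_, fun i => ?_⟩
  · intro h0
    have hr1 : ((r₁ : ℝ) : ℂ) ≠ 0 := by exact_mod_cast hr.ne'
    have hlim := bilin (fun n => F (φ n)) (fun n => hm _) (fun n => hb _) G hG hGb hw
      (r₁ : ℂ) hr1 1 _ (hbm 1) (hbR 1)
    have hge : c₀ ≤ ∫ xt in (Metric.ball (0 : ℂ) 1) ×ˢ (Set.univ : Set UnitAddCircle),
        G xt.1 * G (xt.1 + c xt.2 * r₁) :=
      ge_of_tendsto hlim (Eventually.of_forall fun n => hc0 (φ n))
    have hae : ∀ᵐ xt : ℂ × UnitAddCircle, G xt.1 = 0 :=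
      Measure.quasiMeasurePreserving_fst.ae h0
    have hz : ∫ xt in (Metric.ball (0 : ℂ) 1) ×ˢ (Set.univ : Set UnitAddCircle),
        G xt.1 * G (xt.1 + c xt.2 * r₁) = 0 := by
      apply integral_eq_zero_of_ae
      filter_upwards [ae_restrict_of_ae hae] with xt hxt
      rw [hxt, zero_mul]
      rfl
    linarith
  · have hp := (hP i).1
    have hq := (hP i).2
    have hei := he i
    have key : ∀ N : ℕ, ∀ᵐ xt : ℂ × UnitAddCircle,
        xt ∈ (Metric.ball (0 : ℂ) ((N : ℝ) + 1)) ×ˢ (Set.univ : Set UnitAddCircle) →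
          wlimU (e i) (P i).1 (P i).2 G xt ≤ 0 := by
      intro N
      have hUm : ∀ K : ℂ → ℝ, Measurable K → Measurable (wlimU (e i) (P i).1 (P i).2 K) :=
        fun K hK => wlimU_meas _ _ _ K hK
      set S : Set (ℂ × UnitAddCircle) :=
        ((Metric.ball (0 : ℂ) ((N : ℝ) + 1)) ×ˢ (Set.univ : Set UnitAddCircle)) ∩
          {xt | 0 < wlimU (e i) (P i).1 (P i).2 G xt} with hSdef
      have hSm : MeasurableSet S := (hbm _).inter (measurableSet_lt measurable_const (hUm G hG))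
      have hSR : ∀ xt ∈ S, ‖xt.1‖ ≤ (N : ℝ) + 1 := fun xt hxt => hbR _ xt hxt.1
      have hlim := wlim_conv (fun n => F (φ n)) (fun n => hm _) (fun n => hb _) G hG hGb hw
        (e i) hei _ _ hp hq ((N : ℝ) + 1) S hSm hSR
      have hfinS := wlim_fin ((N : ℝ) + 1) S hSR
      have hle : ∫ xt in S, wlimU (e i) (P i).1 (P i).2 G xt ≤ 0 := by
        have h10 : Tendsto (fun n : ℕ => 1 / ((n : ℝ) + 1)) atTop (𝓝 0) :=
          tendsto_one_div_add_atTop_nhds_zero_nat
        refine le_of_tendsto_of_tendsto hlim h10 ?_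
        filter_upwards [eventually_ge_atTop N] with n hn
        have hn' : N ≤ φ n := hn.trans (hφ.id_le n)
        have hn2 : (N : ℝ) + 1 ≤ (φ n : ℝ) + 1 := by
          have : (N : ℝ) ≤ (φ n : ℝ) := by exact_mod_cast hn'
          linarith
        have hfinB := wlim_fin ((φ n : ℝ) + 1) _ (hbR ((φ n : ℝ) + 1))
        have iB : IntegrableOn (fun xt => max 0 (wlimU (e i) (P i).1 (P i).2 (F (φ n)) xt))
            ((Metric.ball (0 : ℂ) ((φ n : ℝ) + 1)) ×ˢ (Set.univ : Set UnitAddCircle)) := by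
          refine Integrable.of_bound
            (measurable_const.max (hUm _ (hm _))).aestronglyMeasurable 4
            (Eventually.of_forall fun xt => ?_)
          have := wlimU_bd (e i) hei (P i).1 (P i).2 (F (φ n)) (hb _) xt
          rw [Real.norm_eq_abs, abs_of_nonneg (le_max_left _ _)]
          exact max_le (by norm_num) ((le_abs_self _).trans this)
        have iS : IntegrableOn (fun xt => wlimU (e i) (P i).1 (P i).2 (F (φ n)) xt) S := by
          refine Integrable.of_bound (hUm _ (hm _)).aestronglyMeasurable 4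
            (Eventually.of_forall fun xt => ?_)
          rw [Real.norm_eq_abs]
          exact wlimU_bd (e i) hei (P i).1 (P i).2 (F (φ n)) (hb _) xt
        have hsub : S ⊆ (Metric.ball (0 : ℂ) ((φ n : ℝ) + 1)) ×ˢ
            (Set.univ : Set UnitAddCircle) := fun xt hxt =>
          ⟨Metric.ball_subset_ball hn2 hxt.1.1, Set.mem_univ _⟩
        have a0 : ∫ xt in S, wlimU (e i) (P i).1 (P i).2 (F (φ n)) xt ≤
            ∫ xt in S, max 0 (wlimU (e i) (P i).1 (P i).2 (F (φ n)) xt) :=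
          integral_mono iS (iB.mono_set hsub) (fun xt => le_max_right _ _)
        have a1 : ∫ xt in S, max 0 (wlimU (e i) (P i).1 (P i).2 (F (φ n)) xt) ≤
            ∫ xt in (Metric.ball (0 : ℂ) ((φ n : ℝ) + 1)) ×ˢ (Set.univ : Set UnitAddCircle),
              max 0 (wlimU (e i) (P i).1 (P i).2 (F (φ n)) xt) :=
          setIntegral_mono_set iB (Eventually.of_forall fun xt => le_max_left _ _)
            hsub.eventuallyLE
        have a2 := hF (φ n) i
        have a3 : 1 / ((φ n : ℝ) + 1) ≤ 1 / ((n : ℝ) + 1) := by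
          have : (n : ℝ) ≤ (φ n : ℝ) := by exact_mod_cast hφ.id_le n
          exact one_div_le_one_div_of_le (by positivity) (by linarith)
        exact a0.trans (a1.trans (a2.le.trans a3))
      have hnn : 0 ≤ᵐ[volume.restrict S] wlimU (e i) (P i).1 (P i).2 G := by
        rw [Filter.EventuallyLE, ae_restrict_iff' hSm]
        exact Eventually.of_forall fun xt hxt => le_of_lt hxt.2
      have hint : IntegrableOn (wlimU (e i) (P i).1 (P i).2 G) S := by
        refine Integrable.of_bound (hUm _ hG).aestronglyMeasurable 4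
          (Eventually.of_forall fun xt => ?_)
        rw [Real.norm_eq_abs]
        exact wlimU_bd (e i) hei (P i).1 (P i).2 G hGb xt
      have hz : ∫ xt in S, wlimU (e i) (P i).1 (P i).2 G xt = 0 :=
        le_antisymm hle (integral_nonneg_of_ae hnn)
      have hz2 := (setIntegral_eq_zero_iff_of_nonneg_ae hnn hint).mp hz
      rw [Filter.EventuallyEq, ae_restrict_iff' hSm] at hz2
      filter_upwards [hz2] with xt hxt hmem
      by_contra hcon
      rw [not_le] at hcon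
      have h3 := hxt ⟨hmem, hcon⟩
      rw [h3] at hcon
      exact lt_irrefl _ hcon
    filter_upwards [ae_all_iff.mpr key] with xt hxt
    obtain ⟨N, hN⟩ := exists_nat_gt ‖xt.1‖
    refine hxt N ⟨?_, trivial⟩
    rw [Metric.mem_ball, dist_zero_right]
    linarith

end Pool.Agent.H79.TS
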