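import Pool.Agent.H79.TS.SettEx
import Pool.Agent.H79.TS.KcPos
import Pool.Agent.H79.TS.Samp2
import Pool.Agent.H79.TS.WLim
import Pool.Agent.H79.TS.NoCfg

/-!
# ROW Pair: two triangles with two common sides, missing in different colours (about 130 lines)

PROOF.
Index set `I := Bool × Fin 6`, sign `se i.1`, type `P i := ty a b (g i.1) i.2` (all multipliers are nonzero: as in `Cfg.ty_ne`; use `cc_tri`, `cc_neg`, `c_ne_zero`).  The hypothesis `hf` for all types: `sg (f z) = se e ↔ f z = e`.  Types 0, 1: `hf e (g e)`, `hf e (-(g e))` (with `w`).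
Types 2, 3 (`σ = g e`, `-(g e)`): the points `w`, `θ * (-a) + w =: w'`, `θ * (b c σ - a) + w = θ * (b c σ) + w'`, and `w = θ * a + w'`: `hf e σ` at `w'`.  Types 4, 5: `w' := θ * (-(b c σ)) + w`, `w = θ * (b c σ) + w'`, `θ * (a - b c σ) + w = θ * a + w'`.
`sett_exists f`; `kc_pos` with `ε = se true = 1`, `p = a`, `q = b c (g true)`, `q' = b c (-(g true))` (`q ≠ q'`, `p ≠ q`, `p ≠ q'` since `(c (g true)).im ≠ 0` and `c (-g) = conj (c g)`, `c_neg`).  `samp2`, `wlim` give `G`.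
`u x := if 0 < G x then 1 else if G x < 0 then -1 else 0`.  `Cfg a b g u`: `con e`: by `Measure.ae_ae_of_ae_prod` for a.e. `x`, for all `i : Fin 6`, for a.e. `t`: `(1 + se e * G x) * (se e * (G (x + c t p) + G (x + c t q))) ≤ 0`.  If `0 ≤ se e * u x` then `0 ≤ se e * G x`, so `se e * (G y + G z) ≤ 0`,
which implies `se e * (u y + u z) ≤ 0` (cases of signs: if `se e * G y > 0` then `se e * G z < 0`, the sum of the signs is `0`, etc.).  `nz`: if `u = 0` a.e. then `G = 0` a.e.  `no_cfg` gives the contradiction.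
-/

set_option autoImplicit false

namespace Pool.Agent.H79.TS

open MeasureTheory Filter Topology Pool.Agent.H93.EG Pool.Agent.H58.ER

private theorem Pair_sg (b e : Bool) : sg b = se e ↔ b = e := by
  cases b <;> cases e <;> norm_num [sg, se]

/-- All multipliers are nonzero. -/
private theorem Pair_ty_ne (a b : ℝ) (ha' : 0 < a) (hb' : 0 < b) (g : UnitAddCircle)
    (hg : (c g).im ≠ 0) (i : Fin 6) : (ty a b g i).1 ≠ 0 ∧ (ty a b g i).2 ≠ 0 := by
  have ha : (a : ℂ) ≠ 0 := by exact_mod_cast ha'.ne'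
  have hb : (b : ℂ) ≠ 0 := by exact_mod_cast hb'.ne'
  have h1 : 0 < cc a b g := lt_of_le_of_lt (abs_nonneg _) (cc_tri a b g ha' hb' hg).1
  have h2 : 0 < cc a b (-g) := by rw [cc_neg]; exact h1
  have n1 : (b : ℂ) * c g - a ≠ 0 := norm_pos_iff.mp h1
  have n2 : (b : ℂ) * c (-g) - a ≠ 0 := norm_pos_iff.mp h2
  have n3 : (a : ℂ) - b * c g ≠ 0 := by rw [← neg_sub]; exact neg_ne_zero.mpr n1
  have n4 : (a : ℂ) - b * c (-g) ≠ 0 := by rw [← neg_sub]; exact neg_ne_zero.mpr n2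
  fin_cases i
  · exact ⟨ha, mul_ne_zero hb (c_ne_zero _)⟩
  · exact ⟨ha, mul_ne_zero hb (c_ne_zero _)⟩
  · exact ⟨neg_ne_zero.mpr ha, n1⟩
  · exact ⟨neg_ne_zero.mpr ha, n2⟩
  · exact ⟨neg_ne_zero.mpr (mul_ne_zero hb (c_ne_zero _)), n3⟩
  · exact ⟨neg_ne_zero.mpr (mul_ne_zero hb (c_ne_zero _)), n4⟩

private theorem Pair_types (f : ℂ → Bool) (a b : ℝ) (g : UnitAddCircle) (e : Bool)
    (hf : ∀ σ : UnitAddCircle, (σ = g ∨ σ = -g) → ∀ θ w : ℂ, ‖θ‖ = 1 →
      ¬ (f w = e ∧ f (θ * a + w) = e ∧ f (θ * (b * c σ) + w) = e))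
    (i : Fin 6) (θ w : ℂ) (hθ : ‖θ‖ = 1) :
    ¬ (sg (f w) = se e ∧ sg (f (θ * (ty a b g i).1 + w)) = se e ∧
      sg (f (θ * (ty a b g i).2 + w)) = se e) := by
  rw [Pair_sg, Pair_sg, Pair_sg]
  rintro ⟨h1, h2, h3⟩
  have key : ∀ σ : UnitAddCircle, (σ = g ∨ σ = -g) → ∀ w' : ℂ, f w' = e → f (θ * a + w') = e →
      f (θ * (b * c σ) + w') = e → False := fun σ hσ w' k1 k2 k3 => hf σ hσ θ w' hθ ⟨k1, k2, k3⟩
  fin_cases i
  · exact key g (Or.inl rfl) w h1 h2 h3
  · exact key (-g) (Or.inr rfl) w h1 h2 h3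
  · refine key g (Or.inl rfl) (θ * (-(a : ℂ)) + w) h2 ?_ ?_
    · rw [show θ * (a : ℂ) + (θ * (-(a : ℂ)) + w) = w by ring]
      exact h1
    · rw [show θ * ((b : ℂ) * c g) + (θ * (-(a : ℂ)) + w) = θ * ((b : ℂ) * c g - a) + w by ring]
      exact h3
  · refine key (-g) (Or.inr rfl) (θ * (-(a : ℂ)) + w) h2 ?_ ?_
    · rw [show θ * (a : ℂ) + (θ * (-(a : ℂ)) + w) = w by ring]
      exact h1
    · rw [show θ * ((b : ℂ) * c (-g)) + (θ * (-(a : ℂ)) + w) =
        θ * ((b : ℂ) * c (-g) - a) + w by ring]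
      exact h3
  · refine key g (Or.inl rfl) (θ * (-((b : ℂ) * c g)) + w) h2 ?_ ?_
    · rw [show θ * (a : ℂ) + (θ * (-((b : ℂ) * c g)) + w) = θ * ((a : ℂ) - b * c g) + w by ring]
      exact h3
    · rw [show θ * ((b : ℂ) * c g) + (θ * (-((b : ℂ) * c g)) + w) = w by ring]
      exact h1
  · refine key (-g) (Or.inr rfl) (θ * (-((b : ℂ) * c (-g))) + w) h2 ?_ ?_
    · rw [show θ * (a : ℂ) + (θ * (-((b : ℂ) * c (-g))) + w) =
        θ * ((a : ℂ) - b * c (-g)) + w by ring]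
      exact h3
    · rw [show θ * ((b : ℂ) * c (-g)) + (θ * (-((b : ℂ) * c (-g))) + w) = w by ring]
      exact h1

private noncomputable def Pair_v (r : ℝ) : ℝ := if 0 < r then 1 else if r < 0 then -1 else 0

private theorem Pair_v_cases (r : ℝ) :
    (0 < r ∧ Pair_v r = 1) ∨ (r < 0 ∧ Pair_v r = -1) ∨ (r = 0 ∧ Pair_v r = 0) := by
  unfold Pair_v
  rcases lt_trichotomy r 0 with h | h | h
  · right; left
    exact ⟨h, by rw [if_neg (not_lt.mpr h.le), if_pos h]⟩
  · right; right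
    exact ⟨h, by rw [h]; simp⟩
  · left
    exact ⟨h, by rw [if_pos h]⟩

private theorem Pair_v1 (e : Bool) (r : ℝ) (h : 0 ≤ se e * Pair_v r) : 0 ≤ se e * r := by
  rcases se_cases e with he | he <;> rcases Pair_v_cases r with ⟨h1, h2⟩ | ⟨h1, h2⟩ | ⟨h1, h2⟩ <;>
    rw [he, h2] at h <;> rw [he] <;> linarith

private theorem Pair_v2 (e : Bool) (r s : ℝ) (h : se e * (r + s) ≤ 0) :
    se e * (Pair_v r + Pair_v s) ≤ 0 := by
  rcases se_cases e with he | he <;> rcases Pair_v_cases r with ⟨h1, h2⟩ | ⟨h1, h2⟩ | ⟨h1, h2⟩ <;>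
    rcases Pair_v_cases s with ⟨h3, h4⟩ | ⟨h3, h4⟩ | ⟨h3, h4⟩ <;>
    rw [he] at h <;> rw [he, h2, h4] <;> linarith

private theorem Pair_v_meas : Measurable Pair_v :=
  Measurable.ite (measurableSet_lt measurable_const measurable_id) measurable_const
    (Measurable.ite (measurableSet_lt measurable_id measurable_const) measurable_const
      measurable_const)

theorem pair (f : ℂ → Bool) (a b : ℝ) (ha : 0 < a) (hb : 0 < b) (g : Bool → UnitAddCircle)
    (hg : ∀ e, (c (g e)).im ≠ 0) (herg : ∃ e, ∀ n : ℕ, 0 < n → n • g e ≠ 0)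
    (hf : ∀ (e : Bool) (σ : UnitAddCircle), (σ = g e ∨ σ = -(g e)) → ∀ θ w : ℂ, ‖θ‖ = 1 →
      ¬ (f w = e ∧ f (θ * a + w) = e ∧ f (θ * (b * c σ) + w) = e)) : False :=
  by
  classical
  obtain ⟨E, k, kc, S⟩ := sett_exists f
  have hF : ∀ e : Bool, ∀ (i : Fin 6) (θ w : ℂ), ‖θ‖ = 1 →
      ¬ (sg (f w) = se e ∧ sg (f (θ * (ty a b (g e) i).1 + w)) = se e ∧
        sg (f (θ * (ty a b (g e) i).2 + w)) = se e) := fun e i θ w hθ =>
    Pair_types f a b (g e) e (hf e) i θ w hθ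
  have im1 : ((b : ℂ) * c (g true)).im = b * (c (g true)).im := by
    simp [Complex.mul_im]
  have im2 : ((b : ℂ) * c (-(g true))).im = -(b * (c (g true)).im) := by
    rw [c_neg]
    simp [Complex.mul_im]
  have hne := mul_ne_zero hb.ne' (hg true)
  have hty0 := Pair_ty_ne a b ha hb (g true) (hg true) 0
  have hty1 := Pair_ty_ne a b ha hb (g true) (hg true) 1
  have hpos : 0 < kc 0 := by
    refine kc_pos S 1 (Or.inl rfl) (a : ℂ) ((b : ℂ) * c (g true)) ((b : ℂ) * c (-(g true)))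
      hty0.1 hty0.2 hty1.2 ?_ ?_ ?_ ?_ ?_
    · intro h0
      have := congrArg Complex.im h0
      rw [im1, Complex.ofReal_im] at this
      exact hne this.symm
    · intro h0
      have := congrArg Complex.im h0
      rw [im2, Complex.ofReal_im] at this
      exact hne (by linarith)
    · intro h0
      have := congrArg Complex.im h0
      rw [im1, im2] at this
      exact hne (by linarith)
    · intro θ w hθ
      exact hF true 0 θ w hθ
    · intro θ w hθ
      exact hF true 1 θ w hθ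
  obtain ⟨r₁, c₀, hr, hc, hs⟩ := samp2 S hpos (I := Bool × Fin 6) (fun i => se i.1)
    (fun i => se_cases i.1) (fun i => ty a b (g i.1) i.2)
    (fun i => Pair_ty_ne a b ha hb (g i.1) (hg i.1) i.2)
    (fun i θ w hθ => hF i.1 i.2 θ w hθ)
  obtain ⟨G, hG, hGb, hGn, hGc⟩ := wlim (I := Bool × Fin 6) (fun i => se i.1)
    (fun i => se_cases i.1) (fun i => ty a b (g i.1) i.2)
    (fun i => Pair_ty_ne a b ha hb (g i.1) (hg i.1) i.2) r₁ c₀ hr hc hs
  refine no_cfg (a := a) (b := b) (g := g) (u := fun x => Pair_v (G x))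
    { ha := ha, hb := hb, hg := hg, erg := herg, meas := Pair_v_meas.comp hG, val := ?_,
      con := ?_, nz := ?_ }
  · intro x
    rcases Pair_v_cases (G x) with ⟨-, h⟩ | ⟨-, h⟩ | ⟨-, h⟩
    · exact Or.inl h
    · exact Or.inr (Or.inl h)
    · exact Or.inr (Or.inr h)
  · intro e
    have h1 : ∀ i : Fin 6, ∀ᵐ x : ℂ, ∀ᵐ t : UnitAddCircle, (1 + se e * G x) *
        (se e * (G (x + c t * (ty a b (g e) i).1) + G (x + c t * (ty a b (g e) i).2))) ≤ 0 :=
      fun i => Measure.ae_ae_of_ae_prod (hGc (e, i))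
    filter_upwards [ae_all_iff.mpr h1] with x hx hux i
    filter_upwards [hx i] with s hsx
    refine Pair_v2 e _ _ ?_
    have h2 : 0 ≤ se e * G x := Pair_v1 e _ hux
    by_contra h3
    push Not at h3
    have : 0 < (1 + se e * G x) *
        (se e * (G (x + c s * (ty a b (g e) i).1) + G (x + c s * (ty a b (g e) i).2))) :=
      mul_pos (by linarith) h3
    linarith
  · intro h0
    apply hGn
    filter_upwards [h0] with x hx
    rcases Pair_v_cases (G x) with ⟨-, h⟩ | ⟨-, h⟩ | ⟨h, -⟩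
    · have hx' : Pair_v (G x) = 0 := hx
      rw [h] at hx'
      norm_num at hx'
    · have hx' : Pair_v (G x) = 0 := hx
      rw [h] at hx'
      norm_num at hx'
    · exact h

end Pool.Agent.H79.TS
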