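import Pool.Agent.H79.TS.Img

/-!
# ROW PosB: from circles of circles to an annulus (about 60 lines)

PROOF.
Let `M := {(t, s) | ¬ P (x + c t * p + c s * q)}`.  It is measurable (`hP`, the map is continuous) and by `h` all its slices are null for almost all `t`,
so `volume M = 0` (`Measure.ae_prod_mem_iff_ae_ae_mem` or `measure_prod_null`; `volume` on the product is `volume.prod volume`).
By `img_null` the image of `M` is null.  So it suffices: if `|p - q| < ‖z - x‖ < p + q` then `z = x + c t * p + c s * q` for some `t, s`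
(then `¬ P z` puts `z` into the image of `M`).  Put `ρ := ‖z - x‖ > 0`, `z - x = ρ v`, `‖v‖ = 1`.  Let `X := (ρ² + p² - q²) / (2 ρ)`; then `|X| < p`:
`p - X = (q² - (ρ - p)²) / (2 ρ) > 0` and `p + X = ((ρ + p)² - q²) / (2 ρ) > 0`.  `H := √(p² - X²)`, `ζ := (X + H i) v`: `‖ζ‖ = p`,
`‖z - x - ζ‖² = (ρ - X)² + H² = ρ² - 2 ρ X + p² = q²`.  `exists_pt x p` (for the point `x + ζ`) and `exists_pt (x + ζ) q z` give `t` and `s`.
-/

set_option autoImplicit false

namespace Pool.Agent.H79.TS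

open MeasureTheory Filter Topology Pool.Agent.H93.EG

private theorem PosB_ex (x z : ℂ) (p q : ℝ) (hp : 0 < p) (hq : 0 < q)
    (h1 : |p - q| < ‖z - x‖) (h2 : ‖z - x‖ < p + q) :
    ∃ t s : UnitAddCircle, z = x + c t * p + c s * q := by
  have hρ : 0 < ‖z - x‖ := (abs_nonneg _).trans_lt h1
  obtain ⟨ρ, hρd⟩ : ∃ ρ : ℝ, ρ = ‖z - x‖ := ⟨_, rfl⟩
  rw [← hρd] at h1 h2 hρ
  obtain ⟨ha, hb⟩ := abs_lt.1 h1
  obtain ⟨v, hv⟩ : ∃ v : ℂ, v = (z - x) / (ρ : ℂ) := ⟨_, rfl⟩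
  have hρ0 : (ρ : ℂ) ≠ 0 := by
    exact_mod_cast hρ.ne'
  have hzx : z - x = (ρ : ℂ) * v := by
    rw [hv]
    field_simp
  have hvn : ‖v‖ = 1 := by
    rw [hv, norm_div, ← hρd, Complex.norm_real, Real.norm_of_nonneg hρ.le, div_self hρ.ne']
  obtain ⟨X, hX⟩ : ∃ X : ℝ, X = (ρ ^ 2 + p ^ 2 - q ^ 2) / (2 * ρ) := ⟨_, rfl⟩
  have hX2 : 2 * ρ * X = ρ ^ 2 + p ^ 2 - q ^ 2 := by
    rw [hX]
    field_simp
  have hX3 : X ^ 2 ≤ p ^ 2 := by
    have e1 : 0 < 2 * ρ * (p - X) := by nlinarith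
    have e2 : 0 < 2 * ρ * (p + X) := by nlinarith
    have e3 : 0 < p - X := (mul_pos_iff_of_pos_left (by positivity)).1 e1
    have e4 : 0 < p + X := (mul_pos_iff_of_pos_left (by positivity)).1 e2
    nlinarith
  obtain ⟨H, hH⟩ : ∃ H : ℝ, H = Real.sqrt (p ^ 2 - X ^ 2) := ⟨_, rfl⟩
  have hH2 : H ^ 2 = p ^ 2 - X ^ 2 := by
    rw [hH, Real.sq_sqrt (by linarith)]
  have n1 : ‖((X : ℂ) + H * Complex.I) * v‖ = ‖(p : ℂ)‖ := by
    rw [norm_mul, hvn, mul_one, Complex.norm_real, Real.norm_of_nonneg hp.le,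
      ← sq_eq_sq₀ (norm_nonneg _) hp.le, ← Complex.normSq_eq_norm_sq, Complex.normSq_add_mul_I]
    linarith
  have n2 : ‖z - (x + ((X : ℂ) + H * Complex.I) * v)‖ = ‖(q : ℂ)‖ := by
    have e : z - (x + ((X : ℂ) + H * Complex.I) * v) =
        (((ρ - X : ℝ) : ℂ) + ((-H : ℝ) : ℂ) * Complex.I) * v := by
      push_cast
      linear_combination hzx
    rw [e, norm_mul, hvn, mul_one, Complex.norm_real, Real.norm_of_nonneg hq.le,
      ← sq_eq_sq₀ (norm_nonneg _) hq.le, ← Complex.normSq_eq_norm_sq, Complex.normSq_add_mul_I]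
    nlinarith
  obtain ⟨t, ht⟩ := exists_pt x (p : ℂ) (x + ((X : ℂ) + H * Complex.I) * v) (by
    rw [add_sub_cancel_left]
    exact n1)
  obtain ⟨s, hs⟩ := exists_pt (x + ((X : ℂ) + H * Complex.I) * v) (q : ℂ) z n2
  exact ⟨t, s, by rw [← ht]; exact hs⟩

theorem posB (P : ℂ → Prop) (hP : MeasurableSet {z | P z}) (x : ℂ) (p q : ℝ) (hp : 0 < p)
    (hq : 0 < q) (h : ∀ᵐ t : UnitAddCircle, ∀ᵐ s : UnitAddCircle, P (x + c t * p + c s * q)) :
    ∀ᵐ z : ℂ, |p - q| < ‖z - x‖ → ‖z - x‖ < p + q → P z := by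
  have hcont : Continuous
      (fun ts : UnitAddCircle × UnitAddCircle => x + c ts.1 * (p : ℂ) + c ts.2 * (q : ℂ)) :=
    (continuous_const.add ((continuous_c.comp continuous_fst).mul continuous_const)).add
      ((continuous_c.comp continuous_snd).mul continuous_const)
  obtain ⟨M, hM⟩ : ∃ M : Set (UnitAddCircle × UnitAddCircle),
      M = {ts | ¬ P (x + c ts.1 * p + c ts.2 * q)} := ⟨_, rfl⟩
  have hMm : MeasurableSet M := by
    rw [hM]
    exact (hcont.measurable hP).compl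
  have hM0 : volume M = 0 := by
    rw [Measure.volume_eq_prod, Measure.measure_prod_null hMm]
    filter_upwards [h] with t ht
    rw [hM]
    exact ht
  have h0 := img_null x p q M hM0
  rw [ae_iff]
  refine measure_mono_null ?_ h0
  intro z hz
  simp only [Set.mem_setOf_eq, Classical.not_imp] at hz
  obtain ⟨h1, h2, h3⟩ := hz
  obtain ⟨t, s, hts⟩ := PosB_ex x z p q hp hq h1 h2
  refine ⟨(t, s), ?_, hts.symm⟩
  rw [hM]
  change ¬ P _
  rw [← hts]
  exact h3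

end Pool.Agent.H79.TS
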