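import Pool.Agent.H79.TS.Rig0

/-!
# ROW Rigid: circles around a point where both constraints hold (about 110 lines)

PROOF.
`rigid`: put `α t := u (y + c t * a)`, `β t := - u (y + c t * b)` (measurable: `h.meas` and `measurable_c`; bounded by 1: `h.val`).  The types `0` and `1` of
`R .. true y` (`se true = 1`; `c t * (b * c g) = c (t + g) * b` by `c_add`) say `α t ≤ β (t + g true)`, `α t ≤ β (t + -(g true))` a.e.; those of `R .. false y`
(`se false = -1`) say `β (t + g false) ≤ α t`, `β (t + -(g false)) ≤ α t` a.e.  `rig0` gives `κ` with `α = β = κ` a.e.; `κ` is a value of `u` (a.e. statements hold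
for some `t`, `.exists`), so it is `1`, `-1` or `0`.
`third`: let `κ ∈ {1, -1}`.  If `se e = κ` use type 2 of `R .. e y`: for a.e. `t`: `κ (u (y - c t * a) + u (y + c t * (b c (g e) - a))) ≤ 0`, and `u (y + c t * (-a)) = κ` for
a.e. `t` (`ae_rot`), so `κ * κ + κ u (..) ≤ 0`, `κ u (..) ≤ -1`, and as `u (..) ∈ {1, -1, 0}`: `u (..) = -κ = - se e`.
If `se e = -κ` use type 4: `u (y + c t * (-(b c (g e)))) = -κ = se e` a.e. (`ae_rot` from the circle of radius `b`), so in the same way `u (y + c t * (a - b c (g e))) = - se e`.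
Finally `ae_rot`: `‖b c (g e) - a‖ = ‖a - b c (g e)‖ = cc a b (g e) = ‖((cc a b (g e) : ℝ) : ℂ)‖`.
-/

set_option autoImplicit false

namespace Pool.Agent.H79.TS

open MeasureTheory Filter Topology Pool.Agent.H93.EG

private theorem rigid_meas {u : ℂ → ℝ} (hu : Measurable u) (y d : ℂ) :
    Measurable (fun t : UnitAddCircle => u (y + c t * d)) :=
  hu.comp (measurable_const.add (measurable_c.mul_const d))

private theorem rigid_abs {a b : ℝ} {g : Bool → UnitAddCircle} {u : ℂ → ℝ} (h : Cfg a b g u) (x : ℂ) :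
    |u x| ≤ 1 := by
  rcases h.val x with h1 | h1 | h1 <;> rw [h1] <;> norm_num

private theorem rigid_ct (t g : UnitAddCircle) (b : ℝ) : c t * ((b : ℂ) * c g) = c (t + g) * b := by
  rw [c_add]
  ring

theorem rigid {a b : ℝ} {g : Bool → UnitAddCircle} {u : ℂ → ℝ} (h : Cfg a b g u) (y : ℂ)
    (hy : Y a b g u y) : ∃ κ : ℝ, (κ = 1 ∨ κ = -1 ∨ κ = 0) ∧ Cc u y a κ ∧ Cc u y b (-κ) := by
  have hT : se true = 1 := by simp [se]
  have hF : se false = -1 := by simp [se]
  obtain ⟨κ, h1, h2⟩ := rig0 g h.erg (fun t => u (y + c t * (a : ℂ))) (fun t => - u (y + c t * (b : ℂ)))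
    (rigid_meas h.meas y _) (rigid_meas h.meas y _).neg (fun t => rigid_abs h _)
    (fun t => by rw [abs_neg]; exact rigid_abs h _)
    (by
      filter_upwards [hy.1 0] with t ht
      have ht' : se true * (u (y + c t * (a : ℂ)) + u (y + c t * ((b : ℂ) * c (g true)))) ≤ 0 := ht
      rw [rigid_ct, hT] at ht'
      linarith)
    (by
      filter_upwards [hy.1 1] with t ht
      have ht' : se true * (u (y + c t * (a : ℂ)) + u (y + c t * ((b : ℂ) * c (-(g true))))) ≤ 0 := ht
      rw [rigid_ct, hT] at ht'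
      linarith)
    (by
      filter_upwards [hy.2 0] with t ht
      have ht' : se false * (u (y + c t * (a : ℂ)) + u (y + c t * ((b : ℂ) * c (g false)))) ≤ 0 := ht
      rw [rigid_ct, hF] at ht'
      linarith)
    (by
      filter_upwards [hy.2 1] with t ht
      have ht' : se false * (u (y + c t * (a : ℂ)) + u (y + c t * ((b : ℂ) * c (-(g false))))) ≤ 0 := ht
      rw [rigid_ct, hF] at ht'
      linarith)
  refine ⟨κ, ?_, h1, ?_⟩
  · obtain ⟨t, ht⟩ := h1.exists
    have ht' : u (y + c t * (a : ℂ)) = κ := ht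
    rw [← ht']
    exact h.val _
  · filter_upwards [h2] with t ht
    linarith

private theorem rigid_val {a b : ℝ} {g : Bool → UnitAddCircle} {u : ℂ → ℝ} (h : Cfg a b g u) (e : Bool)
    (x z : ℂ) (hx : u x = se e) (hz : se e * (u x + u z) ≤ 0) : u z = - se e := by
  rw [hx] at hz
  rcases h.val z with h1 | h1 | h1 <;> rcases se_cases e with h2 | h2 <;> rw [h1, h2] at hz <;>
    rw [h1, h2] <;> revert hz <;> norm_num

theorem third {a b : ℝ} {g : Bool → UnitAddCircle} {u : ℂ → ℝ} (h : Cfg a b g u) (y : ℂ)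
    (hy : Y a b g u y) (κ : ℝ) (hκ : κ = 1 ∨ κ = -1) (ha : Cc u y a κ) (hb : Cc u y b (-κ))
    (e : Bool) : Cc u y (cc a b (g e)) (- se e) := by
  have hR : R a b g u e y := by
    cases e
    · exact hy.2
    · exact hy.1
  have hc : ‖((cc a b (g e) : ℝ) : ℂ)‖ = ‖(b : ℂ) * c (g e) - a‖ := by
    rw [Complex.norm_real, Real.norm_eq_abs, abs_of_pos (h.cc_pos e)]
    rfl
  have hcase : se e = κ ∨ se e = -κ := by
    rcases se_cases e with h1 | h1 <;> rcases hκ with h2 | h2 <;> rw [h1, h2] <;> norm_num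
  rcases hcase with hs | hs
  · have h1 : ∀ᵐ t : UnitAddCircle, u (y + c t * (-(a : ℂ))) = se e :=
      ae_rot (P := fun z => u z = se e) y (a : ℂ) (-(a : ℂ)) (by rw [norm_neg]) (by rw [hs]; exact ha)
    have h2 : ∀ᵐ t : UnitAddCircle, u (y + c t * ((b : ℂ) * c (g e) - a)) = - se e := by
      filter_upwards [h1, hR 2] with t ht1 ht2
      exact rigid_val h e _ _ ht1 ht2
    exact ae_rot (P := fun z => u z = - se e) y _ _ hc.symm h2
  · have h1 : ∀ᵐ t : UnitAddCircle, u (y + c t * (-((b : ℂ) * c (g e)))) = se e :=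
      ae_rot (P := fun z => u z = se e) y (b : ℂ) (-((b : ℂ) * c (g e)))
        (by rw [norm_neg, norm_mul, norm_c, mul_one]) (by rw [hs]; exact hb)
    have h2 : ∀ᵐ t : UnitAddCircle, u (y + c t * ((a : ℂ) - b * c (g e))) = - se e := by
      filter_upwards [h1, hR 4] with t ht1 ht2
      exact rigid_val h e _ _ ht1 ht2
    exact ae_rot (P := fun z => u z = - se e) y _ _ (by rw [hc, norm_sub_rev]) h2

end Pool.Agent.H79.TS
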