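import Pool.Agent.H79.TS.CircK

/-!
# ROW Sep: two boundary points are not at an intermediate distance (about 90 lines)

PROOF.
`sep`: by `circK` a.e. `x ∈ Z u` has `Cc u x a (se κ)` and `Cc u x b (- se κ)` for some `κ =: κ x : Bool`.  Let `x, y` be two such points.
If `κ y = κ x = κ`: `Cc u x a (se κ)` and `Cc u y b (- se κ)`, excluded for a.e. `y` with `|a - b| < ‖y - x‖ < a + b` by `noPair` with `(r, s) = (a, b)`, `(χ, χ') = (se κ, - se κ)`.
If `κ y = !κ x`: `Cc u x a (se κ)`, `Cc u y a (- se κ)` are excluded for `0 < ‖y - x‖ < 2 a` by `noPair` with `r = s = a`, and `Cc u x b (- se κ)`, `Cc u y b (se κ)` for `0 < ‖y - x‖ < 2 b` by `noPair` with `r = s = b`; and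
`0 ≤ |a - b|`, `a + b ≤ 2 max a b`.  (For each `x` there are only finitely many cases: both values of `κ x`, `κ y`.)
`noAnn`: choose a number `d` with `|a - b| < d < min (2 r₂) (a + b)` (possible: `|a - b| < 2 r₂`, `|a - b| < a + b`) and `ρ` with `r₁ < ρ < r₂`, `d < 2 ρ` (possible as `d < 2 r₂`).  Points `w₁ := x + ρ`,
`w₂ := x + ρ v` with `‖v‖ = 1`, `‖v - 1‖ = d / ρ ∈ (0, 2)` (`v = X + i √(1 - X²)`, `X = 1 - d² / (2 ρ²)`).  `‖w₁ - w₂‖ = d`.  The open set `O` of pairs `(z₁, z₂)` with `z₁, z₂` in the annulus and `|a - b| < ‖z₂ - z₁‖ < a + b` contains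
`(w₁, w₂)`; by `sep` and `exists_open'` there are `z₁` near `w₁` (satisfying `sep`; `z₁ ∈ Z u` by `hsub`) and then `z₂` near `w₂`, `z₂ ∈ Z u`, with `a + b ≤ ‖z₂ - z₁‖`: contradiction.
-/

set_option autoImplicit false

namespace Pool.Agent.H79.TS

open MeasureTheory Filter Topology Pool.Agent.H93.EG

private theorem Sep_exists_v (D : ℝ) (h0 : 0 ≤ D) (h2 : D ≤ 2) :
    ∃ v : ℂ, ‖v‖ = 1 ∧ ‖v - 1‖ = D := by
  set X : ℝ := 1 - D ^ 2 / 2 with hX
  have hX1 : 0 ≤ 1 - X ^ 2 := by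
    rw [hX]
    nlinarith [sq_nonneg D, mul_nonneg h0 (sub_nonneg.mpr h2)]
  have hs := Real.sq_sqrt hX1
  refine ⟨⟨X, Real.sqrt (1 - X ^ 2)⟩, ?_, ?_⟩
  · have h1 : ‖(⟨X, Real.sqrt (1 - X ^ 2)⟩ : ℂ)‖ ^ 2 = 1 ^ 2 := by
      rw [← Complex.normSq_eq_norm_sq, Complex.normSq_apply]
      show X * X + Real.sqrt (1 - X ^ 2) * Real.sqrt (1 - X ^ 2) = 1 ^ 2
      nlinarith
    exact (sq_eq_sq₀ (norm_nonneg _) zero_le_one).mp h1
  · have h1 : ‖(⟨X, Real.sqrt (1 - X ^ 2)⟩ : ℂ) - 1‖ ^ 2 = D ^ 2 := by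
      rw [← Complex.normSq_eq_norm_sq, Complex.normSq_apply, Complex.sub_re, Complex.sub_im,
        Complex.one_re, Complex.one_im]
      show (X - 1) * (X - 1) + (Real.sqrt (1 - X ^ 2) - 0) * (Real.sqrt (1 - X ^ 2) - 0) = D ^ 2
      nlinarith
    exact (sq_eq_sq₀ (norm_nonneg _) h0).mp h1

theorem sep {a b : ℝ} {g : Bool → UnitAddCircle} {u : ℂ → ℝ} (h : Cfg a b g u) :
    ∀ᵐ x : ℂ, x ∈ Z u → ∀ᵐ y : ℂ, y ∈ Z u → |a - b| < ‖y - x‖ → a + b ≤ ‖y - x‖ := by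
  have nse : ∀ e : Bool, se e ≠ - se e := by
    intro e
    cases e <;> norm_num [se]
  have nse' : ∀ e : Bool, - se e ≠ se e := fun e => (nse e).symm
  have Ck := circK h
  filter_upwards [Ck, noPair u h.meas a b h.ha h.hb (se true) (- se true) (nse true),
    noPair u h.meas a b h.ha h.hb (se false) (- se false) (nse false),
    noPair u h.meas a a h.ha h.ha (se true) (- se true) (nse true),
    noPair u h.meas a a h.ha h.ha (se false) (- se false) (nse false),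
    noPair u h.meas b b h.hb h.hb (- se true) (se true) (nse' true),
    noPair u h.meas b b h.hb h.hb (- se false) (se false) (nse' false)] with x hx p1 p2 p3 p4 p5 p6 hxZ
  obtain ⟨κ, -, -, hca, hcb⟩ := hx hxZ
  have q1 : ∀ᵐ y : ℂ, |a - b| < ‖y - x‖ → ‖y - x‖ < a + b → ¬ Cc u y b (- se κ) := by
    cases κ
    · exact p2 hca
    · exact p1 hca
  have q2 : ∀ᵐ y : ℂ, |a - a| < ‖y - x‖ → ‖y - x‖ < a + a → ¬ Cc u y a (- se κ) := by
    cases κ
    · exact p4 hca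
    · exact p3 hca
  have q3 : ∀ᵐ y : ℂ, |b - b| < ‖y - x‖ → ‖y - x‖ < b + b → ¬ Cc u y b (se κ) := by
    cases κ
    · exact p6 hcb
    · exact p5 hcb
  filter_upwards [Ck, q1, q2, q3] with y hy r1 r2 r3 hyZ hlt
  by_contra hcon
  push Not at hcon
  obtain ⟨κ', -, -, hya, hyb⟩ := hy hyZ
  have h0 : 0 < ‖y - x‖ := lt_of_le_of_lt (abs_nonneg _) hlt
  by_cases hk : κ' = κ
  · subst hk
    exact r1 hlt hcon hyb
  · have hk' : κ' = !κ := by
      cases κ <;> cases κ' <;> simp_all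
    subst hk'
    rw [se_not] at hya hyb
    rw [neg_neg] at hyb
    rcases le_total a b with hab | hab
    · exact r3 (by rw [sub_self, abs_zero]; exact h0) (by linarith) hyb
    · exact r2 (by rw [sub_self, abs_zero]; exact h0) (by linarith) hya

theorem noAnn {a b : ℝ} {g : Bool → UnitAddCircle} {u : ℂ → ℝ} (h : Cfg a b g u) (x : ℂ)
    (r₁ r₂ : ℝ) (h0 : 0 ≤ r₁) (h12 : r₁ < r₂) (h2 : |a - b| < 2 * r₂)
    (hsub : ∀ z : ℂ, r₁ < ‖z - x‖ → ‖z - x‖ < r₂ → z ∈ Z u) : False := by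
  have hab : |a - b| < a + b := by
    rw [abs_lt]
    constructor <;> linarith [h.ha, h.hb]
  obtain ⟨d, hd1, hd2⟩ := exists_between (lt_min h2 hab)
  have hd3 : d < 2 * r₂ := lt_of_lt_of_le hd2 (min_le_left _ _)
  have hd4 : d < a + b := lt_of_lt_of_le hd2 (min_le_right _ _)
  have hd0 : 0 < d := lt_of_le_of_lt (abs_nonneg _) hd1
  obtain ⟨ρ, hρ1, hρ2⟩ := exists_between (max_lt h12 (show d / 2 < r₂ by linarith))
  have hρ3 : r₁ < ρ := lt_of_le_of_lt (le_max_left _ _) hρ1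
  have hρ4 : d < 2 * ρ := by
    have := lt_of_le_of_lt (le_max_right r₁ (d / 2)) hρ1
    linarith
  have hρ0 : 0 < ρ := lt_of_le_of_lt h0 hρ3
  obtain ⟨v, hv1, hv2⟩ := Sep_exists_v (d / ρ) (by positivity) (by
    rw [div_le_iff₀ hρ0]
    exact hρ4.le)
  have nρ : ‖(ρ : ℂ)‖ = ρ := by
    rw [Complex.norm_real, Real.norm_eq_abs, abs_of_pos hρ0]
  set w₁ : ℂ := x + ρ with hw₁
  set w₂ : ℂ := x + ρ * v with hw₂
  have e1 : ‖w₁ - x‖ = ρ := by
    rw [hw₁, add_sub_cancel_left]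
    exact nρ
  have e2 : ‖w₂ - x‖ = ρ := by
    rw [hw₂, add_sub_cancel_left, norm_mul, nρ, hv1, mul_one]
  have e3 : ‖w₂ - w₁‖ = d := by
    rw [hw₁, hw₂, show x + (ρ : ℂ) * v - (x + ρ) = ρ * (v - 1) by ring, norm_mul, nρ, hv2,
      mul_div_cancel₀ _ hρ0.ne']
  obtain ⟨ε, hε0, hε⟩ := exists_between (show (0 : ℝ) < min (min (ρ - r₁) (r₂ - ρ))
      (min ((d - |a - b|) / 2) ((a + b - d) / 2)) from by
    refine lt_min (lt_min (by linarith) (by linarith)) (lt_min (by linarith) (by linarith)))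
  have hε1 : ε < ρ - r₁ := lt_of_lt_of_le hε ((min_le_left _ _).trans (min_le_left _ _))
  have hε2 : ε < r₂ - ρ := lt_of_lt_of_le hε ((min_le_left _ _).trans (min_le_right _ _))
  have hε3 : ε < (d - |a - b|) / 2 := lt_of_lt_of_le hε ((min_le_right _ _).trans (min_le_left _ _))
  have hε4 : ε < (a + b - d) / 2 := lt_of_lt_of_le hε ((min_le_right _ _).trans (min_le_right _ _))
  have inZ : ∀ w z : ℂ, ‖w - x‖ = ρ → z ∈ Metric.ball w ε → z ∈ Z u := by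
    intro w z hw hz
    rw [Metric.mem_ball, dist_eq_norm] at hz
    have t1 : ‖z - x‖ ≤ ‖z - w‖ + ‖w - x‖ := by
      have := norm_add_le (z - w) (w - x)
      rwa [sub_add_sub_cancel] at this
    have t2 : ‖w - x‖ ≤ ‖z - w‖ + ‖z - x‖ := by
      have := norm_add_le (w - z) (z - x)
      rwa [sub_add_sub_cancel, norm_sub_rev w z] at this
    exact hsub z (by linarith) (by linarith)
  obtain ⟨z₁, hz₁, hs₁⟩ := exists_open' (sep h) (Metric.ball w₁ ε) Metric.isOpen_ball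
    ⟨w₁, Metric.mem_ball_self hε0⟩
  obtain ⟨z₂, hz₂, hs₂⟩ := exists_open' (hs₁ (inZ w₁ z₁ e1 hz₁)) (Metric.ball w₂ ε)
    Metric.isOpen_ball ⟨w₂, Metric.mem_ball_self hε0⟩
  have hz₂Z := inZ w₂ z₂ e2 hz₂
  rw [Metric.mem_ball, dist_eq_norm] at hz₁ hz₂
  have t1 : ‖z₂ - z₁‖ ≤ ‖z₂ - w₂‖ + ‖w₂ - w₁‖ + ‖z₁ - w₁‖ := by
    have a1 := norm_add_le (z₂ - w₂) (w₂ - w₁)
    have a2 := norm_add_le (z₂ - w₁) (w₁ - z₁)
    rw [sub_add_sub_cancel] at a1 a2
    rw [norm_sub_rev w₁ z₁] at a2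
    linarith
  have t2 : ‖w₂ - w₁‖ ≤ ‖z₂ - w₂‖ + ‖z₂ - z₁‖ + ‖z₁ - w₁‖ := by
    have a1 := norm_add_le (w₂ - z₂) (z₂ - z₁)
    have a2 := norm_add_le (w₂ - z₁) (z₁ - w₁)
    rw [sub_add_sub_cancel] at a1 a2
    rw [norm_sub_rev w₂ z₂] at a1
    linarith
  rw [e3] at t1 t2
  have := hs₂ hz₂Z (by linarith)
  linarith

end Pool.Agent.H79.TS
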