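import Pool.Agent.H79.TS.PB

/-!
# ROW SettEx: the setting exists (about 60 lines)

PROOF.
`exists_stat f` gives `E`, `stat_k f E hE` gives `k` with `hk`, `PD (fun z => k ‖z‖)`, `k 0 = 1`; `dec k hPD` gives `kc` continuous, `kc r = k r` for `0 < r`, and the weights for all `δ, ε > 0`, which are `Wt k kc δ ε l h`.
`le`: for `r > 0` equality.  For `r = 0`: `kc 0 ≤ 1 = k 0`: for every `ε > 0` take weights (`δ = 1`) and `z = w = 0` in `app`: `kc 0 ≤ ∑∑ l i l j k ‖h i - h j‖ + ε ≤ ∑∑ l i l j + ε = 1 + ε`, where `k ‖z - w‖ = E (sg (F z) * sg (F w)) ≤ 1`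
(`E_mono'`, `E_const`; `|sg| = 1`, `abs_sg`).
-/

set_option autoImplicit false

namespace Pool.Agent.H79.TS

open MeasureTheory Filter Topology Pool.Agent.H93.EG Pool.Agent.H58.ER

theorem sett_exists (f : ℂ → Bool) :
    ∃ (E : ((ℂ → Bool) → ℝ) → ℝ) (k kc : ℝ → ℝ), Sett f E k kc := by
  obtain ⟨E, hE⟩ := exists_stat f
  obtain ⟨k, hk, hPD, hk0, -, -⟩ := stat_k f E hE
  obtain ⟨kc, hcont, heq, hdec⟩ := dec k hPD
  have hk1 : ∀ z w : ℂ, k ‖z - w‖ ≤ 1 := by
    intro z w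
    rw [← hk z w, ← E_const hE 1]
    refine E_mono' hE _ _ ?_ (bdd_const 1) fun F => ?_
    · refine bdd_of 1 fun F => ?_
      rw [abs_mul, abs_sg, abs_sg, one_mul]
    · refine (le_abs_self _).trans (le_of_eq ?_)
      rw [abs_mul, abs_sg, abs_sg, one_mul]
  refine ⟨E, k, kc, ⟨hE, hk, hk0, hcont, heq, ?_, ?_⟩⟩
  · intro r hr
    rcases hr.lt_or_eq with h | h
    · exact (heq r h).le
    · subst h
      rw [hk0]
      refine le_of_forall_pos_le_add fun ε hε => ?_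
      obtain ⟨ι, _, l, h, h1, h2, -, h4⟩ := hdec 1 one_pos ε hε
      have h5 := h4 0 0
      rw [sub_zero, norm_zero] at h5
      have h6 : ∑ i, ∑ j, l i * l j * k ‖(0 : ℂ) + h i - (0 + h j)‖ ≤ 1 := by
        have h7 : ∑ i, ∑ j, l i * l j * k ‖(0 : ℂ) + h i - (0 + h j)‖ ≤ ∑ i, ∑ j, l i * l j := by
          refine Finset.sum_le_sum fun i _ => Finset.sum_le_sum fun j _ => ?_
          have h8 := hk1 ((0 : ℂ) + h i) (0 + h j)
          have h9 : 0 ≤ l i * l j := mul_nonneg (h1 i) (h1 j)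
          calc l i * l j * k ‖(0 : ℂ) + h i - (0 + h j)‖ ≤ l i * l j * 1 :=
                mul_le_mul_of_nonneg_left h8 h9
            _ = l i * l j := mul_one _
        refine h7.trans (le_of_eq ?_)
        rw [← Finset.sum_mul_sum, h2, one_mul]
      have h10 := (abs_le.mp h5).1
      linarith
  · intro δ hδ ε hε
    obtain ⟨ι, inst, l, h, h1, h2, h3, h4⟩ := hdec δ hδ ε hε
    exact ⟨ι, inst, l, h, ⟨h1, h2, h3, h4⟩⟩

end Pool.Agent.H79.TS
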