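import Pool.Agent.H79.TS.GB

/-!
# ROW Star: no triangle with two vertices in the open colour class (about 70 lines)

PROOF.
Write `(p, q) := ty a b (g e) i`.  Suppose `x + c t * p ∈ U u e` and `x + c t * q ∈ U u e`.  Both sets are open (`U_open`), so there are `r > 0` and an open neighbourhood `O` of `t` with: `‖x' - x‖ < r`, `s ∈ O` → `x' + c s * p ∈ U u e` and `x' + c s * q ∈ U u e`
(continuity of `(x', s) ↦ x' + c s * p`).  By `not_U` (`x ∉ U u (!e)`) there are non-null many `x'` in the ball with `u x' ≠ se (!e) = - se e`, that is `0 ≤ se e * u x'` (`h.val`); so there is such an `x'` with `R .. e x'` (`h.con e`) and, for a.e. `s`,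
`x' + c s * p ∈ U u e → u (x' + c s * p) = se e` and the same for `q` (`ae_circ` for `U_ae u e`).  For a.e. `s ∈ O` (choose one, `exists_open`): `se e * (se e + se e) ≤ 0`, contradiction (`se_mul_self`).
-/

set_option autoImplicit false

namespace Pool.Agent.H79.TS

open MeasureTheory Filter Topology Pool.Agent.H93.EG

theorem star {a b : ℝ} {g : Bool → UnitAddCircle} {u : ℂ → ℝ} (h : Cfg a b g u) (e : Bool)
    (x : ℂ) (hx : x ∉ U u (!e)) (i : Fin 6) (t : UnitAddCircle) :
    ¬ (x + c t * (ty a b (g e) i).1 ∈ U u e ∧ x + c t * (ty a b (g e) i).2 ∈ U u e) := by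
  rintro ⟨h1, h2⟩
  have hcont : ∀ d : ℂ, Continuous (fun z : ℂ × UnitAddCircle => z.1 + c z.2 * d) := fun d =>
    continuous_fst.add ((continuous_c.comp continuous_snd).mul continuous_const)
  have hW : ∀ d : ℂ, x + c t * d ∈ U u e →
      {z : ℂ × UnitAddCircle | z.1 + c z.2 * d ∈ U u e} ∈ 𝓝 (x, t) := fun d hd =>
    ((U_open u e).preimage (hcont d)).mem_nhds hd
  have hW2 := Filter.inter_mem (hW _ h1) (hW _ h2)
  rw [nhds_prod_eq] at hW2
  obtain ⟨A, hA, B, hB, hAB⟩ := Filter.mem_prod_iff.mp hW2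
  obtain ⟨r, hr, hrA⟩ := Metric.mem_nhds_iff.mp hA
  obtain ⟨O, hOB, hO, htO⟩ := mem_nhds_iff.mp hB
  have hfr := not_U u (!e) x hx r hr
  have hall := (h.con e).and ((ae_circ (U_ae u e) (ty a b (g e) i).1).and
    (ae_circ (U_ae u e) (ty a b (g e) i).2))
  obtain ⟨x', ⟨hxb, hne⟩, hc, ha1, ha2⟩ := (hfr.and_eventually hall).exists
  have h0 : 0 ≤ se e * u x' := by
    rw [se_not] at hne
    rcases h.val x' with hv | hv | hv <;> rcases se_cases e with hs | hs <;> rw [hv, hs] at hne <;>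
      rw [hv, hs] <;> first | (norm_num; done) | exact absurd (by norm_num) hne
  have hR := hc h0 i
  obtain ⟨s, hsO, ⟨hs0, hs1⟩, hs2⟩ := exists_open ((hR.and ha1).and ha2) O hO ⟨t, htO⟩
  have hm := hAB (Set.mk_mem_prod (hrA hxb) (hOB hsO))
  have e1 := hs1 hm.1
  have e2 := hs2 hm.2
  rw [e1, e2, mul_add, se_mul_self] at hs0
  norm_num at hs0

end Pool.Agent.H79.TS
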