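import Pool.Agent.H79.TS.Adj
import Pool.Agent.H79.TS.Alt
import Pool.Agent.H79.TS.ErgSet

/-!
# ROW Ta: the points of Y on the circle (about 150 lines)

PROOF.
Fix `x ∈ Z u` satisfying `adj` and, for `r ∈ {a, b}` and both `e`: for a.e. `t`: (lock) `¬ R .. e (x + c t * r) → u (x + c t * r) = - se e` (`ae_circ` for `h.lock e`).  Note that lock implies that for a.e. `t` at least one of
`R .. true`, `R .. false` holds at `x + c t * r`.
Claim: for `σ₁ ∈ {g true, -(g true)}`, `σ₂ ∈ {g false, -(g false)}`: for a.e. `t`: `Y (x + c t * a) → Y (x + c t' * a)` with `t' := t + (σ₁ + σ₂)`.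
Put `w := t + σ₁ = t' + (-σ₂)` and `v := t + σ₂ = t' + (-σ₁)`.  By `adj`: `u (x + c w * b) = - se true = -1` and `u (x + c v * b) = - se false = 1`.
Suppose `¬ R .. true (x + c t' * a)`.  Then (lock) `u (x + c t' * a) = -1`.  `alt` for `e = false`, `σ = -σ₂` (`x ∉ U u true`) at `t'`: `R .. true (x + c t' * a) ∨ R .. true (x + c w * b)`, so `R .. true (x + c w * b)`.
As `u (x + c w * b) = -1`, (lock) for `e = false` (which would give `u = 1`) shows `R .. false (x + c w * b)`.  So `Y (x + c w * b)`, and `adj` (second statement, `e = false`, `σ = σ₂`, at `w`): `u (x + c (w + σ₂) * a) = 1`, and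
`w + σ₂ = t'`: contradiction.
Suppose `¬ R .. false (x + c t' * a)`.  Then `u (x + c t' * a) = 1`.  `alt` for `e = true`, `σ = -σ₁` (`x ∉ U u false`) at `t'`: `R .. false (x + c v * b)`.  As `u (x + c v * b) = 1`, (lock) for `e = true` shows `R .. true (x + c v * b)`.
So `Y (x + c v * b)` and `adj` (second statement, `e = true`, `σ = σ₁`, at `v`): `u (x + c (v + σ₁) * a) = -1`, `v + σ₁ = t'`: contradiction.
(All a.e. statements are shifted with `ae_shift`.)  The claim and `erg_set` with `Θ := {t | Y (x + c t * a)}` (measurable by `R_meas`) prove the theorem.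
-/

set_option autoImplicit false

namespace Pool.Agent.H79.TS

open MeasureTheory Filter Topology Pool.Agent.H93.EG

private theorem Ta_claim {a b : ℝ} {g : Bool → UnitAddCircle} {u : ℂ → ℝ} (h : Cfg a b g u)
    (x : ℂ) (hx : x ∈ Z u)
    (hadj : ∀ (e : Bool) (σ : UnitAddCircle), (σ = g e ∨ σ = -(g e)) →
      (∀ᵐ t : UnitAddCircle, Y a b g u (x + c t * a) → u (x + c (t + σ) * b) = - se e) ∧
      ∀ᵐ t : UnitAddCircle, Y a b g u (x + c t * b) → u (x + c (t + σ) * a) = - se e)
    (la : ∀ e : Bool, ∀ᵐ t : UnitAddCircle, ¬ R a b g u e (x + c t * a) → u (x + c t * a) = - se e)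
    (lb : ∀ e : Bool, ∀ᵐ t : UnitAddCircle, ¬ R a b g u e (x + c t * b) → u (x + c t * b) = - se e)
    (σ₁ σ₂ : UnitAddCircle) (h1 : σ₁ = g true ∨ σ₁ = -(g true))
    (h2 : σ₂ = g false ∨ σ₂ = -(g false)) :
    ∀ᵐ t : UnitAddCircle, Y a b g u (x + c t * a) → Y a b g u (x + c (t + (σ₁ + σ₂)) * a) := by
  have h1' : -σ₁ = g true ∨ -σ₁ = -(g true) := by
    rcases h1 with h1 | h1
    · exact Or.inr (by rw [h1])
    · exact Or.inl (by rw [h1, neg_neg])
  have h2' : -σ₂ = g false ∨ -σ₂ = -(g false) := by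
    rcases h2 with h2 | h2
    · exact Or.inr (by rw [h2])
    · exact Or.inl (by rw [h2, neg_neg])
  filter_upwards [(hadj true σ₁ h1).1, (hadj false σ₂ h2).1, ae_shift (hadj false σ₂ h2).2 σ₁,
    ae_shift (hadj true σ₁ h1).2 σ₂, ae_shift (la true) (σ₁ + σ₂), ae_shift (la false) (σ₁ + σ₂),
    ae_shift (lb false) σ₁, ae_shift (lb true) σ₂,
    ae_shift (alt h false x hx.1 (-σ₂) h2') (σ₁ + σ₂),
    ae_shift (alt h true x hx.2 (-σ₁) h1') (σ₁ + σ₂)] with t A1 A2 B1 B2 L1 L0 M0 M1 T1 T2 hY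
  have e1 : t + (σ₁ + σ₂) + -σ₂ = t + σ₁ := by abel
  have e2 : t + (σ₁ + σ₂) + -σ₁ = t + σ₂ := by abel
  have e3 : t + σ₁ + σ₂ = t + (σ₁ + σ₂) := by abel
  have e4 : t + σ₂ + σ₁ = t + (σ₁ + σ₂) := by abel
  rw [e1] at T1
  rw [e2] at T2
  rw [e3] at B1
  rw [e4] at B2
  have hw := A1 hY
  have hv := A2 hY
  have hs1 : se true = 1 := rfl
  have hs0 : se false = -1 := rfl
  rw [hs1] at hw B2 L1 M1
  rw [hs0] at hv B1 L0 M0
  simp only [Bool.not_false, Bool.not_true] at T1 T2
  constructor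
  · by_contra hn
    have u1 := L1 hn
    have r1 : R a b g u true (x + c (t + σ₁) * b) := T1.resolve_left hn
    have r0 : R a b g u false (x + c (t + σ₁) * b) := by
      by_contra hn0
      have := M0 hn0
      rw [hw] at this
      norm_num at this
    have := B1 ⟨r1, r0⟩
    rw [u1] at this
    norm_num at this
  · by_contra hn
    have u1 := L0 hn
    have r0 : R a b g u false (x + c (t + σ₂) * b) := T2.resolve_left hn
    have r1 : R a b g u true (x + c (t + σ₂) * b) := by
      by_contra hn0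
      have := M1 hn0
      rw [hv] at this
      norm_num at this
    have := B2 ⟨r1, r0⟩
    rw [u1] at this
    norm_num at this

theorem Ta {a b : ℝ} {g : Bool → UnitAddCircle} {u : ℂ → ℝ} (h : Cfg a b g u) :
    ∀ᵐ x : ℂ, x ∈ Z u → (∀ᵐ t : UnitAddCircle, Y a b g u (x + c t * a)) ∨
      ∀ᵐ t : UnitAddCircle, ¬ Y a b g u (x + c t * a) := by
  filter_upwards [adj h, ae_circ (h.lock true) a, ae_circ (h.lock false) a,
    ae_circ (h.lock true) b, ae_circ (h.lock false) b] with x hadj la1 la0 lb1 lb0 hx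
  have la : ∀ e : Bool, ∀ᵐ t : UnitAddCircle,
      ¬ R a b g u e (x + c t * a) → u (x + c t * a) = - se e := by
    intro e
    cases e
    · exact la0
    · exact la1
  have lb : ∀ e : Bool, ∀ᵐ t : UnitAddCircle,
      ¬ R a b g u e (x + c t * b) → u (x + c t * b) = - se e := by
    intro e
    cases e
    · exact lb0
    · exact lb1
  have hmeas : MeasurableSet {t : UnitAddCircle | Y a b g u (x + c t * a)} := by
    have h1 : MeasurableSet {y : ℂ | Y a b g u y} :=
      (R_meas a b g u h.meas true).inter (R_meas a b g u h.meas false)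
    have h2 : Measurable (fun t : UnitAddCircle => x + c t * (a : ℂ)) :=
      measurable_const.add (measurable_c.mul_const _)
    exact h2 h1
  exact erg_set g h.erg {t : UnitAddCircle | Y a b g u (x + c t * a)} hmeas
    (Ta_claim h x hx hadj la lb _ _ (Or.inl rfl) (Or.inl rfl))
    (Ta_claim h x hx hadj la lb _ _ (Or.inl rfl) (Or.inr rfl))
    (Ta_claim h x hx hadj la lb _ _ (Or.inr rfl) (Or.inl rfl))

end Pool.Agent.H79.TS
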