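import Pool.Agent.H79.TS.Ta

/-!
# ROW TaNull: almost no point of the circles is in Y (about 80 lines)

PROOF.
First statement, for `a`.  Take `x` as in `Ta` and such that for a.e. `t`: `Y (x + c t * a) → ∀ e, Cc u (x + c t * a) (cc a b (g e)) (- se e)` (`ae_circ` for `Y_third`).  Suppose that `Y (x + c t * a)` for a.e. `t`.
Then for both `e`: for a.e. `t`, a.e. `s`: `u (x + c t * a + c s * cc a b (g e)) = - se e`; `posB` (the property `u z = - se e` is measurable): for a.e. `z`: `|a - cc| < ‖z - x‖ < a + cc → u z = - se e`.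
By `cc_tri'` (`h.hg e`) the open annuli for `e = true` and `e = false` both contain the circle of radius `b` around `x`; their intersection is open and nonempty (`x + b`), so there is a point `z` in it (`exists_open'`) with
`u z = -1` and `u z = 1`, contradiction.
Second statement: the first one for `h.swap` (`Y_swap`).
-/

set_option autoImplicit false

namespace Pool.Agent.H79.TS

open MeasureTheory Filter Topology Pool.Agent.H93.EG

private theorem TaNull_one {a b : ℝ} {g : Bool → UnitAddCircle} {u : ℂ → ℝ} (h : Cfg a b g u) :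
    ∀ᵐ x : ℂ, x ∈ Z u → ∀ᵐ t : UnitAddCircle, ¬ Y a b g u (x + c t * a) := by
  filter_upwards [Ta h, ae_circ (Y_third h) (a : ℂ)] with x hT h3 hx
  rcases hT hx with hall | hnone
  · exfalso
    have hk : ∀ e : Bool, ∀ᵐ z : ℂ, |a - cc a b (g e)| < ‖z - x‖ → ‖z - x‖ < a + cc a b (g e) →
        u z = - se e := by
      intro e
      refine posB (fun z => u z = - se e) ?_ x a (cc a b (g e)) h.ha (h.cc_pos e) ?_
      · exact h.meas (measurableSet_singleton _)
      · filter_upwards [hall, h3] with t h4 h5
        exact h5 h4 e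
    have ht1 := cc_tri' a b (g true) h.ha h.hb (h.hg true)
    have ht2 := cc_tri' a b (g false) h.ha h.hb (h.hg false)
    have hO : IsOpen ({z : ℂ | |a - cc a b (g true)| < ‖z - x‖ ∧ ‖z - x‖ < a + cc a b (g true)} ∩
        {z : ℂ | |a - cc a b (g false)| < ‖z - x‖ ∧ ‖z - x‖ < a + cc a b (g false)}) := by
      have hn : Continuous fun z : ℂ => ‖z - x‖ := (continuous_id.sub continuous_const).norm
      exact ((isOpen_lt continuous_const hn).inter (isOpen_lt hn continuous_const)).inter
        ((isOpen_lt continuous_const hn).inter (isOpen_lt hn continuous_const))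
    have hb : ‖x + (b : ℂ) - x‖ = b := by
      rw [add_sub_cancel_left, Complex.norm_real, Real.norm_eq_abs, abs_of_pos h.hb]
    obtain ⟨z, ⟨⟨k1, k2⟩, k3, k4⟩, k5, k6⟩ := exists_open' ((hk true).and (hk false)) _ hO
      ⟨x + b, by
        refine ⟨⟨?_, ?_⟩, ?_, ?_⟩
        · rw [hb]
          exact ht1.1.1
        · rw [hb]
          exact ht1.1.2
        · rw [hb]
          exact ht2.1.1
        · rw [hb]
          exact ht2.1.2⟩
    have e1 := k5 k1 k2
    have e2 := k6 k3 k4
    rw [e1] at e2
    norm_num [se] at e2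
  · exact hnone

theorem Ta_null {a b : ℝ} {g : Bool → UnitAddCircle} {u : ℂ → ℝ} (h : Cfg a b g u) :
    ∀ᵐ x : ℂ, x ∈ Z u → (∀ᵐ t : UnitAddCircle, ¬ Y a b g u (x + c t * a)) ∧
      ∀ᵐ t : UnitAddCircle, ¬ Y a b g u (x + c t * b) := by
  filter_upwards [TaNull_one h, TaNull_one h.swap] with x h1 h2 hx
  refine ⟨h1 hx, ?_⟩
  filter_upwards [h2 hx] with t ht
  rw [Y_swap] at ht
  exact ht

end Pool.Agent.H79.TS
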