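import Pool.Agent.H79.TS.Trick
import Pool.Agent.H79.TS.Sep
import Pool.Agent.H79.TS.ErgSet

/-!
# ROW Theta: almost no boundary point on the circle (about 110 lines)

PROOF.
`Θ := {t | x + c t * a ∈ Z u}` is closed (`Z_closed`, continuity), hence measurable; `trick` and `erg_set`: either `∀ᵐ t, t ∉ Θ` (done) or `∀ᵐ t, t ∈ Θ`.  In the second case for a.e. `t` (`hWa`): `x + c t * a ∈ W κ` for some `κ`, so (★) for both `e`:
no point at distance `cc a b (g e)` from `x + c t * a` is in `U u e`.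
Claim: `z ∉ U u e` if `|a - cc| < ‖z - x‖ < a + cc`, `cc := cc a b (g e)`.  There is `t₀` with `‖z - (x + c t₀ * a)‖ = cc` (elementary: triangle with sides `‖z - x‖`, `a`, `cc`; the same computation as in the header of PosB.lean:
`ρ := ‖z - x‖`, `z - x = ρ v`, `X := (ρ² + a² - cc²) / (2 ρ)`, `|X| < a`, `ζ := (X + i √(a² - X²)) v`, `‖ζ‖ = a`, `‖z - x - ζ‖ = cc`, `exists_pt`).  If `z ∈ U u e` then for `t` near `t₀` the point
`z' := z + (c t - c t₀) * a` is in `U u e` (open), and `‖z' - (x + c t * a)‖ = cc`; choose `t` near `t₀` with (★) (`exists_open`): contradiction.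
So with `r₁ := max |a - cc₁| |a - cc₂|`, `r₂ := min (a + cc₁) (a + cc₂)` (`cc₁, cc₂` for `e = true, false`) every `z` with `r₁ < ‖z - x‖ < r₂` is in `Z u`.  `0 ≤ r₁ < b < r₂` (`cc_tri'`) and `|a - b| < 2 r₂`: `r₂ ≥ a + min cc > |a - b|` as `cc > |a - b|`
(`cc_tri`).  `noAnn` gives a contradiction.
-/

set_option autoImplicit false

namespace Pool.Agent.H79.TS

open MeasureTheory Filter Topology Pool.Agent.H93.EG

private theorem Theta_pt (x z : ℂ) (a q : ℝ) (ha : 0 < a) (hq : 0 < q) (h1 : |a - q| < ‖z - x‖)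
    (h2 : ‖z - x‖ < a + q) : ∃ t : UnitAddCircle, ‖z - (x + c t * a)‖ = q := by
  obtain ⟨ρ, hρ⟩ : ∃ ρ, ρ = ‖z - x‖ := ⟨_, rfl⟩
  have hρ0 : 0 < ρ := by
    rw [hρ]
    exact lt_of_le_of_lt (abs_nonneg _) h1
  rw [← hρ] at h1 h2
  obtain ⟨h3, h4⟩ := abs_lt.mp h1
  obtain ⟨v, hv⟩ : ∃ v : ℂ, v = (z - x) / ρ := ⟨_, rfl⟩
  have hρC : (ρ : ℂ) ≠ 0 := by exact_mod_cast hρ0.ne'
  have hzx : z - x = ρ * v := by
    rw [hv, mul_div_cancel₀ _ hρC]
  have hvn : ‖v‖ = 1 := by
    rw [hv, norm_div, ← hρ, Complex.norm_real, Real.norm_eq_abs, abs_of_pos hρ0, div_self hρ0.ne']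
  obtain ⟨X, hX⟩ : ∃ X : ℝ, X = (ρ ^ 2 + a ^ 2 - q ^ 2) / (2 * ρ) := ⟨_, rfl⟩
  have hXe : 2 * ρ * X = ρ ^ 2 + a ^ 2 - q ^ 2 := by
    rw [hX]
    field_simp
  have hX1 : 0 < a - X := by
    have h5 : 0 < 2 * ρ * (a - X) := by
      have h6 : 2 * ρ * (a - X) = (q - (ρ - a)) * (q + (ρ - a)) := by
        linear_combination -hXe
      rw [h6]
      exact mul_pos (by linarith) (by linarith)
    exact (pos_iff_pos_of_mul_pos h5).1 (by linarith)
  have hX2 : 0 < a + X := by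
    have h5 : 0 < 2 * ρ * (a + X) := by
      have h6 : 2 * ρ * (a + X) = ((ρ + a) - q) * ((ρ + a) + q) := by
        linear_combination hXe
      rw [h6]
      exact mul_pos (by linarith) (by linarith)
    exact (pos_iff_pos_of_mul_pos h5).1 (by linarith)
  obtain ⟨H, hH⟩ : ∃ H : ℝ, H = Real.sqrt (a ^ 2 - X ^ 2) := ⟨_, rfl⟩
  have hH2 : H ^ 2 = a ^ 2 - X ^ 2 := by
    rw [hH]
    refine Real.sq_sqrt ?_
    have : a ^ 2 - X ^ 2 = (a - X) * (a + X) := by ring
    rw [this]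
    exact (mul_pos hX1 hX2).le
  have hn : ∀ r s : ℝ, 0 ≤ s → r ^ 2 + H ^ 2 = s ^ 2 → ‖(r : ℂ) + H * Complex.I‖ = s := by
    intro r s hs h5
    have h6 : ‖(r : ℂ) + H * Complex.I‖ ^ 2 = s ^ 2 := by
      rw [← Complex.normSq_eq_norm_sq, Complex.normSq_add_mul_I]
      exact h5
    exact (pow_left_inj₀ (norm_nonneg _) hs two_ne_zero).1 h6
  obtain ⟨ζ, hζ⟩ : ∃ ζ : ℂ, ζ = ((X : ℂ) + H * Complex.I) * v := ⟨_, rfl⟩
  have hζn : ‖ζ‖ = a := by
    rw [hζ, norm_mul, hvn, mul_one]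
    exact hn X a ha.le (by rw [hH2]; ring)
  have hζ2 : ‖z - (x + ζ)‖ = q := by
    have h5 : z - (x + ζ) = (((ρ - X : ℝ) : ℂ) + (H : ℂ) * (-Complex.I)) * v := by
      rw [← sub_sub, hzx, hζ]
      push_cast
      ring
    have h6 : ((ρ - X : ℝ) : ℂ) + (H : ℂ) * (-Complex.I) = (starRingEnd ℂ) (((ρ - X : ℝ) : ℂ) + H * Complex.I) := by
      rw [map_add, map_mul, Complex.conj_ofReal, Complex.conj_ofReal, Complex.conj_I]
    rw [h5, norm_mul, hvn, mul_one, h6, Complex.norm_conj]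
    refine hn (ρ - X) q hq.le ?_
    rw [hH2]
    linear_combination -hXe
  obtain ⟨t, ht⟩ := exists_pt x (a : ℂ) (x + ζ) (by
    rw [add_sub_cancel_left, hζn, Complex.norm_real, Real.norm_eq_abs, abs_of_pos ha])
  exact ⟨t, by rw [← ht]; exact hζ2⟩

theorem theta {a b : ℝ} {g : Bool → UnitAddCircle} {u : ℂ → ℝ} (h : Cfg a b g u)
    (x : ℂ) (hx : x ∈ Z u)
    (hWa : ∀ᵐ t : UnitAddCircle, x + c t * a ∈ Z u → ∃ κ, x + c t * a ∈ W a b g u κ)
    (hWb : ∀ᵐ t : UnitAddCircle, x + c t * b ∈ Z u → ∃ κ, x + c t * b ∈ W a b g u κ) :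
    ∀ᵐ t : UnitAddCircle, x + c t * a ∉ Z u := by
  have hcont : Continuous fun t : UnitAddCircle => x + c t * a :=
    continuous_const.add (continuous_c.mul continuous_const)
  have hΘ : MeasurableSet {t : UnitAddCircle | x + c t * a ∈ Z u} := ((Z_closed u).preimage hcont).measurableSet
  rcases erg_set g h.erg {t : UnitAddCircle | x + c t * a ∈ Z u} hΘ
    (trick h x hx hWa hWb (g true) (g false) (Or.inl rfl) (Or.inl rfl))
    (trick h x hx hWa hWb (g true) (-(g false)) (Or.inl rfl) (Or.inr rfl))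
    (trick h x hx hWa hWb (-(g true)) (g false) (Or.inr rfl) (Or.inl rfl)) with hall | hnone
  · exfalso
    have hstar : ∀ᵐ t : UnitAddCircle, ∃ κ, x + c t * a ∈ W a b g u κ := by
      filter_upwards [hall, hWa] with t ht1 ht2
      exact ht2 ht1
    have hclaim : ∀ (e : Bool) (z : ℂ), |a - cc a b (g e)| < ‖z - x‖ → ‖z - x‖ < a + cc a b (g e) → z ∉ U u e := by
      intro e z hz1 hz2 hzU
      obtain ⟨t₀, ht₀⟩ := Theta_pt x z a (cc a b (g e)) h.ha (h.cc_pos e) hz1 hz2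
      have hcont2 : Continuous fun t : UnitAddCircle => z + (c t - c t₀) * a :=
        continuous_const.add ((continuous_c.sub continuous_const).mul continuous_const)
      obtain ⟨t, htO, κ, hκ⟩ := exists_open hstar ((fun t : UnitAddCircle => z + (c t - c t₀) * a) ⁻¹' U u e)
        ((U_open u e).preimage hcont2) ⟨t₀, by
          show z + (c t₀ - c t₀) * a ∈ U u e
          rw [sub_self, zero_mul, add_zero]
          exact hzU⟩
      refine hκ.2.2 e (z + (c t - c t₀) * a) ?_ htO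
      rw [show z + (c t - c t₀) * a - (x + c t * a) = z - (x + c t₀ * a) by ring]
      exact ht₀
    have ht1 := cc_tri' a b (g true) h.ha h.hb (h.hg true)
    have ht2 := cc_tri' a b (g false) h.ha h.hb (h.hg false)
    have hs1 := cc_tri a b (g true) h.ha h.hb (h.hg true)
    have hs2 := cc_tri a b (g false) h.ha h.hb (h.hg false)
    refine noAnn h x (max |a - cc a b (g true)| |a - cc a b (g false)|)
      (min (a + cc a b (g true)) (a + cc a b (g false))) (le_max_of_le_left (abs_nonneg _))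
      (lt_trans (max_lt ht1.1.1 ht2.1.1) (lt_min ht1.1.2 ht2.1.2)) ?_ ?_
    · have h5 : |a - b| < min (a + cc a b (g true)) (a + cc a b (g false)) :=
        lt_min (by linarith [h.ha, hs1.1]) (by linarith [h.ha, hs2.1])
      linarith [abs_nonneg (a - b)]
    · intro z hz1 hz2
      obtain ⟨h6, h7⟩ := max_lt_iff.1 hz1
      obtain ⟨h8, h9⟩ := lt_min_iff.1 hz2
      exact ⟨hclaim true z h6 h8, hclaim false z h7 h9⟩
  · exact hnone

end Pool.Agent.H79.TS
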