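import Pool.Agent.H79.TS.PB

/-!
# ROW Tr1: translations: replacing a colour by its average (about 60 lines)

PROOF.
`sg (F z) - aF l h F z = ∑ i, l i * (sg (F z) - sg (F (z + h i)))` (`∑ l = 1`).  So `E (Φ F * (sg (F z) - aF l h F z)) = ∑ i, l i * (E (Φ F * sg (F z)) - E (Φ F * sg (F (z + h i))))` (`stat_sum`).
By `E_inv` with `mv 1 (-(h i))` applied to `Ψ F := Φ F * sg (F (z + h i))`: `E Ψ = E (fun F => Φ (mv 1 (-(h i)) F) * sg (F z))` (`1 * (z + h i) + -(h i) = z`).  So the `i`-th bracket is `E (fun F => (Φ F - Φ (mv 1 (-(h i)) F)) * sg (F z))`, of absolute value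
`≤ E (fun F => |Φ (mv ..) - Φ F|) ≤ β` (`E_abs`, `E_mono'`, `abs_sg`).  Sum with the weights `l i ≥ 0`.
-/

set_option autoImplicit false

namespace Pool.Agent.H79.TS

open MeasureTheory Filter Topology Pool.Agent.H93.EG Pool.Agent.H58.ER

theorem tr_est {f : ℂ → Bool} {E : ((ℂ → Bool) → ℝ) → ℝ} {k kc : ℝ → ℝ} (S : Sett f E k kc)
    {ι : Type} [Fintype ι] (l : ι → ℝ) (h : ι → ℂ) (δ ε : ℝ) (hW : Wt k kc δ ε l h)
    (Φ : (ℂ → Bool) → ℝ) (hΦ : ∀ F, |Φ F| ≤ 1) (β : ℝ)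
    (hβ : ∀ i, E (fun F => |Φ (mv 1 (-(h i)) F) - Φ F|) ≤ β) (z : ℂ) :
    |E (fun F => Φ F * (sg (F z) - aF l h F z))| ≤ β := by
  have hE := S.stat
  have hb : Bdd Φ := bdd_of 1 hΦ
  have hbd : ∀ i, Bdd (fun F => Φ F * (sg (F z) - sg (F (z + h i)))) := fun i =>
    bdd_mul hb (bdd_sub (bdd_sg z) (bdd_sg _))
  have h1 : (fun F => Φ F * (sg (F z) - aF l h F z)) = fun F => ∑ i ∈ (Finset.univ : Finset ι),
      l i * (Φ F * (sg (F z) - sg (F (z + h i)))) := by
    funext F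
    unfold aF
    have e1 : sg (F z) = ∑ i, l i * sg (F z) := by
      rw [← Finset.sum_mul, hW.sum, one_mul]
    have e2 : sg (F z) - ∑ i, l i * sg (F (z + h i)) =
        ∑ i, l i * (sg (F z) - sg (F (z + h i))) := by
      conv_lhs => rw [e1]
      rw [← Finset.sum_sub_distrib]
      exact Finset.sum_congr rfl fun i _ => by ring
    rw [e2, Finset.mul_sum]
    exact Finset.sum_congr rfl fun i _ => by ring
  have hterm : ∀ i, |E (fun F => Φ F * (sg (F z) - sg (F (z + h i))))| ≤ β := by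
    intro i
    have e3 : (fun F => Φ F * (sg (F z) - sg (F (z + h i)))) =
        fun F => Φ F * sg (F z) - Φ F * sg (F (z + h i)) := by
      funext F
      ring
    have hb1 : Bdd (fun F => Φ F * sg (F z)) := bdd_mul hb (bdd_sg z)
    have hb2 : Bdd (fun F => Φ F * sg (F (z + h i))) := bdd_mul hb (bdd_sg _)
    have hb3 : Bdd (fun F => Φ (mv 1 (-(h i)) F) * sg (F z)) :=
      bdd_mul (bdd_mv hb _ _) (bdd_sg z)
    have e4 : E (fun F => Φ F * sg (F (z + h i))) =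
        E (fun F => Φ (mv 1 (-(h i)) F) * sg (F z)) := by
      rw [← E_inv hE 1 (-(h i)) norm_one (fun F => Φ F * sg (F (z + h i))) hb2]
      congr 1
      funext F
      show Φ (mv 1 (-(h i)) F) * sg (F (1 * (z + h i) + -(h i))) = _
      have : (1 : ℂ) * (z + h i) + -(h i) = z := by ring
      rw [this]
    rw [e3, E_sub hE _ _ hb1 hb2, e4, ← E_sub hE _ _ hb1 hb3]
    have hb4 : Bdd (fun F => Φ F * sg (F z) - Φ (mv 1 (-(h i)) F) * sg (F z)) :=
      bdd_sub hb1 hb3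
    refine (E_abs hE _ hb4).trans (le_trans ?_ (hβ i))
    refine E_mono' hE _ _ (bdd_abs hb4) (bdd_abs (bdd_sub (bdd_mv hb _ _) hb)) fun F => ?_
    rw [← sub_mul, abs_mul, abs_sg, mul_one, abs_sub_comm]
  rw [h1, stat_sum f E hE Finset.univ l (fun i F => Φ F * (sg (F z) - sg (F (z + h i))))
    fun i _ => hbd i]
  refine (Finset.abs_sum_le_sum_abs _ _).trans ?_
  calc ∑ i, |l i * E (fun F => Φ F * (sg (F z) - sg (F (z + h i))))|
      ≤ ∑ i, l i * β := Finset.sum_le_sum fun i _ => by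
        rw [abs_mul, abs_of_nonneg (hW.nn i)]
        exact mul_le_mul_of_nonneg_left (hterm i) (hW.nn i)
    _ = β := by rw [← Finset.sum_mul, hW.sum, one_mul]

end Pool.Agent.H79.TS
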