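import Pool.Agent.H79.TS.Star

/-!
# ROW Trick: the boundary points on the circle are invariant (about 120 lines)

PROOF.
For a.e. `t` (all four a.e. hypotheses with shifts, `ae_shift`): let `x + c t * a ∈ Z u`, so `x + c t * a ∈ W κ` for some `κ`.  Put `w := t + σ₁`, `v := t + σ₂`, `t' := t + (σ₁ + σ₂)`; `w = t' + (-σ₂)`, `v = t' + (-σ₁)`.
`‖(x + c (t + σ) * b) - (x + c t * a)‖ = ‖b * c σ - a‖ = cc a b σ = cc a b (g e)` for `σ = ± g e` (`norm_ct`, `cc_neg`), so (third clause of `W`) `x + c w * b ∉ U u true` and `x + c v * b ∉ U u false`.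
Suppose `x + c t' * a ∉ Z u`, so `x + c t' * a ∈ U u e` for some `e`.
Case `e = false`: `star h false x (x ∉ U u true)` with type 0 or 1 (according to `-σ₂ = g false` or `-(g false)`), at `t'`: `c t' * (b * c (-σ₂)) = c w * b`: `x + c w * b ∉ U u false`.  So `x + c w * b ∈ Z u`, and by `hWb` (shifted by `σ₁`)
`x + c w * b ∈ W κ'` for some `κ'`.  The point `x + c t' * a` has distance `‖a * c σ₂ - b‖ = cc b a σ₂ = cc a b (g false)` from it (`t' = w + σ₂`, `cc_swap`, `cc_neg`), so `x + c t' * a ∉ U u false`: contradiction.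
Case `e = true`: `star h true x (x ∉ U u false)` with `-σ₁`: `x + c v * b ∉ U u true`, so `x + c v * b ∈ Z u`, in some `W κ'` (`hWb` shifted by `σ₂`), and `x + c t' * a` (`t' = v + σ₁`) has distance `cc a b (g true)` from it: `∉ U u true`: contradiction.
-/

set_option autoImplicit false

namespace Pool.Agent.H79.TS

open MeasureTheory Filter Topology Pool.Agent.H93.EG

private theorem Trick_norm (x : ℂ) (t σ : UnitAddCircle) (a b : ℝ) :
    ‖(x + c (t + σ) * b) - (x + c t * a)‖ = cc a b σ := by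
  unfold cc
  rw [← norm_ct t ((b : ℂ) * c σ - a), c_add]
  congr 1
  ring

private theorem Trick_pm {a b : ℝ} {g σ : UnitAddCircle} (h : σ = g ∨ σ = -g) :
    cc a b σ = cc a b g := by
  rcases h with h | h
  · rw [h]
  · rw [h, cc_neg]

private theorem Trick_step {a b : ℝ} {g : Bool → UnitAddCircle} {u : ℂ → ℝ} (h : Cfg a b g u)
    (x : ℂ) (e : Bool) (hx : x ∉ U u (!e)) (s σ : UnitAddCircle) (hσ : σ = g e ∨ σ = -(g e))
    (h1 : x + c (s + σ) * a ∈ U u e) (h2 : x + c s * b ∉ U u (!e))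
    (h3 : x + c s * b ∈ Z u → ∃ κ, x + c s * b ∈ W a b g u κ) : False := by
  have h4 : x + c s * b ∉ U u e := by
    intro h5
    have e1 : c (s + σ) * ((b : ℂ) * c (-σ)) = c s * b := by
      rw [c_add]
      linear_combination c s * (b : ℂ) * c_neg_mul σ
    rcases hσ with h6 | h6
    · have := star h e x hx 1 (s + σ)
      simp only [ty] at this
      rw [← h6] at this
      apply this
      refine ⟨h1, ?_⟩
      rw [e1]
      exact h5
    · have := star h e x hx 0 (s + σ)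
      simp only [ty] at this
      have h7 : g e = -σ := by rw [h6, neg_neg]
      rw [h7] at this
      apply this
      refine ⟨h1, ?_⟩
      rw [e1]
      exact h5
  have h5 : x + c s * b ∈ Z u := by
    cases e
    · exact ⟨h2, h4⟩
    · exact ⟨h4, h2⟩
  obtain ⟨κ, hW⟩ := h3 h5
  refine hW.2.2 e (x + c (s + σ) * a) ?_ h1
  rw [Trick_norm x s σ b a, cc_swap, Trick_pm hσ]

theorem trick {a b : ℝ} {g : Bool → UnitAddCircle} {u : ℂ → ℝ} (h : Cfg a b g u)
    (x : ℂ) (hx : x ∈ Z u)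
    (hWa : ∀ᵐ t : UnitAddCircle, x + c t * a ∈ Z u → ∃ κ, x + c t * a ∈ W a b g u κ)
    (hWb : ∀ᵐ t : UnitAddCircle, x + c t * b ∈ Z u → ∃ κ, x + c t * b ∈ W a b g u κ)
    (σ₁ σ₂ : UnitAddCircle) (h1 : σ₁ = g true ∨ σ₁ = -(g true))
    (h2 : σ₂ = g false ∨ σ₂ = -(g false)) :
    ∀ᵐ t : UnitAddCircle, x + c t * a ∈ Z u → x + c (t + (σ₁ + σ₂)) * a ∈ Z u := by
  filter_upwards [hWa, ae_shift hWb σ₁, ae_shift hWb σ₂] with t hA hB1 hB2 hZ
  obtain ⟨κ, hW⟩ := hA hZ
  have hw : x + c (t + σ₁) * b ∉ U u true :=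
    hW.2.2 true _ (by rw [Trick_norm, Trick_pm h1])
  have hv : x + c (t + σ₂) * b ∉ U u false :=
    hW.2.2 false _ (by rw [Trick_norm, Trick_pm h2])
  refine ⟨fun hU => ?_, fun hU => ?_⟩
  · refine Trick_step h x true hx.2 (t + σ₂) σ₁ h1 ?_ hv hB2
    rwa [add_assoc, add_comm σ₂ σ₁]
  · refine Trick_step h x false hx.1 (t + σ₁) σ₂ h2 ?_ hw hB1
    rwa [add_assoc]

end Pool.Agent.H79.TS
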