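import Pool.Agent.H93.EGM.Weak

/-!
# ROW WLin: weak limits of shifted functions (about 90 lines)

PROOF.
`H n := F n - G`, `|H n| ≤ 2`, `∫ H n dν → 0` for finite `ν ≪ volume`.  `∫_S F n (x + c t p) - ∫_S G (x + c t p) = ∫_S H n (x + c t * p)`.  Change of variables `(x, t) ↦ (x + c t * p, t)` (`mp_shift p`, see `change` in the proof of `lim_one` in Weak.lean): `= ∫_{S'} H n y`,
`S' := {(y, t) | (y + c t * (-p), t) ∈ S}` measurable, contained in `{‖y‖ ≤ R + ‖p‖}`.  Fubini (`integral_prod`, `S'` has finite measure): `= ∫ y, H n y * K y`, `K y := ∫ t, S'.indicator 1 (y, t) ∈ [0, 1]`, measurable, `K y = 0` for `‖y‖ > R + ‖p‖`.  `weak_test H _ _ _ K _ _ (R + ‖p‖) _`.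
-/

set_option autoImplicit false

namespace Pool.Agent.H79.TS

open MeasureTheory Filter Topology Pool.Agent.H93.EG

theorem wlin (F : ℕ → ℂ → ℝ) (hm : ∀ n, Measurable (F n)) (hb : ∀ n x, |F n x| ≤ 1)
    (G : ℂ → ℝ) (hG : Measurable G) (hGb : ∀ x, |G x| ≤ 1)
    (hw : ∀ (ν : Measure ℂ) [IsFiniteMeasure ν], ν ≪ volume →
        Tendsto (fun n => ∫ x, F n x ∂ν) atTop (𝓝 (∫ x, G x ∂ν)))
    (p : ℂ) (R : ℝ) (S : Set (ℂ × UnitAddCircle)) (hS : MeasurableSet S)
    (hSR : ∀ xt ∈ S, ‖xt.1‖ ≤ R) :
    Tendsto (fun n => ∫ xt in S, F n (xt.1 + c xt.2 * p)) atTop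
      (𝓝 (∫ xt in S, G (xt.1 + c xt.2 * p))) := by
  set T : ℂ × UnitAddCircle → ℂ × UnitAddCircle := fun xt => (xt.1 + c xt.2 * p, xt.2) with hT
  set T' : ℂ × UnitAddCircle → ℂ × UnitAddCircle := fun xt => (xt.1 + c xt.2 * (-p), xt.2) with hT'
  have hTm : Measurable T := (mp_shift p).measurable
  have hTm' : Measurable T' := (mp_shift (-p)).measurable
  set S' : Set (ℂ × UnitAddCircle) := T' ⁻¹' S with hS'
  have hSm' : MeasurableSet S' := hTm' hS
  have hpre : T ⁻¹' S' = S := by
    ext ⟨x, t⟩
    simp only [hS', Set.mem_preimage, hT, hT']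
    rw [show x + c t * p + c t * -p = x by ring]
  have hSR' : ∀ xt ∈ S', ‖xt.1‖ ≤ R + ‖p‖ := by
    rintro ⟨x, t⟩ hx
    have hx' : ‖x + c t * (-p)‖ ≤ R := hSR (x + c t * (-p), t) hx
    have := norm_sub_le (x + c t * (-p)) (c t * (-p))
    rw [show x + c t * (-p) - c t * (-p) = x by ring, norm_mul, norm_c, one_mul, norm_neg] at this
    show ‖x‖ ≤ R + ‖p‖
    linarith
  have change : ∀ K : ℂ → ℝ,
      ∫ xt in S, K (xt.1 + c xt.2 * p) = ∫ xt in S', K xt.1 := by
    intro K
    have h1 := (mp_shift p).setIntegral_preimage_emb (s := S')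
      (g := fun xt : ℂ × UnitAddCircle => K xt.1) ?_
    · rw [← h1]
      change _ = ∫ xt in T ⁻¹' S', _
      rw [hpre]
    · refine MeasurableEmbedding.of_measurable_inverse (g := T') hTm ?_ hTm' ?_
      · have : Set.range T = Set.univ := by
          rw [Set.range_eq_univ]
          rintro ⟨x, t⟩
          refine ⟨(x + c t * (-p), t), ?_⟩
          simp only [hT]
          rw [show x + c t * -p + c t * p = x by ring]
        show MeasurableSet (Set.range T)
        rw [this]
        exact MeasurableSet.univ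
      · rintro ⟨x, t⟩
        show (x + c t * p + c t * (-p), t) = (x, t)
        rw [show x + c t * p + c t * -p = x by ring]
  have hSf : volume S' ≠ ⊤ := by
    have h1 : S' ⊆ (Metric.closedBall (0 : ℂ) (R + ‖p‖)) ×ˢ Set.univ := by
      intro xt hxt
      refine ⟨?_, trivial⟩
      rw [Metric.mem_closedBall, dist_zero_right]
      exact hSR' xt hxt
    refine ne_top_of_le_ne_top ?_ (measure_mono h1)
    rw [Measure.volume_eq_prod, Measure.prod_prod]
    exact ENNReal.mul_ne_top measure_closedBall_lt_top.ne (measure_ne_top _ _)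
  have hSfin : IsFiniteMeasure ((volume : Measure (ℂ × UnitAddCircle)).restrict S') :=
    ⟨by rw [Measure.restrict_apply_univ]; exact lt_top_iff_ne_top.mpr hSf⟩
  set A : ℂ → ℝ := fun y => ∫ t : UnitAddCircle, S'.indicator (fun _ => (1 : ℝ)) (y, t) with hA
  have hAm : Measurable A :=
    (StronglyMeasurable.integral_prod_right'
      ((measurable_const (a := (1 : ℝ))).indicator hSm').stronglyMeasurable).measurable
  have hAb : ∀ y, |A y| ≤ 1 := by
    intro y
    rw [← Real.norm_eq_abs]
    refine (norm_integral_le_of_norm_le_const (C := 1) (Eventually.of_forall fun t => ?_)).trans ?_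
    · rw [Real.norm_eq_abs]
      by_cases h : (y, t) ∈ S'
      · rw [Set.indicator_of_mem h, abs_one]
      · rw [Set.indicator_of_notMem h, abs_zero]
        exact zero_le_one
    · simp [Measure.real]
  have hA0 : ∀ y, R + ‖p‖ < ‖y‖ → A y = 0 := by
    intro y hy
    have : ∀ t : UnitAddCircle, S'.indicator (fun _ => (1 : ℝ)) (y, t) = 0 := by
      intro t
      refine Set.indicator_of_notMem (fun h => ?_) _
      exact absurd (hSR' _ h) (not_le.mpr hy)
    rw [hA]
    simp [this]
  have intS : ∀ K : ℂ → ℝ, Measurable K → ∀ C : ℝ, (∀ x, |K x| ≤ C) →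
      Integrable (fun xt : ℂ × UnitAddCircle => K xt.1) (volume.restrict S') := fun K hK C hKb =>
    Integrable.of_bound (hK.comp measurable_fst).aestronglyMeasurable C
      (Eventually.of_forall fun xt => by rw [Real.norm_eq_abs]; exact hKb _)
  have hform : ∀ K : ℂ → ℝ, Measurable K → (∀ x, |K x| ≤ 2) →
      ∫ xt in S', K xt.1 = ∫ y : ℂ, K y * A y := by
    intro K hK hKb
    have hin : Integrable (S'.indicator (fun xt : ℂ × UnitAddCircle => K xt.1)) := by
      rw [integrable_indicator_iff hSm']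
      exact intS K hK 2 hKb
    rw [← integral_indicator hSm']
    have h1 := integral_prod (μ := (volume : Measure ℂ)) (ν := (volume : Measure UnitAddCircle))
      _ hin
    rw [Measure.volume_eq_prod, h1]
    refine integral_congr_ae (Eventually.of_forall fun y => ?_)
    show ∫ t : UnitAddCircle, S'.indicator (fun xt : ℂ × UnitAddCircle => K xt.1) (y, t) =
      K y * A y
    rw [hA]
    simp only
    rw [← integral_const_mul]
    refine integral_congr_ae (Eventually.of_forall fun t => ?_)
    show S'.indicator (fun xt : ℂ × UnitAddCircle => K xt.1) (y, t) =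
      K y * S'.indicator (fun _ => (1 : ℝ)) (y, t)
    by_cases h : (y, t) ∈ S'
    · rw [Set.indicator_of_mem h, Set.indicator_of_mem h, mul_one]
    · rw [Set.indicator_of_notMem h, Set.indicator_of_notMem h, mul_zero]
  set H : ℕ → ℂ → ℝ := fun n x => F n x - G x with hH
  have hHm : ∀ n, Measurable (H n) := fun n => (hm n).sub hG
  have hHb : ∀ n x, |H n x| ≤ 2 := by
    intro n x
    have h1 := abs_le.mp (hb n x)
    have h2 := abs_le.mp (hGb x)
    rw [abs_le]
    constructor <;> simp only [hH] <;> linarith [h1.1, h1.2, h2.1, h2.2]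
  have hHw : ∀ (ν : Measure ℂ) [IsFiniteMeasure ν], ν ≪ volume →
      Tendsto (fun n => ∫ x, H n x ∂ν) atTop (𝓝 0) := by
    intro ν _ hν
    have h1 := (hw ν hν).sub_const (∫ x, G x ∂ν)
    rw [sub_self] at h1
    refine h1.congr fun n => ?_
    rw [← integral_sub]
    · exact Integrable.of_bound (hm n).aestronglyMeasurable 1
        (Eventually.of_forall fun x => by rw [Real.norm_eq_abs]; exact hb n x)
    · exact Integrable.of_bound hG.aestronglyMeasurable 1
        (Eventually.of_forall fun x => by rw [Real.norm_eq_abs]; exact hGb x)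
  have hlim := weak_test H hHm hHb hHw A hAm hAb (R + ‖p‖) hA0
  have h3 := hlim.add_const (∫ xt in S, G (xt.1 + c xt.2 * p))
  rw [zero_add] at h3
  refine h3.congr fun n => ?_
  rw [change G, change (F n), ← hform (H n) (hHm n) (hHb n)]
  rw [← integral_add (intS (H n) (hHm n) 2 (hHb n)) (intS G hG 1 hGb)]
  refine integral_congr_ae (Eventually.of_forall fun xt => ?_)
  simp only [hH]
  ring

end Pool.Agent.H79.TS
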